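import Pool.Agent.W574.SM.Node

set_option autoImplicit false
set_option linter.unusedSectionVars false
set_option linter.unusedVariables false

/-! # The poles of the topological zeta function of an ideal of the plane -/

namespace Pool.Agent.W574.SM

open MvPolynomial

theorem totalDegree_pderiv (h : MP) (i : Fin 2) (hne : pderiv i h ≠ 0) :
    (pderiv i h).totalDegree < h.totalDegree := by
  obtain ⟨s, hs, hs2⟩ := Finset.exists_mem_eq_sup (pderiv i h).support
    (support_nonempty.2 hne) (fun s => s.sum fun _ e => e)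
  have h1 : (pderiv i h).totalDegree = s.sum fun _ e => e := hs2
  have h2 : s + Finsupp.single i 1 ∈ h.support := by
    rw [mem_support_iff] at hs ⊢
    intro h0
    apply hs
    rw [coeff_pderiv, h0, zero_mul]
  have h3 := le_totalDegree h2
  rw [Finsupp.sum_add_index' (fun _ => rfl) (fun _ _ _ => rfl),
    Finsupp.sum_single_index rfl] at h3
  omega

theorem eq_C_of_pderiv (h : MP) (hd : ∀ i, pderiv i h = 0) : h = C (coeff 0 h) := by
  ext m
  rw [coeff_C]
  split_ifs with hm
  · rw [hm]
  · have : ∃ i, m i ≠ 0 := by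
      by_contra hne
      push Not at hne
      exact hm (Finsupp.ext fun i => (hne i).symm)
    obtain ⟨i, hi⟩ := this
    have h1 : (m - Finsupp.single i 1) + Finsupp.single i 1 = m := by
      apply Finsupp.ext
      intro j
      rw [Finsupp.add_apply, Finsupp.tsub_apply]
      by_cases hj : j = i
      · subst hj
        rw [Finsupp.single_eq_same]
        omega
      · rw [Finsupp.single_eq_of_ne hj]
        omega
    have h2 := coeff_pderiv h (m - Finsupp.single i 1) (i := i)
    rw [hd i, coeff_zero, h1] at h2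
    have h3 : (((m - Finsupp.single i 1 : Fin 2 →₀ ℕ) i : ℕ) : ℂ) + 1 ≠ 0 :=
      Nat.cast_add_one_ne_zero _
    exact (mul_eq_zero.1 h2.symm).resolve_right h3

theorem exists_not_dvd (h : MP) (hirr : Irreducible h) : ∃ i, ¬ h ∣ pderiv i h := by
  by_contra hne
  push Not at hne
  have h0 : h ≠ 0 := hirr.ne_zero
  have hd : ∀ i, pderiv i h = 0 := by
    intro i
    by_contra hi
    obtain ⟨q, hq⟩ := hne i
    have hq0 : q ≠ 0 := by
      rintro rfl
      rw [mul_zero] at hq
      exact hi hq
    have h1 := totalDegree_pderiv h i hi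
    rw [hq, totalDegree_mul_of_isDomain h0 hq0] at h1
    omega
  have h1 := eq_C_of_pderiv h hd
  have h2 : coeff 0 h ≠ 0 := by
    intro h3
    rw [h3, map_zero] at h1
    exact h0 h1
  apply hirr.not_isUnit
  rw [h1]
  exact (isUnit_iff_ne_zero.2 h2).map C

variable {ι : Type} [Fintype ι] [DecidableEq ι]

/-- The root `-1/m` from a curve of multiplicity `m` in the zero locus. -/
theorem curve_root (f : ι → MP) (b : Polynomial ℂ) (hb : IsFunctionalEq f b) (h : MP) (m : ℕ)
    (hC : IsCurve f h m) : b.eval (-1 / (m : ℂ)) = 0 := by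
  obtain ⟨hirr, hm, k, hk, j, hj⟩ := hC
  obtain ⟨i, hi⟩ := exists_not_dvd h hirr
  have hp : Prime h := hirr.prime
  have hD : ¬ h ∣ pderiv i h * k j := fun hd => (hp.dvd_or_dvd hd).elim hi hj
  obtain ⟨P, hP1, hP2⟩ := exists_point h _ hp hD
  rw [map_mul] at hP2
  have g0 := left_ne_zero_of_mul hP2
  have g1 := right_ne_zero_of_mul hP2
  rw [vec2 P] at hP1 g0 g1
  have hX : ∀ q : MP, aeval (X : Fin 2 → MP) q = q := fun q => aeval_X_left_apply q
  have hjac : jac (X : Fin 2 → MP) = 1 := by
    rw [jac, Matrix.det_fin_two]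
    simp only [Matrix.of_apply]
    rw [pderiv_X_self, pderiv_X_self, pderiv_X_of_ne (by decide), pderiv_X_of_ne (by decide)]
    ring
  have hii : i = 0 ∨ i = 1 := by omega
  rcases hii with rfl | rfl
  · refine plane_curve' f b hb X m (by omega) h k (fun j => by rw [hX, hk]) (P 0) (P 1) hP1 g0 ?_
      j g1
    rw [hjac, map_one]
    exact one_ne_zero
  · refine plane_curve f b hb X m (by omega) h k (fun j => by rw [hX, hk]) (P 0) (P 1) hP1 g0 ?_
      j g1
    rw [hjac, map_one]
    exact one_ne_zero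

theorem inv_initial (f : ι → MP) (s0 : ℂ) (P : Fin 2 → ℂ) :
    Inv f s0 (fun j => translate P (f j)) 0 1 0 1 := by
  have hjac : jac (fun i => X i + C (P i) : Fin 2 → MP) = 1 := by
    rw [jac, Matrix.det_fin_two]
    simp only [Matrix.of_apply, map_add, pderiv_C]
    rw [pderiv_X_self, pderiv_X_self, pderiv_X_of_ne (by decide), pderiv_X_of_ne (by decide)]
    ring
  exact
    { geom := ⟨fun i => X i + C (P i), 1, 1, by simp, by simp, fun j => by
        rw [pow_zero, pow_zero, mul_one, mul_one, one_mul]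
        rfl, by
        rw [hjac, Nat.sub_self, pow_zero, pow_zero, mul_one, mul_one]⟩
      hn0 := le_rfl
      hn1 := le_rfl
      hz0 := fun _ => rfl
      hz1 := fun _ => rfl
      hJ1 := fun m _ => by simp
      hJ2 := fun h => absurd h (lt_irrefl 0)
      hJ2' := fun h => absurd h (lt_irrefl 0)
      hH0 := fun h => by simp at h
      hH1 := fun h => by simp at h }

/-- **The strong monodromy conjecture for the ideals of `ℂ[x, y]`.** -/
theorem plane_main (f : ι → MP) (b : Polynomial ℂ) (hb : IsFunctionalEq f b) (Z : RatFunc ℂ)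
    (hZ : PlaneZeta f Z) (s0 : ℂ) (hs0 : Z.denom.eval s0 = 0) : b.eval s0 = 0 := by
  by_contra hne
  apply Reg_denom s0 Z ?_ hs0
  obtain ⟨χ₀, r, h, m, χ, S, ZP, hC, hP, rfl⟩ := hZ
  have hint : ∀ n : ℤ, (n : RatFunc ℂ) ∈ Reg s0 := fun n => intCast_mem _ n
  refine (Reg s0).add_mem ((Reg s0).add_mem (hint χ₀) ?_) ?_
  · refine Subring.sum_mem _ fun i _ => (Reg s0).mul_mem (hint _) (fac_mem _ _ _ ?_)
    intro h2
    apply hne
    have hm : 1 ≤ m i := (hC i).2.1
    have hmc : (m i : ℂ) ≠ 0 := Nat.cast_ne_zero.2 (by omega)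
    have h3 : s0 = -1 / (m i : ℂ) := by
      rw [eq_div_iff hmc]
      push_cast at h2
      linear_combination h2
    rw [h3]
    exact curve_root f b hb (h i) (m i) (hC i)
  · refine Subring.sum_mem _ fun P hPS => ?_
    obtain ⟨c0, c1, _, _, h1⟩ := local_main f b hb s0 hne (hP P hPS) (inv_initial f s0 P)
    rw [fac_zero_one, mul_one, mul_one] at h1
    have h2 := (Reg s0).add_mem ((Reg s0).add_mem h1 (Reg_C s0 c1)) (Reg_C s0 c0)
    rw [sub_add_cancel, sub_add_cancel] at h2
    exact h2

end Pool.Agent.W574.SM
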