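import Pool.Agent.W574.SM.Implicit

set_option autoImplicit false
set_option linter.unusedSectionVars false
set_option linter.unusedVariables false

/-! # Roots in dimension two, from Rees divisors and curves -/

namespace Pool.Agent.W574.SM

open MvPowerSeries

abbrev PS := MvPowerSeries (Fin 2) ℂ
abbrev MP := MvPolynomial (Fin 2) ℂ

/-- the Jacobian determinant of a polynomial map of the plane -/
noncomputable def jac (ξ : Fin 2 → MP) : MP :=
  (Matrix.of fun t i => MvPolynomial.pderiv t (ξ i)).det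

theorem det_aeval (a : Fin 2 → PS) (ξ : Fin 2 → MP) :
    (Matrix.of fun t i => pderiv ℂ t (MvPolynomial.aeval a (ξ i))).det
      = (Matrix.of fun t s => pderiv ℂ t (a s)).det * MvPolynomial.aeval a (jac ξ) := by
  have h1 : (Matrix.of fun t i => pderiv ℂ t (MvPolynomial.aeval a (ξ i)))
      = (Matrix.of fun t s => pderiv ℂ t (a s)) *
        (Matrix.of fun s i => MvPolynomial.aeval a (MvPolynomial.pderiv s (ξ i))) := by
    ext1 t i
    rw [Matrix.of_apply, pderiv_aeval, Matrix.mul_apply]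
    refine Finset.sum_congr rfl fun s _ => ?_
    rw [Matrix.of_apply, Matrix.of_apply, mul_comm]
  have h2 : (Matrix.of fun s i => MvPolynomial.aeval a (MvPolynomial.pderiv s (ξ i))).det
      = MvPolynomial.aeval a (jac ξ) := by
    have h3 : (Matrix.of fun s i => MvPolynomial.aeval a (MvPolynomial.pderiv s (ξ i)))
        = ((MvPolynomial.aeval a : MP →ₐ[ℂ] PS) : MP →+* PS).mapMatrix
          (Matrix.of fun t i => MvPolynomial.pderiv t (ξ i)) := by
      ext1 t i
      rfl
    rw [h3, ← RingHom.map_det]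
    rfl
  rw [h1, Matrix.det_mul, h2]

theorem aeval_aeval (a : Fin 2 → PS) (ξ : Fin 2 → MP) (q : MP) :
    MvPolynomial.aeval (fun i => MvPolynomial.aeval a (ξ i)) q
      = MvPolynomial.aeval a (MvPolynomial.aeval ξ q) := by
  have h : MvPolynomial.aeval (fun i => MvPolynomial.aeval a (ξ i))
      = (MvPolynomial.aeval a).comp (MvPolynomial.aeval ξ) := by
    ext1 i
    rw [AlgHom.comp_apply, MvPolynomial.aeval_X, MvPolynomial.aeval_X]
  rw [h, AlgHom.comp_apply]

variable {ι : Type} [Fintype ι] [DecidableEq ι]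

theorem sum_single_sub (f : ι → PS) (i j : ι) (c : ℂ) :
    ∑ k, ((Pi.single i 1 : ι → ℂ) - c • (Pi.single j 1 : ι → ℂ)) k • f k
      = f i - c • f j := by
  simp only [Pi.sub_apply, Pi.smul_apply, sub_smul, Finset.sum_sub_distrib]
  congr 1
  · rw [Finset.sum_eq_single i]
    · simp
    · intro k _ hk; rw [Pi.single_eq_of_ne hk, zero_smul]
    · intro h; exact absurd (Finset.mem_univ i) h
  · rw [Finset.sum_eq_single j]
    · simp
    · intro k _ hk; rw [Pi.single_eq_of_ne hk, smul_zero, zero_smul]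
    · intro h; exact absurd (Finset.mem_univ j) h

/-- **Roots from Rees divisors** over the plane. -/
theorem plane_rees (f : ι → MP) (b : Polynomial ℂ) (hb : IsFunctionalEq f b) (ξ : Fin 2 → MP)
    (a n : ℕ) (ha : 0 < a) (hn : 1 ≤ n) (G : ι → MP)
    (hf : ∀ j, MvPolynomial.aeval ξ (f j) = MvPolynomial.X 0 ^ a * G j) (Jp : MP)
    (hJ : jac ξ = MvPolynomial.X 0 ^ (n - 1) * Jp) (c : ℂ)
    (hJc : MvPolynomial.eval ![0, c] Jp ≠ 0) (j0 i0 : ι)
    (hj0 : MvPolynomial.eval ![0, c] (G j0) ≠ 0)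
    (hw : MvPolynomial.eval ![0, c] (MvPolynomial.pderiv 1 (G i0) * G j0
      - G i0 * MvPolynomial.pderiv 1 (G j0)) ≠ 0) :
    b.eval (-(n : ℂ) / a) = 0 := by
  set A : Fin 2 → PS := ![X 0, X 1 + C c] with hA
  set g : MP → PS := fun q => MvPolynomial.aeval A q with hg
  have hcc : (fun i => constantCoeff (A i)) = ![0, c] := by
    funext i
    fin_cases i <;> simp [hA]
  have hgc : ∀ q, constantCoeff (g q) = MvPolynomial.eval ![0, c] q := by
    intro q
    rw [hg]
    simp only
    rw [constantCoeff_aeval, hcc]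
  have hgd : ∀ q, pderiv ℂ 1 (g q) = g (MvPolynomial.pderiv 1 q) := by
    intro q
    rw [hg]
    simp only
    rw [pderiv_aeval, Fin.sum_univ_two]
    simp only [hA, Matrix.cons_val_zero, Matrix.cons_val_one, map_add]
    rw [pderiv_X_of_ne (by decide), pderiv_X_self]
    have : pderiv ℂ 1 (C c : PS) = 0 := (pderiv ℂ 1).map_algebraMap c
    rw [this]
    ring
  have hg0 : g (MvPolynomial.X 0) = X 0 := by
    rw [hg]; simp only; rw [MvPolynomial.aeval_X]; rfl
  have hgm : ∀ p q, g (p * q) = g p * g q := fun p q => map_mul _ p q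
  have hgs : ∀ p q, g (p - q) = g p - g q := fun p q => map_sub _ p q
  have hgp : ∀ p k, g (p ^ k) = g p ^ k := fun p k => map_pow _ p k
  set ζ : Fin 2 → PS := fun i => g (ξ i) with hζ
  have hζa : ∀ q, MvPolynomial.aeval ζ q = g (MvPolynomial.aeval ξ q) := fun q =>
    aeval_aeval A ξ q
  have hdA : (Matrix.of fun t s => pderiv ℂ t (A s)).det = 1 := by
    rw [Matrix.det_fin_two]
    simp only [Matrix.of_apply, hA, Matrix.cons_val_zero, Matrix.cons_val_one, map_add]
    have h0 : ∀ t, pderiv ℂ t (C c : PS) = 0 := fun t => (pderiv ℂ t).map_algebraMap c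
    rw [h0, h0, pderiv_X_self, pderiv_X_self, pderiv_X_of_ne (by decide),
      pderiv_X_of_ne (by decide)]
    ring
  set lam : ℂ := MvPolynomial.eval ![0, c] (G i0) / MvPolynomial.eval ![0, c] (G j0) with hlam
  set U1 : PS := g (G j0) with hU1
  have hU1c : constantCoeff U1 ≠ 0 := by rw [hU1, hgc]; exact hj0
  set N : PS := g (G i0) - lam • U1 with hN
  have hNc : constantCoeff N = 0 := by
    rw [hN, map_sub, hU1, hgc]
    have : constantCoeff (lam • g (G j0)) = lam * constantCoeff (g (G j0)) := by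
      rw [smul_eq_C_mul, map_mul, constantCoeff_C]
    rw [this, hgc, hlam, div_mul_cancel₀ _ hj0, sub_self]
  set w1 : PS := N * U1⁻¹ with hw1
  have hU1i : U1⁻¹ * U1 = 1 := MvPowerSeries.inv_mul_cancel U1 hU1c
  have hw1U : U1 * w1 = N := by
    rw [hw1]
    linear_combination N * hU1i
  have hw1c : constantCoeff w1 = 0 := by rw [hw1, map_mul, hNc, zero_mul]
  have hw1d : constantCoeff (pderiv ℂ 1 w1) ≠ 0 := by
    intro h0
    apply hw
    have h1 : constantCoeff (pderiv ℂ 1 (U1 * w1)) = constantCoeff (pderiv ℂ 1 N) := by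
      rw [hw1U]
    have h1' : constantCoeff (pderiv ℂ 1 (U1 * w1))
        = constantCoeff U1 * constantCoeff (pderiv ℂ 1 w1)
          + constantCoeff w1 * constantCoeff (pderiv ℂ 1 U1) := by
      rw [Derivation.leibniz, smul_eq_mul, smul_eq_mul, map_add, map_mul constantCoeff,
        map_mul constantCoeff]
    rw [h1', h0, hw1c, mul_zero, zero_mul, add_zero, hN, map_sub, Derivation.map_smul, hgd, hU1,
      hgd, map_sub, smul_eq_C_mul, map_mul constantCoeff, constantCoeff_C, hgc, hgc] at h1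
    rw [map_sub, map_mul, map_mul]
    have h2 : MvPolynomial.eval ![0, c] (G i0) = lam * MvPolynomial.eval ![0, c] (G j0) := by
      rw [hlam, div_mul_cancel₀ _ hj0]
    rw [h2]
    linear_combination -(MvPolynomial.eval ![0, c] (G j0)) * h1
  set w : Fin 2 → PS := ![X 0, w1] with hww
  have hres := rees_coords f b hb 0 ζ (n - 1) a 0 ha (g Jp) U1 1 (by rw [hgc]; exact hJc) hU1c
    (by simp) (by
      rw [hζ]
      have := det_aeval A ξ
      rw [this, hdA, one_mul, hJ]
      have h2 := hgm (MvPolynomial.X 0 ^ (n - 1)) Jp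
      rw [hgp, hg0] at h2
      exact h2) j0 (fun j => ⟨g (G j), by rw [hζa, hf, hgm, hgp, hg0]⟩)
    (by rw [hζa, hf, hgm, hgp, hg0]) 1 (by simp) w rfl (by
      intro t
      fin_cases t
      · simp [hww]
      · simpa [hww] using hw1c) (by
      rw [Matrix.det_fin_two]
      simp only [Matrix.of_apply, hww, Matrix.cons_val_zero, Matrix.cons_val_one]
      rw [pderiv_X_self, pderiv_X_of_ne (by decide), map_one, map_zero, mul_zero, sub_zero,
        one_mul]
      exact hw1d) (by
      intro t ht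
      have ht1 : t = 1 := by omega
      subst ht1
      right
      refine ⟨Pi.single i0 1 - lam • Pi.single j0 1, ?_⟩
      have hw1' : w 1 = w1 := rfl
      rw [sum_single_sub, hζa, hζa, hf, hf, hgm, hgm, hgp, hg0, hw1', mul_assoc, hw1U, hN,
        mul_sub, mul_smul_comm])
  have hn' : ((n - 1 : ℕ) : ℂ) + 1 + (0 : ℕ) = n := by
    rw [Nat.cast_sub hn]; push_cast; ring
  rwa [hn'] at hres

/-- The root `-1/m` from a curve of multiplicity `m`. -/
theorem plane_curve (f : ι → MP) (b : Polynomial ℂ) (hb : IsFunctionalEq f b) (ξ : Fin 2 → MP)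
    (m : ℕ) (hm : 0 < m) (h : MP) (k : ι → MP)
    (hf : ∀ j, MvPolynomial.aeval ξ (f j) = h ^ m * k j) (p0 p1 : ℂ)
    (hh : MvPolynomial.eval ![p0, p1] h = 0)
    (hh1 : MvPolynomial.eval ![p0, p1] (MvPolynomial.pderiv 1 h) ≠ 0)
    (hJ : MvPolynomial.eval ![p0, p1] (jac ξ) ≠ 0) (j0 : ι)
    (hj0 : MvPolynomial.eval ![p0, p1] (k j0) ≠ 0) :
    b.eval (-1 / (m : ℂ)) = 0 := by
  obtain ⟨V, hV0, hV⟩ := exists_implicit h p0 p1 hh hh1
  set A : Fin 2 → PS := ![C p0 + X 0, C p1 + V] with hA
  set g : MP → PS := fun q => MvPolynomial.aeval A q with hg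
  have hcc : (fun i => constantCoeff (A i)) = ![p0, p1] := by
    funext i
    fin_cases i
    · simp [hA]
    · simp [hA, hV0]
  have hgc : ∀ q, constantCoeff (g q) = MvPolynomial.eval ![p0, p1] q := by
    intro q
    rw [hg]
    simp only
    rw [constantCoeff_aeval, hcc]
  have hgm : ∀ p q, g (p * q) = g p * g q := fun p q => map_mul _ p q
  have hgp : ∀ p k, g (p ^ k) = g p ^ k := fun p k => map_pow _ p k
  have hgh : g h = X 1 := hV
  set ζ : Fin 2 → PS := fun i => g (ξ i) with hζ
  have hζa : ∀ q, MvPolynomial.aeval ζ q = g (MvPolynomial.aeval ξ q) := fun q =>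
    aeval_aeval A ξ q
  have hC0 : ∀ (t : Fin 2) (c : ℂ), pderiv ℂ t (C c : PS) = 0 := fun t c =>
    (pderiv ℂ t).map_algebraMap c
  have hA0 : ∀ t, pderiv ℂ t (A 0) = pderiv ℂ t (X 0) := by
    intro t
    have h1 : A 0 = C p0 + X 0 := rfl
    rw [h1, map_add, hC0, zero_add]
  have hA1 : ∀ t, pderiv ℂ t (A 1) = pderiv ℂ t V := by
    intro t
    have h1 : A 1 = C p1 + V := rfl
    rw [h1, map_add, hC0, zero_add]
  -- the derivative of the implicit function
  have hVd : g (MvPolynomial.pderiv 1 h) * pderiv ℂ 1 V = 1 := by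
    have h1 : pderiv ℂ 1 (g h) = 1 := by rw [hgh, pderiv_X_self]
    rw [hg] at h1
    simp only at h1
    rw [pderiv_aeval, Fin.sum_univ_two, hA0, hA1, pderiv_X_of_ne (by decide), mul_zero,
      zero_add] at h1
    exact h1
  have hVc : constantCoeff (pderiv ℂ 1 V) ≠ 0 := by
    intro h0
    have := congrArg constantCoeff hVd
    rw [map_mul, h0, mul_zero, map_one] at this
    exact zero_ne_one this
  have hdA : (Matrix.of fun t s => pderiv ℂ t (A s)).det = pderiv ℂ 1 V := by
    rw [Matrix.det_fin_two]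
    simp only [Matrix.of_apply]
    rw [hA0, hA0, hA1, hA1, pderiv_X_self, pderiv_X_of_ne (by decide)]
    ring
  have hdet := det_aeval A ξ
  rw [hdA] at hdet
  -- a coordinate
  have hex : ∃ t : Fin 2, constantCoeff (pderiv ℂ 0 (ζ t)) ≠ 0 := by
    by_contra hne
    push Not at hne
    have h1 := congrArg constantCoeff hdet
    rw [Matrix.det_fin_two] at h1
    simp only [Matrix.of_apply] at h1
    rw [map_sub, map_mul, map_mul] at h1
    have h2 : constantCoeff (pderiv ℂ 0 (MvPolynomial.aeval A (ξ 0))) = 0 := hne 0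
    have h3 : constantCoeff (pderiv ℂ 0 (MvPolynomial.aeval A (ξ 1))) = 0 := hne 1
    rw [h2, h3, map_mul] at h1
    have h4 : constantCoeff (MvPolynomial.aeval A (jac ξ)) ≠ 0 := by
      have := hgc (jac ξ)
      rw [hg] at this
      simp only at this
      rw [this]
      exact hJ
    exact mul_ne_zero hVc h4 (by rw [← h1]; ring)
  obtain ⟨t0, ht0⟩ := hex
  set w0 : PS := ζ t0 - C (constantCoeff (ζ t0)) with hw0
  set w : Fin 2 → PS := ![w0, X 1] with hww
  have hres := rees_coords f b hb 1 ζ 0 m 0 hm (pderiv ℂ 1 V * g (jac ξ)) (g (k j0)) 1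
    (by rw [map_mul, hgc]; exact mul_ne_zero hVc hJ) (by rw [hgc]; exact hj0)
    (by simp) (by
      rw [pow_zero, one_mul]
      exact hdet) j0 (fun j => ⟨g (k j), by rw [hζa, hf, hgm, hgp, hgh]⟩)
    (by rw [hζa, hf, hgm, hgp, hgh]) 1 (by simp) w rfl (by
      intro t
      fin_cases t
      · simp [hww, hw0]
      · simp [hww]) (by
      rw [Matrix.det_fin_two]
      simp only [Matrix.of_apply, hww, Matrix.cons_val_zero, Matrix.cons_val_one]
      rw [pderiv_X_self, pderiv_X_of_ne (by decide), map_one, map_zero, zero_mul, sub_zero,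
        mul_one, hw0, map_sub, hC0, sub_zero]
      exact ht0) (by
      intro t ht
      have ht1 : t = 0 := by omega
      subst ht1
      left
      refine ⟨MvPolynomial.X t0 - MvPolynomial.C (constantCoeff (ζ t0)), ?_⟩
      rw [map_sub, MvPolynomial.aeval_X, MvPolynomial.aeval_C]
      rfl)
  have hn' : -(((0 : ℕ) : ℂ) + 1 + (0 : ℕ)) = -1 := by push_cast; ring
  rwa [hn'] at hres

end Pool.Agent.W574.SM
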