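import Pool.Agent.W574.SM.Root

set_option autoImplicit false
set_option linter.unusedSectionVars false
set_option linter.unusedVariables false

/-! # The chain rule for power series and linear changes of coordinates -/

namespace Pool.Agent.W574.SM

open MvPowerSeries

section ChainRule

variable {σ τ R : Type} [Fintype σ] [DecidableEq σ] [CommRing R]

theorem pderiv_aeval (a : σ → MvPowerSeries τ R) (p : MvPolynomial σ R) (t : τ) :
    pderiv R t (MvPolynomial.aeval a p)
      = ∑ s, MvPolynomial.aeval a (MvPolynomial.pderiv s p) * pderiv R t (a s) := by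
  induction p using MvPolynomial.induction_on with
  | C c =>
    have h : MvPolynomial.aeval a (MvPolynomial.C c) = algebraMap R (MvPowerSeries τ R) c :=
      MvPolynomial.aeval_C a c
    rw [h, Derivation.map_algebraMap]
    simp
  | add p q hp hq =>
    rw [map_add, map_add, hp, hq, ← Finset.sum_add_distrib]
    refine Finset.sum_congr rfl fun s _ => ?_
    rw [map_add, map_add, add_mul]
  | mul_X p k hp =>
    rw [map_mul, Derivation.leibniz, hp, MvPolynomial.aeval_X]
    have h : ∀ s, MvPolynomial.aeval a (MvPolynomial.pderiv s (p * MvPolynomial.X k))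
        * pderiv R t (a s) = a k * (MvPolynomial.aeval a (MvPolynomial.pderiv s p) *
          pderiv R t (a s)) + (if s = k then MvPolynomial.aeval a p * pderiv R t (a s) else 0) := by
      intro s
      rw [Derivation.leibniz, MvPolynomial.pderiv_X]
      simp only [smul_eq_mul, Pi.single_apply, map_add, map_mul, MvPolynomial.aeval_X]
      by_cases hsk : s = k
      · subst hsk; simp; ring
      · rw [if_neg hsk, if_neg (fun h => hsk h.symm)]; simp; ring
    simp only [h, Finset.sum_add_distrib]
    rw [Finset.sum_ite_eq' Finset.univ k, if_pos (Finset.mem_univ k), ← Finset.mul_sum]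
    simp only [smul_eq_mul]
    ring

open scoped MvPowerSeries.WithPiTopology in
/-- **Chain rule** for power series. -/
theorem pderiv_subst {a : σ → MvPowerSeries τ R} (ha : HasSubst a) (f : MvPowerSeries σ R)
    (t : τ) : pderiv R t (subst a f) = ∑ s, subst a (pderiv R s f) * pderiv R t (a s) := by
  let : UniformSpace R := ⊥
  have : DiscreteTopology R := ⟨rfl⟩
  have : DiscreteUniformity R := ⟨rfl⟩
  have hpc : ∀ {κ : Type} (s : κ), Continuous fun f : MvPowerSeries κ R => pderiv R s f := by
    intro κ s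
    refine continuous_pi fun n => ?_
    have h : ∀ f : MvPowerSeries κ R, pderiv R s f n = coeff (n + Finsupp.single s 1) f *
      (n s + 1) := fun f => coeff_pderiv f n
    simp only [h]
    exact (WithPiTopology.continuous_coeff R _).mul continuous_const
  have h1 : Continuous fun f : MvPowerSeries σ R => pderiv R t (subst a f) :=
    (hpc t).comp (continuous_subst ha)
  have h2 : Continuous fun f : MvPowerSeries σ R =>
      ∑ s, subst a (pderiv R s f) * pderiv R t (a s) := by
    refine continuous_finsetSum _ fun s _ => ?_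
    exact ((continuous_subst ha).comp (hpc s)).mul continuous_const
  have h3 : (fun f : MvPowerSeries σ R => pderiv R t (subst a f))
      = fun f : MvPowerSeries σ R => ∑ s, subst a (pderiv R s f) * pderiv R t (a s) := by
    refine (WithPiTopology.denseRange_toMvPowerSeries (σ := σ) (R := R)).equalizer h1 h2 ?_
    funext p
    simp only [Function.comp_apply]
    rw [subst_coe, pderiv_aeval]
    refine Finset.sum_congr rfl fun s _ => ?_
    rw [pderiv_coe, subst_coe]
  exact congrFun h3 f

theorem constantCoeff_subst' {a : σ → MvPowerSeries τ R} (ha : HasSubst a)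
    (ha0 : ∀ s, constantCoeff (a s) = 0) (f : MvPowerSeries σ R) :
    constantCoeff (subst a f) = constantCoeff f := by
  have h1 : f = C (constantCoeff f) + (f - C (constantCoeff f)) := by ring
  conv_lhs => rw [h1]
  rw [subst_add ha, map_add, constantCoeff_subst_eq_zero ha ha0
    (f := f - C (constantCoeff f)) (by simp), add_zero]
  have h2 : (C (constantCoeff f) : MvPowerSeries σ R)
      = algebraMap R (MvPowerSeries σ R) (constantCoeff f) := rfl
  rw [← coe_substAlgHom ha, h2, AlgHom.commutes]
  have h3 : algebraMap R (MvPowerSeries τ R) (constantCoeff f) = C (constantCoeff f) := rfl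
  rw [h3, constantCoeff_C]

end ChainRule

section Coordinates

variable {σ ι : Type} [Fintype σ] [LinearOrder σ] [Fintype ι] [DecidableEq ι]

/-- **Roots from Rees divisors**, in arbitrary formal coordinates. -/
theorem rees_coords (f : ι → MvPolynomial σ ℂ) (b : Polynomial ℂ) (hb : IsFunctionalEq f b)
    (z : σ) (ξ : σ → MvPowerSeries σ ℂ) (k a l : ℕ) (hl : l < a) (U0 U1 U2 : MvPowerSeries σ ℂ)
    (hU0 : constantCoeff U0 ≠ 0) (hU1 : constantCoeff U1 ≠ 0) (hU2 : constantCoeff U2 ≠ 0)
    (hJ : (Matrix.of fun t i => pderiv ℂ t (ξ i)).det = X z ^ k * U0)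
    (j0 : ι) (hf : ∀ j, X z ^ a ∣ MvPolynomial.aeval ξ (f j))
    (hj0 : MvPolynomial.aeval ξ (f j0) = X z ^ a * U1)
    (p : MvPolynomial σ ℂ) (hp : MvPolynomial.aeval ξ p = X z ^ l * U2)
    (w : σ → MvPowerSeries σ ℂ) (hwz : w z = X z) (hw0 : ∀ t, constantCoeff (w t) = 0)
    (hwdet : (Matrix.of fun s t => constantCoeff (pderiv ℂ s (w t))).det ≠ 0)
    (htype : ∀ t, t ≠ z → (∃ q : MvPolynomial σ ℂ, MvPolynomial.aeval ξ q = w t) ∨
      ∃ c : ι → ℂ, ∑ j, c j • MvPolynomial.aeval ξ (f j) = MvPolynomial.aeval ξ (f j0) * w t) :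
    b.eval (-((k : ℂ) + 1 + l) / a) = 0 := by
  set W : Matrix σ σ ℂ := Matrix.of fun s t => constantCoeff (pderiv ℂ s (w t)) with hW
  have hWW : W⁻¹ * W = 1 := Matrix.nonsing_inv_mul _ (isUnit_iff_ne_zero.2 hwdet)
  set A : σ → MvPowerSeries σ ℂ := fun s => ∑ r, (W⁻¹ r s) • X r with hA
  have hA0 : ∀ s, constantCoeff (A s) = 0 := by
    intro s
    rw [hA]
    simp
  have hAs : HasSubst A := hasSubst_of_constantCoeff_zero hA0
  have hAd : ∀ t s, pderiv ℂ t (A s) = C (W⁻¹ t s) := by
    intro t s
    rw [hA, map_sum, Finset.sum_eq_single t]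
    · rw [Derivation.map_smul, pderiv_X_self, smul_eq_C_mul, mul_one]
    · intro r _ hr
      rw [Derivation.map_smul, pderiv_X_of_ne hr, smul_zero]
    · intro h; exact absurd (Finset.mem_univ t) h
  have hWz : ∀ s, W s z = if s = z then 1 else 0 := by
    intro s
    rw [hW, Matrix.of_apply, hwz]
    by_cases h : s = z
    · rw [if_pos h, h, pderiv_X_self, map_one]
    · rw [if_neg h, pderiv_X_of_ne (Ne.symm h), map_zero]
  have hWiz : ∀ r, W⁻¹ r z = if r = z then 1 else 0 := by
    intro r
    have h1 := congrFun (congrFun hWW r) z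
    rw [Matrix.mul_apply, Matrix.one_apply] at h1
    rw [← h1]
    simp only [hWz]
    simp
  have hAz : A z = X z := by
    rw [hA]
    simp only [hWiz]
    simp
  have hsub : ∀ q : MvPolynomial σ ℂ, MvPolynomial.aeval (fun i => subst A (ξ i)) q
      = subst A (MvPolynomial.aeval ξ q) := by
    intro q
    have h1 : MvPolynomial.aeval (fun i => subst A (ξ i))
        = (substAlgHom hAs).comp (MvPolynomial.aeval ξ) := by
      ext1 i
      rw [AlgHom.comp_apply, MvPolynomial.aeval_X, MvPolynomial.aeval_X, coe_substAlgHom]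
    rw [h1, AlgHom.comp_apply, coe_substAlgHom]
  have hsz : ∀ (n : ℕ) (U : MvPowerSeries σ ℂ), subst A (X z ^ n * U) = X z ^ n * subst A U := by
    intro n U
    rw [subst_mul hAs, subst_pow hAs, subst_X hAs, hAz]
  have hlin : ∀ r t, constantCoeff (pderiv ℂ r (subst A (w t))) = if r = t then 1 else 0 := by
    intro r t
    rw [pderiv_subst hAs, map_sum]
    have h1 := congrFun (congrFun hWW r) t
    rw [Matrix.mul_apply, Matrix.one_apply] at h1
    rw [← h1]
    refine Finset.sum_congr rfl fun s _ => ?_
    rw [map_mul, hAd, constantCoeff_subst' hAs hA0, constantCoeff_C, mul_comm]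
    rfl
  have hcoef : ∀ r t, coeff (Finsupp.single r 1) (subst A (w t)) = if r = t then 1 else 0 := by
    intro r t
    rw [← hlin r t, ← coeff_zero_eq_constantCoeff_apply, coeff_pderiv]
    simp
  have hcoord : ∀ t, IsCoord z t (subst A (w t)) := by
    intro t
    refine ⟨by rw [constantCoeff_subst' hAs hA0, hw0], ?_, ?_⟩
    · rw [hcoef, if_pos rfl]; exact one_ne_zero
    · intro l _ hlt
      rw [hcoef, if_neg hlt]
  refine rees_root f b hb z (fun i => subst A (ξ i)) k a l hl
    (C (W⁻¹).det * subst A U0) (subst A U1) (subst A U2) ?_ ?_ ?_ ?_ j0 ?_ ?_ p ?_ ?_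
  · rw [map_mul, constantCoeff_C, constantCoeff_subst' hAs hA0]
    refine mul_ne_zero ?_ hU0
    intro h
    have := congrArg Matrix.det hWW
    rw [Matrix.det_mul, h, zero_mul, Matrix.det_one] at this
    exact zero_ne_one this
  · rwa [constantCoeff_subst' hAs hA0]
  · rwa [constantCoeff_subst' hAs hA0]
  · have h1 : (Matrix.of fun t i => pderiv ℂ t (subst A (ξ i)))
        = (W⁻¹).map C * (Matrix.of fun s i => pderiv ℂ s (ξ i)).map (substAlgHom hAs) := by
      ext1 t i
      rw [Matrix.of_apply, pderiv_subst hAs, Matrix.mul_apply]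
      refine Finset.sum_congr rfl fun s _ => ?_
      rw [hAd, Matrix.map_apply, Matrix.map_apply, Matrix.of_apply, coe_substAlgHom, mul_comm]
    rw [h1, Matrix.det_mul]
    have h2 : ((W⁻¹).map (C : ℂ →+* MvPowerSeries σ ℂ)).det = C (W⁻¹).det :=
      (RingHom.map_det (C : ℂ →+* MvPowerSeries σ ℂ) W⁻¹).symm
    have h3 : ((Matrix.of fun s i => pderiv ℂ s (ξ i)).map (substAlgHom hAs)).det
        = substAlgHom hAs (Matrix.of fun s i => pderiv ℂ s (ξ i)).det :=
      (RingHom.map_det (substAlgHom (R := ℂ) hAs : MvPowerSeries σ ℂ →+* MvPowerSeries σ ℂ)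
        (Matrix.of fun s i => pderiv ℂ s (ξ i))).symm
    rw [h2, h3, hJ, coe_substAlgHom, hsz]
    ring
  · intro j
    rw [hsub]
    obtain ⟨g, hg⟩ := hf j
    exact ⟨subst A g, by rw [hg, hsz]⟩
  · rw [hsub, hj0, hsz]
  · rw [hsub, hp, hsz]
  · intro t ht
    rcases htype t ht with ⟨q, hq⟩ | ⟨c, hc⟩
    · left
      refine ⟨q, ?_⟩
      rw [hsub, hq]
      exact hcoord t
    · right
      refine ⟨c, subst A (w t), hcoord t, ?_⟩
      simp only [hsub]
      rw [← subst_mul hAs, ← hc, ← coe_substAlgHom hAs, map_sum]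
      refine Finset.sum_congr rfl fun j _ => ?_
      rw [map_smul]

end Coordinates

end Pool.Agent.W574.SM
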