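import Pool.Agent.W574.SM.Charts

set_option autoImplicit false
set_option linter.unusedSectionVars false
set_option linter.unusedVariables false

/-! # The residues at a blow-up -/

namespace Pool.Agent.W574.SM

open Polynomial

theorem pderiv_aeval_poly (χ : Fin 2 → MP) (q : MP) (t : Fin 2) :
    MvPolynomial.pderiv t (MvPolynomial.aeval χ q)
      = ∑ s, MvPolynomial.aeval χ (MvPolynomial.pderiv s q) * MvPolynomial.pderiv t (χ s) := by
  induction q using MvPolynomial.induction_on with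
  | C c =>
    rw [MvPolynomial.aeval_C]
    have : algebraMap ℂ MP c = MvPolynomial.C c := rfl
    rw [this, MvPolynomial.pderiv_C]
    simp
  | add p q hp hq =>
    rw [map_add, map_add, hp, hq, ← Finset.sum_add_distrib]
    refine Finset.sum_congr rfl fun s _ => ?_
    rw [map_add, map_add, add_mul]
  | mul_X p k hp =>
    rw [map_mul, Derivation.leibniz, hp, MvPolynomial.aeval_X]
    have hk : k = 0 ∨ k = 1 := by omega
    simp only [Fin.sum_univ_two, Derivation.leibniz, smul_eq_mul, map_add, map_mul]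
    rcases hk with rfl | rfl
    · rw [MvPolynomial.pderiv_X_self, MvPolynomial.pderiv_X_of_ne (by decide)]
      simp only [map_zero, map_one, MvPolynomial.aeval_X]
      ring
    · rw [MvPolynomial.pderiv_X_self, MvPolynomial.pderiv_X_of_ne (by decide)]
      simp only [map_zero, map_one, MvPolynomial.aeval_X]
      ring

theorem jac_comp (χ ξ : Fin 2 → MP) : jac (fun i => MvPolynomial.aeval χ (ξ i))
    = jac χ * MvPolynomial.aeval χ (jac ξ) := by
  rw [jac, jac, jac, Matrix.det_fin_two, Matrix.det_fin_two, Matrix.det_fin_two]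
  simp only [Matrix.of_apply, pderiv_aeval_poly, Fin.sum_univ_two, map_sub, map_mul]
  ring

theorem aeval_comp (χ ξ : Fin 2 → MP) (q : MP) :
    MvPolynomial.aeval (fun i => MvPolynomial.aeval χ (ξ i)) q
      = MvPolynomial.aeval χ (MvPolynomial.aeval ξ q) := by
  have h : MvPolynomial.aeval (fun i => MvPolynomial.aeval χ (ξ i))
      = (MvPolynomial.aeval χ).comp (MvPolynomial.aeval ξ) := by
    ext1 i
    rw [AlgHom.comp_apply, MvPolynomial.aeval_X, MvPolynomial.aeval_X]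
  rw [h, AlgHom.comp_apply]

theorem jac_chart (c : ℂ) : jac (chart c) = MvPolynomial.X 0 := by
  rw [jac, Matrix.det_fin_two]
  simp only [Matrix.of_apply]
  have h0 : chart c 0 = MvPolynomial.X 0 := rfl
  have h1 : chart c 1 = MvPolynomial.X 0 * (MvPolynomial.X 1 + MvPolynomial.C c) := rfl
  rw [h0, h1]
  simp only [Derivation.leibniz, smul_eq_mul, map_add, MvPolynomial.pderiv_C]
  rw [MvPolynomial.pderiv_X_self, MvPolynomial.pderiv_X_self,
    MvPolynomial.pderiv_X_of_ne (by decide), MvPolynomial.pderiv_X_of_ne (by decide)]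
  ring

theorem jac_chartI : jac chartI = MvPolynomial.X 1 := by
  rw [jac, Matrix.det_fin_two]
  simp only [Matrix.of_apply]
  have h0 : chartI 0 = MvPolynomial.X 0 * MvPolynomial.X 1 := rfl
  have h1 : chartI 1 = MvPolynomial.X 1 := rfl
  rw [h0, h1]
  simp only [Derivation.leibniz, smul_eq_mul]
  rw [MvPolynomial.pderiv_X_self, MvPolynomial.pderiv_X_self,
    MvPolynomial.pderiv_X_of_ne (by decide), MvPolynomial.pderiv_X_of_ne (by decide)]
  ring

theorem cc_chart (c : ℂ) (q : MP) : MvPolynomial.constantCoeff (MvPolynomial.aeval (chart c) q)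
    = MvPolynomial.constantCoeff q := by
  induction q using MvPolynomial.induction_on with
  | C a => rw [MvPolynomial.aeval_C]; rfl
  | add p q hp hq => rw [map_add, map_add, hp, hq, map_add]
  | mul_X p i hp =>
    rw [map_mul, map_mul, hp, map_mul]
    have hi : i = 0 ∨ i = 1 := by omega
    rcases hi with rfl | rfl
    · rw [chart_X0]
    · rw [chart_X1]; simp

theorem cc_chartI (q : MP) : MvPolynomial.constantCoeff (MvPolynomial.aeval chartI q)
    = MvPolynomial.constantCoeff q := by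
  induction q using MvPolynomial.induction_on with
  | C a => rw [MvPolynomial.aeval_C]; rfl
  | add p q hp hq => rw [map_add, map_add, hp, hq, map_add]
  | mul_X p i hp =>
    rw [map_mul, map_mul, hp, map_mul]
    have hi : i = 0 ∨ i = 1 := by omega
    rcases hi with rfl | rfl
    · rw [chartI_X0]; simp
    · rw [chartI_X1]

theorem res0_chart_const (c : ℂ) (q : MP) : res0 (MvPolynomial.aeval (chart c) q)
    = C (MvPolynomial.constantCoeff q) := by
  induction q using MvPolynomial.induction_on with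
  | C a =>
    rw [MvPolynomial.aeval_C, MvPolynomial.constantCoeff_C]
    exact res0.commutes a
  | add p q hp hq => rw [map_add, map_add, hp, hq, map_add, map_add]
  | mul_X p i hp =>
    rw [map_mul, map_mul, hp, map_mul, map_mul]
    have hi : i = 0 ∨ i = 1 := by omega
    rcases hi with rfl | rfl
    · rw [chart_X0, res0_X0]; simp
    · rw [chart_X1, map_mul, res0_X0]; simp

variable {ι : Type} [Fintype ι] [DecidableEq ι]

/-- the order of the restriction of the ideal to `u = 0` -/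
def Ord0 (g : ι → MP) (μ : ℕ) : Prop :=
  (∀ j, ∀ k < μ, (res0 (g j)).coeff k = 0) ∧ ∃ j, (res0 (g j)).coeff μ ≠ 0

/-- the order of the restriction of the ideal to `v = 0` -/
def Ord1 (g : ι → MP) (μ : ℕ) : Prop :=
  (∀ j, ∀ k < μ, (res1 (g j)).coeff k = 0) ∧ ∃ j, (res1 (g j)).coeff μ ≠ 0

theorem Ord0.unique {g : ι → MP} {μ ν : ℕ} (h1 : Ord0 g μ) (h2 : Ord0 g ν) : μ = ν := by
  obtain ⟨j, hj⟩ := h1.2
  obtain ⟨k, hk⟩ := h2.2
  by_contra hne
  rcases Nat.lt_or_gt_of_ne hne with h | h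
  · exact hj (h2.1 j μ h)
  · exact hk (h1.1 k ν h)

theorem Ord1.unique {g : ι → MP} {μ ν : ℕ} (h1 : Ord1 g μ) (h2 : Ord1 g ν) : μ = ν := by
  obtain ⟨j, hj⟩ := h1.2
  obtain ⟨k, hk⟩ := h2.2
  by_contra hne
  rcases Nat.lt_or_gt_of_ne hne with h | h
  · exact hj (h2.1 j μ h)
  · exact hk (h1.1 k ν h)

/-- the geometry of a node -/
def Geom (f : ι → MP) (g : ι → MP) (a0 n0 a1 n1 : ℕ) : Prop :=
  ∃ (ξ : Fin 2 → MP) (W W' : MP), MvPolynomial.constantCoeff W ≠ 0 ∧
    MvPolynomial.constantCoeff W' ≠ 0 ∧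
    (∀ j, MvPolynomial.aeval ξ (f j)
      = MvPolynomial.X 0 ^ a0 * MvPolynomial.X 1 ^ a1 * W * g j) ∧
    jac ξ = MvPolynomial.X 0 ^ (n0 - 1) * MvPolynomial.X 1 ^ (n1 - 1) * W'

theorem geom_chart_aux (f g g' : ι → MP) (a0 n0 a1 n1 : ℕ) (hn0 : 1 ≤ n0) (hn1 : 1 ≤ n1)
    (ξ : Fin 2 → MP) (W W' : MP)
    (hf : ∀ j, MvPolynomial.aeval ξ (f j)
      = MvPolynomial.X 0 ^ a0 * MvPolynomial.X 1 ^ a1 * W * g j)
    (hJ : jac ξ = MvPolynomial.X 0 ^ (n0 - 1) * MvPolynomial.X 1 ^ (n1 - 1) * W')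
    (m : ℕ) (c : ℂ) (hg : ∀ j, MvPolynomial.aeval (chart c) (g j) = MvPolynomial.X 0 ^ m * g' j) :
    (∀ j, MvPolynomial.aeval (fun i => MvPolynomial.aeval (chart c) (ξ i)) (f j)
      = MvPolynomial.X 0 ^ (a0 + a1 + m) * ((MvPolynomial.X 1 + MvPolynomial.C c) ^ a1 *
        MvPolynomial.aeval (chart c) W * g' j)) ∧
    jac (fun i => MvPolynomial.aeval (chart c) (ξ i))
      = MvPolynomial.X 0 ^ (n0 + n1 - 1) * ((MvPolynomial.X 1 + MvPolynomial.C c) ^ (n1 - 1) *
        MvPolynomial.aeval (chart c) W') := by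
  constructor
  · intro j
    rw [aeval_comp, hf, map_mul, map_mul, map_mul, map_pow, map_pow, chart_X0, chart_X1, hg,
      mul_pow]
    ring
  · rw [jac_comp, hJ, map_mul, map_mul, map_pow, map_pow, chart_X0, chart_X1, jac_chart, mul_pow]
    have h : n0 + n1 - 1 = 1 + (n0 - 1) + (n1 - 1) := by omega
    rw [h]
    ring

theorem geom_chart0 (f g g' : ι → MP) (a0 n0 a1 n1 : ℕ) (hn0 : 1 ≤ n0) (hn1 : 1 ≤ n1)
    (h : Geom f g a0 n0 a1 n1) (m : ℕ)
    (hg : ∀ j, MvPolynomial.aeval (chart 0) (g j) = MvPolynomial.X 0 ^ m * g' j) :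
    Geom f g' (a0 + a1 + m) (n0 + n1) a1 n1 := by
  obtain ⟨ξ, W, W', hW, hW', hf, hJ⟩ := h
  obtain ⟨h1, h2⟩ := geom_chart_aux f g g' a0 n0 a1 n1 hn0 hn1 ξ W W' hf hJ m 0 hg
  refine ⟨fun i => MvPolynomial.aeval (chart 0) (ξ i), MvPolynomial.aeval (chart 0) W,
    MvPolynomial.aeval (chart 0) W', ?_, ?_, ?_, ?_⟩
  rotate_left 2
  · intro j
    rw [h1, map_zero, add_zero]
    ring
  · rw [h2, map_zero, add_zero]
    ring
  · rwa [cc_chart]
  · rwa [cc_chart]

theorem geom_chart (f g g' : ι → MP) (a0 n0 a1 n1 : ℕ) (hn0 : 1 ≤ n0) (hn1 : 1 ≤ n1)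
    (h : Geom f g a0 n0 a1 n1) (m : ℕ) (c : ℂ) (hc : c ≠ 0)
    (hg : ∀ j, MvPolynomial.aeval (chart c) (g j) = MvPolynomial.X 0 ^ m * g' j) :
    Geom f g' (a0 + a1 + m) (n0 + n1) 0 1 := by
  obtain ⟨ξ, W, W', hW, hW', hf, hJ⟩ := h
  obtain ⟨h1, h2⟩ := geom_chart_aux f g g' a0 n0 a1 n1 hn0 hn1 ξ W W' hf hJ m c hg
  refine ⟨fun i => MvPolynomial.aeval (chart c) (ξ i),
    (MvPolynomial.X 1 + MvPolynomial.C c) ^ a1 * MvPolynomial.aeval (chart c) W,
    (MvPolynomial.X 1 + MvPolynomial.C c) ^ (n1 - 1) * MvPolynomial.aeval (chart c) W',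
    ?_, ?_, ?_, ?_⟩
  rotate_left 2
  · intro j
    rw [h1]
    ring
  · rw [h2]
    simp only [Nat.sub_self, pow_zero, mul_one]
  · rw [map_mul, map_pow, map_add, MvPolynomial.constantCoeff_X, MvPolynomial.constantCoeff_C,
      zero_add, cc_chart]
    exact mul_ne_zero (pow_ne_zero _ hc) hW
  · rw [map_mul, map_pow, map_add, MvPolynomial.constantCoeff_X, MvPolynomial.constantCoeff_C,
      zero_add, cc_chart]
    exact mul_ne_zero (pow_ne_zero _ hc) hW'

theorem geom_chartI (f g g' : ι → MP) (a0 n0 a1 n1 : ℕ) (hn0 : 1 ≤ n0) (hn1 : 1 ≤ n1)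
    (h : Geom f g a0 n0 a1 n1) (m : ℕ)
    (hg : ∀ j, MvPolynomial.aeval chartI (g j) = MvPolynomial.X 1 ^ m * g' j) :
    Geom f g' a0 n0 (a0 + a1 + m) (n0 + n1) := by
  obtain ⟨ξ, W, W', hW, hW', hf, hJ⟩ := h
  refine ⟨fun i => MvPolynomial.aeval chartI (ξ i), MvPolynomial.aeval chartI W,
    MvPolynomial.aeval chartI W', by rwa [cc_chartI], by rwa [cc_chartI], ?_, ?_⟩
  · intro j
    rw [aeval_comp, hf, map_mul, map_mul, map_mul, map_pow, map_pow, chartI_X0, chartI_X1, hg,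
      mul_pow]
    ring
  · rw [jac_comp, hJ, map_mul, map_mul, map_pow, map_pow, chartI_X0, chartI_X1, jac_chartI,
      mul_pow]
    have h : n0 + n1 - 1 = 1 + (n0 - 1) + (n1 - 1) := by omega
    rw [h]
    ring

theorem ord_comp (P : ℂ[X]) (hP : P ≠ 0) (c : ℂ) :
    (∀ k < P.rootMultiplicity c, (P.comp (X + C c)).coeff k = 0) ∧
      (P.comp (X + C c)).coeff (P.rootMultiplicity c) ≠ 0 := by
  obtain ⟨P1, h1, h2⟩ := exists_factor P hP c
  set μ := P.rootMultiplicity c
  have h3 : P.comp (X + C c) = X ^ μ * P1.comp (X + C c) := by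
    conv_lhs => rw [h1]
    rw [mul_comp, pow_comp, sub_comp, X_comp, C_comp, add_sub_cancel_right]
  constructor
  · exact X_pow_dvd_iff.1 ⟨_, h3⟩
  · have h4 := coeff_X_pow_mul (P1.comp (X + C c)) μ 0
    rw [zero_add] at h4
    rw [h3, h4, coeff_zero_eq_eval_zero, eval_comp]
    simpa using h2

theorem blow_analysis (f : ι → MP) (b : ℂ[X]) (hb : IsFunctionalEq f b) (g : ι → MP)
    (a0 n0 a1 n1 : ℕ) (hn0 : 1 ≤ n0) (hn1 : 1 ≤ n1) (hgeom : Geom f g a0 n0 a1 n1)
    (m : ℕ) (hm : 1 ≤ m) (gc : ℂ → ι → MP) (gI : ι → MP)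
    (hgc : ∀ c j, MvPolynomial.aeval (chart c) (g j) = MvPolynomial.X 0 ^ m * gc c j)
    (hgI : ∀ j, MvPolynomial.aeval chartI (g j) = MvPolynomial.X 1 ^ m * gI j)
    (S : Finset ℂ) (h0S : 0 ∈ S)
    (hS : ∀ c ∉ S, ∃ j, MvPolynomial.constantCoeff (gc c j) ≠ 0)
    (hJ1 : (n0 - 1) * m ≤ a0 ∧ (n1 - 1) * m ≤ a1)
    (hJ2 : 0 < a0 → (n0 - 1) * a1 < a0 * n1) (hJ2' : 0 < a1 → (n1 - 1) * a0 < a1 * n0)
    (hz0 : a0 = 0 → n0 = 1) (hz1 : a1 = 0 → n1 = 1) (s0 : ℂ) (hs0 : b.eval s0 ≠ 0)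
    (hA : ((n0 + n1 : ℕ) : ℂ) + ((a0 + a1 + m : ℕ) : ℂ) * s0 = 0) :
    ∃ (μ : ℂ → ℕ) (μI : ℕ), (∀ c, Ord0 (gc c) (μ c)) ∧ Ord1 gI μI ∧
      (n1 : ℂ) + s0 * ((a1 + μ 0 : ℕ) : ℂ) ≠ 0 ∧ (n0 : ℂ) + s0 * ((a0 + μI : ℕ) : ℂ) ≠ 0 ∧
      (∀ c, c ≠ 0 → 1 + s0 * (μ c : ℂ) ≠ 0) ∧
      1 / ((n0 : ℂ) + s0 * ((a0 + μI : ℕ) : ℂ)) + 1 / ((n1 : ℂ) + s0 * ((a1 + μ 0 : ℕ) : ℂ)) +
      ∑ c ∈ S.erase 0, 1 / (1 + s0 * (μ c : ℂ)) + 1 - S.card = 0 := by
  classical
  obtain ⟨ξ, W, W', hW, hW', hf, hJ⟩ := hgeom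
  obtain ⟨hf0, hJ0⟩ := geom_chart_aux f g (gc 0) a0 n0 a1 n1 hn0 hn1 ξ W W' hf hJ m 0 (hgc 0)
  rw [map_zero, add_zero] at hJ0
  simp only [map_zero, add_zero] at hf0
  set ξ0 : Fin 2 → MP := fun i => MvPolynomial.aeval (chart 0) (ξ i) with hξ0
  set a := a0 + a1 + m with ha
  set n := n0 + n1 with hn
  have hapos : 0 < a := by omega
  have hac : (a : ℂ) ≠ 0 := Nat.cast_ne_zero.2 hapos.ne'
  have hs : s0 = -(n : ℂ) / a := by
    rw [eq_div_iff hac]
    linear_combination hA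
  set P : ι → ℂ[X] := fun j => res0 (gc 0 j) with hP
  have hPc : ∀ c j, res0 (gc c j) = (P j).comp (X + C c) := fun c j =>
    res0_chart (g j) (gc 0 j) (gc c j) m c (hgc 0 j) (hgc c j)
  have hPS : ∀ c ∉ S, ∃ j, (P j).eval c ≠ 0 := by
    intro c hc
    obtain ⟨j, hj⟩ := hS c hc
    refine ⟨j, ?_⟩
    rw [← coeff_res0, hPc, coeff_zero_eq_eval_zero, eval_comp] at hj
    simpa using hj
  obtain ⟨c1, hc1⟩ := Infinite.exists_notMem_finset S
  obtain ⟨j0, hj0⟩ := hPS c1 hc1
  have hPj0 : P j0 ≠ 0 := by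
    intro h
    rw [h, eval_zero] at hj0
    exact hj0 rfl
  set w := MvPolynomial.constantCoeff W with hw
  set w' := MvPolynomial.constantCoeff W' with hw'
  set G : ι → MP := fun j => MvPolynomial.X 1 ^ a1 * MvPolynomial.aeval (chart 0) W * gc 0 j
    with hG
  set Jp : MP := MvPolynomial.X 1 ^ (n1 - 1) * MvPolynomial.aeval (chart 0) W' with hJp
  have hresG : ∀ j, res0 (G j) = C w * (X ^ a1 * P j) := by
    intro j
    rw [hG]
    simp only
    rw [map_mul, map_mul, map_pow, res0_X1, res0_chart_const]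
    ring
  have hresJ : res0 Jp = C w' * X ^ (n1 - 1) := by
    rw [hJp, map_mul, map_pow, res0_X1, res0_chart_const]
    ring
  -- the leading forms are proportional
  have hprop : ∀ i, ∃ lam : ℂ, P i = C lam * P j0 := by
    intro i
    by_cases hWr : derivative (P i) * P j0 - P i * derivative (P j0) = 0
    · exact prop_of_wronskian (P i) (P j0) hPj0 hWr
    · exfalso
      have hne : X * (P j0 * (derivative (P i) * P j0 - P i * derivative (P j0))) ≠ 0 :=
        mul_ne_zero X_ne_zero (mul_ne_zero hPj0 hWr)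
      obtain ⟨c, hc⟩ : ∃ c : ℂ,
          (X * (P j0 * (derivative (P i) * P j0 - P i * derivative (P j0)))).eval c ≠ 0 := by
        by_contra hall
        push Not at hall
        exact hne (Polynomial.funext (fun x => by rw [hall x, eval_zero]))
      rw [eval_mul, eval_mul, eval_X] at hc
      have hc0 : c ≠ 0 := left_ne_zero_of_mul hc
      have hcP : (P j0).eval c ≠ 0 := left_ne_zero_of_mul (right_ne_zero_of_mul hc)
      have hcW : (derivative (P i) * P j0 - P i * derivative (P j0)).eval c ≠ 0 :=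
        right_ne_zero_of_mul (right_ne_zero_of_mul hc)
      apply hs0
      rw [hs]
      refine plane_rees f b hb ξ0 a n hapos (by omega) G hf0 Jp hJ0 c ?_ j0 i ?_ ?_
      · rw [← eval_res0, hresJ, eval_mul, eval_C, eval_pow, eval_X]
        exact mul_ne_zero hW' (pow_ne_zero _ hc0)
      · rw [← eval_res0, hresG, eval_mul, eval_C, eval_mul, eval_pow, eval_X]
        exact mul_ne_zero hW (mul_ne_zero (pow_ne_zero _ hc0) hcP)
      · rw [← eval_res0, map_sub, map_mul res0 (MvPolynomial.pderiv 1 (G i)) (G j0),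
          map_mul res0 (G i) (MvPolynomial.pderiv 1 (G j0)), res0_pderiv, res0_pderiv, hresG,
          hresG]
        have h1 : derivative (C w * (X ^ a1 * P i)) * (C w * (X ^ a1 * P j0))
            - C w * (X ^ a1 * P i) * derivative (C w * (X ^ a1 * P j0))
            = C w ^ 2 * (X ^ a1) ^ 2 *
              (derivative (P i) * P j0 - P i * derivative (P j0)) := by
          simp only [derivative_mul, derivative_C]
          ring
        rw [h1, eval_mul, eval_mul, eval_pow, eval_pow, eval_C, eval_pow, eval_X]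
        exact mul_ne_zero (mul_ne_zero (pow_ne_zero _ hW) (pow_ne_zero _ (pow_ne_zero _ hc0))) hcW
  choose lam hlam using hprop
  -- there is a rational solution
  have hsol : ∃ R : RatFunc ℂ, dR R + algebraMap ℂ (RatFunc ℂ) (-(n : ℂ) / a) *
      (dR (resM RatFunc.X (G j0)) * (resM RatFunc.X (G j0))⁻¹) * R = resM RatFunc.X Jp := by
    by_contra hno
    push Not at hno
    apply hs0
    rw [hs]
    refine tw_root dR RatFunc.X ?_ f b hb ξ0 a n hapos (by omega) G hf0 Jp hJ0 ?_ j0 ?_ hno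
    · rw [← RatFunc.algebraMap_X, dR_algebraMap, derivative_X, map_one]
    · rw [resM_eq, hresJ]
      exact am_ne (mul_ne_zero (C_ne_zero.2 hW') (pow_ne_zero _ X_ne_zero))
    · rw [resM_eq, hresG]
      exact am_ne (mul_ne_zero (C_ne_zero.2 hW) (mul_ne_zero (pow_ne_zero _ X_ne_zero) hPj0))
  obtain ⟨R, hR⟩ := hsol
  set Q : ℂ[X] := X ^ a1 * P j0 with hQ
  have hQ0 : Q ≠ 0 := mul_ne_zero (pow_ne_zero _ X_ne_zero) hPj0
  have hR' : dR R + algebraMap ℂ (RatFunc ℂ) (-(n : ℂ) / a) *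
      (dR (algebraMap ℂ[X] (RatFunc ℂ) Q) * (algebraMap ℂ[X] (RatFunc ℂ) Q)⁻¹) * R
        = algebraMap ℂ[X] (RatFunc ℂ) (C w' * X ^ (n1 - 1)) := by
    rw [resM_eq, resM_eq, hresG, hresJ] at hR
    rw [← hR]
    congr 3
    have h1 : algebraMap ℂ[X] (RatFunc ℂ) (C w * (X ^ a1 * P j0))
        = algebraMap ℂ (RatFunc ℂ) w * algebraMap ℂ[X] (RatFunc ℂ) Q := by
      rw [map_mul]; rfl
    rw [h1, Derivation.leibniz, Derivation.map_algebraMap, smul_zero, add_zero, smul_eq_mul]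
    have hwne : algebraMap ℂ (RatFunc ℂ) w ≠ 0 := by
      rw [Ne, map_eq_zero]; exact hW
    have hQne := am_ne hQ0
    field_simp
  obtain ⟨A, hAne, hAeq⟩ := sol_poly Q hQ0 n a hapos w' hW' (n1 - 1) R hR'
  have hdeg := coeff_resI (g j0) (gc 0 j0) (gI j0) m (hgc 0 j0) (hgI j0)
  have hbr := bracket (P j0) hPj0 m a0 n0 a1 n1 hdeg.1 hm hn0 hn1 S h0S (by
      intro c hc h
      obtain ⟨j, hj⟩ := hPS c hc
      rw [hlam j, eval_mul, h, mul_zero] at hj
      exact hj rfl) (by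
      intro h
      by_cases ha1 : 0 < a1
      · have h1 := hJ2' ha1
        have h2 := hJ1.2
        have h3 : (n1 - 1) * a = (n1 - 1) * a0 + (n1 - 1) * a1 + (n1 - 1) * m := by
          rw [ha]; ring
        have h4 : (n1 - 1) * a1 + a1 = a1 * n1 := by
          have : n1 = (n1 - 1) + 1 := by omega
          conv_rhs => rw [this]
          ring
        have h5 : n * (a1 + (P j0).rootMultiplicity 0)
            = a1 * n0 + a1 * n1 + n * (P j0).rootMultiplicity 0 := by
          rw [hn]; ring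
        have h6 : 0 ≤ n * (P j0).rootMultiplicity 0 := Nat.zero_le _
        show (n1 - 1) * a < n * (a1 + (P j0).rootMultiplicity 0)
        omega
      · have h1 : a1 = 0 := by omega
        have h2 := hz1 h1
        rw [h2, Nat.sub_self, zero_mul]
        exact Nat.mul_pos (by omega) h) hz1 (by
      intro h
      by_cases ha0 : 0 < a0
      · have h1 := hJ2 ha0
        have h2 := hJ1.1
        have h3 : (n0 - 1) * a = (n0 - 1) * a0 + (n0 - 1) * a1 + (n0 - 1) * m := by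
          rw [ha]; ring
        have h4 : (n0 - 1) * a0 + a0 = a0 * n0 := by
          have : n0 = (n0 - 1) + 1 := by omega
          conv_rhs => rw [this]
          ring
        have h5 : n * (a0 + (m - (P j0).natDegree))
            = a0 * n0 + a0 * n1 + n * (m - (P j0).natDegree) := by
          rw [hn]; ring
        have h6 : 0 ≤ n * (m - (P j0).natDegree) := Nat.zero_le _
        show (n0 - 1) * a < n * (a0 + (m - (P j0).natDegree))
        omega
      · have h1 : a0 = 0 := by omega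
        have h2 := hz0 h1
        rw [h2, Nat.sub_self, zero_mul]
        exact Nat.mul_pos (by omega) h) hz0 w' hW' A hAne s0 hs (by rw [hs]; exact hAeq)
  refine ⟨fun c => (P j0).rootMultiplicity c, m - (P j0).natDegree, ?_, ?_, hbr.1, hbr.2.1,
    hbr.2.2.1, hbr.2.2.2⟩
  · intro c
    have h1 := ord_comp (P j0) hPj0 c
    constructor
    · intro j k hk
      rw [hPc, hlam j, mul_comp, C_comp, coeff_C_mul, h1.1 k hk, mul_zero]
    · refine ⟨j0, ?_⟩
      rw [hPc]
      exact h1.2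
  · constructor
    · intro j k hk
      have h1 := (coeff_resI (g j) (gc 0 j) (gI j) m (hgc 0 j) (hgI j)).2.2 k (by omega)
      have h2 : res0 (gc 0 j) = C (lam j) * P j0 := hlam j
      rw [h1, h2, coeff_C_mul, coeff_eq_zero_of_natDegree_lt (by omega), mul_zero]
    · refine ⟨j0, ?_⟩
      rw [hdeg.2.2 _ (by omega)]
      have h3 : m - (m - (P j0).natDegree) = (P j0).natDegree := by
        have := hdeg.1
        have h4 : (P j0).natDegree ≤ m := this
        omega
      rw [h3]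
      exact leadingCoeff_ne_zero.2 hPj0

end Pool.Agent.W574.SM
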