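import Pool.Agent.W574.SM.Rees

set_option autoImplicit false
set_option linter.unusedSectionVars false
set_option linter.unusedVariables false

/-! # Roots from Rees divisors, main theorem -/

namespace Pool.Agent.W574.SM

section DLog

variable {L : Type} [Field L] [Algebra ℂ L] (d : Derivation ℂ L L)

theorem dlog_mul {u v : L} (hu : u ≠ 0) (hv : v ≠ 0) :
    d (u * v) * (u * v)⁻¹ = d u * u⁻¹ + d v * v⁻¹ := by
  rw [Derivation.leibniz, smul_eq_mul, smul_eq_mul]
  field_simp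
  ring

theorem dlog_inv {u : L} (hu : u ≠ 0) : d u⁻¹ * (u⁻¹)⁻¹ = - (d u * u⁻¹) := by
  rw [Derivation.leibniz_inv, smul_eq_mul]
  field_simp

theorem dlog_pow {u : L} (hu : u ≠ 0) (n : ℕ) :
    d (u ^ n) * (u ^ n)⁻¹ = n * (d u * u⁻¹) := by
  induction n with
  | zero => simp
  | succ n ih =>
    rw [pow_succ, dlog_mul d (pow_ne_zero n hu) hu, ih]
    push_cast
    ring

theorem dlog_zpow {u : L} (hu : u ≠ 0) (n : ℤ) :
    d (u ^ n) * (u ^ n)⁻¹ = n * (d u * u⁻¹) := by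
  rcases n with n | n
  · rw [Int.ofNat_eq_natCast, zpow_natCast, dlog_pow d hu]
    push_cast
    ring
  · rw [zpow_negSucc, dlog_inv d (pow_ne_zero _ hu), dlog_pow d hu]
    push_cast
    ring

theorem dlog_prod {α : Type} (s : Finset α) (u : α → L) (hu : ∀ i ∈ s, u i ≠ 0) :
    d (∏ i ∈ s, u i) * (∏ i ∈ s, u i)⁻¹ = ∑ i ∈ s, d (u i) * (u i)⁻¹ := by
  classical
  induction s using Finset.induction_on with
  | empty => simp
  | insert a s ha ih =>
    rw [Finset.prod_insert ha, Finset.sum_insert ha,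
      dlog_mul d (hu a (Finset.mem_insert_self a s))
        (Finset.prod_ne_zero_iff.2 fun i hi => hu i (Finset.mem_insert_of_mem hi)),
      ih fun i hi => hu i (Finset.mem_insert_of_mem hi)]

theorem eq_of_dlog {u v : L} (hu : u ≠ 0) (h : d u * u⁻¹ = v) : d u = u * v := by
  rw [← h]
  field_simp

end DLog

section Denominators

variable {σ L : Type} [Fintype σ] [DecidableEq σ] [Field L] [Algebra ℂ L]
  (φ : MvPolynomial σ ℂ →ₐ[ℂ] L)

/-- the functions `φ(p) / φ(q0) ^ n` -/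
noncomputable def frac (q0 : MvPolynomial σ ℂ) (hq0 : φ q0 ≠ 0) : Subalgebra ℂ L where
  carrier := {u | ∃ (p : MvPolynomial σ ℂ) (n : ℕ), u = φ p * ((φ q0) ^ n)⁻¹}
  mul_mem' := by
    rintro u v ⟨p, n, rfl⟩ ⟨q, m, rfl⟩
    refine ⟨p * q, n + m, ?_⟩
    rw [map_mul, pow_add, mul_inv]
    ring
  one_mem' := ⟨1, 0, by simp⟩
  add_mem' := by
    rintro u v ⟨p, n, rfl⟩ ⟨q, m, rfl⟩
    refine ⟨p * q0 ^ m + q * q0 ^ n, n + m, ?_⟩
    rw [map_add, map_mul, map_mul, map_pow, map_pow, pow_add]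
    have h1 := pow_ne_zero n hq0
    have h2 := pow_ne_zero m hq0
    field_simp
  zero_mem' := ⟨0, 0, by simp⟩
  algebraMap_mem' c := ⟨MvPolynomial.C c, 0, by
    rw [pow_zero, inv_one, mul_one]
    exact (φ.commutes c).symm⟩

theorem mem_frac (q0 : MvPolynomial σ ℂ) (hq0 : φ q0 ≠ 0) (u : L) :
    u ∈ frac φ q0 hq0 ↔ ∃ (p : MvPolynomial σ ℂ) (n : ℕ), u = φ p * ((φ q0) ^ n)⁻¹ := Iff.rfl

theorem frac_phi (q0 : MvPolynomial σ ℂ) (hq0 : φ q0 ≠ 0) (p : MvPolynomial σ ℂ) :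
    φ p ∈ frac φ q0 hq0 := ⟨p, 0, by simp⟩

theorem frac_DD (θ : σ → Derivation ℂ L L) (hJ : (Jac φ θ).det ≠ 0) (q0 : MvPolynomial σ ℂ)
    (hq0 : φ q0 ≠ 0) (i : σ) (u : L) (hu : u ∈ frac φ q0 hq0) : DD φ θ i u ∈ frac φ q0 hq0 := by
  obtain ⟨p, n, rfl⟩ := hu
  refine ⟨MvPolynomial.pderiv i p * q0 - (n : MvPolynomial σ ℂ) * p * MvPolynomial.pderiv i q0,
    n + 1, ?_⟩
  have h1 := pow_ne_zero n hq0
  have h2 := eq_of_dlog (DD φ θ i) (inv_ne_zero h1) (dlog_inv (DD φ θ i) h1)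
  rw [dlog_pow (DD φ θ i) hq0] at h2
  rw [Derivation.leibniz, h2, DD_phi φ θ hJ, DD_phi φ θ hJ, smul_eq_mul, smul_eq_mul, map_sub,
    map_mul, map_mul, map_mul, map_natCast, pow_succ]
  field_simp
  ring

end Denominators

section Root

open MvPowerSeries HahnSeries

variable {σ ι : Type} [Fintype σ] [LinearOrder σ] [Fintype ι] [DecidableEq ι]

theorem em_mem_ge (z : σ) (u : MvPowerSeries σ ℂ) : em z u ∈ (filt pr1).ge 0 := by
  intro g hg
  obtain ⟨μ, rfl, _⟩ := coeff_emb_ne _ _ _ u g hg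
  rw [pr1_gam]
  positivity

theorem em_dvd_mem_ge (z : σ) (a : ℕ) (u : MvPowerSeries σ ℂ) (h : X z ^ a ∣ u) :
    em z u ∈ (filt pr1).ge a := by
  obtain ⟨v, rfl⟩ := h
  rw [map_mul, map_pow]
  have h1 : em z (X z) ∈ (filt pr1).ge 1 := by
    have := mem_filt_of_order pr1 pr1_monotone (em z (X z))
    rw [order_em_X, pr1_gam, Finsupp.single_eq_same] at this
    simpa using this
  have := (filt pr1).mul (Filt.pow h1 a) (em_mem_ge z v)
  simpa using this

theorem X_ne_zero' (t : σ) : (X t : MvPowerSeries σ ℂ) ≠ 0 := by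
  classical
  intro h
  have := congrArg (MvPowerSeries.coeff (Finsupp.single t 1)) h
  rw [coeff_X, if_pos rfl, map_zero] at this
  exact one_ne_zero this

theorem coord_ne_zero (z k : σ) (w : MvPowerSeries σ ℂ) (hw : IsCoord z k w) : w ≠ 0 := by
  rintro rfl
  exact hw.2.1 (map_zero _)

theorem zsmul_nat {Γ : Type} [AddCommGroup Γ] (n : ℕ) (g : Γ) : n • g = (n : ℤ) • g :=
  (natCast_zsmul g n).symm

theorem sum_split {Γ : Type} [AddCommMonoid Γ] (z : σ) (P : σ → Prop) [DecidablePred P]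
    (g : σ → Γ) : ∑ t, g t = g z + (∑ t : {t : σ // t ≠ z ∧ P t}, g t +
      ∑ t : {t : σ // t ≠ z ∧ ¬ P t}, g t) := by
  classical
  rw [← Finset.sum_subtype (Finset.univ.filter fun t => t ≠ z ∧ P t) (by simp) g,
    ← Finset.sum_subtype (Finset.univ.filter fun t => t ≠ z ∧ ¬ P t) (by simp) g]
  rw [← Finset.add_sum_erase Finset.univ g (Finset.mem_univ z)]
  congr 1
  rw [← Finset.sum_filter_add_sum_filter_not (Finset.univ.erase z) P]
  congr 1
  · refine Finset.sum_congr ?_ fun _ _ => rfl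
    ext t
    simp
  · refine Finset.sum_congr ?_ fun _ _ => rfl
    ext t
    simp

/-- **Roots from Rees divisors.** -/
theorem rees_core (f : ι → MvPolynomial σ ℂ) (b : Polynomial ℂ) (hb : IsFunctionalEq f b)
    (z : σ) (ξ : σ → MvPowerSeries σ ℂ) (k a l : ℕ) (hl : l < a) (U0 U1 U2 : MvPowerSeries σ ℂ)
    (hU0 : constantCoeff U0 ≠ 0) (hU1 : constantCoeff U1 ≠ 0) (hU2 : constantCoeff U2 ≠ 0)
    (hJ : (Matrix.of fun t i => pderiv ℂ t (ξ i)).det = X z ^ k * U0)
    (j0 : ι) (hf : ∀ j, X z ^ a ∣ MvPolynomial.aeval ξ (f j))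
    (hj0 : MvPolynomial.aeval ξ (f j0) = X z ^ a * U1)
    (p : MvPolynomial σ ℂ) (hp : MvPolynomial.aeval ξ p = X z ^ l * U2)
    (A B : Type) [Fintype A] [Fintype B] [DecidableEq B] (τA : A → σ) (τB : B → σ)
    (hAz : ∀ t, τA t ≠ z) (hBz : ∀ t, τB t ≠ z)
    (hsum : ∑ t, gam z (Finsupp.single t 1)
      = gam z (Finsupp.single z 1) + (∑ t : A, gam z (Finsupp.single (τA t) 1) +
        ∑ t : B, gam z (Finsupp.single (τB t) 1)))
    (q : A → MvPolynomial σ ℂ) (hq : ∀ t, IsCoord z (τA t) (MvPolynomial.aeval ξ (q t)))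
    (c : B → ι → ℂ) (w : B → MvPowerSeries σ ℂ) (hw : ∀ t, IsCoord z (τB t) (w t))
    (hcw : ∀ t, ∑ j, c t j • MvPolynomial.aeval ξ (f j) = MvPolynomial.aeval ξ (f j0) * w t) :
    b.eval (-((k : ℂ) + 1 + l) / a) = 0 := by
  classical
  have ha0 : a ≠ 0 := by omega
  set L := HahnSeries (Gam σ) ℂ with hL
  set φ : MvPolynomial σ ℂ →ₐ[ℂ] L := (em z).comp (MvPolynomial.aeval ξ) with hφ
  have hφa : ∀ q, φ q = em z (MvPolynomial.aeval ξ q) := fun q => rfl
  set θ : σ → Derivation ℂ L L := fun t => eul (chi t) with hθ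
  -- the Jacobian
  have hJac : (Jac φ θ).det = em z ((∏ t, X t) * (X z ^ k * U0)) := by
    rw [← hJ, ← Matrix.det_mul_column]
    have h1 : Jac φ θ = (em z : MvPowerSeries σ ℂ →+* L).mapMatrix
        (Matrix.of fun t i => X t * pderiv ℂ t (ξ i)) := by
      ext1 t i
      rw [Jac, Matrix.of_apply, hφa, MvPolynomial.aeval_X]
      exact eul_emb (gam z) (gam_injective z) (gam_monotone z) (chi t) t (chi_gam z t) (ξ i)
    rw [h1, ← RingHom.map_det]
    rfl
  have hJ0 : (Jac φ θ).det ≠ 0 := by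
    rw [hJac]
    exact em_ne_zero z _ (mul_ne_zero (Finset.prod_ne_zero_iff.2 fun t _ => X_ne_zero' t)
      (mul_ne_zero (pow_ne_zero _ (X_ne_zero' z)) (unit_ne_zero _ hU0)))
  have hemX : ∀ t, em z (X t) ≠ 0 := fun t => em_ne_zero z _ (X_ne_zero' t)
  have hJo : (Jac φ θ).det.order
      = ∑ t, gam z (Finsupp.single t 1) + k • gam z (Finsupp.single z 1) := by
    rw [hJac, map_mul, map_mul, map_prod, map_pow,
      order_mul (Finset.prod_ne_zero_iff.2 fun t _ => hemX t)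
        (mul_ne_zero (pow_ne_zero _ (hemX z)) (em_ne_zero z _ (unit_ne_zero _ hU0))),
      order_mul (pow_ne_zero _ (hemX z)) (em_ne_zero z _ (unit_ne_zero _ hU0)),
      order_prod _ _ fun t _ => hemX t, order_pow, order_em_unit z U0 hU0, add_zero]
    simp only [order_em_X]
  -- the forms `G`
  set κ := Option B with hκ
  set lam : κ → ι → ℂ := fun m => m.elim (Pi.single j0 1) c with hlam
  set G : κ → L := fun m => ∑ j, algebraMap ℂ L (lam m j) * φ (f j) with hGdef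
  have hGnone : G none = em z (X z) ^ a * em z U1 := by
    have h1 : G none = φ (f j0) := by
      rw [hGdef]
      simp only [hlam, Option.elim_none]
      rw [Finset.sum_eq_single j0]
      · rw [Pi.single_eq_same, map_one, one_mul]
      · intro j _ hj
        rw [Pi.single_eq_of_ne hj, map_zero, zero_mul]
      · intro h; exact absurd (Finset.mem_univ j0) h
    rw [h1, hφa, hj0, map_mul, map_pow]
  have hGsome : ∀ t : B, G (some t) = G none * em z (w t) := by
    intro t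
    have h1 : G (some t) = em z (∑ j, c t j • MvPolynomial.aeval ξ (f j)) := by
      rw [map_sum, hGdef]
      refine Finset.sum_congr rfl fun j _ => ?_
      rw [map_smul]
      exact (Algebra.smul_def (c t j) (em z _)).symm
    rw [h1, hcw, map_mul, hj0, map_mul, map_pow, hGnone]
  have hU1' : em z U1 ≠ 0 := em_ne_zero z _ (unit_ne_zero _ hU1)
  have hw' : ∀ t : B, em z (w t) ≠ 0 := fun t => em_ne_zero z _ (coord_ne_zero z _ _ (hw t))
  have hGn0 : G none ≠ 0 := by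
    rw [hGnone]
    exact mul_ne_zero (pow_ne_zero _ (hemX z)) hU1'
  have hG : ∀ m, G m ≠ 0 := by
    intro m
    rcases m with _ | t
    · exact hGn0
    · rw [hGsome]; exact mul_ne_zero hGn0 (hw' t)
  have hGno : (G none).order = a • gam z (Finsupp.single z 1) := by
    rw [hGnone, order_mul (pow_ne_zero _ (hemX z)) hU1', order_pow, order_em_X,
      order_em_unit z U1 hU1, add_zero]
  have hGso : ∀ t : B, (G (some t)).order
      = a • gam z (Finsupp.single z 1) + gam z (Finsupp.single (τB t) 1) := by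
    intro t
    rw [hGsome, order_mul hGn0 (hw' t), hGno, order_em_coord z _ (hBz t) (w t) (hw t)]
  have hz1 : pr1 (gam z (Finsupp.single z 1)) = 1 := by
    rw [pr1_gam, Finsupp.single_eq_same]; rfl
  have hGa : ∀ m, (G m)⁻¹ ∈ (filt (pr1 : Gam σ →+ ℤ)).ge (-(a : ℤ)) := by
    intro m
    have h1 := mem_filt_of_order pr1 pr1_monotone (G m)⁻¹
    rw [order_inv' _ (hG m), map_neg] at h1
    rcases m with _ | t
    · rw [hGno, map_nsmul, hz1] at h1
      simpa using h1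
    · rw [hGso, map_add, pr1_gam z (Finsupp.single (τB t) 1),
        Finsupp.single_eq_of_ne (hBz t).symm, map_nsmul, hz1] at h1
      simpa using h1
  -- the root
  obtain ⟨r, hr0, hro, hra⟩ := exists_root (em z U1) hU1' (order_em_unit z U1 hU1) a ha0
  set R : L := em z (X z) * r with hR
  have hR0 : R ≠ 0 := mul_ne_zero (hemX z) hr0
  have hRa : R ^ a = G none := by rw [hR, mul_pow, hra, hGnone]
  have hRo : R.order = gam z (Finsupp.single z 1) := by
    rw [hR, order_mul (hemX z) hr0, hro, order_em_X, add_zero]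
  set N : ℤ := a * Fintype.card B - (k + 1 + l) with hN
  set H0 : L := R ^ N * ∏ t : B, (G (some t))⁻¹ with hH0
  set e : κ → ℂ := fun m => m.elim ((N : ℂ) / a) (fun _ => -1) with he
  have hac : (a : ℂ) ≠ 0 := Nat.cast_ne_zero.2 ha0
  have hesum : ∑ m, e m = -((k : ℂ) + 1 + l) / a := by
    rw [Fintype.sum_option]
    simp only [he, Option.elim_none, Option.elim_some]
    rw [Finset.sum_const, Finset.card_univ, hN]
    push_cast
    field_simp
    rw [nsmul_eq_mul]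
    ring
  have hH : ∀ t, θ t H0 = H0 * ∑ m, algebraMap ℂ L (e m) * (θ t (G m) * (G m)⁻¹) := by
    intro t
    have hP0 : ∏ t : B, (G (some t))⁻¹ ≠ 0 := Finset.prod_ne_zero_iff.2 fun t _ =>
      inv_ne_zero (hG _)
    have hRN : R ^ N ≠ 0 := zpow_ne_zero N hR0
    apply eq_of_dlog (θ t) (mul_ne_zero hRN hP0)
    rw [dlog_mul (θ t) hRN hP0, dlog_zpow (θ t) hR0, dlog_prod (θ t) _ _ fun t _ =>
      inv_ne_zero (hG _), Fintype.sum_option]
    have h1 : (a : L) * (θ t R * R⁻¹) = θ t (G none) * (G none)⁻¹ := by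
      rw [← hRa, dlog_pow (θ t) hR0]
    have haL : (a : L) ≠ 0 := Nat.cast_ne_zero.2 ha0
    congr 1
    · simp only [he, Option.elim_none]
      rw [← h1, map_div₀, map_intCast, map_natCast, ← mul_assoc ((N : L) / a),
        div_mul_cancel₀ _ haL]
    · refine Finset.sum_congr rfl fun s _ => ?_
      rw [dlog_inv (θ t) (hG _)]
      simp only [he, Option.elim_some, map_neg, map_one]
      ring
  have hH00 : H0 ≠ 0 := mul_ne_zero (zpow_ne_zero N hR0) (Finset.prod_ne_zero_iff.2 fun t _ =>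
      inv_ne_zero (hG _))
  have hRNo : ∀ n : ℤ, (R ^ n).order = n • gam z (Finsupp.single z 1) := by
    intro n
    rcases n with n | n
    · rw [Int.ofNat_eq_natCast, zpow_natCast, order_pow, hRo, natCast_zsmul]
    · rw [zpow_negSucc, order_inv' _ (pow_ne_zero _ hR0), order_pow, hRo, negSucc_zsmul]
  have hH0o : H0.order = N • gam z (Finsupp.single z 1) - ∑ t : B,
      (a • gam z (Finsupp.single z 1) + gam z (Finsupp.single (τB t) 1)) := by
    rw [hH0, order_mul (zpow_ne_zero N hR0) (Finset.prod_ne_zero_iff.2 fun t _ =>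
      inv_ne_zero (hG _)), hRNo, order_prod _ _ fun t _ => inv_ne_zero (hG _), sub_eq_add_neg,
      ← Finset.sum_neg_distrib]
    congr 1
    refine Finset.sum_congr rfl fun t _ => ?_
    rw [order_inv' _ (hG _), hGso]
  -- the denominators
  set q0 : MvPolynomial σ ℂ := ∏ t : A, q t with hq0
  have hφq : ∀ t : A, φ (q t) ≠ 0 := fun t => em_ne_zero z _ (coord_ne_zero z _ _ (hq t))
  have hφqo : ∀ t : A, (φ (q t)).order = gam z (Finsupp.single (τA t) 1) := fun t =>
    order_em_coord z _ (hAz t) _ (hq t)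
  have hq00 : φ q0 ≠ 0 := by
    rw [hq0, map_prod]
    exact Finset.prod_ne_zero_iff.2 fun t _ => hφq t
  have hq0o : (φ q0).order = ∑ t : A, gam z (Finsupp.single (τA t) 1) := by
    rw [hq0, map_prod, order_prod _ _ fun t _ => hφq t]
    exact Finset.sum_congr rfl fun t _ => hφqo t
  have hS3 : ∀ u ∈ frac φ q0 hq00, u ∈ (filt (pr1 : Gam σ →+ ℤ)).ge 0 := by
    rintro u ⟨p, n, rfl⟩
    have h1 : φ p ∈ (filt (pr1 : Gam σ →+ ℤ)).ge 0 := em_mem_ge z _
    have h2 : ((φ q0) ^ n)⁻¹ ∈ (filt (pr1 : Gam σ →+ ℤ)).ge 0 := by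
      have h3 := mem_filt_of_order pr1 pr1_monotone ((φ q0) ^ n)⁻¹
      rw [order_inv' _ (pow_ne_zero _ hq00), order_pow, hq0o, map_neg, map_nsmul, map_sum] at h3
      have h4 : ∑ t : A, pr1 (gam z (Finsupp.single (τA t) 1)) = 0 := by
        refine Finset.sum_eq_zero fun t _ => ?_
        rw [pr1_gam, Finsupp.single_eq_of_ne (hAz t).symm]
        rfl
      rw [h4] at h3
      simpa using h3
    have := (filt (pr1 : Gam σ →+ ℤ)).mul h1 h2
    simpa using this
  set ρ : L := φ p * ((φ q0) ^ 1)⁻¹ with hρ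
  have hρS : ρ ∈ frac φ q0 hq00 := ⟨p, 1, rfl⟩
  have hφp : φ p = em z (X z) ^ l * em z U2 := by rw [hφa, hp, map_mul, map_pow]
  have hU2' : em z U2 ≠ 0 := em_ne_zero z _ (unit_ne_zero _ hU2)
  have hφp0 : φ p ≠ 0 := by
    rw [hφp]; exact mul_ne_zero (pow_ne_zero _ (hemX z)) hU2'
  have hρ0 : ρ ≠ 0 := mul_ne_zero hφp0 (inv_ne_zero (pow_ne_zero _ hq00))
  have hρo : ρ.order = l • gam z (Finsupp.single z 1)
      - ∑ t : A, gam z (Finsupp.single (τA t) 1) := by
    rw [hρ, order_mul hφp0 (inv_ne_zero (pow_ne_zero _ hq00)), pow_one, order_inv' _ hq00, hq0o,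
      hφp, order_mul (pow_ne_zero _ (hemX z)) hU2', order_pow, order_em_X, order_em_unit z U2 hU2,
      add_zero, sub_eq_add_neg]
  -- the filtration
  have hJν : (Jac φ θ).det ∈ (filt (pr1 : Gam σ →+ ℤ)).ge (pr1 (Jac φ θ).det.order) :=
    mem_filt_of_order pr1 pr1_monotone _
  have hH0h : H0 ∈ (filt (pr1 : Gam σ →+ ℤ)).ge (pr1 H0.order) :=
    mem_filt_of_order pr1 pr1_monotone _
  have hfa : ∀ j, φ (f j) ∈ (filt (pr1 : Gam σ →+ ℤ)).ge a := fun j => em_dvd_mem_ge z a _ (hf j)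
  have hA0 : ∑ t : A, pr1 (gam z (Finsupp.single (τA t) 1)) = 0 := by
    refine Finset.sum_eq_zero fun t _ => ?_
    rw [pr1_gam, Finsupp.single_eq_of_ne (hAz t).symm]
    rfl
  have hB0 : ∀ t : B, pr1 (gam z (Finsupp.single (τB t) 1)) = 0 := by
    intro t
    rw [pr1_gam, Finsupp.single_eq_of_ne (hBz t).symm]
    rfl
  have hpos : 0 < pr1 (Jac φ θ).det.order + pr1 H0.order + (a : ℤ) := by
    rw [hJo, hsum, hH0o]
    simp only [map_add, map_sub, map_sum, map_nsmul, map_zsmul, hz1, hA0, hB0, Finset.sum_const,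
      Finset.card_univ, add_zero]
    simp only [nsmul_eq_mul, smul_eq_mul, mul_one, mul_zero]
    rw [hN, mul_comm (a : ℤ) (Fintype.card B : ℤ)]
    push_cast
    linarith [(Nat.cast_lt (α := ℤ)).2 hl]
  have hkey := engine φ θ f lam e G H0 (filt (pr1 : Gam σ →+ ℤ)) a (pr1 (Jac φ θ).det.order)
    (pr1 H0.order) hJ0 hJν (fun s t u => eul_comm _ _ u) (T00 (Gam σ)) (fun t u => T00_eul _ u)
    (fun u hu => T00_filt pr1 u hu) hfa (fun m => rfl) hG hGa hH hH0h hpos (frac φ q0 hq00)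
    (frac_phi φ q0 hq00) (fun i u hu => frac_DD φ θ hJ0 q0 hq00 i u hu) hS3 b hb ρ hρS
  rw [hesum] at hkey
  have hT : T00 (Gam σ) ((Jac φ θ).det * (ρ * H0)) ≠ 0 := by
    apply T00_ne_zero _ (mul_ne_zero hJ0 (mul_ne_zero hρ0 hH00))
    rw [order_mul hJ0 (mul_ne_zero hρ0 hH00), order_mul hρ0 hH00, hJo, hsum, hH0o, hρo,
      Finset.sum_add_distrib, Finset.sum_const, Finset.card_univ, hN, sub_zsmul, add_zsmul,
      add_zsmul, one_zsmul, mul_zsmul]
    simp only [zsmul_nat]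
    rw [zsmul_comm (gam z (Finsupp.single z 1)) (a : ℤ) (Fintype.card B : ℤ)]
    abel
  exact (mul_eq_zero.1 hkey).resolve_right hT

/-- **Roots from Rees divisors.** -/
theorem rees_root (f : ι → MvPolynomial σ ℂ) (b : Polynomial ℂ) (hb : IsFunctionalEq f b)
    (z : σ) (ξ : σ → MvPowerSeries σ ℂ) (k a l : ℕ) (hl : l < a) (U0 U1 U2 : MvPowerSeries σ ℂ)
    (hU0 : constantCoeff U0 ≠ 0) (hU1 : constantCoeff U1 ≠ 0) (hU2 : constantCoeff U2 ≠ 0)
    (hJ : (Matrix.of fun t i => pderiv ℂ t (ξ i)).det = X z ^ k * U0)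
    (j0 : ι) (hf : ∀ j, X z ^ a ∣ MvPolynomial.aeval ξ (f j))
    (hj0 : MvPolynomial.aeval ξ (f j0) = X z ^ a * U1)
    (p : MvPolynomial σ ℂ) (hp : MvPolynomial.aeval ξ p = X z ^ l * U2)
    (hcoord : ∀ t, t ≠ z → (∃ q : MvPolynomial σ ℂ, IsCoord z t (MvPolynomial.aeval ξ q)) ∨
      ∃ (c : ι → ℂ) (w : MvPowerSeries σ ℂ), IsCoord z t w ∧
        ∑ j, c j • MvPolynomial.aeval ξ (f j) = MvPolynomial.aeval ξ (f j0) * w) :
    b.eval (-((k : ℂ) + 1 + l) / a) = 0 := by
  classical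
  set P : σ → Prop := fun t => ∃ q : MvPolynomial σ ℂ, IsCoord z t (MvPolynomial.aeval ξ q) with hP
  choose q hq using fun t : {t : σ // t ≠ z ∧ P t} => t.2.2
  choose c w hw hcw using fun t : {t : σ // t ≠ z ∧ ¬ P t} => (hcoord t t.2.1).resolve_left t.2.2
  exact rees_core f b hb z ξ k a l hl U0 U1 U2 hU0 hU1 hU2 hJ j0 hf hj0 p hp
    {t : σ // t ≠ z ∧ P t} {t : σ // t ≠ z ∧ ¬ P t} (fun t => t) (fun t => t)
    (fun t => t.2.1) (fun t => t.2.1) (sum_split z P _) q hq c w hw hcw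

end Root

end Pool.Agent.W574.SM
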