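import Mathlib

set_option autoImplicit false

/-! # The topological zeta function of an ideal of `ℂ[x, y]`

The topological zeta function of an ideal `I = (f_j)` of `ℂ[x, y]` is computed with a log
resolution which is a composition of blow-ups of points: `Z_I` is the integral, with respect to
the Euler characteristic, over the points `p` of the plane, of the contribution
`Z_p = ∑_{q} ∏_{E ∋ q} 1 / (a_E s + ν_E)` of the fibre over `p` (again an integral with respect to
the Euler characteristic, over the points `q` over `p`; here `a_E = ord_E I` and `ν_E = k_E + 1`).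
The predicate `LocalZeta` is the recursive computation of `Z_p`. -/

namespace Pool.Agent.W574.SM

open MvPolynomial

/-- The chart `(u, v) ↦ (u, u (v + c))` of the blow-up of the origin of the plane. The exceptional
curve is `u = 0`, and the origin of the chart is the point of the exceptional curve which belongs
to the direction `v = c u`. -/
noncomputable def chart (c : ℂ) : Fin 2 → MvPolynomial (Fin 2) ℂ :=
  ![X 0, X 0 * (X 1 + C c)]

/-- The chart `(u, v) ↦ (u v, v)` of the blow-up of the origin of the plane. The exceptional curve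
is `v = 0`, and the origin of the chart is the point of the exceptional curve which belongs to the
direction `u = 0`. -/
noncomputable def chartI : Fin 2 → MvPolynomial (Fin 2) ℂ :=
  ![X 0 * X 1, X 1]

/-- The rational function `1 / (n + a s)` of `s`. -/
noncomputable def fac (a n : ℕ) : RatFunc ℂ :=
  1 / ((n : RatFunc ℂ) + (a : RatFunc ℂ) * RatFunc.X)

/-- `LocalZeta g a₀ n₀ a₁ n₁ Z`: the origin of the plane, with the coordinates `u = X 0` and
`v = X 1`, is a point of a partial resolution, near which the ideal is `u ^ a₀ v ^ a₁ (g_j)` and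
the canonical divisor is `(n₀ - 1) [u = 0] + (n₁ - 1) [v = 0]`. (So `(a_i, n_i)` are the numbers
`(a_E, ν_E)` of the exceptional curve `u = 0` resp. `v = 0`, and `(a_i, n_i) = (0, 1)` if there is
no exceptional curve.) `Z` is the contribution of the origin to the topological zeta function,
computed by blowing up points:

* `unit`: some `g_j` does not vanish at the origin;
* `curveV`, `curveU`: near the origin, the ideal `(g_j)` is `(h ^ m)`, where the curve `h = 0` is
  smooth at the origin and transversal to the exceptional curve `u = 0` (resp. `v = 0`), the only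
  one through the origin (if any);
* `blowup`: the origin is blown up. The number `m` is the multiplicity of the ideal `(g_j)`, the
  new exceptional curve `E` has `a_E = a₀ + a₁ + m` and `ν_E = n₀ + n₁`, and `gc c` and `gI`
  are the transforms of the ideal at the points of `E` (the directions `v = c u` and `u = 0`).
  At the points `c ∉ S` the transform of the ideal is trivial and there is no other exceptional
  curve; the set of these points has the Euler characteristic `1 - |S|`. -/
inductive LocalZeta {ι : Type} :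
    (ι → MvPolynomial (Fin 2) ℂ) → ℕ → ℕ → ℕ → ℕ → RatFunc ℂ → Prop
  | unit (g : ι → MvPolynomial (Fin 2) ℂ) (a₀ n₀ a₁ n₁ : ℕ) (j : ι)
      (hj : constantCoeff (g j) ≠ 0) :
      LocalZeta g a₀ n₀ a₁ n₁ (fac a₀ n₀ * fac a₁ n₁)
  | curveV (g : ι → MvPolynomial (Fin 2) ℂ) (a₀ n₀ m : ℕ) (hm : 1 ≤ m)
      (h : MvPolynomial (Fin 2) ℂ) (k : ι → MvPolynomial (Fin 2) ℂ)
      (hg : ∀ j, g j = h ^ m * k j) (h0 : constantCoeff h = 0)
      (h1 : constantCoeff (pderiv 1 h) ≠ 0) (j : ι) (hj : constantCoeff (k j) ≠ 0) :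
      LocalZeta g a₀ n₀ 0 1 (fac a₀ n₀ * fac m 1)
  | curveU (g : ι → MvPolynomial (Fin 2) ℂ) (a₁ n₁ m : ℕ) (hm : 1 ≤ m)
      (h : MvPolynomial (Fin 2) ℂ) (k : ι → MvPolynomial (Fin 2) ℂ)
      (hg : ∀ j, g j = h ^ m * k j) (h0 : constantCoeff h = 0)
      (h1 : constantCoeff (pderiv 0 h) ≠ 0) (j : ι) (hj : constantCoeff (k j) ≠ 0) :
      LocalZeta g 0 1 a₁ n₁ (fac a₁ n₁ * fac m 1)
  | blowup (g : ι → MvPolynomial (Fin 2) ℂ) (a₀ n₀ a₁ n₁ m : ℕ) (hm : 1 ≤ m)
      (gc : ℂ → ι → MvPolynomial (Fin 2) ℂ) (gI : ι → MvPolynomial (Fin 2) ℂ)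
      (hgc : ∀ c j, aeval (chart c) (g j) = X 0 ^ m * gc c j)
      (hgI : ∀ j, aeval chartI (g j) = X 1 ^ m * gI j)
      (S : Finset ℂ) (h0S : 0 ∈ S) (hS : ∀ c ∉ S, ∃ j, constantCoeff (gc c j) ≠ 0)
      (Zc : ℂ → RatFunc ℂ) (ZI : RatFunc ℂ)
      (h0 : LocalZeta (gc 0) (a₀ + a₁ + m) (n₀ + n₁) a₁ n₁ (Zc 0))
      (hc : ∀ c ∈ S, c ≠ 0 → LocalZeta (gc c) (a₀ + a₁ + m) (n₀ + n₁) 0 1 (Zc c))
      (hI : LocalZeta gI a₀ n₀ (a₀ + a₁ + m) (n₀ + n₁) ZI) :
      LocalZeta g a₀ n₀ a₁ n₁
        (ZI + ∑ c ∈ S, Zc c + (1 - (S.card : RatFunc ℂ)) * fac (a₀ + a₁ + m) (n₀ + n₁))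

/-- Translation of the point `P` of the plane to the origin. -/
noncomputable def translate (P : Fin 2 → ℂ) : MvPolynomial (Fin 2) ℂ →ₐ[ℂ] MvPolynomial (Fin 2) ℂ :=
  aeval fun i => X i + C (P i)

/-- `C = {h = 0}` is an irreducible curve in the zero locus of the ideal `(f_j)`, and the ideal has
the multiplicity `m` along `C`. -/
def IsCurve {ι : Type} (f : ι → MvPolynomial (Fin 2) ℂ) (h : MvPolynomial (Fin 2) ℂ) (m : ℕ) :
    Prop :=
  Irreducible h ∧ 1 ≤ m ∧ ∃ k : ι → MvPolynomial (Fin 2) ℂ,
    (∀ j, f j = h ^ m * k j) ∧ ∃ j, ¬ h ∣ k j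

/-- `Z` is a rational function of the form
`χ₀ + ∑_i χ_i / (1 + m_i s) + ∑_{P ∈ S} Z_P`, where the `χ` are integers, the `m_i` are the
multiplicities of curves in the zero locus of the ideal, and `Z_P` is the contribution of the
point `P`, computed by a sequence of blow-ups of points.

The topological zeta function of the ideal is of this form: take for the curves `C_i` all the
irreducible curves in the zero locus `Y`, for `S` a finite set of points of `Y` which contains the
isolated points of `Y` and the singular points of the union of the curves and the points at which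
the ideal is not a power of the ideal of this union, `χ₀ = χ(ℂ ^ 2 ∖ Y)` and
`χ_i = χ(C_i ∖ S)`. -/
def PlaneZeta {ι : Type} (f : ι → MvPolynomial (Fin 2) ℂ) (Z : RatFunc ℂ) : Prop :=
  ∃ (χ₀ : ℤ) (r : ℕ) (h : Fin r → MvPolynomial (Fin 2) ℂ) (m : Fin r → ℕ) (χ : Fin r → ℤ)
    (S : Finset (Fin 2 → ℂ)) (ZP : (Fin 2 → ℂ) → RatFunc ℂ),
    (∀ i, IsCurve f (h i) (m i)) ∧
    (∀ P ∈ S, LocalZeta (fun j => translate P (f j)) 0 1 0 1 (ZP P)) ∧
    Z = (χ₀ : RatFunc ℂ) + ∑ i, (χ i : RatFunc ℂ) * fac (m i) 1 + ∑ P ∈ S, ZP P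

end Pool.Agent.W574.SM
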