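import Pool.Agent.W574.SM.Engine

set_option autoImplicit false
set_option linter.unusedSectionVars false
set_option linter.unusedVariables false

/-! # The engine: roots of the Bernstein-Sato polynomial from residues, assembly -/

namespace Pool.Agent.W574.SM

open MvPolynomial

section Coordinates

variable {σ L : Type} [Fintype σ] [DecidableEq σ] [Field L] [Algebra ℂ L]
  (φ : MvPolynomial σ ℂ →ₐ[ℂ] L) (θ : σ → Derivation ℂ L L)

/-- The matrix of the derivatives of the coordinates. -/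
noncomputable def Jac : Matrix σ σ L := Matrix.of fun t i => θ t (φ (X i))

/-- The derivations `∂ / ∂ξ_i`. -/
noncomputable def DD (i : σ) : Derivation ℂ L L := ∑ t, ((Jac φ θ)⁻¹ i t) • θ t

theorem derivation_sum_apply {α : Type} (s : Finset α) (d : α → Derivation ℂ L L) (u : L) :
    (∑ t ∈ s, d t) u = ∑ t ∈ s, d t u := by
  classical
  induction s using Finset.induction_on with
  | empty => simp
  | insert a s ha ih => rw [Finset.sum_insert ha, Finset.sum_insert ha, Derivation.add_apply, ih]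

theorem DD_apply (i : σ) (u : L) : DD φ θ i u = ∑ t, (Jac φ θ)⁻¹ i t * θ t u := by
  rw [DD, derivation_sum_apply]
  rfl

theorem DD_X (hJ : (Jac φ θ).det ≠ 0) (i j : σ) :
    DD φ θ i (φ (X j)) = if i = j then 1 else 0 := by
  have h : ((Jac φ θ)⁻¹ * Jac φ θ) i j = (1 : Matrix σ σ L) i j := by
    rw [Matrix.nonsing_inv_mul _ (isUnit_iff_ne_zero.2 hJ)]
  rw [Matrix.mul_apply, Matrix.one_apply] at h
  rw [DD_apply, ← h]
  rfl

theorem DD_phi (hJ : (Jac φ θ).det ≠ 0) (i : σ) (p : MvPolynomial σ ℂ) :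
    DD φ θ i (φ p) = φ (pderiv i p) := by
  induction p using MvPolynomial.induction_on with
  | C a =>
    have h : φ (C a) = algebraMap ℂ L a := φ.commutes a
    rw [h, Derivation.map_algebraMap, pderiv_C, map_zero]
  | add p q hp hq => rw [map_add, map_add, hp, hq, map_add, map_add]
  | mul_X p j hp =>
    rw [map_mul, Derivation.leibniz, hp, DD_X φ θ hJ, Derivation.leibniz, pderiv_X]
    simp only [smul_eq_mul, map_add, map_mul, Pi.single_apply]
    by_cases h : i = j
    · subst h; simp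
    · rw [if_neg h, if_neg (fun h' => h h'.symm)]; simp

theorem T_DD [CharZero L] (hJ : (Jac φ θ).det ≠ 0)
    (hcomm : ∀ s t u, θ s (θ t u) = θ t (θ s u)) (T0 : L →ₗ[ℂ] ℂ) (hT0 : ∀ t u, T0 (θ t u) = 0)
    (i : σ) (u : L) : T0 ((Jac φ θ).det * DD φ θ i u) = 0 := by
  have h1 : (Jac φ θ).det * DD φ θ i u
      = Matrix.det (Matrix.of fun t k => θ t (Function.update (fun j => φ (X j)) i u k)) := by
    have h2 : (Matrix.of fun t k => θ t (Function.update (fun j => φ (X j)) i u k))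
        = (Jac φ θ).updateCol i (fun t => θ t u) := by
      ext t k
      rw [Matrix.updateCol_apply, Matrix.of_apply, Function.update_apply]
      split_ifs <;> rfl
    rw [h2, ← Matrix.cramer_apply, Matrix.cramer_eq_adjugate_mulVec, Matrix.mulVec, DD_apply,
      Finset.mul_sum]
    refine Finset.sum_congr rfl fun t _ => ?_
    rw [← mul_assoc]
    congr 1
    rw [Matrix.inv_def, Matrix.smul_apply, Ring.inverse_eq_inv', smul_eq_mul, ← mul_assoc,
      mul_inv_cancel₀ hJ, one_mul]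
  rw [h1]
  exact T0_det θ hcomm T0 hT0 i _

theorem T_parts [CharZero L] (hJ : (Jac φ θ).det ≠ 0)
    (hcomm : ∀ s t u, θ s (θ t u) = θ t (θ s u)) (T0 : L →ₗ[ℂ] ℂ) (hT0 : ∀ t u, T0 (θ t u) = 0)
    (i : σ) (u v : L) : T0 ((Jac φ θ).det * (v * DD φ θ i u))
      = T0 ((Jac φ θ).det * ((- DD φ θ i v) * u)) := by
  have h := T_DD φ θ hJ hcomm T0 hT0 i (v * u)
  rw [Derivation.leibniz, smul_eq_mul, smul_eq_mul, mul_add, map_add] at h
  have h2 : (Jac φ θ).det * ((- DD φ θ i v) * u) = - ((Jac φ θ).det * (u * DD φ θ i v)) := by ring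
  rw [h2, map_neg]
  linear_combination h

end Coordinates

section PairL

variable {σ ι κ L : Type} [Fintype σ] [DecidableEq σ] [Fintype ι] [DecidableEq ι] [Fintype κ]
  [DecidableEq κ] [Field L] [Algebra ℂ L]
  (φ : MvPolynomial σ ℂ →ₐ[ℂ] L) (lam : κ → ι → ℂ) (e : κ → ℂ) (G : κ → L) (H0 : L)

/-- The pairing of `A[∂_t]` with the test function, pulled back. -/
noncomputable def pairL (q : MvPolynomial ι (MvPolynomial σ ℂ)) : L := H0 * Lam e G (SS φ lam q)

theorem pairL_add (p q : MvPolynomial ι (MvPolynomial σ ℂ)) :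
    pairL φ lam e G H0 (p + q) = pairL φ lam e G H0 p + pairL φ lam e G H0 q := by
  rw [pairL, map_add, map_add, mul_add]; rfl

theorem pairL_zero : pairL φ lam e G H0 0 = 0 := by
  rw [pairL, map_zero, map_zero, mul_zero]

theorem pairL_sum {α : Type} (s : Finset α) (q : α → MvPolynomial ι (MvPolynomial σ ℂ)) :
    pairL φ lam e G H0 (∑ i ∈ s, q i) = ∑ i ∈ s, pairL φ lam e G H0 (q i) := by
  rw [pairL, map_sum, map_sum, Finset.mul_sum]; rfl

theorem pairL_C_mul (p : MvPolynomial σ ℂ) (q : MvPolynomial ι (MvPolynomial σ ℂ)) :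
    pairL φ lam e G H0 (C p * q) = φ p * pairL φ lam e G H0 q := by
  rw [pairL, pairL, map_mul, SS_C, C_mul', map_smul, smul_eq_mul]
  ring

theorem pairL_one : pairL φ lam e G H0 1 = H0 := by
  have h : Lam e G (1 : MvPolynomial κ L) = 1 := by
    have h1 : (1 : MvPolynomial κ L) = monomial 0 1 := rfl
    rw [h1, Lam_monomial, wt_zero, one_mul]
  rw [pairL, map_one, h, mul_one]

/-- The transpose of `∂_i` on `A[∂_t]`. -/
noncomputable def dh (f : ι → MvPolynomial σ ℂ) (i : σ)
    (q : MvPolynomial ι (MvPolynomial σ ℂ)) : MvPolynomial ι (MvPolynomial σ ℂ) :=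
  dcoef (pderiv i) q + (∑ j, C (pderiv i (f j)) * X j) * q

theorem ip_dh (f : ι → MvPolynomial σ ℂ) (i : σ) (s : ι →₀ ℕ)
    (q : MvPolynomial ι (MvPolynomial σ ℂ)) :
    pderiv i (ip (E f s) q) = ip (E f s) (dh f i q) := by
  have h1 : ip (dcoef (pderiv i) (E f s)) q
      = ip (E f s) ((∑ j, C (pderiv i (f j)) * X j) * q) := by
    rw [E, dcoef_Phi, ip_sum_left, Finset.sum_mul, map_sum]
    refine Finset.sum_congr rfl fun j _ => ?_
    rw [ip_C_mul_left, mul_assoc, ip_C_mul, ip_X_mul]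
  rw [dh, map_add, ← h1]
  exact ip_dcoef (pderiv i) (E f s) q

variable (θ : σ → Derivation ℂ L L) (f : ι → MvPolynomial σ ℂ)

theorem DD_log (hG : ∀ m, G m ≠ 0)
    (hH : ∀ t, θ t H0 = H0 * ∑ m, algebraMap ℂ L (e m) * (θ t (G m) * (G m)⁻¹)) (i : σ) :
    DD φ θ i H0 = H0 * ∑ m, algebraMap ℂ L (e m) * (DD φ θ i (G m) * (G m)⁻¹) := by
  simp only [DD_apply, hH]
  rw [Finset.mul_sum]
  simp only [Finset.mul_sum, Finset.sum_mul]
  rw [Finset.sum_comm]
  refine Finset.sum_congr rfl fun m _ => Finset.sum_congr rfl fun t _ => ?_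
  ring

theorem pairL_dh (hJ : (Jac φ θ).det ≠ 0) (hGf : ∀ m, G m = ∑ j, algebraMap ℂ L (lam m j) * φ (f j))
    (hG : ∀ m, G m ≠ 0)
    (hH : ∀ t, θ t H0 = H0 * ∑ m, algebraMap ℂ L (e m) * (θ t (G m) * (G m)⁻¹))
    (i : σ) (q : MvPolynomial ι (MvPolynomial σ ℂ)) :
    pairL φ lam e G H0 (dh f i q) = DD φ θ i (pairL φ lam e G H0 q) := by
  have h1 : SS φ lam (∑ j, C (pderiv i (f j)) * X j) = ∑ m, C (DD φ θ i (G m)) * X m := by
    rw [map_sum]
    simp only [map_mul, SS_C, SS_X, ell, ← DD_phi φ θ hJ, Finset.mul_sum, hGf]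
    rw [Finset.sum_comm]
    refine Finset.sum_congr rfl fun m _ => ?_
    rw [map_sum, map_sum, Finset.sum_mul]
    refine Finset.sum_congr rfl fun j _ => ?_
    rw [Derivation.leibniz, Derivation.map_algebraMap, smul_zero, add_zero, smul_eq_mul, C_mul]
    ring
  rw [dh, pairL, map_add, map_mul, h1, SS_dcoef φ lam (DD φ θ i) (pderiv i)
    (fun p => DD_phi φ θ hJ i p), ← Lam_deriv e G hG (DD φ θ i), pairL, Derivation.leibniz,
    DD_log φ e G H0 θ hG hH i, smul_eq_mul, smul_eq_mul]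
  ring

/-- The transpose of the Euler operator `∑ t_j ∂_{t_j}`. -/
noncomputable def thetaTot (q : MvPolynomial ι (MvPolynomial σ ℂ)) :
    MvPolynomial ι (MvPolynomial σ ℂ) := ∑ j, theta f j q

theorem pairL_thetaTot (hGf : ∀ m, G m = ∑ j, algebraMap ℂ L (lam m j) * φ (f j))
    (hG : ∀ m, G m ≠ 0) (q : MvPolynomial ι (MvPolynomial σ ℂ)) :
    pairL φ lam e G H0 (thetaTot f q) = algebraMap ℂ L (∑ m, e m) * pairL φ lam e G H0 q := by
  have h1 : SS φ lam (thetaTot f q) = ∑ m, (C (G m) * X m * SS φ lam q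
      + X m * pderiv m (SS φ lam q)) := by
    rw [thetaTot, map_sum, Finset.sum_add_distrib]
    have h2 : ∀ j, SS φ lam (theta f j q) = ∑ m, (C (algebraMap ℂ L (lam m j) * φ (f j)) * X m *
        SS φ lam q + X m * (C (algebraMap ℂ L (lam m j)) * SS φ lam (pderiv j q))) := by
      intro j
      rw [theta, map_mul, map_add, map_mul, SS_X, SS_C, ell, Finset.sum_mul]
      refine Finset.sum_congr rfl fun m _ => ?_
      rw [C_mul]
      ring
    simp only [h2]
    rw [Finset.sum_comm, ← Finset.sum_add_distrib]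
    refine Finset.sum_congr rfl fun m _ => ?_
    rw [Finset.sum_add_distrib, SS_pderiv, ← Finset.mul_sum]
    congr 1
    rw [hGf, map_sum, Finset.sum_mul, Finset.sum_mul]
  rw [pairL, h1, map_sum]
  simp only [Lam_euler e G hG]
  rw [pairL, ← Finset.sum_mul, map_sum]
  ring

end PairL

end Pool.Agent.W574.SM
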