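import Pool.Agent.W574.SM.NodeCurve
import Pool.Agent.W574.SM.Bracket
import Pool.Agent.W574.SM.TwRoot
import Pool.Agent.W574.SM.ZetaDefs

set_option autoImplicit false
set_option linter.unusedSectionVars false
set_option linter.unusedVariables false

/-! # The charts of the blow-up of a point of the plane -/

namespace Pool.Agent.W574.SM

open Polynomial

/-- restriction to the line `u = 0` -/
noncomputable def res0 : MP →ₐ[ℂ] ℂ[X] := MvPolynomial.aeval ![0, X]

/-- restriction to the line `v = 0` -/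
noncomputable def res1 : MP →ₐ[ℂ] ℂ[X] := MvPolynomial.aeval ![X, 0]

theorem res0_X0 : res0 (MvPolynomial.X 0) = 0 := by rw [res0, MvPolynomial.aeval_X]; rfl
theorem res0_X1 : res0 (MvPolynomial.X 1) = X := by rw [res0, MvPolynomial.aeval_X]; rfl
theorem res1_X0 : res1 (MvPolynomial.X 0) = X := by rw [res1, MvPolynomial.aeval_X]; rfl
theorem res1_X1 : res1 (MvPolynomial.X 1) = 0 := by rw [res1, MvPolynomial.aeval_X]; rfl

theorem ext2 {B : Type} [CommSemiring B] [Algebra ℂ B] {φ ψ : MP →ₐ[ℂ] B}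
    (h0 : φ (MvPolynomial.X 0) = ψ (MvPolynomial.X 0))
    (h1 : φ (MvPolynomial.X 1) = ψ (MvPolynomial.X 1)) : φ = ψ := by
  ext1 i
  have hi : i = 0 ∨ i = 1 := by omega
  rcases hi with rfl | rfl
  · exact h0
  · exact h1

theorem resM_eq (q : MP) : resM (RatFunc.X : RatFunc ℂ) q
    = algebraMap ℂ[X] (RatFunc ℂ) (res0 q) := by
  have h : resM (RatFunc.X : RatFunc ℂ)
      = (IsScalarTower.toAlgHom ℂ ℂ[X] (RatFunc ℂ)).comp res0 := by
    apply ext2
    · rw [AlgHom.comp_apply, res0_X0, map_zero, resM, MvPolynomial.aeval_X]; rfl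
    · rw [AlgHom.comp_apply, res0_X1, resM, MvPolynomial.aeval_X]
      exact RatFunc.algebraMap_X.symm
  rw [h]
  rfl

theorem eval_res0 (c : ℂ) (q : MP) : (res0 q).eval c = MvPolynomial.eval ![0, c] q := by
  have h : (Polynomial.aeval c).comp res0 = MvPolynomial.aeval ![0, c] := by
    apply ext2
    · rw [AlgHom.comp_apply, res0_X0, map_zero, MvPolynomial.aeval_X]; rfl
    · rw [AlgHom.comp_apply, res0_X1, aeval_X, MvPolynomial.aeval_X]; rfl
  have h1 := congrArg (fun φ : MP →ₐ[ℂ] ℂ => φ q) h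
  simp only [AlgHom.comp_apply] at h1
  rw [coe_aeval_eq_eval] at h1
  rw [h1]
  rfl

theorem vec00 : (![0, 0] : Fin 2 → ℂ) = 0 := by
  funext i; fin_cases i <;> rfl

theorem coeff_res0 (q : MP) : (res0 q).coeff 0 = MvPolynomial.constantCoeff q := by
  rw [coeff_zero_eq_eval_zero, eval_res0, vec00, MvPolynomial.eval_zero]

theorem coeff_res1 (q : MP) : (res1 q).coeff 0 = MvPolynomial.constantCoeff q := by
  have h : res1 q = res0 (sw q) := by
    have h2 : res1 = res0.comp sw := by
      apply ext2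
      · rw [AlgHom.comp_apply, sw_X0, res0_X1, res1_X0]
      · rw [AlgHom.comp_apply, sw_X1, res0_X0, res1_X1]
    rw [h2]
    rfl
  rw [h, coeff_res0, cc_sw]

theorem res0_pderiv (q : MP) : res0 (MvPolynomial.pderiv 1 q) = derivative (res0 q) := by
  induction q using MvPolynomial.induction_on with
  | C c =>
    rw [MvPolynomial.pderiv_C, map_zero]
    have : res0 (MvPolynomial.C c) = C c := res0.commutes c
    rw [this, derivative_C]
  | add p q hp hq => rw [map_add, map_add, hp, hq, map_add, derivative_add]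
  | mul_X p i hp =>
    rw [Derivation.leibniz, smul_eq_mul, smul_eq_mul, map_add, map_mul, map_mul, hp, map_mul,
      derivative_mul]
    have hi : i = 0 ∨ i = 1 := by omega
    rcases hi with rfl | rfl
    · rw [MvPolynomial.pderiv_X_of_ne (by decide), res0_X0]
      simp
    · rw [MvPolynomial.pderiv_X_self, res0_X1]
      simp
      ring

/-- translation along `u = 0` -/
noncomputable def tr (c : ℂ) : MP →ₐ[ℂ] MP :=
  MvPolynomial.aeval ![MvPolynomial.X 0, MvPolynomial.X 1 + MvPolynomial.C c]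

theorem tr_X0 (c : ℂ) : tr c (MvPolynomial.X 0) = MvPolynomial.X 0 := by
  rw [tr, MvPolynomial.aeval_X]; rfl
theorem tr_X1 (c : ℂ) : tr c (MvPolynomial.X 1) = MvPolynomial.X 1 + MvPolynomial.C c := by
  rw [tr, MvPolynomial.aeval_X]; rfl

theorem res0_tr (c : ℂ) (q : MP) : res0 (tr c q) = (res0 q).comp (X + C c) := by
  have h : res0.comp (tr c) = (Polynomial.aeval (X + C c)).comp res0 := by
    apply ext2
    · rw [AlgHom.comp_apply, AlgHom.comp_apply, tr_X0, res0_X0, map_zero]
    · rw [AlgHom.comp_apply, AlgHom.comp_apply, tr_X1, map_add, res0_X1, aeval_X]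
      congr 1
      exact res0.commutes c
  have h1 := congrArg (fun φ : MP →ₐ[ℂ] ℂ[X] => φ q) h
  simp only [AlgHom.comp_apply] at h1
  rw [h1]
  rfl

theorem chart_X0 (c : ℂ) : MvPolynomial.aeval (chart c) (MvPolynomial.X 0 : MP)
    = MvPolynomial.X 0 := by
  rw [MvPolynomial.aeval_X]; rfl
theorem chart_X1 (c : ℂ) : MvPolynomial.aeval (chart c) (MvPolynomial.X 1 : MP)
    = MvPolynomial.X 0 * (MvPolynomial.X 1 + MvPolynomial.C c) := by
  rw [MvPolynomial.aeval_X]; rfl
theorem chartI_X0 : MvPolynomial.aeval chartI (MvPolynomial.X 0 : MP)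
    = MvPolynomial.X 0 * MvPolynomial.X 1 := by
  rw [MvPolynomial.aeval_X]; rfl
theorem chartI_X1 : MvPolynomial.aeval chartI (MvPolynomial.X 1 : MP)
    = MvPolynomial.X 1 := by
  rw [MvPolynomial.aeval_X]; rfl

theorem tr_chart (c : ℂ) (q : MP) : tr c (MvPolynomial.aeval (chart 0) q)
    = MvPolynomial.aeval (chart c) q := by
  have h : (tr c).comp (MvPolynomial.aeval (chart 0)) = MvPolynomial.aeval (chart c) := by
    apply ext2
    · rw [AlgHom.comp_apply, chart_X0, chart_X0, tr_X0]
    · rw [AlgHom.comp_apply, chart_X1, chart_X1, map_mul, tr_X0, map_add, tr_X1]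
      have : tr c (MvPolynomial.C 0) = MvPolynomial.C 0 := (tr c).commutes 0
      rw [this, map_zero, add_zero]
  rw [← h]; rfl

theorem X0_pow_ne (m : ℕ) : (MvPolynomial.X 0 : MP) ^ m ≠ 0 :=
  pow_ne_zero _ (MvPolynomial.X_ne_zero 0)
theorem X1_pow_ne (m : ℕ) : (MvPolynomial.X 1 : MP) ^ m ≠ 0 :=
  pow_ne_zero _ (MvPolynomial.X_ne_zero 1)

/-- the strict transforms in the charts at finite distance -/
theorem res0_chart (g g0 gc : MP) (m : ℕ) (c : ℂ)
    (h0 : MvPolynomial.aeval (chart 0) g = MvPolynomial.X 0 ^ m * g0)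
    (hc : MvPolynomial.aeval (chart c) g = MvPolynomial.X 0 ^ m * gc) :
    res0 gc = (res0 g0).comp (X + C c) := by
  have h1 : gc = tr c g0 := by
    apply mul_left_cancel₀ (X0_pow_ne m)
    rw [← hc, ← tr_chart, h0, map_mul, map_pow, tr_X0]
  rw [h1, res0_tr]

theorem eq_of_eval_ne (p q : ℂ[X]) (h : ∀ x, x ≠ 0 → p.eval x = q.eval x) : p = q := by
  have h1 : X * p = X * q := by
    apply Polynomial.funext
    intro x
    rw [eval_mul, eval_mul, eval_X]
    by_cases hx : x = 0
    · rw [hx, zero_mul, zero_mul]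
    · rw [h x hx]
  exact mul_left_cancel₀ X_ne_zero h1

theorem eval_resI (g g0 gI : MP) (m : ℕ)
    (h0 : MvPolynomial.aeval (chart 0) g = MvPolynomial.X 0 ^ m * g0)
    (hI : MvPolynomial.aeval chartI g = MvPolynomial.X 1 ^ m * gI) (x : ℂ) (hx : x ≠ 0) :
    (res1 gI).eval x = x ^ m * (res0 g0).eval x⁻¹ := by
  set φ1 : MP →ₐ[ℂ] ℂ[X] := MvPolynomial.aeval ![C x, X] with hφ1
  set φ2 : MP →ₐ[ℂ] ℂ[X] := MvPolynomial.aeval ![C x * X, C x⁻¹] with hφ2
  have h10 : φ1 (MvPolynomial.X 0) = C x := by rw [hφ1, MvPolynomial.aeval_X]; rfl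
  have h11 : φ1 (MvPolynomial.X 1) = X := by rw [hφ1, MvPolynomial.aeval_X]; rfl
  have h20 : φ2 (MvPolynomial.X 0) = C x * X := by rw [hφ2, MvPolynomial.aeval_X]; rfl
  have h21 : φ2 (MvPolynomial.X 1) = C x⁻¹ := by rw [hφ2, MvPolynomial.aeval_X]; rfl
  have hxx : C x * C x⁻¹ = (1 : ℂ[X]) := by rw [← C_mul, mul_inv_cancel₀ hx, C_1]
  have h : φ1.comp (MvPolynomial.aeval chartI) = φ2.comp (MvPolynomial.aeval (chart 0)) := by
    apply ext2
    · rw [AlgHom.comp_apply, AlgHom.comp_apply, chartI_X0, chart_X0, map_mul, h10, h11, h20]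
    · rw [AlgHom.comp_apply, AlgHom.comp_apply, chartI_X1, chart_X1, map_mul, map_add, h11, h20,
        h21]
      have : φ2 (MvPolynomial.C 0) = C 0 := φ2.commutes 0
      rw [this, C_0, add_zero]
      linear_combination -X * hxx
  have h1 := congrArg (fun φ : MP →ₐ[ℂ] ℂ[X] => φ g) h
  simp only [AlgHom.comp_apply] at h1
  rw [h0, hI, map_mul, map_mul, map_pow, map_pow, h11, h20] at h1
  have h2 : φ1 gI = C x ^ m * φ2 g0 := by
    apply mul_left_cancel₀ (pow_ne_zero m (X_ne_zero (R := ℂ)))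
    rw [h1, mul_pow]
    ring
  have h3 : (φ1 gI).eval 0 = (res1 gI).eval x := by
    have h4 : (Polynomial.aeval (0 : ℂ)).comp φ1 = (Polynomial.aeval x).comp res1 := by
      apply ext2
      · rw [AlgHom.comp_apply, AlgHom.comp_apply, h10, res1_X0]; simp
      · rw [AlgHom.comp_apply, AlgHom.comp_apply, h11, res1_X1]; simp
    have h5 := congrArg (fun φ : MP →ₐ[ℂ] ℂ => φ gI) h4
    simp only [AlgHom.comp_apply] at h5
    rwa [coe_aeval_eq_eval, coe_aeval_eq_eval] at h5
  have h6 : (φ2 g0).eval 0 = (res0 g0).eval x⁻¹ := by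
    have h4 : (Polynomial.aeval (0 : ℂ)).comp φ2 = (Polynomial.aeval x⁻¹).comp res0 := by
      apply ext2
      · rw [AlgHom.comp_apply, AlgHom.comp_apply, h20, res0_X0]; simp
      · rw [AlgHom.comp_apply, AlgHom.comp_apply, h21, res0_X1]; simp
    have h5 := congrArg (fun φ : MP →ₐ[ℂ] ℂ => φ g0) h4
    simp only [AlgHom.comp_apply] at h5
    rwa [coe_aeval_eq_eval, coe_aeval_eq_eval] at h5
  rw [← h3, h2, eval_mul, h6, eval_pow, eval_C]

theorem eval_reflect (N : ℕ) (P : ℂ[X]) (hN : P.natDegree ≤ N) (x : ℂ) (hx : x ≠ 0) :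
    (reflect N P).eval x = x ^ N * P.eval x⁻¹ := by
  let : Invertible (x⁻¹) := invertibleOfNonzero (inv_ne_zero hx)
  have h := eval₂_reflect_mul_pow (RingHom.id ℂ) x⁻¹ N P hN
  rw [invOf_eq_inv, inv_inv] at h
  rw [← eval₂_id, ← eval₂_id, ← h]
  have h1 : x ^ N * (x⁻¹) ^ N = 1 := by rw [← mul_pow, mul_inv_cancel₀ hx, one_pow]
  linear_combination -(eval₂ (RingHom.id ℂ) x (reflect N P)) * h1

/-- the coefficients of the strict transform in the chart at infinity -/
theorem coeff_resI (g g0 gI : MP) (m : ℕ)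
    (h0 : MvPolynomial.aeval (chart 0) g = MvPolynomial.X 0 ^ m * g0)
    (hI : MvPolynomial.aeval chartI g = MvPolynomial.X 1 ^ m * gI) :
    (res0 g0).natDegree ≤ m ∧ (res1 gI).natDegree ≤ m ∧
      ∀ k ≤ m, (res1 gI).coeff k = (res0 g0).coeff (m - k) := by
  set P := res0 g0 with hP
  set R := res1 gI with hR
  set d := P.natDegree with hd
  have h1 : X ^ d * R = reflect (m + d) P := by
    apply eq_of_eval_ne
    intro x hx
    rw [eval_mul, eval_pow, eval_X, eval_resI g g0 gI m h0 hI x hx,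
      eval_reflect (m + d) P (by omega) x hx, pow_add]
    ring
  have h2 : ∀ i, (X ^ d * R).coeff i = P.coeff (revAt (m + d) i) := by
    intro i
    rw [h1, coeff_reflect]
  have h3 : ∀ k, R.coeff k = P.coeff (revAt (m + d) (k + d)) := by
    intro k
    rw [← h2, add_comm k d, coeff_X_pow_mul']
    simp
  have hdm : d ≤ m := by
    by_contra hlt
    push Not at hlt
    have h4 := h2 m
    rw [revAt_le (by omega), coeff_X_pow_mul', if_neg (by omega), Nat.add_sub_cancel_left] at h4
    have hP0 : P = 0 := leadingCoeff_eq_zero.1 h4.symm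
    rw [hd, hP0, natDegree_zero] at hlt
    omega
  refine ⟨hdm, ?_, ?_⟩
  · rw [natDegree_le_iff_coeff_eq_zero]
    intro k hk
    rw [h3, revAt_eq_self_of_lt (by omega)]
    exact coeff_eq_zero_of_natDegree_lt (by omega)
  · intro k hk
    rw [h3, revAt_le (by omega)]
    congr 1
    omega

/-- polynomials with vanishing Wronskian are proportional -/
theorem prop_of_wronskian (A P : ℂ[X]) (hP : P ≠ 0)
    (h : derivative A * P - A * derivative P = 0) : ∃ lam : ℂ, A = C lam * P := by
  have hdeg : ∀ B : ℂ[X], B ≠ 0 → derivative B * P - B * derivative P = 0 →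
      B.natDegree = P.natDegree := by
    intro B hB hw
    have hXd : ∀ P : ℂ[X], (X * derivative P).natDegree ≤ P.natDegree ∧
        (X * derivative P).coeff P.natDegree = P.natDegree * P.leadingCoeff := by
      intro P
      have h1 : ∀ m, (X * derivative P).coeff m = m * P.coeff m := by
        intro m
        rcases m with _ | m
        · simp
        · rw [coeff_X_mul, coeff_derivative]
          push_cast
          ring
      refine ⟨?_, h1 _⟩
      rw [natDegree_le_iff_coeff_eq_zero]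
      intro m hm
      rw [h1, coeff_eq_zero_of_natDegree_lt hm, mul_zero]
    have h1 : (X * derivative B) * P = B * (X * derivative P) := by
      linear_combination X * hw
    have h2 : ((X * derivative B) * P).coeff (B.natDegree + P.natDegree)
        = (B * (X * derivative P)).coeff (B.natDegree + P.natDegree) := by rw [h1]
    rw [coeff_mul_add_eq_of_natDegree_le (hXd B).1 le_rfl,
      coeff_mul_add_eq_of_natDegree_le le_rfl (hXd P).1, (hXd B).2, (hXd P).2] at h2
    have h3 : B.leadingCoeff * P.leadingCoeff ≠ 0 :=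
      mul_ne_zero (leadingCoeff_ne_zero.2 hB) (leadingCoeff_ne_zero.2 hP)
    have h4 : (B.natDegree : ℂ) * (B.leadingCoeff * P.leadingCoeff)
        = P.natDegree * (B.leadingCoeff * P.leadingCoeff) := by
      simp only [leadingCoeff] at h2 ⊢
      linear_combination h2
    exact_mod_cast mul_right_cancel₀ h3 h4
  refine ⟨A.leadingCoeff / P.leadingCoeff, ?_⟩
  by_cases hA : A = 0
  · rw [hA]; simp
  have hAd := hdeg A hA h
  have hlc := leadingCoeff_ne_zero.2 hP
  set lam := A.leadingCoeff / P.leadingCoeff with hlam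
  by_contra hne
  have hB : A - C lam * P ≠ 0 := sub_ne_zero.2 hne
  have hBd := hdeg (A - C lam * P) hB (by
    rw [derivative_sub, derivative_mul, derivative_C]
    linear_combination h)
  have h5 : (A - C lam * P).coeff P.natDegree = 0 := by
    rw [coeff_sub, coeff_C_mul, ← hAd]
    have : P.coeff A.natDegree = P.leadingCoeff := by rw [hAd]; rfl
    rw [this, hlam, div_mul_cancel₀ _ hlc]
    exact sub_self _
  rw [← hBd] at h5
  exact hB (leadingCoeff_eq_zero.1 h5)

end Pool.Agent.W574.SM
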