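import Mathlib

set_option autoImplicit false

/-! # Functional equations of ideals (arbitrary finite index types) -/

namespace Pool.Agent.W574.SM

open MvPolynomial

/-- The Weyl algebra, acting on polynomials: generated by the multiplications by the variables
and the partial derivatives. -/
noncomputable def weyl (σ : Type) : Subalgebra ℂ (Module.End ℂ (MvPolynomial σ ℂ)) :=
  Algebra.adjoin ℂ
    (Set.range (fun i : σ => LinearMap.mulLeft ℂ (X i : MvPolynomial σ ℂ)) ∪
      Set.range (fun i : σ => ((pderiv i : Derivation ℂ (MvPolynomial σ ℂ)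
        (MvPolynomial σ ℂ)) : MvPolynomial σ ℂ →ₗ[ℂ] MvPolynomial σ ℂ)))

/-- An element of `D[s_j]` (finitely many coefficients `P β ∈ D`, one for each monomial
`s ^ β`), evaluated at `s` and applied to the polynomial `g`. -/
noncomputable def applyAt {σ ι : Type} [Fintype ι] (P : (ι →₀ ℕ) →₀ weyl σ) (s : ι → ℕ)
    (g : MvPolynomial σ ℂ) : MvPolynomial σ ℂ :=
  P.sum fun β Q => (∏ j, (s j : ℂ) ^ β j) • (Q : Module.End ℂ (MvPolynomial σ ℂ)) g

/-- `b` satisfies a functional equation
`b(∑ s_j) ∏ f_j ^ s_j = ∑_c P_c ∏_{c_j < 0} binom(s_j, -c_j) ∏ f_j ^ (s_j + c_j)`,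
with `P_c ∈ D[s]` and finitely many `c ∈ ℤ ^ ι` with `∑ c_j = 1`. The equation is
stated for all `s ∈ ℕ ^ ι`; this is equivalent to the formal equation, as the coefficients are
polynomials in `s`. (If `s_j + c_j < 0` for some `j` then the binomial coefficient is zero.) -/
def IsFunctionalEq {σ ι : Type} [Fintype ι] (f : ι → MvPolynomial σ ℂ) (b : Polynomial ℂ) :
    Prop :=
  ∃ (S : Finset (ι → ℤ)) (P : (ι → ℤ) → ((ι →₀ ℕ) →₀ weyl σ)),
    (∀ c ∈ S, ∑ j, c j = 1) ∧
    ∀ s : ι → ℕ,
      C (b.eval ((∑ j, s j : ℕ) : ℂ)) * ∏ j, f j ^ s j =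
        ∑ c ∈ S, applyAt (P c) s
          (C ((∏ j, (if c j < 0 then (s j).choose (-c j).toNat else 1) : ℕ) : ℂ) *
            ∏ j, f j ^ ((s j : ℤ) + c j).toNat)

/-- The Bernstein-Sato polynomial of the ideal generated by the `f_j`: the monic polynomial of
least degree which satisfies a functional equation. -/
def IsBernsteinSato {σ ι : Type} [Fintype ι] (f : ι → MvPolynomial σ ℂ) (b : Polynomial ℂ) :
    Prop :=
  b.Monic ∧ IsFunctionalEq f b ∧
    ∀ b' : Polynomial ℂ, b'.Monic → IsFunctionalEq f b' → b.natDegree ≤ b'.natDegree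

end Pool.Agent.W574.SM
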