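import Pool.Agent.W574.SM.Chain

set_option autoImplicit false
set_option linter.unusedSectionVars false
set_option linter.unusedVariables false

/-! # Generic determinantal ideals -/

namespace Pool.Agent.W574.SM

open MvPowerSeries

section General

variable {n : Type} {R : Type} [Fintype n] [DecidableEq n] [CommRing R]

theorem det_of_rank (M : Matrix n n R) (b : n → ℕ) (h : ∀ t i, t ≠ i → b i ≤ b t → M t i = 0) :
    M.det = ∏ i, M i i := by
  rw [Matrix.det_apply]
  rw [Finset.sum_eq_single 1]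
  · simp
  · intro π _ hπ
    by_contra hne
    have hprod : ∏ i, M (π i) i ≠ 0 := fun h0 => hne (by rw [h0, smul_zero])
    have hfac : ∀ i, M (π i) i ≠ 0 := by
      intro i h0
      exact hprod (Finset.prod_eq_zero (Finset.mem_univ i) h0)
    have hle : ∀ i, b (π i) ≤ b i := by
      intro i
      by_cases hi : π i = i
      · rw [hi]
      · by_contra hlt
        exact hfac i (h _ _ hi (not_le.1 hlt).le)
    obtain ⟨i, hi⟩ : ∃ i, π i ≠ i := by
      by_contra hall
      push Not at hall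
      exact hπ (Equiv.ext hall)
    have hlt : b (π i) < b i := by
      by_contra hge
      exact hfac i (h _ _ hi (not_lt.1 hge))
    have h1 : ∑ i, b (π i) < ∑ i, b i :=
      Finset.sum_lt_sum (fun i _ => hle i) ⟨i, Finset.mem_univ i, hlt⟩
    rw [Equiv.sum_comp π b] at h1
    exact lt_irrefl _ h1
  · intro h0; exact absurd (Finset.mem_univ _) h0

theorem det_offdiag (M : Matrix n n R)
    (h : ∀ i j k l, i ≠ j → k ≠ l → M i j * M k l = 0) : M.det = ∏ i, M i i := by
  rw [Matrix.det_apply]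
  rw [Finset.sum_eq_single 1]
  · simp
  · intro π _ hπ
    obtain ⟨i, hi⟩ : ∃ i, π i ≠ i := by
      by_contra hall
      push Not at hall
      exact hπ (Equiv.ext hall)
    have hj : π (π i) ≠ π i := fun h0 => hi (π.injective h0)
    have h2 : ∏ k, M (π k) k = 0 := by
      rw [← Finset.mul_prod_erase _ _ (Finset.mem_univ i),
        ← Finset.mul_prod_erase (Finset.univ.erase i) _ (Finset.mem_erase.2 ⟨hi, Finset.mem_univ _⟩),
        ← mul_assoc, h _ _ _ _ hi hj, zero_mul]
    rw [h2, smul_zero]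
  · intro h0; exact absurd (Finset.mem_univ _) h0

theorem det_rank_add {A P : Type} [Fintype A] [DecidableEq A] [Fintype P] [DecidableEq P]
    (U : Matrix P A R) (V : Matrix A P R) (Q : Matrix P P R) (z : R) :
    z ^ Fintype.card A * (U * V + z • Q).det
      = z ^ Fintype.card P * (Matrix.fromBlocks (z • 1) V (-U) Q).det := by
  have h1 : Matrix.fromBlocks (z • 1) V (-U) Q * Matrix.fromBlocks 1 0 0 (z • 1)
      = Matrix.fromBlocks (z • 1) 0 0 1 * Matrix.fromBlocks 1 V (-U) (z • Q) := by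
    rw [Matrix.fromBlocks_multiply, Matrix.fromBlocks_multiply]
    simp
  have h2 := congrArg Matrix.det h1
  rw [Matrix.det_mul, Matrix.det_mul, Matrix.det_fromBlocks_zero₂₁, Matrix.det_fromBlocks_zero₂₁,
    Matrix.det_fromBlocks_one₁₁] at h2
  simp only [Matrix.det_one, Matrix.det_smul, one_mul, mul_one] at h2
  have h3 : z • Q - -U * V = U * V + z • Q := by
    rw [Matrix.neg_mul, sub_neg_eq_add, add_comm]
  rw [h3] at h2
  rw [← h2, mul_comm]

end General

section Jet

variable {σ : Type}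

theorem X_ne0 (t : σ) : (X t : MvPowerSeries σ ℂ) ≠ 0 := by
  classical
  intro h
  have := congrArg (MvPowerSeries.coeff (Finsupp.single t 1)) h
  rw [coeff_X, if_pos rfl, map_zero] at this
  exact one_ne_zero this

/-- the first order jet in the direction of the coordinate `l` -/
noncomputable def jet (l : σ) : MvPowerSeries σ ℂ →+* DualNumber ℂ where
  toFun f := TrivSqZeroExt.inl (constantCoeff f) +
    TrivSqZeroExt.inr (constantCoeff (pderiv ℂ l f))
  map_one' := by
    ext <;> simp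
  map_zero' := by
    ext <;> simp
  map_add' f g := by
    ext <;> simp
  map_mul' f g := by
    ext
    · simp
    · simp only [Derivation.leibniz, smul_eq_mul, map_add, map_mul]
      simp
      ring

theorem jet_apply (l : σ) (f : MvPowerSeries σ ℂ) : jet l f = TrivSqZeroExt.inl (constantCoeff f) +
    TrivSqZeroExt.inr (constantCoeff (pderiv ℂ l f)) := rfl

theorem jet_fst (l : σ) (f : MvPowerSeries σ ℂ) : (jet l f).fst = constantCoeff f := by
  simp [jet_apply]

theorem jet_snd (l : σ) (f : MvPowerSeries σ ℂ) :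
    (jet l f).snd = coeff (Finsupp.single l 1) f := by
  have h : constantCoeff (pderiv ℂ l f) = coeff (Finsupp.single l 1) f := by
    rw [← coeff_zero_eq_constantCoeff_apply, coeff_pderiv]
    simp
  rw [← h]
  simp [jet_apply]

end Jet

section Chart

variable {A R K α β : Type} [Fintype A] [DecidableEq A] [Fintype R] [DecidableEq R]
  [Fintype K] [DecidableEq K] [Fintype α] [DecidableEq α] [Fintype β] [DecidableEq β] (n : ℕ)

/-- rows or columns of the block of the exceptional coordinates -/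
abbrev Tl (n : ℕ) (R : Type) := Fin (n + 2) ⊕ R

variable (e1 : A ⊕ Tl n R ≃ α) (e2 : A ⊕ Tl n K ≃ β)

/-- the coordinates -/
noncomputable def vv (x : A ⊕ Tl n R) (y : A ⊕ Tl n K) : MvPowerSeries (α × β) ℂ :=
  X (e1 x, e2 y)

/-- the index of the equation of the divisor -/
def zz : α × β := (e1 (Sum.inr (Sum.inl (Fin.last _))), e2 (Sum.inr (Sum.inl (Fin.last _))))

/-- the block of rank `d` -/
noncomputable def mA : Matrix A A (MvPowerSeries (α × β) ℂ) :=
  1 + Matrix.of fun a b => vv n e1 e2 (Sum.inl a) (Sum.inl b)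

noncomputable def mB : Matrix A (Tl n K) (MvPowerSeries (α × β) ℂ) :=
  Matrix.of fun a c => vv n e1 e2 (Sum.inl a) (Sum.inr c)

noncomputable def mC : Matrix (Tl n R) A (MvPowerSeries (α × β) ℂ) :=
  Matrix.of fun r a => vv n e1 e2 (Sum.inr r) (Sum.inl a)

/-- the base point on the exceptional divisor -/
def y0 (r : Tl n R) (c : Tl n K) : ℂ :=
  Sum.elim (fun i => Sum.elim (fun k => if i = k then 1 else 0) (fun _ => 0) c) (fun _ => 0) r

/-- the coordinates on the exceptional divisor -/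
noncomputable def mY : Matrix (Tl n R) (Tl n K) (MvPowerSeries (α × β) ℂ) :=
  Matrix.of fun r c => (MvPowerSeries.C (y0 n r c) : MvPowerSeries (α × β) ℂ) +
    if r = Sum.inl (Fin.last _) ∧ c = Sum.inl (Fin.last _) then 0
    else vv n e1 e2 (Sum.inr r) (Sum.inr c)

/-- the generic matrix in the chart -/
noncomputable def mX : Matrix (A ⊕ Tl n R) (A ⊕ Tl n K) (MvPowerSeries (α × β) ℂ) :=
  Matrix.fromBlocks (mA n e1 e2) (mB n e1 e2) (mC n e1 e2)
    (mC n e1 e2 * (mA n e1 e2)⁻¹ * mB n e1 e2 + (X (zz n e1 e2) : MvPowerSeries (α × β) ℂ) • mY n e1 e2)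

/-- the chart -/
noncomputable def xi (t : α × β) : MvPowerSeries (α × β) ℂ :=
  mX n e1 e2 (e1.symm t.1) (e2.symm t.2)

/-- the determinants of the square submatrices of the matrix of variables -/
noncomputable def gen {P : Type} [Fintype P] [DecidableEq P] (rc : (P → α) × (P → β)) :
    MvPolynomial (α × β) ℂ :=
  Matrix.det (Matrix.of fun i j => MvPolynomial.X (rc.1 i, rc.2 j))

theorem aeval_gen {P : Type} [Fintype P] [DecidableEq P] (rc : (P → α) × (P → β)) :
    MvPolynomial.aeval (xi n e1 e2) (gen rc)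
      = ((mX n e1 e2).submatrix (fun i => e1.symm (rc.1 i)) (fun i => e2.symm (rc.2 i))).det := by
  rw [gen, AlgHom.map_det]
  congr 1
  ext1 i j
  rw [AlgHom.mapMatrix_apply, Matrix.map_apply, Matrix.of_apply, MvPolynomial.aeval_X]
  rfl

theorem mA_unit : IsUnit (mA n e1 e2).det := by
  rw [MvPowerSeries.isUnit_iff_constantCoeff]
  have h : (constantCoeff : MvPowerSeries (α × β) ℂ →+* ℂ).mapMatrix (mA n e1 e2) = 1 := by
    rw [mA, map_add, map_one]
    ext i j
    simp [vv]
  rw [RingHom.map_det, h, Matrix.det_one]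
  exact isUnit_one

theorem mX_eq : mX n e1 e2 = Matrix.fromRows (mA n e1 e2) (mC n e1 e2) *
      Matrix.fromCols 1 ((mA n e1 e2)⁻¹ * mB n e1 e2)
    + (X (zz n e1 e2) : MvPowerSeries (α × β) ℂ) • Matrix.fromBlocks 0 0 0 (mY n e1 e2) := by
  rw [Matrix.fromRows_mul_fromCols, Matrix.fromBlocks_smul, Matrix.fromBlocks_add, mX,
    ← Matrix.mul_assoc, ← Matrix.mul_assoc, Matrix.mul_nonsing_inv _ (mA_unit n e1 e2)]
  simp

theorem dvd_minor {P : Type} [Fintype P] [DecidableEq P]
    (hP : Fintype.card P = Fintype.card A + (n + 1)) (r : P → A ⊕ Tl n R) (c : P → A ⊕ Tl n K) :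
    X (zz n e1 e2) ^ (n + 1) ∣ ((mX n e1 e2).submatrix r c).det := by
  have h1 : (mX n e1 e2).submatrix r c
      = (Matrix.fromRows (mA n e1 e2) (mC n e1 e2)).submatrix r id *
        (Matrix.fromCols 1 ((mA n e1 e2)⁻¹ * mB n e1 e2)).submatrix id c
      + (X (zz n e1 e2) : MvPowerSeries (α × β) ℂ) • (Matrix.fromBlocks 0 0 0 (mY n e1 e2)).submatrix r c := by
    rw [mX_eq]
    rfl
  have h2 := det_rank_add ((Matrix.fromRows (mA n e1 e2) (mC n e1 e2)).submatrix r id)
    ((Matrix.fromCols 1 ((mA n e1 e2)⁻¹ * mB n e1 e2)).submatrix id c)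
    ((Matrix.fromBlocks 0 0 0 (mY n e1 e2)).submatrix r c) (X (zz n e1 e2))
  rw [← h1, hP, pow_add, mul_assoc] at h2
  exact ⟨_, mul_left_cancel₀ (pow_ne_zero _ (X_ne0 _)) h2⟩

theorem special_minor {P : Type} [Fintype P] [DecidableEq P] (eP : A ⊕ Fin (n + 1) ≃ P)
    (ρ : Fin (n + 1) → Tl n R) (χ : Fin (n + 1) → Tl n K) :
    ((mX n e1 e2).submatrix (fun i => Sum.map id ρ (eP.symm i))
      (fun i => Sum.map id χ (eP.symm i))).det
      = X (zz n e1 e2) ^ (n + 1) * ((mA n e1 e2).det * ((mY n e1 e2).submatrix ρ χ).det) := by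
  have h1 : (mX n e1 e2).submatrix (fun i => Sum.map id ρ (eP.symm i))
      (fun i => Sum.map id χ (eP.symm i))
      = ((mX n e1 e2).submatrix (Sum.map id ρ) (Sum.map id χ)).submatrix eP.symm eP.symm := rfl
  rw [h1, Matrix.det_submatrix_equiv_self]
  have h2 : (mX n e1 e2).submatrix (Sum.map id ρ) (Sum.map id χ)
      = Matrix.fromBlocks (mA n e1 e2) ((mB n e1 e2).submatrix id χ)
        ((mC n e1 e2).submatrix ρ id) ((mC n e1 e2 * (mA n e1 e2)⁻¹ * mB n e1 e2
          + (X (zz n e1 e2) : MvPowerSeries (α × β) ℂ) • mY n e1 e2).submatrix ρ χ) := by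
    ext i j
    rcases i with i | i <;> rcases j with j | j <;> rfl
  have : Invertible (mA n e1 e2) := Matrix.invertibleOfIsUnitDet _ (mA_unit n e1 e2)
  rw [h2, Matrix.det_fromBlocks₁₁]
  have h3 : (mC n e1 e2 * (mA n e1 e2)⁻¹ * mB n e1 e2
          + (X (zz n e1 e2) : MvPowerSeries (α × β) ℂ) • mY n e1 e2).submatrix ρ χ
        - (mC n e1 e2).submatrix ρ id * ⅟(mA n e1 e2) * (mB n e1 e2).submatrix id χ
      = (X (zz n e1 e2) : MvPowerSeries (α × β) ℂ) • (mY n e1 e2).submatrix ρ χ := by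
    rw [Matrix.invOf_eq_nonsing_inv]
    have h4 : (mC n e1 e2).submatrix ρ id * (mA n e1 e2)⁻¹ * (mB n e1 e2).submatrix id χ
        = (mC n e1 e2 * (mA n e1 e2)⁻¹ * mB n e1 e2).submatrix ρ χ := rfl
    rw [h4, Matrix.submatrix_add, Matrix.submatrix_smul]
    simp
  rw [h3, Matrix.det_smul, Fintype.card_fin]
  ring

/-- the partial derivatives of the coordinates -/
theorem pderiv_vv (t : α × β) (x : A ⊕ Tl n R) (y : A ⊕ Tl n K) :
    pderiv ℂ t (vv n e1 e2 x y) = if t = (e1 x, e2 y) then 1 else 0 := by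
  rw [vv]
  by_cases h : t = (e1 x, e2 y)
  · rw [if_pos h, h]
    exact pderiv_X_self
  · rw [if_neg h]
    exact pderiv_X_of_ne (Ne.symm h)

/-- a coordinate of the exceptional block -/
def IsExc (t : α × β) : Prop :=
  ∃ (r : Tl n R) (c : Tl n K), t = (e1 (Sum.inr r), e2 (Sum.inr c))

theorem pderiv_mA (t : α × β) (ht : IsExc n e1 e2 t) (a b : A) :
    pderiv ℂ t (mA n e1 e2 a b) = 0 := by
  obtain ⟨r, c, rfl⟩ := ht
  rw [mA, Matrix.add_apply, map_add, Matrix.of_apply, pderiv_vv, if_neg, add_zero]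
  · rw [Matrix.one_apply]
    split_ifs
    · exact pderiv_one
    · exact map_zero _
  · intro h
    rw [Prod.mk.injEq] at h
    have := e1.injective h.1
    simp at this

theorem pderiv_mB (t : α × β) (ht : IsExc n e1 e2 t) (a : A) (c : Tl n K) :
    pderiv ℂ t (mB n e1 e2 a c) = 0 := by
  obtain ⟨r, c', rfl⟩ := ht
  rw [mB, Matrix.of_apply, pderiv_vv, if_neg]
  intro h
  rw [Prod.mk.injEq] at h
  have := e1.injective h.1
  simp at this

theorem pderiv_mC (t : α × β) (ht : IsExc n e1 e2 t) (r : Tl n R) (a : A) :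
    pderiv ℂ t (mC n e1 e2 r a) = 0 := by
  obtain ⟨r', c', rfl⟩ := ht
  rw [mC, Matrix.of_apply, pderiv_vv, if_neg]
  intro h
  rw [Prod.mk.injEq] at h
  have := e2.injective h.2
  simp at this

theorem pderiv_mul_entries {I J H : Type} [Fintype J] (t : α × β)
    (M : Matrix I J (MvPowerSeries (α × β) ℂ)) (N : Matrix J H (MvPowerSeries (α × β) ℂ))
    (hM : ∀ i j, pderiv ℂ t (M i j) = 0) (hN : ∀ i j, pderiv ℂ t (N i j) = 0) (i : I) (k : H) :
    pderiv ℂ t ((M * N) i k) = 0 := by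
  rw [Matrix.mul_apply, map_sum]
  refine Finset.sum_eq_zero fun j _ => ?_
  rw [Derivation.leibniz, hM, hN, smul_zero, smul_zero, add_zero]

theorem pderiv_mAinv (t : α × β) (ht : IsExc n e1 e2 t) (a b : A) :
    pderiv ℂ t ((mA n e1 e2)⁻¹ a b) = 0 := by
  have h1 : mA n e1 e2 * (Matrix.of fun a b => pderiv ℂ t ((mA n e1 e2)⁻¹ a b)) = 0 := by
    ext1 i j
    have h2 := congrFun (congrFun (Matrix.mul_nonsing_inv _ (mA_unit n e1 e2)) i) j
    have h3 := congrArg (pderiv ℂ t) h2
    rw [Matrix.mul_apply, map_sum] at h3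
    have h4 : pderiv ℂ t ((1 : Matrix A A (MvPowerSeries (α × β) ℂ)) i j) = 0 := by
      rw [Matrix.one_apply]
      split_ifs
      · exact pderiv_one
      · exact map_zero _
    rw [h4] at h3
    rw [Matrix.mul_apply, Matrix.zero_apply, ← h3]
    refine Finset.sum_congr rfl fun k _ => ?_
    rw [Derivation.leibniz, pderiv_mA n e1 e2 t ht, smul_zero, add_zero, smul_eq_mul,
      Matrix.of_apply]
  have h2 : (Matrix.of fun a b => pderiv ℂ t ((mA n e1 e2)⁻¹ a b)) = 0 := by
    have := congrArg (fun M => (mA n e1 e2)⁻¹ * M) h1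
    simp only [← Matrix.mul_assoc, Matrix.nonsing_inv_mul _ (mA_unit n e1 e2), Matrix.one_mul,
      Matrix.mul_zero] at this
    exact this
  exact congrFun (congrFun h2 a) b

theorem pderiv_CAB (t : α × β) (ht : IsExc n e1 e2 t) (r : Tl n R) (c : Tl n K) :
    pderiv ℂ t ((mC n e1 e2 * (mA n e1 e2)⁻¹ * mB n e1 e2) r c) = 0 :=
  pderiv_mul_entries t _ _ (pderiv_mul_entries t _ _ (pderiv_mC n e1 e2 t ht)
    (pderiv_mAinv n e1 e2 t ht)) (pderiv_mB n e1 e2 t ht) r c

theorem xi_apply (x : A ⊕ Tl n R) (y : A ⊕ Tl n K) :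
    xi n e1 e2 (e1 x, e2 y) = mX n e1 e2 x y := by
  rw [xi, Equiv.symm_apply_apply, Equiv.symm_apply_apply]

theorem C_ite (p : Prop) [Decidable p] :
    (MvPowerSeries.C (if p then 1 else 0) : MvPowerSeries (α × β) ℂ) = if p then 1 else 0 := by
  split_ifs
  · exact map_one _
  · exact map_zero _

theorem xi_nonexc (t : α × β) (ht : ¬ IsExc n e1 e2 t) :
    ∃ c0 : ℂ, xi n e1 e2 t = MvPowerSeries.C c0 + X t := by
  obtain ⟨x, hx⟩ := e1.surjective t.1
  obtain ⟨y, hy⟩ := e2.surjective t.2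
  have htt : t = (e1 x, e2 y) := Prod.ext hx.symm hy.symm
  subst htt
  rw [xi_apply]
  rcases x with a | r <;> rcases y with b | c
  · refine ⟨if a = b then 1 else 0, ?_⟩
    rw [C_ite, ← Matrix.one_apply]
    rfl
  · exact ⟨0, by rw [map_zero, zero_add]; rfl⟩
  · exact ⟨0, by rw [map_zero, zero_add]; rfl⟩
  · exact absurd ⟨r, c, rfl⟩ ht

theorem xi_exc (r : Tl n R) (c : Tl n K) :
    xi n e1 e2 (e1 (Sum.inr r), e2 (Sum.inr c))
      = (mC n e1 e2 * (mA n e1 e2)⁻¹ * mB n e1 e2) r c + X (zz n e1 e2) * mY n e1 e2 r c := by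
  rw [xi_apply]
  rfl

theorem exc_eq_zz (r : Tl n R) (c : Tl n K) :
    (e1 (Sum.inr r), e2 (Sum.inr c)) = zz n e1 e2 ↔
      (r = Sum.inl (Fin.last _) ∧ c = Sum.inl (Fin.last _)) := by
  rw [zz, Prod.mk.injEq, e1.injective.eq_iff, e2.injective.eq_iff, Sum.inr.injEq, Sum.inr.injEq]

theorem pderiv_mY (t : α × β) (r : Tl n R) (c : Tl n K) :
    pderiv ℂ t (mY n e1 e2 r c) = if t = (e1 (Sum.inr r), e2 (Sum.inr c)) ∧ t ≠ zz n e1 e2
      then 1 else 0 := by
  rw [mY, Matrix.of_apply, map_add, pderiv_C, zero_add]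
  by_cases h : r = Sum.inl (Fin.last _) ∧ c = Sum.inl (Fin.last _)
  · rw [if_pos h, map_zero, if_neg]
    rintro ⟨h1, h2⟩
    rw [← exc_eq_zz n e1 e2, ← h1] at h
    exact h2 h
  · rw [if_neg h, pderiv_vv]
    by_cases h1 : t = (e1 (Sum.inr r), e2 (Sum.inr c))
    · rw [if_pos h1, if_pos]
      refine ⟨h1, ?_⟩
      rw [h1, Ne, exc_eq_zz n e1 e2]
      exact h
    · rw [if_neg h1, if_neg fun h2 => h1 h2.1]

theorem isExc_zz : IsExc n e1 e2 (zz n e1 e2) := ⟨_, _, rfl⟩

open Classical in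
/-- the diagonal entries of the Jacobian matrix -/
theorem jac_diag (t : α × β) : pderiv ℂ t (xi n e1 e2 t)
    = if IsExc n e1 e2 t ∧ t ≠ zz n e1 e2 then X (zz n e1 e2) else 1 := by
  by_cases ht : IsExc n e1 e2 t
  · obtain ⟨r, c, rfl⟩ := id ht
    rw [xi_exc, map_add, pderiv_CAB n e1 e2 _ ht, zero_add, Derivation.leibniz, pderiv_mY]
    by_cases hz : (e1 (Sum.inr r), e2 (Sum.inr c)) = zz n e1 e2
    · rw [if_neg fun h => h.2 hz, if_neg fun h => h.2 hz, hz, pderiv_X_self, smul_zero, zero_add,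
        smul_eq_mul, mul_one]
      rw [exc_eq_zz] at hz
      rw [mY, Matrix.of_apply, if_pos hz, hz.1, hz.2, add_zero, y0]
      simp
    · rw [if_pos ⟨rfl, hz⟩, if_pos ⟨ht, hz⟩, pderiv_X_of_ne (Ne.symm hz), smul_zero, add_zero,
        smul_eq_mul, mul_one]
  · obtain ⟨c0, hc⟩ := xi_nonexc n e1 e2 t ht
    rw [hc, map_add, pderiv_C, zero_add, pderiv_X_self, if_neg fun h => ht h.1]

theorem jac_tri (t i : α × β) (hti : t ≠ i)
    (h : ¬ IsExc n e1 e2 i ∨ (IsExc n e1 e2 t ∧ (i = zz n e1 e2 ∨ t ≠ zz n e1 e2))) :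
    pderiv ℂ t (xi n e1 e2 i) = 0 := by
  by_cases hi : IsExc n e1 e2 i
  · obtain ⟨ht, h1⟩ := h.resolve_left (fun h => h hi)
    obtain ⟨r, c, rfl⟩ := hi
    rw [xi_exc, map_add, pderiv_CAB n e1 e2 _ ht, zero_add, Derivation.leibniz, pderiv_mY,
      if_neg fun h => hti h.1, smul_zero, zero_add]
    have hz : t ≠ zz n e1 e2 := by
      rcases h1 with h1 | h1
      · rw [← h1]; exact hti
      · exact h1
    rw [pderiv_X_of_ne (Ne.symm hz), smul_zero]
  · obtain ⟨c0, hc⟩ := xi_nonexc n e1 e2 i hi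
    rw [hc, map_add, pderiv_C, zero_add, pderiv_X_of_ne (Ne.symm hti)]

open Classical in
theorem jac_det : (Matrix.of fun t i => pderiv ℂ t (xi n e1 e2 i)).det
    = X (zz n e1 e2) ^ (Fintype.card (Tl n R) * Fintype.card (Tl n K) - 1) := by
  rw [det_of_rank _ (fun t => if IsExc n e1 e2 t then (if t = zz n e1 e2 then 1 else 2) else 0)]
  · simp only [Matrix.of_apply, jac_diag]
    rw [Finset.prod_ite, Finset.prod_const_one, mul_one, Finset.prod_const]
    congr 1
    have h1 : (Finset.univ.filter fun t => IsExc n e1 e2 t ∧ t ≠ zz n e1 e2)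
        = ((Finset.univ : Finset (Tl n R × Tl n K)).image
          fun p => (e1 (Sum.inr p.1), e2 (Sum.inr p.2))).erase (zz n e1 e2) := by
      ext t
      rw [Finset.mem_filter, Finset.mem_erase, Finset.mem_image]
      constructor
      · rintro ⟨_, ⟨r, c, h⟩, h2⟩
        exact ⟨h2, (r, c), Finset.mem_univ _, h.symm⟩
      · rintro ⟨h2, ⟨r, c⟩, _, h⟩
        exact ⟨Finset.mem_univ _, ⟨r, c, h.symm⟩, h2⟩
    rw [h1, Finset.card_erase_of_mem, Finset.card_image_of_injective, Finset.card_univ,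
      Fintype.card_prod]
    · intro p q hpq
      simp only [Prod.mk.injEq, e1.injective.eq_iff, e2.injective.eq_iff, Sum.inr.injEq] at hpq
      exact Prod.ext hpq.1 hpq.2
    · exact Finset.mem_image.2 ⟨(Sum.inl (Fin.last _), Sum.inl (Fin.last _)), Finset.mem_univ _,
        rfl⟩
  · intro t i hti hb
    rw [Matrix.of_apply]
    apply jac_tri n e1 e2 t i hti
    by_cases hi : IsExc n e1 e2 i
    · right
      by_cases ht : IsExc n e1 e2 t
      · refine ⟨ht, ?_⟩
        by_contra hcon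
        push Not at hcon
        simp only [if_pos hi, if_pos ht, if_pos hcon.2, if_neg hcon.1] at hb
        omega
      · simp only [if_pos hi, if_neg ht] at hb
        split_ifs at hb <;> omega
    · left; exact hi

/-! ### The coordinates on the divisor -/

theorem jet_mY (l : α × β) (r : Tl n R) (c : Tl n K) :
    jet l (mY n e1 e2 r c) = TrivSqZeroExt.inl (y0 n r c) + TrivSqZeroExt.inr
      (if l = (e1 (Sum.inr r), e2 (Sum.inr c)) ∧ l ≠ zz n e1 e2 then 1 else 0) := by
  rw [jet_apply, pderiv_mY]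
  congr 2
  · rw [mY, Matrix.of_apply, map_add, constantCoeff_C]
    split_ifs
    · rw [map_zero, add_zero]
    · rw [vv, constantCoeff_X, add_zero]
  · split_ifs
    · exact map_one _
    · exact map_zero _

theorem jet_det (l : α × β) {q : ℕ} (ρ : Fin q → Tl n R) (χ : Fin q → Tl n K)
    (h : ∀ i j, i ≠ j → y0 n (ρ i) (χ j) = 0) :
    jet l ((mY n e1 e2).submatrix ρ χ).det = ∏ i, jet l (mY n e1 e2 (ρ i) (χ i)) := by
  rw [RingHom.map_det, det_offdiag]
  · rfl
  · intro i j k m hij hkm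
    rw [RingHom.mapMatrix_apply, Matrix.map_apply, Matrix.map_apply, Matrix.submatrix_apply,
      Matrix.submatrix_apply, jet_mY, jet_mY, h i j hij, h k m hkm]
    simp

theorem prod_one_add_inr {q : ℕ} (c : Fin q → ℂ) :
    ∏ i, ((TrivSqZeroExt.inl 1 + TrivSqZeroExt.inr (c i) : DualNumber ℂ))
      = TrivSqZeroExt.inl 1 + TrivSqZeroExt.inr (∑ i, c i) := by
  induction q with
  | zero => simp
  | succ q ih =>
    rw [Fin.prod_univ_castSucc, Fin.sum_univ_castSucc, ih]
    ext <;> simp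
    ring

/-- the diagonal minors -/
noncomputable def dm (i : Fin (n + 2)) : MvPowerSeries (α × β) ℂ :=
  ((mY n e1 e2).submatrix (fun a : Fin (n + 1) => Sum.inl (i.succAbove a))
    (fun a : Fin (n + 1) => Sum.inl (i.succAbove a))).det

/-- the index of a diagonal coordinate -/
def dg (i : Fin (n + 2)) : α × β := (e1 (Sum.inr (Sum.inl i)), e2 (Sum.inr (Sum.inl i)))

theorem dg_last : dg n e1 e2 (Fin.last _) = zz n e1 e2 := rfl

theorem dg_inj (i j : Fin (n + 2)) : dg n e1 e2 i = dg n e1 e2 j ↔ i = j := by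
  rw [dg, dg, Prod.mk.injEq, e1.injective.eq_iff, e2.injective.eq_iff, Sum.inr.injEq,
    Sum.inr.injEq, Sum.inl.injEq, Sum.inl.injEq, and_self_iff]

open Classical in
theorem jet_dm (l : α × β) (i : Fin (n + 2)) :
    jet l (dm n e1 e2 i) = TrivSqZeroExt.inl 1 + TrivSqZeroExt.inr
      (if ∃ k, l = dg n e1 e2 k ∧ k ≠ Fin.last _ ∧ k ≠ i then 1 else 0) := by
  rw [dm, jet_det]
  · simp only [jet_mY]
    have h0 : ∀ a : Fin (n + 1), y0 (R := R) (K := K) n (Sum.inl (i.succAbove a))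
        (Sum.inl (i.succAbove a)) = 1 := by
      intro a
      simp [y0]
    simp only [h0]
    rw [prod_one_add_inr]
    congr 2
    by_cases h : ∃ k, l = dg n e1 e2 k ∧ k ≠ Fin.last _ ∧ k ≠ i
    · rw [if_pos h]
      obtain ⟨k, hl, hk1, hk2⟩ := h
      obtain ⟨a, ha⟩ := Fin.exists_succAbove_eq hk2
      rw [Finset.sum_eq_single a]
      · rw [if_pos]
        refine ⟨by rw [ha]; exact hl, ?_⟩
        rw [hl, ← dg_last n e1 e2, Ne, dg_inj]
        exact hk1
      · intro b _ hb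
        rw [if_neg]
        rintro ⟨h1, _⟩
        rw [hl] at h1
        have h2 := (dg_inj n e1 e2 _ _).1 h1
        rw [← ha] at h2
        exact hb (Fin.succAbove_right_injective h2).symm
      · intro h; exact absurd (Finset.mem_univ a) h
    · rw [if_neg h]
      refine Finset.sum_eq_zero fun a _ => ?_
      rw [if_neg]
      rintro ⟨h1, h2⟩
      refine h ⟨i.succAbove a, h1, ?_, Fin.succAbove_ne i a⟩
      intro h3
      rw [h3] at h1
      exact h2 h1
  · intro a b hab
    simp only [y0, Sum.elim_inl]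
    rw [if_neg]
    intro h
    exact hab (Fin.succAbove_right_injective h)

theorem jet_inv (l : α × β) (D : MvPowerSeries (α × β) ℂ) (d : ℂ)
    (hD : jet l D = TrivSqZeroExt.inl 1 + TrivSqZeroExt.inr d) :
    jet l D⁻¹ = TrivSqZeroExt.inl 1 - TrivSqZeroExt.inr d := by
  have h0 : constantCoeff D = 1 := by
    rw [← jet_fst l, hD]
    simp
  have h1 : D * D⁻¹ = 1 := MvPowerSeries.mul_inv_cancel D (by rw [h0]; exact one_ne_zero)
  have h2 := congrArg (jet l) h1
  rw [map_mul, map_one, hD] at h2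
  have h3 : (TrivSqZeroExt.inl 1 - TrivSqZeroExt.inr d : DualNumber ℂ)
      * (TrivSqZeroExt.inl 1 + TrivSqZeroExt.inr d) = 1 := by
    ext <;> simp
  calc jet l D⁻¹ = ((TrivSqZeroExt.inl 1 - TrivSqZeroExt.inr d : DualNumber ℂ)
      * (TrivSqZeroExt.inl 1 + TrivSqZeroExt.inr d)) * jet l D⁻¹ := by rw [h3, one_mul]
    _ = TrivSqZeroExt.inl 1 - TrivSqZeroExt.inr d := by rw [mul_assoc, h2, mul_one]

/-- a coordinate, from its jets -/
theorem isCoord_of_jet {σ : Type} (z t : σ) (w : MvPowerSeries σ ℂ) (c : ℂ) (hc : c ≠ 0)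
    (h : ∀ l, l ≠ z → jet l w = TrivSqZeroExt.inr (by classical exact if l = t then c else 0))
    (ht : t ≠ z) : IsCoord z t w := by
  classical
  refine ⟨?_, ?_, ?_⟩
  · rw [← jet_fst t, h t ht]
    simp
  · rw [← jet_snd t, h t ht]
    simpa using hc
  · intro l hl hlt
    rw [← jet_snd l, h l hl]
    simp [hlt]

theorem exists_avoid (i k : Fin (n + 2)) :
    ∃ κ : Fin n → Fin (n + 2), Function.Injective κ ∧ ∀ a, κ a ≠ i ∧ κ a ≠ k := by
  by_cases h : k = i
  · subst h
    refine ⟨fun a => k.succAbove ((0 : Fin (n + 1)).succAbove a), ?_, fun a => ?_⟩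
    · intro a b hab
      exact Fin.succAbove_right_injective (Fin.succAbove_right_injective hab)
    · exact ⟨Fin.succAbove_ne _ _, Fin.succAbove_ne _ _⟩
  · obtain ⟨k', hk'⟩ := Fin.exists_succAbove_eq h
    refine ⟨fun a => i.succAbove (k'.succAbove a), ?_, fun a => ?_⟩
    · intro a b hab
      exact Fin.succAbove_right_injective (Fin.succAbove_right_injective hab)
    · refine ⟨Fin.succAbove_ne _ _, ?_⟩
      rw [← hk']
      intro h'
      exact Fin.succAbove_ne k' a (Fin.succAbove_right_injective h')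

theorem sum_single_smul {ι V : Type} [Fintype ι] [DecidableEq ι] [AddCommMonoid V] [Module ℂ V]
    (j : ι) (F : ι → V) : ∑ i, (Pi.single j (1 : ℂ) : ι → ℂ) i • F i = F j := by
  rw [Finset.sum_eq_single j]
  · rw [Pi.single_eq_same, one_smul]
  · intro i _ hi
    rw [Pi.single_eq_of_ne hi, zero_smul]
  · intro h; exact absurd (Finset.mem_univ j) h

variable {P : Type} [Fintype P] [DecidableEq P] (eP : A ⊕ Fin (n + 1) ≃ P)

/-- the index of a special minor -/
def jidx (ρ : Fin (n + 1) → Tl n R) (χ : Fin (n + 1) → Tl n K) : (P → α) × (P → β) :=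
  (fun i => e1 (Sum.map id ρ (eP.symm i)), fun i => e2 (Sum.map id χ (eP.symm i)))

theorem aeval_jidx (ρ : Fin (n + 1) → Tl n R) (χ : Fin (n + 1) → Tl n K) :
    MvPolynomial.aeval (xi n e1 e2) (gen (jidx n e1 e2 eP ρ χ))
      = X (zz n e1 e2) ^ (n + 1) * ((mA n e1 e2).det * ((mY n e1 e2).submatrix ρ χ).det) := by
  rw [aeval_gen, ← special_minor n e1 e2 eP ρ χ]
  simp only [jidx, Equiv.symm_apply_apply]

/-- the tuple of the diagonal minor -/
def tup {R : Type} (i : Fin (n + 2)) : Fin (n + 1) → Tl n R := fun a => Sum.inl (i.succAbove a)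

theorem aeval_tup (i : Fin (n + 2)) :
    MvPolynomial.aeval (xi n e1 e2) (gen (jidx n e1 e2 eP (tup n i) (tup n i)))
      = X (zz n e1 e2) ^ (n + 1) * ((mA n e1 e2).det * dm n e1 e2 i) :=
  aeval_jidx n e1 e2 eP _ _

theorem jet_arith1 (a b c : ℂ) : ((TrivSqZeroExt.inl 1 + TrivSqZeroExt.inr a : DualNumber ℂ)
    - (TrivSqZeroExt.inl 1 + TrivSqZeroExt.inr b)) * (TrivSqZeroExt.inl 1 - TrivSqZeroExt.inr c)
    = TrivSqZeroExt.inr (a - b) := by
  ext <;> simp

theorem jet_arith2 (a b c : ℂ) : (TrivSqZeroExt.inr a : DualNumber ℂ)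
    * (TrivSqZeroExt.inl 1 + TrivSqZeroExt.inr b) * (TrivSqZeroExt.inl 1 - TrivSqZeroExt.inr c)
    = TrivSqZeroExt.inr a := by
  ext <;> simp

theorem coord_exc (r : Tl n R) (c : Tl n K)
    (hz : (e1 (Sum.inr r), e2 (Sum.inr c)) ≠ zz n e1 e2) :
    ∃ (cf : (P → α) × (P → β) → ℂ) (w : MvPowerSeries (α × β) ℂ),
      IsCoord (zz n e1 e2) (e1 (Sum.inr r), e2 (Sum.inr c)) w ∧
      ∑ j, cf j • MvPolynomial.aeval (xi n e1 e2) (gen j)
        = MvPolynomial.aeval (xi n e1 e2)
          (gen (jidx n e1 e2 eP (tup n (Fin.last _)) (tup n (Fin.last _)))) * w := by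
  classical
  set D := dm n e1 e2 (Fin.last _) with hD
  have hD0 : constantCoeff D ≠ 0 := by
    rw [← jet_fst (zz n e1 e2), hD, jet_dm, TrivSqZeroExt.fst_add, TrivSqZeroExt.fst_inl,
      TrivSqZeroExt.fst_inr, add_zero]
    exact one_ne_zero
  have hDD : D * D⁻¹ = 1 := MvPowerSeries.mul_inv_cancel D hD0
  by_cases hrc : ∃ i, r = Sum.inl i ∧ c = Sum.inl i
  · obtain ⟨i, rfl, rfl⟩ := hrc
    have hil : i ≠ Fin.last _ := by
      rintro rfl
      exact hz rfl
    refine ⟨Pi.single (jidx n e1 e2 eP (tup n i) (tup n i)) 1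
      - Pi.single (jidx n e1 e2 eP (tup n (Fin.last _)) (tup n (Fin.last _))) 1,
      (dm n e1 e2 i - D) * D⁻¹, ?_, ?_⟩
    · refine isCoord_of_jet _ _ _ (-1) (by norm_num) ?_ hz
      intro l hl
      rw [map_mul, map_sub, jet_inv l D _ (jet_dm n e1 e2 l _), hD, jet_dm, jet_dm, jet_arith1]
      congr 1
      by_cases h2 : ∃ k, l = dg n e1 e2 k ∧ k ≠ Fin.last _
      · obtain ⟨k, hk1, hk2⟩ := h2
        have hB : ∃ k, l = dg n e1 e2 k ∧ k ≠ Fin.last _ ∧ k ≠ Fin.last _ := ⟨k, hk1, hk2, hk2⟩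
        rw [if_pos hB]
        by_cases hki : k = i
        · have hA : ¬ ∃ k, l = dg n e1 e2 k ∧ k ≠ Fin.last _ ∧ k ≠ i := by
            rintro ⟨k', h3, _, h4⟩
            rw [hk1, dg_inj] at h3
            exact h4 (h3 ▸ hki)
          have hC : l = (e1 (Sum.inr (Sum.inl i)), e2 (Sum.inr (Sum.inl i))) := by
            rw [hk1, hki]; rfl
          rw [if_neg hA, if_pos hC]
          ring
        · have hA : ∃ k, l = dg n e1 e2 k ∧ k ≠ Fin.last _ ∧ k ≠ i := ⟨k, hk1, hk2, hki⟩
          have hC : ¬ l = (e1 (Sum.inr (Sum.inl i)), e2 (Sum.inr (Sum.inl i))) := by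
            intro h
            rw [hk1] at h
            exact hki ((dg_inj n e1 e2 k i).1 h)
          rw [if_pos hA, if_neg hC]
          ring
      · have hA : ¬ ∃ k, l = dg n e1 e2 k ∧ k ≠ Fin.last _ ∧ k ≠ i := by
          rintro ⟨k, h3, h4, _⟩; exact h2 ⟨k, h3, h4⟩
        have hB : ¬ ∃ k, l = dg n e1 e2 k ∧ k ≠ Fin.last _ ∧ k ≠ Fin.last _ := by
          rintro ⟨k, h3, h4, _⟩; exact h2 ⟨k, h3, h4⟩
        have hC : ¬ l = (e1 (Sum.inr (Sum.inl i)), e2 (Sum.inr (Sum.inl i))) := fun h =>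
          h2 ⟨i, h, hil⟩
        rw [if_neg hA, if_neg hB, if_neg hC]
        ring
    · simp only [Pi.sub_apply, sub_smul, Finset.sum_sub_distrib, sum_single_smul]
      rw [aeval_tup, aeval_tup, ← hD]
      linear_combination (- X (zz n e1 e2) ^ (n + 1) * (mA n e1 e2).det *
        (dm n e1 e2 i - D)) * hDD
  · -- the other coordinates
    have hy0 : y0 n r c = 0 := by
      rcases r with i | r <;> rcases c with k | c <;> simp only [y0, Sum.elim_inl, Sum.elim_inr]
      rw [if_neg]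
      rintro rfl
      exact hrc ⟨i, rfl, rfl⟩
    set ri : Fin (n + 2) := Sum.elim id (fun _ => 0) r with hri
    set ci : Fin (n + 2) := Sum.elim id (fun _ => 0) c with hci
    obtain ⟨κ, hκ, hκ2⟩ := exists_avoid n ri ci
    set ρ : Fin (n + 1) → Tl n R := Fin.cons r (fun a => Sum.inl (κ a)) with hρ
    set χ : Fin (n + 1) → Tl n K := Fin.cons c (fun a => Sum.inl (κ a)) with hχ
    have hoff : ∀ i j, i ≠ j → y0 n (ρ i) (χ j) = 0 := by
      intro i j
      refine Fin.cases ?_ (fun a => ?_) i <;> refine Fin.cases ?_ (fun b => ?_) j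
      · intro h; exact absurd rfl h
      · intro _
        rw [hρ, hχ, Fin.cons_zero, Fin.cons_succ]
        rcases r with i | r
        · simp only [y0, Sum.elim_inl]
          rw [if_neg]
          intro h
          exact (hκ2 b).1 h.symm
        · rfl
      · intro _
        rw [hρ, hχ, Fin.cons_zero, Fin.cons_succ]
        rcases c with k | c
        · simp only [y0, Sum.elim_inl]
          rw [if_neg]
          intro h
          exact (hκ2 a).2 h
        · rfl
      · intro hab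
        rw [hρ, hχ, Fin.cons_succ, Fin.cons_succ]
        simp only [y0, Sum.elim_inl]
        rw [if_neg]
        intro h
        exact hab (by rw [hκ h])
    refine ⟨Pi.single (jidx n e1 e2 eP ρ χ) 1, ((mY n e1 e2).submatrix ρ χ).det * D⁻¹, ?_, ?_⟩
    · refine isCoord_of_jet _ _ _ 1 one_ne_zero ?_ hz
      intro l hl
      rw [map_mul, jet_inv l D _ (jet_dm n e1 e2 l _), jet_det n e1 e2 l ρ χ hoff,
        Fin.prod_univ_succ]
      have h1 : ∀ a : Fin n, jet l (mY n e1 e2 (ρ a.succ) (χ a.succ)) = TrivSqZeroExt.inl 1 +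
          TrivSqZeroExt.inr (if l = (e1 (Sum.inr (ρ a.succ)), e2 (Sum.inr (χ a.succ))) ∧
            l ≠ zz n e1 e2 then 1 else 0) := by
        intro a
        rw [jet_mY]
        congr 2
        rw [hρ, hχ, Fin.cons_succ, Fin.cons_succ]
        simp [y0]
      simp only [h1]
      rw [prod_one_add_inr]
      have h2 : jet l (mY n e1 e2 (ρ 0) (χ 0)) = TrivSqZeroExt.inr
          (if l = (e1 (Sum.inr r), e2 (Sum.inr c)) then 1 else 0) := by
        rw [jet_mY, hρ, hχ, Fin.cons_zero, Fin.cons_zero, hy0]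
        simp [hl]
      rw [h2, jet_arith2]
      congr
    · rw [sum_single_smul, aeval_jidx, aeval_tup, ← hD]
      linear_combination (- X (zz n e1 e2) ^ (n + 1) * (mA n e1 e2).det *
        ((mY n e1 e2).submatrix ρ χ).det) * hDD

end Chart

section Final

/-- **Roots from Rees divisors**, without a linear order on the variables. -/
theorem rees_root' {σ ι : Type} [Fintype σ] [DecidableEq σ] [Fintype ι]
    (f : ι → MvPolynomial σ ℂ) (b : Polynomial ℂ) (hb : IsFunctionalEq f b)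
    (z : σ) (ξ : σ → MvPowerSeries σ ℂ) (k a l : ℕ) (hl : l < a) (U0 U1 U2 : MvPowerSeries σ ℂ)
    (hU0 : constantCoeff U0 ≠ 0) (hU1 : constantCoeff U1 ≠ 0) (hU2 : constantCoeff U2 ≠ 0)
    (hJ : (Matrix.of fun t i => pderiv ℂ t (ξ i)).det = X z ^ k * U0)
    (j0 : ι) (hf : ∀ j, X z ^ a ∣ MvPolynomial.aeval ξ (f j))
    (hj0 : MvPolynomial.aeval ξ (f j0) = X z ^ a * U1)
    (p : MvPolynomial σ ℂ) (hp : MvPolynomial.aeval ξ p = X z ^ l * U2)
    (hcoord : ∀ t, t ≠ z → (∃ q : MvPolynomial σ ℂ, IsCoord z t (MvPolynomial.aeval ξ q)) ∨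
      ∃ (c : ι → ℂ) (w : MvPowerSeries σ ℂ), IsCoord z t w ∧
        ∑ j, c j • MvPolynomial.aeval ξ (f j) = MvPolynomial.aeval ξ (f j0) * w) :
    b.eval (-((k : ℂ) + 1 + l) / a) = 0 := by
  classical
  let lo : LinearOrder σ := LinearOrder.lift' (Fintype.equivFin σ) (Equiv.injective _)
  have hdet : ∀ {R : Type} [CommRing R] (M : Matrix σ σ R),
      @Matrix.det σ (fun a b => lo.toDecidableEq a b) _ R _ M = M.det := by
    intro R _ M
    congr
  refine rees_root f b hb z ξ k a l hl U0 U1 U2 hU0 hU1 hU2 ?_ j0 hf hj0 p hp hcoord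
  rw [← hJ]
  exact hdet _

end Final

end Pool.Agent.W574.SM
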