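import Pool.Agent.W574.SM.Det

set_option autoImplicit false
set_option linter.unusedSectionVars false
set_option linter.unusedVariables false

/-! # Generic determinantal ideals, with the minors as generators -/

namespace Pool.Agent.W574.SM

open MvPowerSeries

/-- The `p`-minors of the `m × n` matrix of variables: the determinants of the submatrices given by
`p` rows and `p` columns, in increasing order. -/
noncomputable def minors (m n p : ℕ) (rc : (Fin p ↪o Fin m) × (Fin p ↪o Fin n)) :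
    MvPolynomial (Fin m × Fin n) ℂ :=
  Matrix.det (Matrix.of fun i j => MvPolynomial.X (rc.1 i, rc.2 j))

theorem exists_sort {m p : ℕ} (r : Fin p → Fin m) (hr : Function.Injective r) :
    ∃ (r0 : Fin p ↪o Fin m) (π : Equiv.Perm (Fin p)), ∀ i, r i = r0 (π i) := by
  have h1 : StrictMono (r ∘ Tuple.sort r) :=
    (Tuple.monotone_sort r).strictMono_of_injective (hr.comp (Tuple.sort r).injective)
  refine ⟨OrderEmbedding.ofStrictMono _ h1, (Tuple.sort r)⁻¹, fun i => ?_⟩
  simp [OrderEmbedding.ofStrictMono]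

theorem gen_sort {m n p : ℕ} (rc : (Fin p → Fin m) × (Fin p → Fin n))
    (h1 : Function.Injective rc.1) (h2 : Function.Injective rc.2) :
    ∃ (j : (Fin p ↪o Fin m) × (Fin p ↪o Fin n)) (ε : ℂ), ε ≠ 0 ∧
      (gen rc : MvPolynomial (Fin m × Fin n) ℂ) = ε • minors m n p j := by
  obtain ⟨r0, π1, hr⟩ := exists_sort rc.1 h1
  obtain ⟨c0, π2, hc⟩ := exists_sort rc.2 h2
  refine ⟨(r0, c0), ((Equiv.Perm.sign π1 : ℤ) : ℂ) * ((Equiv.Perm.sign π2 : ℤ) : ℂ), ?_, ?_⟩
  · refine mul_ne_zero ?_ ?_ <;>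
    · rw [Int.cast_ne_zero]
      exact Units.ne_zero _
  · have h3 : (Matrix.of fun i j => (MvPolynomial.X (rc.1 i, rc.2 j) :
        MvPolynomial (Fin m × Fin n) ℂ))
        = ((Matrix.of fun i j => (MvPolynomial.X (r0 i, c0 j) :
        MvPolynomial (Fin m × Fin n) ℂ)).submatrix π1 id).submatrix id π2 := by
      ext1 i j
      simp only [Matrix.of_apply, Matrix.submatrix_apply, id_eq, hr, hc]
    rw [gen, h3, Matrix.det_permute', Matrix.det_permute, minors, Algebra.smul_def]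
    simp only [map_mul, map_intCast]
    ring

theorem gen_not_inj {m n p : ℕ} (rc : (Fin p → Fin m) × (Fin p → Fin n))
    (h : ¬ (Function.Injective rc.1 ∧ Function.Injective rc.2)) :
    (gen rc : MvPolynomial (Fin m × Fin n) ℂ) = 0 := by
  by_cases h1 : Function.Injective rc.1
  · have h2 : ¬ Function.Injective rc.2 := fun h2 => h ⟨h1, h2⟩
    rw [Function.not_injective_iff] at h2
    obtain ⟨i, j, hij, hne⟩ := h2
    rw [gen, ← Matrix.det_transpose]
    refine Matrix.det_zero_of_row_eq hne ?_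
    funext k
    simp only [Matrix.transpose_apply, Matrix.of_apply, hij]
  · rw [Function.not_injective_iff] at h1
    obtain ⟨i, j, hij, hne⟩ := h1
    refine Matrix.det_zero_of_row_eq hne ?_
    funext k
    simp only [Matrix.of_apply, hij]

theorem gen_comb {m n p : ℕ} (rc : (Fin p → Fin m) × (Fin p → Fin n)) :
    ∃ a : (Fin p ↪o Fin m) × (Fin p ↪o Fin n) → ℂ,
      (gen rc : MvPolynomial (Fin m × Fin n) ℂ) = ∑ j, a j • minors m n p j := by
  classical
  by_cases h : Function.Injective rc.1 ∧ Function.Injective rc.2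
  · obtain ⟨j, ε, _, hj⟩ := gen_sort rc h.1 h.2
    refine ⟨Pi.single j ε, ?_⟩
    rw [hj, Finset.sum_eq_single j]
    · rw [Pi.single_eq_same]
    · intro i _ hi
      rw [Pi.single_eq_of_ne hi, zero_smul]
    · intro h; exact absurd (Finset.mem_univ j) h
  · refine ⟨0, ?_⟩
    rw [gen_not_inj rc h]
    simp

theorem IsCoord.smul {σ : Type} {z k : σ} {w : MvPowerSeries σ ℂ} (hw : IsCoord z k w) {c : ℂ}
    (hc : c ≠ 0) : IsCoord z k (c • w) := by
  obtain ⟨h0, h1, h2⟩ := hw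
  refine ⟨?_, ?_, ?_⟩
  · rw [smul_eq_C_mul, map_mul, h0, mul_zero]
  · rw [map_smul]
    exact mul_ne_zero hc h1
  · intro l hl hlk
    rw [map_smul, h2 l hl hlk, smul_zero]

/-- **Roots from Rees divisors**, with the hypotheses checked on another family of generators. -/
theorem rees_root_sub {σ ι ι0 : Type} [Fintype σ] [DecidableEq σ] [Fintype ι] [Fintype ι0]
    (f0 : ι0 → MvPolynomial σ ℂ) (f : ι → MvPolynomial σ ℂ)
    (b : Polynomial ℂ) (hb : IsFunctionalEq f0 b)
    (z : σ) (ξ : σ → MvPowerSeries σ ℂ) (k a l : ℕ) (hl : l < a) (U0 U1 U2 : MvPowerSeries σ ℂ)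
    (hU0 : constantCoeff U0 ≠ 0) (hU1 : constantCoeff U1 ≠ 0) (hU2 : constantCoeff U2 ≠ 0)
    (hJ : (Matrix.of fun t i => pderiv ℂ t (ξ i)).det = X z ^ k * U0)
    (j0 : ι) (hf : ∀ j, X z ^ a ∣ MvPolynomial.aeval ξ (f j))
    (hj0 : MvPolynomial.aeval ξ (f j0) = X z ^ a * U1)
    (p : MvPolynomial σ ℂ) (hp : MvPolynomial.aeval ξ p = X z ^ l * U2)
    (hcoord : ∀ t, t ≠ z → (∃ q : MvPolynomial σ ℂ, IsCoord z t (MvPolynomial.aeval ξ q)) ∨
      ∃ (c : ι → ℂ) (w : MvPowerSeries σ ℂ), IsCoord z t w ∧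
        ∑ j, c j • MvPolynomial.aeval ξ (f j) = MvPolynomial.aeval ξ (f j0) * w)
    (hcomb : ∀ j, ∃ a : ι0 → ℂ, f j = ∑ i, a i • f0 i) (hsub : ∀ i, ∃ j, f0 i = f j)
    (i0 : ι0) (ε : ℂ) (hε : ε ≠ 0) (hi0 : f j0 = ε • f0 i0) :
    b.eval (-((k : ℂ) + 1 + l) / a) = 0 := by
  choose m hm using hcomb
  refine rees_root' f0 b hb z ξ k a l hl U0 (ε⁻¹ • U1) U2 hU0 ?_ hU2 hJ i0 ?_ ?_ p hp ?_
  · rw [smul_eq_C_mul, map_mul, constantCoeff_C]
    exact mul_ne_zero (inv_ne_zero hε) hU1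
  · intro i
    obtain ⟨j, hj⟩ := hsub i
    rw [hj]
    exact hf j
  · rw [mul_smul_comm, ← hj0, hi0, map_smul, smul_smul, inv_mul_cancel₀ hε, one_smul]
  · intro t ht
    rcases hcoord t ht with h | ⟨c, w, hw, hcw⟩
    · left; exact h
    · right
      refine ⟨fun i => ∑ j, c j * m j i, ε • w, hw.smul hε, ?_⟩
      rw [mul_smul_comm, ← smul_mul_assoc, ← map_smul, ← hi0, ← hcw]
      simp only [Finset.sum_smul, mul_smul]
      rw [Finset.sum_comm]
      refine Finset.sum_congr rfl fun j _ => ?_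
      rw [← Finset.smul_sum, hm j, map_sum]
      congr 1
      refine Finset.sum_congr rfl fun i _ => ?_
      rw [map_smul]

theorem minors_roots (m n p d : ℕ) (hd : d < p) (hpm : p < m) (hpn : p < n) (b : Polynomial ℂ)
    (hb : IsFunctionalEq (minors m n p) b) :
    b.eval (-(((m : ℂ) - d) * (n - d)) / (p - d)) = 0 := by
  classical
  obtain ⟨s, rfl⟩ : ∃ s, p = d + (s + 1) := ⟨p - d - 1, by omega⟩
  obtain ⟨r, rfl⟩ : ∃ r, m = d + (s + 2 + r) := ⟨m - d - s - 2, by omega⟩
  obtain ⟨c, rfl⟩ : ∃ c, n = d + (s + 2 + c) := ⟨n - d - s - 2, by omega⟩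
  have e1 : Fin d ⊕ Tl s (Fin r) ≃ Fin (d + (s + 2 + r)) :=
    Fintype.equivOfCardEq (by simp [Tl])
  have e2 : Fin d ⊕ Tl s (Fin c) ≃ Fin (d + (s + 2 + c)) :=
    Fintype.equivOfCardEq (by simp [Tl])
  have eP : Fin d ⊕ Fin (s + 1) ≃ Fin (d + (s + 1)) :=
    Fintype.equivOfCardEq (by simp)
  have hk : Fintype.card (Tl s (Fin r)) * Fintype.card (Tl s (Fin c)) - 1 + 1
      = (s + 2 + r) * (s + 2 + c) := by
    have h1 : Fintype.card (Tl s (Fin r)) = s + 2 + r := by simp [Tl]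
    have h2 : Fintype.card (Tl s (Fin c)) = s + 2 + c := by simp [Tl]
    rw [h1, h2]
    have : 0 < (s + 2 + r) * (s + 2 + c) := by positivity
    omega
  have hinj1 : Function.Injective (jidx s e1 e2 eP (tup s (Fin.last _)) (tup s (Fin.last _))).1 := by
    intro i j hij
    simp only [jidx] at hij
    apply eP.symm.injective
    refine Sum.map_injective.2 ⟨Function.injective_id, ?_⟩ (e1.injective hij)
    intro a b hab
    exact Fin.succAbove_right_injective (Sum.inl_injective hab)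
  have hinj2 : Function.Injective (jidx s e1 e2 eP (tup s (Fin.last _)) (tup s (Fin.last _))).2 := by
    intro i j hij
    simp only [jidx] at hij
    apply eP.symm.injective
    refine Sum.map_injective.2 ⟨Function.injective_id, ?_⟩ (e2.injective hij)
    intro a b hab
    exact Fin.succAbove_right_injective (Sum.inl_injective hab)
  obtain ⟨i0, ε, hε, hi0⟩ := gen_sort _ hinj1 hinj2
  have hmain := rees_root_sub (minors (d + (s + 2 + r)) (d + (s + 2 + c)) (d + (s + 1)))
    (gen : (Fin (d + (s + 1)) → Fin (d + (s + 2 + r))) ×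
    (Fin (d + (s + 1)) → Fin (d + (s + 2 + c))) → _) b hb (zz s e1 e2) (xi s e1 e2)
    (Fintype.card (Tl s (Fin r)) * Fintype.card (Tl s (Fin c)) - 1) (s + 1) 0 (by omega)
    1 ((mA s e1 e2).det * dm s e1 e2 (Fin.last _)) 1 (by simp) ?_ (by simp) ?_
    (jidx s e1 e2 eP (tup s (Fin.last _)) (tup s (Fin.last _))) ?_ (aeval_tup s e1 e2 eP _)
    1 (by simp) ?_ gen_comb (fun rc => ⟨(rc.1, rc.2), rfl⟩) i0 ε hε hi0
  · have h3 : -(((Fintype.card (Tl s (Fin r)) * Fintype.card (Tl s (Fin c)) - 1 : ℕ) : ℂ) + 1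
        + (0 : ℕ)) / ((s + 1 : ℕ) : ℂ) = -((((d + (s + 2 + r) : ℕ) : ℂ) - d) *
          (((d + (s + 2 + c) : ℕ) : ℂ) - d)) / (((d + (s + 1) : ℕ) : ℂ) - d) := by
      have h4 : (((Fintype.card (Tl s (Fin r)) * Fintype.card (Tl s (Fin c)) - 1 : ℕ) : ℂ) + 1)
          = ((s : ℂ) + 2 + r) * (s + 2 + c) := by exact_mod_cast hk
      rw [h4]
      push_cast
      congr 1
      · ring
      · ring
    rw [← h3]
    exact hmain
  · rw [map_mul]
    refine mul_ne_zero ?_ ?_
    · exact (MvPowerSeries.isUnit_iff_constantCoeff.1 (mA_unit s e1 e2)).ne_zero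
    · rw [← jet_fst (zz s e1 e2), jet_dm, TrivSqZeroExt.fst_add, TrivSqZeroExt.fst_inl,
        TrivSqZeroExt.fst_inr, add_zero]
      exact one_ne_zero
  · rw [jac_det, mul_one]
  · intro j
    rw [aeval_gen]
    exact dvd_minor s e1 e2 (by simp) _ _
  · intro t ht
    by_cases hexc : IsExc s e1 e2 t
    · right
      obtain ⟨i, k, rfl⟩ := hexc
      exact coord_exc s e1 e2 eP i k ht
    · left
      obtain ⟨c0, hc0⟩ := xi_nonexc s e1 e2 t hexc
      refine ⟨MvPolynomial.X t - MvPolynomial.C c0, ?_⟩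
      rw [map_sub, MvPolynomial.aeval_X, hc0, MvPolynomial.aeval_C]
      have h5 : algebraMap ℂ (MvPowerSeries (Fin (d + (s + 2 + r)) × Fin (d + (s + 2 + c))) ℂ) c0
          = MvPowerSeries.C c0 := rfl
      rw [h5, add_sub_cancel_left]
      refine ⟨constantCoeff_X t, ?_, ?_⟩
      · rw [coeff_X, if_pos rfl]; exact one_ne_zero
      · intro l _ hl
        rw [coeff_X, if_neg]
        intro h6
        exact hl (Finsupp.single_left_injective one_ne_zero h6)

end Pool.Agent.W574.SM
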