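import Pool.Agent.W574.SM.Defs

set_option autoImplicit false

/-! # The polynomial ring `A[∂_t]` and its pairing with functions of `t`

`A = ℂ[x]`. The elements of `MvPolynomial ι A` are viewed as polynomials in the symbols `∂_{t_j}`.
-/

namespace Pool.Agent.W574.SM

open MvPolynomial

section Coef

variable {κ R : Type} [CommRing R] [Algebra ℂ R]

/-- A derivation applied to all the coefficients. -/
noncomputable def dcoef (d : Derivation ℂ R R) (P : MvPolynomial κ R) : MvPolynomial κ R :=
  ∑ μ ∈ P.support, monomial μ (d (coeff μ P))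

theorem coeff_dcoef (d : Derivation ℂ R R) (P : MvPolynomial κ R) (μ : κ →₀ ℕ) :
    coeff μ (dcoef d P) = d (coeff μ P) := by
  classical
  rw [dcoef, coeff_sum]
  simp only [coeff_monomial]
  rw [Finset.sum_ite_eq' P.support μ]
  split_ifs with h
  · rfl
  · rw [notMem_support_iff.1 h, map_zero]

theorem dcoef_add (d : Derivation ℂ R R) (P Q : MvPolynomial κ R) :
    dcoef d (P + Q) = dcoef d P + dcoef d Q := by
  ext μ
  simp [coeff_dcoef]

theorem dcoef_sum {α : Type} (d : Derivation ℂ R R) (s : Finset α) (P : α → MvPolynomial κ R) :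
    dcoef d (∑ i ∈ s, P i) = ∑ i ∈ s, dcoef d (P i) := by
  ext μ
  simp [coeff_dcoef, coeff_sum]

theorem dcoef_monomial (d : Derivation ℂ R R) (μ : κ →₀ ℕ) (a : R) :
    dcoef d (monomial μ a) = monomial μ (d a) := by
  classical
  ext ν
  rw [coeff_dcoef, coeff_monomial, coeff_monomial]
  split_ifs <;> simp

theorem dcoef_C_mul (d : Derivation ℂ R R) (a : R) (P : MvPolynomial κ R) :
    dcoef d (C a * P) = C (d a) * P + C a * dcoef d P := by
  ext μ
  rw [coeff_dcoef, coeff_C_mul, coeff_add, coeff_C_mul, coeff_C_mul, coeff_dcoef, Derivation.leibniz]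
  simp only [smul_eq_mul]
  ring

theorem dcoef_X_mul (d : Derivation ℂ R R) (j : κ) (P : MvPolynomial κ R) :
    dcoef d (X j * P) = X j * dcoef d P := by
  classical
  ext μ
  rw [coeff_dcoef, coeff_X_mul', coeff_X_mul', coeff_dcoef]
  split_ifs <;> simp

end Coef

section Pairing

variable {ι R : Type} [Fintype ι] [CommRing R]

/-- the factorial of a multi-index -/
def mfact (γ : ι →₀ ℕ) : ℕ := ∏ j, (γ j).factorial

theorem mfact_ne_zero (γ : ι →₀ ℕ) : mfact γ ≠ 0 :=
  Finset.prod_ne_zero_iff.2 fun _ _ => Nat.factorial_ne_zero _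

theorem mfact_add_single [DecidableEq ι] (γ : ι →₀ ℕ) (j : ι) :
    mfact (γ + Finsupp.single j 1) = (γ j + 1) * mfact γ := by
  unfold mfact
  rw [← Finset.mul_prod_erase _ _ (Finset.mem_univ j),
    ← Finset.mul_prod_erase Finset.univ (fun k => (γ k).factorial) (Finset.mem_univ j)]
  rw [Finsupp.add_apply, Finsupp.single_eq_same, Nat.factorial_succ, mul_assoc]
  congr 2
  refine Finset.prod_congr rfl fun k hk => ?_
  rw [Finsupp.add_apply, Finsupp.single_eq_of_ne (Finset.ne_of_mem_erase hk), add_zero]

/-- The pairing of `q(∂_T)` with `P(T)`: the constant coefficient of `q(∂_T) P(T)`. -/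
noncomputable def ip (P : MvPolynomial ι R) : MvPolynomial ι R →ₗ[R] R :=
  (basisMonomials ι R).constr R fun γ => (mfact γ : R) * coeff γ P

theorem ip_monomial (P : MvPolynomial ι R) (γ : ι →₀ ℕ) (a : R) :
    ip P (monomial γ a) = a * ((mfact γ : R) * coeff γ P) := by
  have h : monomial γ a = a • (basisMonomials ι R γ) := by
    rw [coe_basisMonomials, smul_monomial, smul_eq_mul, mul_one]
  rw [h, map_smul, ip, Module.Basis.constr_basis, smul_eq_mul]

theorem ip_X_mul [DecidableEq ι] (P : MvPolynomial ι R) (j : ι) (q : MvPolynomial ι R) :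
    ip P (X j * q) = ip (pderiv j P) q := by
  induction q using MvPolynomial.induction_on' with
  | monomial γ a =>
    have h : X j * monomial γ a = monomial (γ + Finsupp.single j 1) a := by
      rw [mul_comm, X, monomial_mul, mul_one]
    rw [h, ip_monomial, ip_monomial, coeff_pderiv, mfact_add_single]
    push_cast
    ring
  | add p q hp hq => rw [mul_add, map_add, map_add, hp, hq]

theorem ip_pderiv [DecidableEq ι] (P : MvPolynomial ι R) (j : ι) (q : MvPolynomial ι R) :
    ip P (pderiv j q) = ip (X j * P) q := by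
  induction q using MvPolynomial.induction_on' with
  | monomial γ a =>
    rw [pderiv_monomial, ip_monomial, ip_monomial, coeff_X_mul']
    split_ifs with h
    · have h1 : 0 < γ j := Nat.pos_of_ne_zero (by simpa using h)
      have h2 : γ = (γ - Finsupp.single j 1) + Finsupp.single j 1 := by
        rw [tsub_add_cancel_of_le]
        rw [Finsupp.single_le_iff]
        omega
      have h3 : mfact γ = γ j * mfact (γ - Finsupp.single j 1) := by
        conv_lhs => rw [h2, mfact_add_single]
        congr 1
        rw [Finsupp.tsub_apply, Finsupp.single_eq_same]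
        omega
      rw [h3]
      push_cast
      ring
    · have h1 : γ j = 0 := by simpa using h
      rw [h1]
      simp
  | add p q hp hq => rw [map_add, map_add, map_add, hp, hq]

theorem ip_C_mul (P : MvPolynomial ι R) (a : R) (q : MvPolynomial ι R) :
    ip P (C a * q) = a * ip P q := by
  rw [C_mul', map_smul, smul_eq_mul]

theorem ip_add_left (P Q : MvPolynomial ι R) (q : MvPolynomial ι R) :
    ip (P + Q) q = ip P q + ip Q q := by
  induction q using MvPolynomial.induction_on' with
  | monomial γ a => rw [ip_monomial, ip_monomial, ip_monomial, coeff_add]; ring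
  | add p q hp hq => rw [map_add, map_add, map_add, hp, hq]; ring

theorem ip_C_mul_left (P : MvPolynomial ι R) (a : R) (q : MvPolynomial ι R) :
    ip (C a * P) q = a * ip P q := by
  induction q using MvPolynomial.induction_on' with
  | monomial γ b => rw [ip_monomial, ip_monomial, coeff_C_mul]; ring
  | add p q hp hq => rw [map_add, map_add, hp, hq]; ring

theorem ip_sum_left {α : Type} (s : Finset α) (P : α → MvPolynomial ι R) (q : MvPolynomial ι R) :
    ip (∑ i ∈ s, P i) q = ∑ i ∈ s, ip (P i) q := by
  classical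
  induction s using Finset.induction_on with
  | empty =>
    simp only [Finset.sum_empty]
    induction q using MvPolynomial.induction_on' with
    | monomial γ b => rw [ip_monomial]; simp
    | add p q hp hq => rw [map_add, hp, hq]; ring
  | insert i s hi ih => rw [Finset.sum_insert hi, Finset.sum_insert hi, ip_add_left, ih]

theorem ip_dcoef [Algebra ℂ R] (d : Derivation ℂ R R) (P : MvPolynomial ι R)
    (q : MvPolynomial ι R) : d (ip P q) = ip P (dcoef d q) + ip (dcoef d P) q := by
  induction q using MvPolynomial.induction_on' with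
  | monomial γ a =>
    rw [dcoef_monomial, ip_monomial, ip_monomial, ip_monomial, coeff_dcoef, Derivation.leibniz,
      Derivation.leibniz]
    have h : d ((mfact γ : R)) = 0 := by
      have : ((mfact γ : ℕ) : R) = algebraMap ℂ R (mfact γ : ℂ) := by simp
      rw [this]
      exact d.map_algebraMap _
    rw [h]
    simp only [smul_eq_mul, mul_zero, add_zero]
    ring
  | add p q hp hq => rw [dcoef_add, map_add, map_add, map_add, map_add, hp, hq]; ring

end Pairing

section Phi

variable {σ ι : Type} [Fintype ι] [DecidableEq ι] (f : ι → MvPolynomial σ ℂ)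

/-- `F(t) ↦ F(f + T)`. -/
noncomputable def Phi : MvPolynomial ι ℂ →ₐ[ℂ] MvPolynomial ι (MvPolynomial σ ℂ) :=
  aeval fun j => C (f j) + X j

theorem dcoef_Phi (d : Derivation ℂ (MvPolynomial σ ℂ) (MvPolynomial σ ℂ))
    (F : MvPolynomial ι ℂ) :
    dcoef d (Phi f F) = ∑ j, C (d (f j)) * pderiv j (Phi f F) := by
  induction F using MvPolynomial.induction_on with
  | C a =>
    have h : Phi f (C a) = monomial 0 (C a) := by
      rw [Phi, aeval_C]
      rfl
    rw [h, dcoef_monomial]
    simp [← algebraMap_eq]
  | add p q hp hq =>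
    rw [map_add, dcoef_add, hp, hq, ← Finset.sum_add_distrib]
    refine Finset.sum_congr rfl fun j _ => ?_
    rw [map_add, mul_add]
  | mul_X p k hp =>
    have h : Phi f (p * X k) = C (f k) * Phi f p + X k * Phi f p := by
      rw [map_mul, Phi, aeval_X]
      ring
    rw [h, dcoef_add, dcoef_C_mul, dcoef_X_mul, hp]
    have h1 : ∀ j, pderiv j (C (f k) * Phi f p + X k * Phi f p)
        = (C (f k) + X k) * pderiv j (Phi f p) + (if j = k then 1 else 0) * Phi f p := by
      intro j
      rw [map_add, Derivation.leibniz, Derivation.leibniz, pderiv_C, pderiv_X]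
      simp only [smul_eq_mul, mul_zero, add_zero, Pi.single_apply]
      by_cases hjk : j = k
      · subst hjk; simp; ring
      · rw [if_neg hjk, if_neg (fun h => hjk h.symm)]; simp; ring
    simp only [h1, mul_add, Finset.sum_add_distrib]
    rw [Finset.mul_sum, Finset.mul_sum]
    have h2 : ∑ j, C (d (f j)) * ((if j = k then 1 else 0) * Phi f p) = C (d (f k)) * Phi f p := by
      rw [Finset.sum_eq_single k]
      · simp
      · intro j _ hj; simp [hj]
      · simp
    rw [h2]
    have h3 : ∑ j, C (d (f j)) * ((C (f k) + X k) * pderiv j (Phi f p))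
        = ∑ j, C (f k) * (C (d (f j)) * pderiv j (Phi f p))
          + ∑ j, X k * (C (d (f j)) * pderiv j (Phi f p)) := by
      rw [← Finset.sum_add_distrib]
      refine Finset.sum_congr rfl fun j _ => ?_
      ring
    rw [h3]
    ring

theorem pderiv_Phi (j : ι) (F : MvPolynomial ι ℂ) :
    pderiv j (Phi f F) = Phi f (pderiv j F) := by
  induction F using MvPolynomial.induction_on with
  | C a =>
    have h : Phi f (C a) = C (C a) := by
      rw [Phi, aeval_C]
      rfl
    rw [h, pderiv_C, pderiv_C, map_zero]
  | add p q hp hq => rw [map_add, map_add, hp, hq, map_add, map_add]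
  | mul_X p k hp =>
    rw [map_mul, Derivation.leibniz, hp, Derivation.leibniz, map_add]
    simp only [smul_eq_mul, map_mul]
    have h1 : Phi f (X k) = C (f k) + X k := by rw [Phi, aeval_X]
    rw [h1, map_add, pderiv_C, zero_add, pderiv_X, pderiv_X]
    simp only [Pi.single_apply]
    by_cases hjk : j = k
    · subst hjk; simp
    · rw [if_neg (fun h => hjk h.symm), if_neg (fun h => hjk h.symm)]; simp

/-- The function `t ^ s`, expanded at `f`. -/
noncomputable def E (s : ι →₀ ℕ) : MvPolynomial ι (MvPolynomial σ ℂ) :=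
  Phi f (monomial s 1)

theorem E_eq (s : ι →₀ ℕ) : E f s = ∏ j, (C (f j) + X j) ^ s j := by
  rw [E, monomial_eq, Finsupp.prod_fintype _ _ (by simp), map_mul, map_prod]
  rw [map_one, map_one, one_mul]
  refine Finset.prod_congr rfl fun j _ => ?_
  rw [map_pow, Phi, aeval_X]

theorem pderiv_E (j : ι) (s : ι →₀ ℕ) :
    pderiv j (E f s) = C (s j : MvPolynomial σ ℂ) * E f (s - Finsupp.single j 1) := by
  rw [E, pderiv_Phi, pderiv_monomial, one_mul, E]
  have h : (monomial (s - Finsupp.single j 1) (s j : ℂ) : MvPolynomial ι ℂ)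
      = (s j : ℂ) • monomial (s - Finsupp.single j 1) 1 := by
    rw [smul_monomial, smul_eq_mul, mul_one]
  rw [h, map_smul, Algebra.smul_def]
  congr 1

theorem fX_E (j : ι) (s : ι →₀ ℕ) :
    (C (f j) + X j) * pderiv j (E f s) = C (s j : MvPolynomial σ ℂ) * E f s := by
  rw [pderiv_E]
  rcases Nat.eq_zero_or_pos (s j) with h | h
  · rw [h]; simp
  · have h1 : E f s = (C (f j) + X j) * E f (s - Finsupp.single j 1) := by
      have h2 : (monomial s 1 : MvPolynomial ι ℂ) = X j * monomial (s - Finsupp.single j 1) 1 := by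
        rw [mul_comm, X, monomial_mul, mul_one, tsub_add_cancel_of_le]
        rw [Finsupp.single_le_iff]
        omega
      have h3 : Phi f (X j) = C (f j) + X j := by rw [Phi, aeval_X]
      rw [E, h2, map_mul, h3]
      rfl
    rw [h1]
    ring

/-- The transpose of the operator `t_j ∂_{t_j}`. -/
noncomputable def theta (j : ι) (q : MvPolynomial ι (MvPolynomial σ ℂ)) :
    MvPolynomial ι (MvPolynomial σ ℂ) :=
  X j * (C (f j) * q + pderiv j q)

theorem ip_theta (j : ι) (s : ι →₀ ℕ) (q : MvPolynomial ι (MvPolynomial σ ℂ)) :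
    ip (E f s) (theta f j q) = (s j : MvPolynomial σ ℂ) * ip (E f s) q := by
  rw [theta, ip_X_mul, map_add, ip_C_mul, ip_pderiv, ← ip_C_mul_left, ← ip_add_left, ← add_mul,
    fX_E, ip_C_mul_left]

theorem finsupp_ind {ι : Type} {P : (ι →₀ ℕ) → Prop} (h0 : P 0)
    (h1 : ∀ (γ : ι →₀ ℕ) (j : ι), P γ → P (γ + Finsupp.single j 1)) : ∀ γ, P γ := by
  classical
  have key : ∀ (n : ℕ) (γ : ι →₀ ℕ), γ.degree = n → P γ := by
    intro n
    induction n with
    | zero =>
      intro γ hγ
      have : γ = 0 := by simpa [Finsupp.degree_eq_zero_iff] using hγ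
      rw [this]; exact h0
    | succ n ih =>
      intro γ hγ
      have hne : γ ≠ 0 := by
        rintro rfl
        simp at hγ
      obtain ⟨j, hj⟩ := Finsupp.ne_iff.1 hne
      have h2 : (γ - Finsupp.single j 1) + Finsupp.single j 1 = γ := by
        rw [tsub_add_cancel_of_le]
        rw [Finsupp.single_le_iff]
        simp only [Finsupp.coe_zero, Pi.zero_apply] at hj
        omega
      rw [← h2]
      apply h1
      apply ih
      have h3 := congrArg Finsupp.degree h2
      rw [map_add, Finsupp.degree_single, hγ] at h3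
      omega
  exact fun γ => key _ γ rfl

theorem ip_E_monomial (γ : ι →₀ ℕ) : ∀ (s : ι →₀ ℕ) (a : MvPolynomial σ ℂ),
    ip (E f s) (monomial γ a) =
      a * ((∏ j, (s j).descFactorial (γ j) : ℕ) : MvPolynomial σ ℂ) * ∏ j, f j ^ (s j - γ j) := by
  induction γ using finsupp_ind with
  | h0 =>
    intro s a
    rw [ip_monomial]
    have h : coeff 0 (E f s) = ∏ j, f j ^ s j := by
      rw [E_eq, ← constantCoeff_eq, map_prod]
      refine Finset.prod_congr rfl fun j _ => ?_
      simp
    rw [h]
    simp [mfact]
  | h1 γ k ih =>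
    intro s a
    have h : monomial (γ + Finsupp.single k 1) a = X k * monomial γ a := by
      rw [mul_comm, X, monomial_mul, mul_one]
    rw [h, ip_X_mul, pderiv_E, ip_C_mul_left, ih]
    have h1 : ((s k : ℕ) : MvPolynomial σ ℂ) *
        ((∏ j, ((s - Finsupp.single k 1 : ι →₀ ℕ) j).descFactorial (γ j) : ℕ) : MvPolynomial σ ℂ)
        = ((∏ j, (s j).descFactorial ((γ + Finsupp.single k 1 : ι →₀ ℕ) j) : ℕ) : MvPolynomial σ ℂ) := by
      rw [← Nat.cast_mul]
      congr 1
      rw [← Finset.mul_prod_erase _ _ (Finset.mem_univ k),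
        ← Finset.mul_prod_erase Finset.univ (fun j => (s j).descFactorial
          ((γ + Finsupp.single k 1 : ι →₀ ℕ) j)) (Finset.mem_univ k), ← mul_assoc]
      congr 1
      · rw [Finsupp.tsub_apply, Finsupp.add_apply, Finsupp.single_eq_same]
        rcases Nat.eq_zero_or_pos (s k) with h0 | h0
        · rw [h0]; simp
        · obtain ⟨m, hm⟩ : ∃ m, s k = m + 1 := ⟨s k - 1, by omega⟩
          rw [hm, Nat.succ_descFactorial_succ, Nat.add_sub_cancel]
      · refine Finset.prod_congr rfl fun j hj => ?_
        rw [Finsupp.tsub_apply, Finsupp.add_apply,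
          Finsupp.single_eq_of_ne (Finset.ne_of_mem_erase hj)]
        simp
    have h2 : ∏ j, f j ^ ((s - Finsupp.single k 1 : ι →₀ ℕ) j - γ j)
        = ∏ j, f j ^ (s j - (γ + Finsupp.single k 1 : ι →₀ ℕ) j) := by
      refine Finset.prod_congr rfl fun j _ => ?_
      rw [Finsupp.tsub_apply, Finsupp.add_apply]
      congr 1
      omega
    rw [h2, ← h1]
    ring

/-- The pairing with the functions of `t` is nondegenerate. -/
theorem ip_map {R R' : Type} [CommRing R] [CommRing R'] (φ : R →+* R') (P q : MvPolynomial ι R) :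
    φ (ip P q) = ip (MvPolynomial.map φ P) (MvPolynomial.map φ q) := by
  induction q using MvPolynomial.induction_on' with
  | monomial γ a =>
    rw [ip_monomial, map_monomial, ip_monomial, coeff_map]
    simp
  | add p q hp hq => rw [map_add, map_add, map_add, map_add, hp, hq]

theorem eq_zero_of_ip (q : MvPolynomial ι (MvPolynomial σ ℂ))
    (h : ∀ F, ip (Phi f F) q = 0) : q = 0 := by
  ext1 γ
  rw [coeff_zero]
  apply MvPolynomial.funext
  intro x
  rw [map_zero]
  have h1 := congrArg (eval x) (h (∏ j, (X j - C (eval x (f j))) ^ γ j))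
  rw [ip_map, map_zero] at h1
  have h2 : MvPolynomial.map (eval x) (Phi f (∏ j, (X j - C (eval x (f j))) ^ γ j))
      = monomial γ (1 : ℂ) := by
    rw [map_prod, map_prod, monomial_eq, Finsupp.prod_fintype _ _ (by simp), map_one, one_mul]
    refine Finset.prod_congr rfl fun j _ => ?_
    rw [map_pow, map_pow, map_sub, Phi, aeval_X, aeval_C]
    congr 1
    have h3 : (algebraMap ℂ (MvPolynomial ι (MvPolynomial σ ℂ))) (eval x (f j))
        = C (C (eval x (f j))) := rfl
    rw [h3]
    simp
  rw [h2] at h1
  have h3 : ∀ q' : MvPolynomial ι ℂ, ip (monomial γ (1 : ℂ)) q' = (mfact γ : ℂ) * coeff γ q' := by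
    intro q'
    induction q' using MvPolynomial.induction_on' with
    | monomial δ a =>
      rw [ip_monomial, coeff_monomial, coeff_monomial]
      by_cases hd : γ = δ
      · subst hd; simp; ring
      · rw [if_neg hd, if_neg (fun h => hd h.symm)]; simp
    | add p q hp hq => rw [map_add, hp, hq, coeff_add]; ring
  rw [h3, coeff_map, mul_eq_zero] at h1
  rcases h1 with h1 | h1
  · exact absurd (by exact_mod_cast h1) (mfact_ne_zero γ)
  · exact h1

theorem eq_zero_of_ip_E (q : MvPolynomial ι (MvPolynomial σ ℂ))
    (h : ∀ s, ip (E f s) q = 0) : q = 0 := by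
  apply eq_zero_of_ip f
  intro F
  induction F using MvPolynomial.induction_on' with
  | monomial s a =>
    have h1 : (monomial s a : MvPolynomial ι ℂ) = a • monomial s 1 := by
      rw [smul_monomial, smul_eq_mul, mul_one]
    have h2 : a • Phi f (monomial s 1) = C (algebraMap ℂ (MvPolynomial σ ℂ) a) * E f s := by
      rw [Algebra.smul_def]; rfl
    rw [h1, map_smul, h2, ip_C_mul_left, h, mul_zero]
  | add p q hp hq => rw [map_add, ip_add_left, hp, hq, add_zero]

end Phi

end Pool.Agent.W574.SM
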