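import Mathlib

set_option autoImplicit false

/-! # Jacobian determinants have no residue -/

namespace Pool.Agent.W574.SM

variable {σ L : Type} [Fintype σ] [DecidableEq σ] [Field L] [Algebra ℂ L]

theorem deriv_prod (d : Derivation ℂ L L) (s : Finset σ) (g : σ → L) :
    d (∏ k ∈ s, g k) = ∑ k ∈ s, d (g k) * ∏ l ∈ s.erase k, g l := by
  induction s using Finset.induction_on with
  | empty => simp
  | insert a s ha ih =>
    rw [Finset.prod_insert ha, Derivation.leibniz, ih, Finset.sum_insert ha,
      Finset.erase_insert ha, smul_eq_mul, smul_eq_mul, Finset.mul_sum, add_comm]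
    congr 1
    · ring
    · refine Finset.sum_congr rfl fun k hk => ?_
      have hka : k ≠ a := fun h => ha (h ▸ hk)
      rw [Finset.erase_insert_of_ne (fun h => hka h.symm), Finset.prod_insert]
      · ring
      · intro h; exact ha (Finset.mem_of_mem_erase h)

/-- The determinant of the matrix of derivatives is a sum of derivatives. -/
theorem T0_det [CharZero L] (θ : σ → Derivation ℂ L L)
    (hcomm : ∀ s t u, θ s (θ t u) = θ t (θ s u)) (T0 : L →ₗ[ℂ] ℂ) (hT0 : ∀ t u, T0 (θ t u) = 0)
    (i0 : σ) (η : σ → L) : T0 (Matrix.det (Matrix.of fun t k => θ t (η k))) = 0 := by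
  classical
  set a : Equiv.Perm σ → L := fun π =>
    (Equiv.Perm.sign π : ℤ) • (η i0 * ∏ k ∈ Finset.univ.erase i0, θ (π k) (η k)) with ha
  -- the derivative of the summand
  have h1 : ∀ π : Equiv.Perm σ, θ (π i0) (a π) =
      (Equiv.Perm.sign π : ℤ) • (∏ k, θ (π k) (η k)) +
      η i0 * ∑ k ∈ Finset.univ.erase i0, (Equiv.Perm.sign π : ℤ) • (θ (π i0) (θ (π k) (η k)) *
        ∏ l ∈ (Finset.univ.erase i0).erase k, θ (π l) (η l)) := by
    intro π
    rw [ha]
    simp only
    rw [map_zsmul, Derivation.leibniz, deriv_prod, smul_eq_mul, smul_eq_mul,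
      ← Finset.mul_prod_erase Finset.univ (fun k => θ (π k) (η k)) (Finset.mem_univ i0),
      ← Finset.smul_sum, smul_add, add_comm]
    congr 1
    · congr 1
      ring
    · rw [mul_smul_comm]
  have hZ : ∀ k ∈ Finset.univ.erase i0, ∑ π : Equiv.Perm σ,
      (Equiv.Perm.sign π : ℤ) • (θ (π i0) (θ (π k) (η k)) *
        ∏ l ∈ (Finset.univ.erase i0).erase k, θ (π l) (η l)) = 0 := by
    intro k hk
    have hki : k ≠ i0 := Finset.ne_of_mem_erase hk
    set F : Equiv.Perm σ → L := fun π => (Equiv.Perm.sign π : ℤ) • (θ (π i0) (θ (π k) (η k)) *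
        ∏ l ∈ (Finset.univ.erase i0).erase k, θ (π l) (η l)) with hF
    have h2 : ∑ π, F π = ∑ π, F (π * Equiv.swap i0 k) :=
      (Equiv.sum_comp (Equiv.mulRight (Equiv.swap i0 k)) F).symm
    have h3 : ∀ π, F (π * Equiv.swap i0 k) = - F π := by
      intro π
      rw [hF]
      simp only
      rw [Equiv.Perm.sign_mul, Equiv.Perm.sign_swap (fun h => hki h.symm)]
      simp only [Equiv.Perm.mul_apply, Equiv.swap_apply_left, Equiv.swap_apply_right]
      rw [hcomm (π k) (π i0)]
      have h4 : ∏ l ∈ (Finset.univ.erase i0).erase k, θ (π (Equiv.swap i0 k l)) (η l)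
          = ∏ l ∈ (Finset.univ.erase i0).erase k, θ (π l) (η l) := by
        refine Finset.prod_congr rfl fun l hl => ?_
        rw [Equiv.swap_apply_of_ne_of_ne
          (Finset.ne_of_mem_erase (Finset.mem_of_mem_erase hl)) (Finset.ne_of_mem_erase hl)]
      rw [h4]
      simp
    have h5 : ∑ π, F π = - ∑ π, F π := by
      conv_lhs => rw [h2]
      rw [← Finset.sum_neg_distrib]
      exact Finset.sum_congr rfl fun π _ => h3 π
    exact self_eq_neg.1 h5
  have h6 : Matrix.det (Matrix.of fun t k => θ t (η k)) = ∑ π : Equiv.Perm σ, θ (π i0) (a π) := by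
    rw [Finset.sum_congr rfl fun π _ => h1 π, Finset.sum_add_distrib, ← Finset.mul_sum,
      Finset.sum_comm, Finset.sum_eq_zero hZ, mul_zero, add_zero, Matrix.det_apply]
    refine Finset.sum_congr rfl fun π _ => ?_
    simp only [Matrix.of_apply]
    rfl
  rw [h6, map_sum]
  exact Finset.sum_eq_zero fun π _ => hT0 _ _
end Pool.Agent.W574.SM
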