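import Pool.Agent.W574.SM.Pull
import Pool.Agent.W574.SM.Piola

set_option autoImplicit false

/-! # The engine: roots of the Bernstein-Sato polynomial from residues -/

namespace Pool.Agent.W574.SM

open MvPolynomial

/-- A filtration of a field by additive subgroups. -/
structure Filt (L : Type) [Field L] [Algebra ℂ L] where
  ge : ℤ → AddSubgroup L
  mono : ∀ {d e : ℤ}, d ≤ e → ge e ≤ ge d
  mul : ∀ {d e : ℤ} {u v : L}, u ∈ ge d → v ∈ ge e → u * v ∈ ge (d + e)
  const : ∀ c : ℂ, algebraMap ℂ L c ∈ ge 0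

section Weights

variable {σ ι κ L : Type} [Fintype ι] [DecidableEq ι] [Fintype κ] [DecidableEq κ] [Field L]
  [Algebra ℂ L] (F : Filt L) (a : ℤ)

theorem Filt.mem_of_eq {F : Filt L} {d e : ℤ} {u : L} (h : u ∈ F.ge d) (hd : d = e) :
    u ∈ F.ge e := hd ▸ h

theorem Filt.pow {F : Filt L} {d : ℤ} {u : L} (h : u ∈ F.ge d) (n : ℕ) : u ^ n ∈ F.ge (n * d) := by
  induction n with
  | zero =>
    rw [pow_zero]
    have := F.const 1
    rw [map_one] at this
    exact F.mem_of_eq this (by simp)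
  | succ n ih =>
    rw [pow_succ]
    exact F.mem_of_eq (F.mul ih h) (by push_cast; ring)

theorem Filt.natCast {F : Filt L} (n : ℕ) : (n : L) ∈ F.ge 0 := by
  have := F.const (n : ℂ)
  simpa using this

theorem Filt.prod {α : Type} {F : Filt L} (s : Finset α) (u : α → L) (d : α → ℤ)
    (h : ∀ i ∈ s, u i ∈ F.ge (d i)) : ∏ i ∈ s, u i ∈ F.ge (∑ i ∈ s, d i) := by
  classical
  induction s using Finset.induction_on with
  | empty =>
    have := F.const 1
    rw [map_one] at this
    simpa using this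
  | insert i s hi ih =>
    rw [Finset.prod_insert hi, Finset.sum_insert hi]
    exact F.mul (h i (Finset.mem_insert_self i s))
      (ih fun j hj => h j (Finset.mem_insert_of_mem hj))

/-- the weight filtration on polynomials -/
def WK (d : ℤ) (P : MvPolynomial κ L) : Prop := ∀ μ, coeff μ P ∈ F.ge (d + a * μ.degree)

theorem WK_zero (d : ℤ) : WK F a d (0 : MvPolynomial κ L) := fun μ => by
  rw [coeff_zero]; exact (F.ge _).zero_mem

theorem WK_add {d : ℤ} {P Q : MvPolynomial κ L} (hP : WK F a d P) (hQ : WK F a d Q) :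
    WK F a d (P + Q) := fun μ => by
  rw [coeff_add]; exact (F.ge _).add_mem (hP μ) (hQ μ)

theorem WK_sum {α : Type} (s : Finset α) {d : ℤ} {P : α → MvPolynomial κ L}
    (hP : ∀ i ∈ s, WK F a d (P i)) : WK F a d (∑ i ∈ s, P i) := fun μ => by
  rw [coeff_sum]; exact (F.ge _).sum_mem fun i hi => hP i hi μ

theorem WK_C_mul {d d' : ℤ} {u : L} {P : MvPolynomial κ L} (hu : u ∈ F.ge d')
    (hP : WK F a d P) : WK F a (d' + d) (C u * P) := fun μ => by
  rw [coeff_C_mul]
  exact F.mem_of_eq (F.mul hu (hP μ)) (by ring)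

theorem WK_X_mul {d : ℤ} (m : κ) {P : MvPolynomial κ L} (hP : WK F a d P) :
    WK F a (d - a) (X m * P) := fun μ => by
  rw [coeff_X_mul']
  split_ifs with h
  · refine F.mem_of_eq (hP _) ?_
    have h1 : (μ - Finsupp.single m 1) + Finsupp.single m 1 = μ := by
      rw [tsub_add_cancel_of_le]
      rw [Finsupp.single_le_iff]
      have : μ m ≠ 0 := by simpa using h
      omega
    have h2 := congrArg Finsupp.degree h1
    rw [map_add, Finsupp.degree_single] at h2
    rw [← h2]
    push_cast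
    ring
  · exact (F.ge _).zero_mem

theorem WK_ell_mul {d : ℤ} (lam : κ → ι → ℂ) (j : ι) {P : MvPolynomial κ L} (hP : WK F a d P) :
    WK F a (d - a) (ell L lam j * P) := by
  rw [ell, Finset.sum_mul]
  refine WK_sum F a _ fun m _ => ?_
  rw [mul_assoc]
  have := WK_C_mul F a (F.const (lam m j)) (WK_X_mul F a m hP)
  rwa [zero_add] at this

theorem wt_mem (e : κ → ℂ) (G : κ → L) (hG : ∀ m, (G m)⁻¹ ∈ F.ge (-a)) (μ : κ →₀ ℕ) :
    wt e G μ ∈ F.ge (-a * μ.degree) := by
  have h := Filt.prod (F := F) Finset.univ (fun m => algebraMap ℂ L (dpoch (e m) (μ m)) *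
    (G m)⁻¹ ^ (μ m)) (fun m => 0 + μ m * (-a)) fun m _ =>
      F.mul (F.const _) (Filt.pow (hG m) _)
  refine F.mem_of_eq h ?_
  simp only [zero_add]
  rw [← Finset.sum_mul, Finsupp.degree_eq_sum]
  push_cast
  ring

theorem Lam_mem (e : κ → ℂ) (G : κ → L) (hG : ∀ m, (G m)⁻¹ ∈ F.ge (-a)) {d : ℤ}
    {P : MvPolynomial κ L} (hP : WK F a d P) : Lam e G P ∈ F.ge d := by
  rw [← support_sum_monomial_coeff P, map_sum]
  refine (F.ge d).sum_mem fun μ _ => ?_
  rw [Lam_monomial]
  exact F.mem_of_eq (F.mul (hP μ) (wt_mem F a e G hG μ)) (by ring)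

variable (φ : MvPolynomial σ ℂ →ₐ[ℂ] L)

/-- the weight filtration on `A[∂_t]` -/
def WM (d : ℤ) (q : MvPolynomial ι (MvPolynomial σ ℂ)) : Prop :=
  ∀ γ, φ (coeff γ q) ∈ F.ge (d + a * γ.degree)

theorem SS_monomial_WK (lam : κ → ι → ℂ) (p : MvPolynomial σ ℂ) (γ : ι →₀ ℕ) :
    ∀ d : ℤ, φ p ∈ F.ge (d + a * γ.degree) → WK F a d (SS φ lam (monomial γ p)) := by
  induction γ using finsupp_ind with
  | h0 =>
    intro d h
    have h1 : (monomial 0 p : MvPolynomial ι (MvPolynomial σ ℂ)) = C p := rfl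
    rw [h1, SS_C]
    intro μ
    rw [coeff_C]
    split_ifs with h2
    · subst h2
      simpa using h
    · exact (F.ge _).zero_mem
  | h1 γ j ih =>
    intro d h
    rw [← X_mul_monomial, map_mul, SS_X]
    have h2 := ih (d + a) (F.mem_of_eq h (by
      rw [map_add, Finsupp.degree_single]; push_cast; ring))
    have h3 := WK_ell_mul F a lam j h2
    rwa [add_sub_cancel_right] at h3

theorem SS_WK (lam : κ → ι → ℂ) {d : ℤ} {q : MvPolynomial ι (MvPolynomial σ ℂ)}
    (hq : WM F a φ d q) : WK F a d (SS φ lam q) := by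
  rw [← support_sum_monomial_coeff q, map_sum]
  exact WK_sum F a _ fun γ _ => SS_monomial_WK F a φ lam _ γ d (hq γ)

theorem theta_WM (f : ι → MvPolynomial σ ℂ) (hf : ∀ j, φ (f j) ∈ F.ge a) (j : ι) {d : ℤ}
    {q : MvPolynomial ι (MvPolynomial σ ℂ)} (hq : WM F a φ d q) :
    WM F a φ d (theta f j q) := by
  intro γ
  rw [theta, coeff_X_mul']
  split_ifs with h
  · have h1 : (γ - Finsupp.single j 1) + Finsupp.single j 1 = γ := by
      rw [tsub_add_cancel_of_le]
      rw [Finsupp.single_le_iff]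
      have : γ j ≠ 0 := by simpa using h
      omega
    have h2 := congrArg Finsupp.degree h1
    rw [map_add, Finsupp.degree_single] at h2
    rw [coeff_add, coeff_C_mul, coeff_pderiv, h1, map_add, map_mul, map_mul]
    refine (F.ge _).add_mem ?_ ?_
    · refine F.mem_of_eq (F.mul (hf j) (hq _)) ?_
      rw [← h2]
      push_cast
      ring
    · have h3 : φ (((γ - Finsupp.single j 1 : ι →₀ ℕ) j : MvPolynomial σ ℂ) + 1) ∈ F.ge 0 := by
        have : φ (((γ - Finsupp.single j 1 : ι →₀ ℕ) j : MvPolynomial σ ℂ) + 1)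
          = (((γ - Finsupp.single j 1 : ι →₀ ℕ) j + 1 : ℕ) : L) := by simp
        rw [this]
        exact Filt.natCast _
      exact F.mem_of_eq (F.mul (hq γ) h3) (by ring)
  · rw [map_zero]; exact (F.ge _).zero_mem

end Weights

end Pool.Agent.W574.SM
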