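import Pool.Agent.W574.SM.Main

set_option autoImplicit false
set_option linter.unusedSectionVars false
set_option linter.unusedVariables false

/-! # Fields of Hahn series as test fields -/

namespace Pool.Agent.W574.SM

open HahnSeries

section Gen

variable {Γ : Type} [AddCommGroup Γ] [LinearOrder Γ] [IsOrderedAddMonoid Γ]

/-- the Euler derivation attached to an additive character of the exponents, as a function -/
noncomputable def eulFun (χ : Γ →+ ℂ) (u : HahnSeries Γ ℂ) : HahnSeries Γ ℂ where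
  coeff g := χ g * u.coeff g
  isPWO_support' := u.isPWO_support.mono (by
    intro g hg
    rw [Function.mem_support] at hg
    rw [mem_support]
    exact right_ne_zero_of_mul hg)

theorem coeff_eulFun (χ : Γ →+ ℂ) (u : HahnSeries Γ ℂ) (g : Γ) :
    (eulFun χ u).coeff g = χ g * u.coeff g := rfl

theorem support_eulFun (χ : Γ →+ ℂ) (u : HahnSeries Γ ℂ) : (eulFun χ u).support ⊆ u.support := by
  intro g hg
  rw [mem_support, coeff_eulFun] at hg
  rw [mem_support]
  exact right_ne_zero_of_mul hg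

/-- the Euler derivation attached to an additive character of the exponents -/
noncomputable def eul (χ : Γ →+ ℂ) : Derivation ℂ (HahnSeries Γ ℂ) (HahnSeries Γ ℂ) where
  toFun := eulFun χ
  map_add' u v := by
    ext g
    simp only [coeff_add, coeff_eulFun]
    ring
  map_smul' c u := by
    ext g
    simp only [coeff_smul, coeff_eulFun, RingHom.id_apply, smul_eq_mul]
    ring
  map_one_eq_zero' := by
    ext g
    simp only [LinearMap.coe_mk, AddHom.coe_mk, coeff_eulFun, coeff_one, coeff_zero]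
    split_ifs with h
    · rw [h, map_zero, zero_mul]
    · rw [mul_zero]
  leibniz' u v := by
    ext g
    simp only [LinearMap.coe_mk, AddHom.coe_mk, smul_eq_mul, coeff_add, coeff_eulFun]
    rw [mul_comm v, coeff_mul_right' v.isPWO_support (support_eulFun χ v),
      coeff_mul_left' u.isPWO_support (support_eulFun χ u), coeff_mul,
      Finset.mul_sum, ← Finset.sum_add_distrib]
    refine Finset.sum_congr rfl fun p hp => ?_
    rw [coeff_eulFun, coeff_eulFun, ← (Finset.mem_antidiagonal.1 hp).2.2, map_add]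
    ring

theorem coeff_eul (χ : Γ →+ ℂ) (u : HahnSeries Γ ℂ) (g : Γ) :
    (eul χ u).coeff g = χ g * u.coeff g := rfl

theorem eul_comm (χ χ' : Γ →+ ℂ) (u : HahnSeries Γ ℂ) : eul χ (eul χ' u) = eul χ' (eul χ u) := by
  ext g
  simp only [coeff_eul]
  ring

/-- the constant coefficient -/
noncomputable def T00 (Γ : Type) [AddCommGroup Γ] [LinearOrder Γ] [IsOrderedAddMonoid Γ] :
    HahnSeries Γ ℂ →ₗ[ℂ] ℂ where
  toFun u := u.coeff 0
  map_add' u v := coeff_add
  map_smul' c u := by simp

theorem T00_apply (u : HahnSeries Γ ℂ) : T00 Γ u = u.coeff 0 := rfl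

theorem T00_eul (χ : Γ →+ ℂ) (u : HahnSeries Γ ℂ) : T00 Γ (eul χ u) = 0 := by
  rw [T00_apply, coeff_eul, map_zero, zero_mul]

/-- the filtration attached to a monotone character of the exponents -/
noncomputable def filt (π : Γ →+ ℤ) : Filt (HahnSeries Γ ℂ) where
  ge d :=
    { carrier := {u | ∀ g, u.coeff g ≠ 0 → d ≤ π g}
      add_mem' := by
        intro u v hu hv g hg
        rw [coeff_add] at hg
        by_cases h : u.coeff g = 0
        · exact hv g (by rwa [h, zero_add] at hg)
        · exact hu g h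
      zero_mem' := by
        intro g hg
        exact absurd rfl hg
      neg_mem' := by
        intro u hu g hg
        rw [coeff_neg, neg_ne_zero] at hg
        exact hu g hg }
  mono := by
    intro d e hde u hu g hg
    exact hde.trans (hu g hg)
  mul := by
    intro d e u v hu hv g hg
    rw [coeff_mul] at hg
    obtain ⟨p, hp, hp2⟩ := Finset.exists_ne_zero_of_sum_ne_zero hg
    rw [← (Finset.mem_antidiagonal.1 hp).2.2, map_add]
    exact add_le_add (hu _ (left_ne_zero_of_mul hp2)) (hv _ (right_ne_zero_of_mul hp2))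
  const := by
    intro c g hg
    rw [HahnSeries.algebraMap_apply, C_apply, coeff_single] at hg
    split_ifs at hg with h
    · rw [h, map_zero]
    · exact absurd rfl hg

theorem mem_filt (π : Γ →+ ℤ) (d : ℤ) (u : HahnSeries Γ ℂ) :
    u ∈ (filt π).ge d ↔ ∀ g, u.coeff g ≠ 0 → d ≤ π g := Iff.rfl

theorem mem_filt_of_order (π : Γ →+ ℤ) (hπ : Monotone π) (u : HahnSeries Γ ℂ) :
    u ∈ (filt π).ge (π u.order) := fun g hg => hπ (order_le_of_coeff_ne_zero hg)

theorem T00_filt (π : Γ →+ ℤ) (u : HahnSeries Γ ℂ) (hu : u ∈ (filt π).ge 1) : T00 Γ u = 0 := by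
  by_contra h
  have := hu 0 h
  rw [map_zero] at this
  omega

theorem T00_ne_zero (u : HahnSeries Γ ℂ) (hu : u ≠ 0) (h : u.order = 0) : T00 Γ u ≠ 0 := by
  rw [T00_apply, ← h]
  exact fun h' => hu (coeff_order_eq_zero.1 h')

theorem order_inv' (u : HahnSeries Γ ℂ) (hu : u ≠ 0) : (u⁻¹).order = - u.order := by
  have h := order_mul hu (inv_ne_zero hu)
  rw [mul_inv_cancel₀ hu, order_one] at h
  rw [eq_neg_iff_add_eq_zero, add_comm]
  exact h.symm

theorem order_prod {α : Type} (s : Finset α) (u : α → HahnSeries Γ ℂ) (h : ∀ i ∈ s, u i ≠ 0) :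
    (∏ i ∈ s, u i).order = ∑ i ∈ s, (u i).order := by
  classical
  induction s using Finset.induction_on with
  | empty => simp
  | insert a s ha ih =>
    rw [Finset.prod_insert ha, Finset.sum_insert ha, order_mul (h a (Finset.mem_insert_self a s))
      (Finset.prod_ne_zero_iff.2 fun i hi => h i (Finset.mem_insert_of_mem hi)),
      ih fun i hi => h i (Finset.mem_insert_of_mem hi)]

instance : CharZero (HahnSeries Γ ℂ) :=
  charZero_of_injective_algebraMap (algebraMap ℂ (HahnSeries Γ ℂ)).injective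

/-- roots of elements of order zero -/
theorem exists_root (u : HahnSeries Γ ℂ) (hu : u ≠ 0) (h : u.order = 0) (n : ℕ) (hn : n ≠ 0) :
    ∃ w : HahnSeries Γ ℂ, w ≠ 0 ∧ w.order = 0 ∧ w ^ n = u := by
  set c := u.leadingCoeff with hc
  have hc0 : c ≠ 0 := leadingCoeff_ne_zero.2 hu
  obtain ⟨d, hd⟩ := IsAlgClosed.exists_pow_nat_eq c (Nat.pos_of_ne_zero hn)
  have hd0 : d ≠ 0 := by
    rintro rfl
    rw [zero_pow hn] at hd
    exact hc0 hd.symm
  set v : HahnSeries Γ ℂ := C c⁻¹ * u with hv
  have hCc : (C c⁻¹ : HahnSeries Γ ℂ) ≠ 0 := C_ne_zero (inv_ne_zero hc0)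
  have hv0 : v ≠ 0 := mul_ne_zero hCc hu
  have hvo : v.order = 0 := by rw [hv, order_mul hCc hu, h, order_C, add_zero]
  have hvl : v.leadingCoeff = 1 := by
    rw [hv, leadingCoeff_mul, ← hc, C_apply, leadingCoeff_of_single, inv_mul_cancel₀ hc0]
  have hv1 : 0 < (v - 1).orderTop := by
    rw [orderTop_self_sub_one_pos_iff]
    refine ⟨?_, hvl⟩
    rw [← order_eq_orderTop_of_ne_zero hv0, hvo]
    rfl
  set x : HahnSeries Γ ℂ := v - 1 with hx
  set w : HahnSeries Γ ℂ := PowerSeries.heval x (PowerSeries.binomialSeries ℂ ((n : ℂ)⁻¹)) with hw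
  have hB : ∀ k : ℕ, (PowerSeries.binomialSeries ℂ ((n : ℂ)⁻¹)) ^ k
      = PowerSeries.binomialSeries ℂ (k * (n : ℂ)⁻¹) := by
    intro k
    induction k with
    | zero => rw [pow_zero, Nat.cast_zero, zero_mul, PowerSeries.binomialSeries_zero]
    | succ k ih =>
      rw [pow_succ, ih, ← PowerSeries.binomialSeries_add]
      congr 1
      push_cast
      ring
  have hw' : w ^ n = v := by
    rw [hw, ← map_pow, hB, mul_inv_cancel₀ (Nat.cast_ne_zero.2 hn)]
    have h1 : PowerSeries.binomialSeries ℂ (1 : ℂ) = 1 + PowerSeries.X := by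
      have := PowerSeries.binomialSeries_nat (R := ℂ) (A := ℂ) 1
      simpa using this
    rw [h1, map_add, map_one, PowerSeries.heval_X x hv1, hx]
    ring
  have hw0 : w ≠ 0 := by
    rintro h0
    rw [h0, zero_pow hn] at hw'
    exact hv0 hw'.symm
  refine ⟨C d * w, mul_ne_zero (C_ne_zero hd0) hw0, ?_, ?_⟩
  · have h1 : (w ^ n).order = 0 := by rw [hw', hvo]
    rw [order_pow] at h1
    rw [order_mul (C_ne_zero hd0) hw0, order_C, zero_add]
    rcases smul_eq_zero.1 h1 with h2 | h2
    · exact absurd h2 hn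
    · exact h2
  · rw [mul_pow, hw', hv, ← mul_assoc, ← map_pow, hd, ← map_mul,
      mul_inv_cancel₀ hc0, map_one, one_mul]

end Gen

section Emb

variable {σ Γ : Type} [Finite σ] [AddCommGroup Γ] [LinearOrder Γ] [IsOrderedAddMonoid Γ]
  (γ : (σ →₀ ℕ) →+ Γ) (hγ : Function.Injective γ) (hm : Monotone γ)

include hm in
theorem isPWO_range : (Set.range γ).IsPWO := by
  rw [← Set.image_univ]
  exact (Set.isPWO_of_wellQuasiOrderedLE Set.univ).image_of_monotone hm

open Classical in
/-- power series as Hahn series, as a function -/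
noncomputable def embFun (u : MvPowerSeries σ ℂ) : HahnSeries Γ ℂ where
  coeff g := if h : ∃ μ, γ μ = g then MvPowerSeries.coeff h.choose u else 0
  isPWO_support' := (isPWO_range γ hm).mono (by
    intro g hg
    rw [Function.mem_support] at hg
    by_contra h
    exact hg (dif_neg h))

include hγ in
theorem coeff_embFun (u : MvPowerSeries σ ℂ) (μ : σ →₀ ℕ) :
    (embFun γ hm u).coeff (γ μ) = MvPowerSeries.coeff μ u := by
  have h : ∃ ν, γ ν = γ μ := ⟨μ, rfl⟩
  have h1 : (embFun γ hm u).coeff (γ μ) = MvPowerSeries.coeff h.choose u := dif_pos h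
  rw [h1, hγ h.choose_spec]

theorem coeff_embFun_of (u : MvPowerSeries σ ℂ) (g : Γ) (h : ¬ ∃ μ, γ μ = g) :
    (embFun γ hm u).coeff g = 0 := dif_neg h

theorem support_embFun (u : MvPowerSeries σ ℂ) : (embFun γ hm u).support ⊆ Set.range γ := by
  intro g hg
  rw [mem_support] at hg
  by_contra h
  exact hg (coeff_embFun_of γ hm u g h)

include hγ in
theorem embFun_ext {v : HahnSeries Γ ℂ} {u : MvPowerSeries σ ℂ}
    (h1 : ∀ μ, v.coeff (γ μ) = MvPowerSeries.coeff μ u)
    (h2 : ∀ g, (¬ ∃ μ, γ μ = g) → v.coeff g = 0) : v = embFun γ hm u := by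
  ext g
  by_cases h : ∃ μ, γ μ = g
  · obtain ⟨μ, rfl⟩ := h
    rw [coeff_embFun γ hγ hm, h1]
  · rw [coeff_embFun_of γ hm u g h, h2 g h]

include hγ in
theorem embFun_mul (u v : MvPowerSeries σ ℂ) :
    embFun γ hm u * embFun γ hm v = embFun γ hm (u * v) := by
  classical
  have hs := isPWO_range γ hm
  refine embFun_ext γ hγ hm (fun μ => ?_) (fun g hg => ?_)
  · rw [coeff_mul_left' hs (support_embFun γ hm u), MvPowerSeries.coeff_mul]
    symm
    refine Finset.sum_bij_ne_zero (fun p _ _ => (γ p.1, γ p.2)) ?_ ?_ ?_ ?_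
    · intro p hp hp2
      rw [Finset.mem_antidiagonal]
      rw [Finset.HasAntidiagonal.mem_antidiagonal] at hp
      refine ⟨⟨p.1, rfl⟩, ?_, by rw [← map_add, hp]⟩
      rw [mem_support, coeff_embFun γ hγ hm]
      exact right_ne_zero_of_mul hp2
    · intro p _ _ q _ _ h
      rw [Prod.mk.injEq] at h
      exact Prod.ext (hγ h.1) (hγ h.2)
    · intro b hb hb2
      rw [Finset.mem_antidiagonal] at hb
      obtain ⟨⟨μ1, h1⟩, hb3, hb4⟩ := hb
      obtain ⟨μ2, h2⟩ := support_embFun γ hm v hb3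
      refine ⟨(μ1, μ2), ?_, ?_, ?_⟩
      · rw [Finset.HasAntidiagonal.mem_antidiagonal]
        apply hγ
        rw [map_add, h1, h2, hb4]
      · rw [← h1, ← h2, coeff_embFun γ hγ hm, coeff_embFun γ hγ hm] at hb2
        exact hb2
      · rw [h1, h2]
    · intro p hp hp2
      rw [coeff_embFun γ hγ hm, coeff_embFun γ hγ hm]
  · rw [coeff_mul]
    refine Finset.sum_eq_zero fun p hp => ?_
    rw [Finset.mem_antidiagonal] at hp
    exfalso
    obtain ⟨μ1, h1⟩ := support_embFun γ hm u hp.1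
    obtain ⟨μ2, h2⟩ := support_embFun γ hm v hp.2.1
    exact hg ⟨μ1 + μ2, by rw [map_add, h1, h2, hp.2.2]⟩

/-- power series as Hahn series -/
noncomputable def emb : MvPowerSeries σ ℂ →ₐ[ℂ] HahnSeries Γ ℂ where
  toFun := embFun γ hm
  map_mul' u v := (embFun_mul γ hγ hm u v).symm
  map_one' := by
    classical
    refine (embFun_ext γ hγ hm (fun μ => ?_) (fun g hg => ?_)).symm
    · rw [coeff_one, MvPowerSeries.coeff_one]
      by_cases h : μ = 0
      · rw [h, map_zero, if_pos rfl, if_pos rfl]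
      · rw [if_neg h, if_neg]
        intro h'
        exact h (hγ (by rw [h', map_zero]))
    · rw [coeff_one, if_neg]
      rintro rfl
      exact hg ⟨0, map_zero γ⟩
  map_add' u v := by
    refine (embFun_ext γ hγ hm (fun μ => ?_) (fun g hg => ?_)).symm
    · rw [coeff_add, coeff_embFun γ hγ hm, coeff_embFun γ hγ hm, map_add]
    · rw [coeff_add, coeff_embFun_of γ hm u g hg, coeff_embFun_of γ hm v g hg, add_zero]
  map_zero' := by
    refine (embFun_ext γ hγ hm (fun μ => ?_) (fun g hg => ?_)).symm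
    · rw [coeff_zero, map_zero]
    · rw [coeff_zero]
  commutes' c := by
    classical
    refine (embFun_ext γ hγ hm (fun μ => ?_) (fun g hg => ?_)).symm
    · have h0 : algebraMap ℂ (MvPowerSeries σ ℂ) c = MvPowerSeries.C c := rfl
      rw [HahnSeries.algebraMap_apply, C_apply, coeff_single, h0, MvPowerSeries.coeff_C]
      by_cases h : μ = 0
      · rw [h, map_zero, if_pos rfl, if_pos rfl]; rfl
      · rw [if_neg h, if_neg]
        intro h'
        exact h (hγ (by rw [h', map_zero]))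
    · rw [HahnSeries.algebraMap_apply, C_apply, coeff_single, if_neg]
      rintro rfl
      exact hg ⟨0, map_zero γ⟩

theorem coeff_emb (u : MvPowerSeries σ ℂ) (μ : σ →₀ ℕ) :
    (emb γ hγ hm u).coeff (γ μ) = MvPowerSeries.coeff μ u := coeff_embFun γ hγ hm u μ

theorem coeff_emb_ne (u : MvPowerSeries σ ℂ) (g : Γ) (hg : (emb γ hγ hm u).coeff g ≠ 0) :
    ∃ μ, γ μ = g ∧ MvPowerSeries.coeff μ u ≠ 0 := by
  obtain ⟨μ, rfl⟩ := support_embFun γ hm u hg
  exact ⟨μ, rfl, by rwa [coeff_emb γ hγ hm] at hg⟩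

theorem emb_injective : Function.Injective (emb γ hγ hm) := by
  intro u v h
  ext μ
  rw [← coeff_emb γ hγ hm u, h, coeff_emb γ hγ hm]

theorem emb_ne_zero (u : MvPowerSeries σ ℂ) (hu : u ≠ 0) : emb γ hγ hm u ≠ 0 := fun h =>
  hu (emb_injective γ hγ hm (by rw [h, map_zero]))

theorem order_emb (u : MvPowerSeries σ ℂ) (μ : σ →₀ ℕ) (h0 : MvPowerSeries.coeff μ u ≠ 0)
    (h1 : ∀ ν, MvPowerSeries.coeff ν u ≠ 0 → γ μ ≤ γ ν) : (emb γ hγ hm u).order = γ μ := by
  have hu : u ≠ 0 := by
    rintro rfl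
    exact h0 (map_zero _)
  have hu' := emb_ne_zero γ hγ hm u hu
  apply le_antisymm
  · exact order_le_of_coeff_ne_zero (by rwa [coeff_emb])
  · have h2 : (emb γ hγ hm u).coeff (emb γ hγ hm u).order ≠ 0 := fun h => hu' (coeff_order_eq_zero.1 h)
    obtain ⟨ν, h3, h4⟩ := coeff_emb_ne γ hγ hm u _ h2
    rw [← h3]
    exact h1 ν h4

theorem eul_emb (χ : Γ →+ ℂ) (t : σ) (hχ : ∀ μ, χ (γ μ) = μ t) (u : MvPowerSeries σ ℂ) :
    eul χ (emb γ hγ hm u) = emb γ hγ hm (MvPowerSeries.X t * MvPowerSeries.pderiv ℂ t u) := by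
  classical
  refine embFun_ext γ hγ hm (fun μ => ?_) (fun g hg => ?_)
  · rw [coeff_eul, coeff_emb, hχ, MvPowerSeries.X, MvPowerSeries.coeff_monomial_mul]
    split_ifs with h
    · rw [MvPowerSeries.coeff_pderiv, tsub_add_cancel_of_le h, one_mul, mul_comm]
      congr 1
      rw [Finsupp.single_le_iff] at h
      rw [Finsupp.tsub_apply, Finsupp.single_eq_same, Nat.cast_sub h]
      ring
    · rw [Finsupp.single_le_iff] at h
      have : μ t = 0 := by omega
      rw [this, Nat.cast_zero, zero_mul]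
  · rw [coeff_eul]
    by_contra h
    obtain ⟨μ, h1, _⟩ := coeff_emb_ne γ hγ hm u g (right_ne_zero_of_mul h)
    exact hg ⟨μ, h1⟩

end Emb

end Pool.Agent.W574.SM
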