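import Pool.Agent.W574.SM.Chain

set_option autoImplicit false
set_option linter.unusedSectionVars false
set_option linter.unusedVariables false

/-! # Implicit functions in formal power series -/

namespace Pool.Agent.W574.SM

section Hensel

open Polynomial IsLocalRing Function List

open scoped Ring

/-- Hensel's lemma, for polynomials which need not be monic (same proof as in Mathlib). -/
theorem hensel' (R : Type) [CommRing R] (I : Ideal R) [IsAdicComplete I R] (f : R[X]) (a₀ : R)
    (h₁ : f.eval a₀ ∈ I) (h₂ : IsUnit (Ideal.Quotient.mk I (f.derivative.eval a₀))) :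
    ∃ a : R, f.IsRoot a ∧ a - a₀ ∈ I := by
    classical
      let f' := derivative f
      -- we define a sequence `c n` by starting at `a₀` and then continually
      -- applying the function sending `b` to `b - f(b)/f'(b)` (Newton's method).
      -- Note that `f'.eval b` is a unit, because `b` has the same residue as `a₀` modulo `I`.
      let c : ℕ → R := fun n => Nat.recOn n a₀ fun _ b => b - f.eval b * (f'.eval b)⁻¹ʳ
      have hc : ∀ n, c (n + 1) = c n - f.eval (c n) * (f'.eval (c n))⁻¹ʳ := by
        intro n
        simp only [c]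
      -- we now spend some time determining properties of the sequence `c : ℕ → R`
      -- `hc_mod`: for every `n`, we have `c n ≡ a₀ [SMOD I]`
      -- `hf'c`  : for every `n`, `f'.eval (c n)` is a unit
      -- `hfcI`  : for every `n`, `f.eval (c n)` is contained in `I ^ (n+1)`
      have hc_mod : ∀ n, c n ≡ a₀ [SMOD I] := by
        intro n
        induction n with
        | zero => rfl
        | succ n ih => ?_
        rw [hc, sub_eq_add_neg, ← add_zero a₀]
        refine ih.add ?_
        rw [SModEq.zero, Ideal.neg_mem_iff]
        refine I.mul_mem_right _ ?_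
        rw [← SModEq.zero] at h₁ ⊢
        exact (ih.eval f).trans h₁
      have hf'c : ∀ n, IsUnit (f'.eval (c n)) := by
        intro n
        have := isLocalHom_of_le_jacobson_bot I (IsAdicComplete.le_jacobson_bot I)
        apply IsUnit.of_map (Ideal.Quotient.mk I)
        convert! h₂ using 1
        exact SModEq.def.mp ((hc_mod n).eval _)
      have hfcI : ∀ n, f.eval (c n) ∈ I ^ (n + 1) := by
        intro n
        induction n with
        | zero => simpa only [Nat.rec_zero, zero_add, pow_one] using! h₁
        | succ n ih => ?_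
        rw [← taylor_eval_sub (c n), hc, sub_eq_add_neg, sub_eq_add_neg,
          add_neg_cancel_comm]
        rw [eval_eq_sum, sum_over_range' _ _ _ (lt_add_of_pos_right _ zero_lt_two), ←
          Finset.sum_range_add_sum_Ico _ (Nat.le_add_left _ _)]
        swap
        · intro i
          rw [zero_mul]
        refine Ideal.add_mem _ ?_ ?_
        · rw [← one_add_one_eq_two, Finset.sum_range_succ, Finset.range_one, Finset.sum_singleton,
            taylor_coeff_zero, taylor_coeff_one, pow_zero, pow_one, mul_one, mul_neg,
            mul_left_comm, Ring.mul_inverse_cancel _ (hf'c n), mul_one, add_neg_cancel]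
          exact Ideal.zero_mem _
        · refine Submodule.sum_mem _ ?_
          simp only [Finset.mem_Ico]
          rintro i ⟨h2i, _⟩
          have aux : n + 2 ≤ i * (n + 1) := by trans 2 * (n + 1) <;> nlinarith only [h2i]
          refine Ideal.mul_mem_left _ _ (Ideal.pow_le_pow_right aux ?_)
          rw [pow_mul']
          exact Ideal.pow_mem_pow ((Ideal.neg_mem_iff _).2 <| Ideal.mul_mem_right _ _ ih) _
      -- we are now in the position to show that `c : ℕ → R` is a Cauchy sequence
      have aux : ∀ m n, m ≤ n → c m ≡ c n [SMOD (I ^ m • ⊤ : Ideal R)] := by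
        intro m n hmn
        rw [← Ideal.one_eq_top, Ideal.smul_eq_mul, mul_one]
        obtain ⟨k, rfl⟩ := Nat.exists_eq_add_of_le hmn
        clear hmn
        induction k with
        | zero => rw [add_zero]
        | succ k ih => ?_
        rw [← add_assoc, hc, ← add_zero (c m), sub_eq_add_neg]
        refine ih.add ?_
        symm
        rw [SModEq.zero, Ideal.neg_mem_iff]
        refine Ideal.mul_mem_right _ _ (Ideal.pow_le_pow_right ?_ (hfcI _))
        rw [add_assoc]
        exact le_self_add
      -- hence the sequence converges to some limit point `a`, which is the `a` we are looking for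
      obtain ⟨a, ha⟩ := IsPrecomplete.prec' c (aux _ _)
      refine ⟨a, ?_, ?_⟩
      · show f.IsRoot a
        suffices ∀ n, f.eval a ≡ 0 [SMOD (I ^ n • ⊤ : Ideal R)] by exact IsHausdorff.haus' _ this
        intro n
        specialize ha n
        rw [← Ideal.one_eq_top, Ideal.smul_eq_mul, mul_one] at ha ⊢
        refine (ha.symm.eval f).trans ?_
        rw [SModEq.zero]
        exact Ideal.pow_le_pow_right le_self_add (hfcI _)
      · show a - a₀ ∈ I
        specialize ha (0 + 1)
        rw [hc, pow_one, ← Ideal.one_eq_top, Ideal.smul_eq_mul, mul_one, sub_eq_add_neg] at ha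
        rw [← SModEq.sub_mem, ← add_zero a₀]
        refine ha.symm.trans (SModEq.rfl.add ?_)
        rw [SModEq.zero, Ideal.neg_mem_iff]
        exact Ideal.mul_mem_right _ _ h₁


end Hensel

open MvPowerSeries

theorem mem_span_X (x : MvPowerSeries (Fin 2) ℂ) (hx : constantCoeff x = 0) :
    x ∈ Ideal.span (Set.range (X : Fin 2 → MvPowerSeries (Fin 2) ℂ)) := by
  set y : MvPowerSeries (Fin 2) ℂ := fun m => if m 0 = 0 then coeff m x else 0 with hy
  have hyc : ∀ m, coeff m y = if m 0 = 0 then coeff m x else 0 := fun m => rfl
  have h1 : (X 0 : MvPowerSeries (Fin 2) ℂ) ∣ x - y := by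
    rw [X_dvd_iff]
    intro m hm
    rw [map_sub, hyc, if_pos hm, sub_self]
  have h2 : (X 1 : MvPowerSeries (Fin 2) ℂ) ∣ y := by
    rw [X_dvd_iff]
    intro m hm
    rw [hyc]
    split_ifs with h
    · have : m = 0 := by
        ext i
        fin_cases i
        · exact h
        · exact hm
      rw [this]
      exact hx
    · rfl
  have h3 : x = (x - y) + y := by ring
  rw [h3]
  refine Ideal.add_mem _ ?_ ?_
  · obtain ⟨z, hz⟩ := h1
    rw [hz]
    exact Ideal.mul_mem_right _ _ (Ideal.subset_span ⟨0, rfl⟩)
  · obtain ⟨z, hz⟩ := h2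
    rw [hz]
    exact Ideal.mul_mem_right _ _ (Ideal.subset_span ⟨1, rfl⟩)

theorem constantCoeff_of_mem (x : MvPowerSeries (Fin 2) ℂ)
    (hx : x ∈ Ideal.span (Set.range (X : Fin 2 → MvPowerSeries (Fin 2) ℂ))) :
    constantCoeff x = 0 := by
  have h : Ideal.span (Set.range (X : Fin 2 → MvPowerSeries (Fin 2) ℂ))
      ≤ RingHom.ker (constantCoeff : MvPowerSeries (Fin 2) ℂ →+* ℂ) := by
    rw [Ideal.span_le]
    rintro _ ⟨i, rfl⟩
    exact constantCoeff_X i
  exact h hx

theorem constantCoeff_aeval (a : Fin 2 → MvPowerSeries (Fin 2) ℂ) (q : MvPolynomial (Fin 2) ℂ) :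
    constantCoeff (MvPolynomial.aeval a q)
      = MvPolynomial.eval (fun i => constantCoeff (a i)) q := by
  induction q using MvPolynomial.induction_on with
  | C c =>
    rw [MvPolynomial.aeval_C, MvPolynomial.eval_C]
    exact constantCoeff_C c
  | add p q hp hq => rw [map_add, map_add, hp, hq, map_add]
  | mul_X p i hp => rw [map_mul, map_mul, hp, map_mul, MvPolynomial.aeval_X, MvPolynomial.eval_X]

/-- **Implicit function theorem**: a curve, smooth at a point, has a formal parametrization. -/
theorem exists_implicit (h : MvPolynomial (Fin 2) ℂ) (p0 p1 : ℂ)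
    (h0 : MvPolynomial.eval ![p0, p1] h = 0)
    (h1 : MvPolynomial.eval ![p0, p1] (MvPolynomial.pderiv 1 h) ≠ 0) :
    ∃ V : MvPowerSeries (Fin 2) ℂ, constantCoeff V = 0 ∧
      MvPolynomial.aeval ![C p0 + X 0, C p1 + V] h = X 1 := by
  set R := MvPowerSeries (Fin 2) ℂ with hR
  set I : Ideal R := Ideal.span (Set.range (X : Fin 2 → MvPowerSeries (Fin 2) ℂ)) with hI
  set F0 : MvPolynomial (Fin 2) ℂ →ₐ[ℂ] Polynomial R := MvPolynomial.aeval
    ![Polynomial.C (C p0 + X 0), Polynomial.C (C p1) + Polynomial.X] with hF0
  have hev : ∀ (V : R) (q : MvPolynomial (Fin 2) ℂ),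
      (F0 q).eval V = MvPolynomial.aeval ![C p0 + X 0, C p1 + V] q := by
    intro V q
    induction q using MvPolynomial.induction_on with
    | C c =>
      rw [MvPolynomial.aeval_C, MvPolynomial.aeval_C]
      have : algebraMap ℂ (Polynomial R) c = Polynomial.C (algebraMap ℂ R c) := rfl
      rw [this, Polynomial.eval_C]
    | add p q hp hq => rw [map_add, Polynomial.eval_add, hp, hq, map_add]
    | mul_X p i hp =>
      rw [map_mul, Polynomial.eval_mul, hp, map_mul, MvPolynomial.aeval_X, MvPolynomial.aeval_X]
      congr 1
      fin_cases i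
      · simp
      · simp
  have hder : ∀ q : MvPolynomial (Fin 2) ℂ,
      Polynomial.derivative (F0 q) = F0 (MvPolynomial.pderiv 1 q) := by
    intro q
    induction q using MvPolynomial.induction_on with
    | C c =>
      rw [MvPolynomial.aeval_C, MvPolynomial.pderiv_C, map_zero]
      have : algebraMap ℂ (Polynomial R) c = Polynomial.C (algebraMap ℂ R c) := rfl
      rw [this, Polynomial.derivative_C]
    | add p q hp hq => rw [map_add, Polynomial.derivative_add, hp, hq, map_add, map_add]
    | mul_X p i hp =>
      rw [map_mul, Polynomial.derivative_mul, hp, Derivation.leibniz, MvPolynomial.pderiv_X,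
        smul_eq_mul, smul_eq_mul, map_add, map_mul, map_mul, MvPolynomial.aeval_X]
      fin_cases i
      · simp
        ring
      · simp
        ring
  set F : Polynomial R := F0 h - Polynomial.C (X 1) with hF
  have hFe : ∀ V : R, F.eval V = MvPolynomial.aeval ![C p0 + X 0, C p1 + V] h - X 1 := by
    intro V
    rw [hF, Polynomial.eval_sub, hev, Polynomial.eval_C]
  have hcc : ∀ V : R, constantCoeff V = 0 → (fun i => constantCoeff
      ((![C p0 + X 0, C p1 + V] : Fin 2 → R) i)) = ![p0, p1] := by
    intro V hV
    funext i
    fin_cases i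
    · simp
    · simp [hV]
  have hroot := hensel' R I F 0 (by
    apply mem_span_X
    rw [hFe, map_sub, constantCoeff_aeval, hcc 0 (map_zero _), h0, constantCoeff_X, sub_zero]) (by
    apply IsUnit.map
    rw [hF, Polynomial.derivative_sub, Polynomial.derivative_C, sub_zero, hder, hev]
    rw [MvPowerSeries.isUnit_iff_constantCoeff, constantCoeff_aeval, hcc 0 (map_zero _)]
    exact isUnit_iff_ne_zero.2 h1)
  obtain ⟨V, hV1, hV2⟩ := hroot
  refine ⟨V, ?_, ?_⟩
  · rw [sub_zero] at hV2
    exact constantCoeff_of_mem V hV2
  · have := hV1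
    rw [Polynomial.IsRoot, hFe, sub_eq_zero] at this
    exact this

end Pool.Agent.W574.SM
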