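import Pool.Agent.W574.SM.Asm

set_option autoImplicit false
set_option linter.unusedSectionVars false
set_option linter.unusedVariables false

/-! # The engine: roots of the Bernstein-Sato polynomial from residues, main theorem -/

namespace Pool.Agent.W574.SM

open MvPolynomial

section Lift

variable {σ ι κ L : Type} [Fintype σ] [DecidableEq σ] [Fintype ι] [DecidableEq ι] [Fintype κ]
  [DecidableEq κ] [Field L] [Algebra ℂ L]
  (φ : MvPolynomial σ ℂ →ₐ[ℂ] L) (θ : σ → Derivation ℂ L L) (f : ι → MvPolynomial σ ℂ)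
  (lam : κ → ι → ℂ) (e : κ → ℂ) (G : κ → L) (H0 : L)

theorem lift_weyl [CharZero L] (hJ : (Jac φ θ).det ≠ 0)
    (hcomm : ∀ s t u, θ s (θ t u) = θ t (θ s u)) (T0 : L →ₗ[ℂ] ℂ) (hT0 : ∀ t u, T0 (θ t u) = 0)
    (hGf : ∀ m, G m = ∑ j, algebraMap ℂ L (lam m j) * φ (f j))
    (hG : ∀ m, G m ≠ 0)
    (hH : ∀ t, θ t H0 = H0 * ∑ m, algebraMap ℂ L (e m) * (θ t (G m) * (G m)⁻¹))
    (S : Subalgebra ℂ L) (hS1 : ∀ p, φ p ∈ S) (hS2 : ∀ i, ∀ u ∈ S, DD φ θ i u ∈ S)
    (Q : Module.End ℂ (MvPolynomial σ ℂ)) (hQ : Q ∈ weyl σ) :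
    ∃ Qh : MvPolynomial ι (MvPolynomial σ ℂ) → MvPolynomial ι (MvPolynomial σ ℂ),
      (∀ s q, Q (ip (E f s) q) = ip (E f s) (Qh q)) ∧
      ∀ ρ ∈ S, ∃ ρ' ∈ S, ∀ q, T0 ((Jac φ θ).det * (ρ * pairL φ lam e G H0 (Qh q)))
        = T0 ((Jac φ θ).det * (ρ' * pairL φ lam e G H0 q)) := by
  induction hQ using Algebra.adjoin_induction with
  | mem Q hQ =>
    rcases hQ with ⟨i, rfl⟩ | ⟨i, rfl⟩
    · refine ⟨fun q => C (X i) * q, fun s q => ?_, fun ρ hρ => ⟨ρ * φ (X i), S.mul_mem hρ (hS1 _),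
        fun q => ?_⟩⟩
      · rw [ip_C_mul]; rfl
      · rw [pairL_C_mul, mul_assoc ρ]
    · refine ⟨fun q => dh f i q, fun s q => ip_dh f i s q, fun ρ hρ => ⟨- DD φ θ i ρ,
        S.neg_mem (hS2 i ρ hρ), fun q => ?_⟩⟩
      rw [pairL_dh φ lam e G H0 θ f hJ hGf hG hH]
      exact T_parts φ θ hJ hcomm T0 hT0 i _ ρ
  | algebraMap r =>
    refine ⟨fun q => C (C r) * q, fun s q => ?_, fun ρ hρ => ⟨ρ * φ (C r), S.mul_mem hρ (hS1 _),
        fun q => ?_⟩⟩
    · rw [ip_C_mul, C_mul']; rfl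
    · rw [pairL_C_mul, mul_assoc ρ]
  | add Q1 Q2 _ _ h1 h2 =>
    obtain ⟨A1, hA1, hB1⟩ := h1
    obtain ⟨A2, hA2, hB2⟩ := h2
    refine ⟨fun q => A1 q + A2 q, fun s q => ?_, fun ρ hρ => ?_⟩
    · rw [LinearMap.add_apply, hA1, hA2, map_add]
    · obtain ⟨ρ1, hρ1, hC1⟩ := hB1 ρ hρ
      obtain ⟨ρ2, hρ2, hC2⟩ := hB2 ρ hρ
      refine ⟨ρ1 + ρ2, S.add_mem hρ1 hρ2, fun q => ?_⟩
      rw [pairL_add, mul_add, mul_add, map_add, hC1, hC2, add_mul, mul_add, map_add]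
  | mul Q1 Q2 _ _ h1 h2 =>
    obtain ⟨A1, hA1, hB1⟩ := h1
    obtain ⟨A2, hA2, hB2⟩ := h2
    refine ⟨fun q => A1 (A2 q), fun s q => ?_, fun ρ hρ => ?_⟩
    · rw [Module.End.mul_apply, hA2, hA1]
    · obtain ⟨ρ1, hρ1, hC1⟩ := hB1 ρ hρ
      obtain ⟨ρ2, hρ2, hC2⟩ := hB2 ρ1 hρ1
      exact ⟨ρ2, hρ2, fun q => by rw [hC1, hC2]⟩

theorem ip_thetaTot (s : ι →₀ ℕ) (q : MvPolynomial ι (MvPolynomial σ ℂ)) :
    ip (E f s) (thetaTot f q) = C (((∑ j, s j : ℕ) : ℂ)) * ip (E f s) q := by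
  rw [thetaTot, map_sum]
  simp only [ip_theta]
  rw [← Finset.sum_mul]
  congr 1
  push_cast
  rw [map_sum]
  refine Finset.sum_congr rfl fun j _ => ?_
  simp

theorem exists_bhat (hGf : ∀ m, G m = ∑ j, algebraMap ℂ L (lam m j) * φ (f j))
    (hG : ∀ m, G m ≠ 0) (b : Polynomial ℂ) :
    ∃ bh : MvPolynomial ι (MvPolynomial σ ℂ),
      (∀ s : ι →₀ ℕ, ip (E f s) bh = C (b.eval ((∑ j, s j : ℕ) : ℂ)) * ∏ j, f j ^ s j) ∧
      pairL φ lam e G H0 bh = algebraMap ℂ L (b.eval (∑ m, e m)) * H0 := by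
  induction b using Polynomial.induction_on' with
  | add p q hp hq =>
    obtain ⟨b1, h1, h1'⟩ := hp
    obtain ⟨b2, h2, h2'⟩ := hq
    refine ⟨b1 + b2, fun s => ?_, ?_⟩
    · rw [map_add, h1, h2, Polynomial.eval_add, C_add, add_mul]
    · rw [pairL_add, h1', h2', Polynomial.eval_add, map_add, add_mul]
  | monomial n a =>
    refine ⟨C (C a) * (thetaTot f)^[n] 1, fun s => ?_, ?_⟩
    · rw [ip_C_mul, Polynomial.eval_monomial, C_mul, mul_assoc]
      congr 1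
      induction n with
      | zero =>
        have h := ip_E_monomial f 0 s (1 : MvPolynomial σ ℂ)
        have h1 : (monomial 0 1 : MvPolynomial ι (MvPolynomial σ ℂ)) = 1 := rfl
        rw [h1] at h
        simpa using h
      | succ n ih =>
        rw [Function.iterate_succ_apply', ip_thetaTot, ih, pow_succ, C_mul]
        ring
    · rw [pairL_C_mul, Polynomial.eval_monomial, map_mul, mul_assoc]
      have h0 : φ (C a) = algebraMap ℂ L a := φ.commutes a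
      rw [h0]
      congr 1
      induction n with
      | zero => simp [pairL_one]
      | succ n ih =>
        rw [Function.iterate_succ_apply', pairL_thetaTot φ lam e G H0 f hGf hG, ih, pow_succ,
          map_mul]
        ring

/-- the negative parts of a vector of integers -/
noncomputable def cneg (c : ι → ℤ) : ι →₀ ℕ := Finsupp.equivFunOnFinite.symm fun j => (-c j).toNat

theorem cneg_apply (c : ι → ℤ) (j : ι) : cneg c j = (-c j).toNat := rfl

/-- the element of `A[∂_t]` which represents the term of index `c` -/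
noncomputable def qc (c : ι → ℤ) : MvPolynomial ι (MvPolynomial σ ℂ) :=
  monomial (cneg c) (C ((mfact (cneg c) : ℂ)⁻¹) * ∏ j, f j ^ (c j).toNat)

theorem ip_qc (c : ι → ℤ) (s : ι →₀ ℕ) :
    ip (E f s) (qc f c) =
      C ((∏ j, (if c j < 0 then (s j).choose (-c j).toNat else 1) : ℕ) : ℂ) *
            ∏ j, f j ^ ((s j : ℤ) + c j).toNat := by
  rw [qc, ip_E_monomial]
  have h1 : C ((mfact (cneg c) : ℂ)⁻¹) * ((∏ j, (s j).descFactorial (cneg c j) : ℕ) :
      MvPolynomial σ ℂ) = C ((∏ j, (if c j < 0 then (s j).choose (-c j).toNat else 1) : ℕ) : ℂ) := by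
    have h2 : ((∏ j, (s j).descFactorial (cneg c j) : ℕ) : MvPolynomial σ ℂ)
        = C (((∏ j, (s j).descFactorial (cneg c j) : ℕ)) : ℂ) := by simp
    rw [h2, ← C_mul]
    congr 1
    have h3 : (∏ j, (s j).descFactorial (cneg c j) : ℕ)
        = mfact (cneg c) * ∏ j, (if c j < 0 then (s j).choose (-c j).toNat else 1) := by
      rw [mfact, ← Finset.prod_mul_distrib]
      refine Finset.prod_congr rfl fun j _ => ?_
      rw [Nat.descFactorial_eq_factorial_mul_choose]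
      congr 1
      split_ifs with h
      · rfl
      · rw [cneg_apply]
        have : (-c j).toNat = 0 := by omega
        rw [this, Nat.choose_zero_right]
    rw [h3, Nat.cast_mul, inv_mul_cancel_left₀]
    exact_mod_cast mfact_ne_zero _
  rw [mul_right_comm (C _), h1, mul_assoc, ← Finset.prod_mul_distrib]
  congr 1
  refine Finset.prod_congr rfl fun j _ => ?_
  rw [cneg_apply, ← pow_add]
  congr 1
  omega

theorem qc_WM (F : Filt L) (a : ℤ) (hf : ∀ j, φ (f j) ∈ F.ge a) (c : ι → ℤ)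
    (hc : ∑ j, c j = 1) : WM F a φ a (qc f c) := by
  intro γ
  rw [qc, coeff_monomial]
  split_ifs with h
  · rw [map_mul, map_prod]
    have h0 : φ (C ((mfact (cneg c) : ℂ)⁻¹)) = algebraMap ℂ L ((mfact (cneg c) : ℂ)⁻¹) :=
      φ.commutes _
    rw [h0]
    have h1 := Filt.prod (F := F) Finset.univ (fun j => φ (f j ^ (c j).toNat))
      (fun j => ((c j).toNat : ℤ) * a) fun j _ => by
        simp only [map_pow]
        exact Filt.pow (hf j) _
    refine F.mem_of_eq (F.mul (F.const _) h1) ?_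
    rw [zero_add, ← Finset.sum_mul, ← h, Finsupp.degree_eq_sum]
    have h2 : ∑ j, ((c j).toNat : ℤ) = 1 + ∑ j, ((cneg c j : ℕ) : ℤ) := by
      rw [← hc, ← Finset.sum_add_distrib]
      refine Finset.sum_congr rfl fun j _ => ?_
      rw [cneg_apply]
      omega
    rw [h2]
    push_cast
    ring
  · rw [map_zero]; exact (F.ge _).zero_mem

theorem exists_thetaPow (F : Filt L) (a : ℤ) (hf : ∀ j, φ (f j) ∈ F.ge a) (β : ι →₀ ℕ) :
    ∃ Th : MvPolynomial ι (MvPolynomial σ ℂ) → MvPolynomial ι (MvPolynomial σ ℂ),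
      (∀ s q, ip (E f s) (Th q) = (∏ j, ((s j : ℂ)) ^ β j) • ip (E f s) q) ∧
      ∀ d q, WM F a φ d q → WM F a φ d (Th q) := by
  induction β using finsupp_ind with
  | h0 => exact ⟨id, fun s q => by simp, fun d q h => h⟩
  | h1 β j ih =>
    obtain ⟨Th, h1, h2⟩ := ih
    refine ⟨fun q => theta f j (Th q), fun s q => ?_, fun d q h => theta_WM F a φ f hf j (h2 d q h)⟩
    rw [ip_theta, h1]
    have h3 : ∏ k, ((s k : ℂ)) ^ ((β + Finsupp.single j 1 : ι →₀ ℕ) k)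
        = (s j : ℂ) * ∏ k, ((s k : ℂ)) ^ (β k) := by
      rw [← Finset.mul_prod_erase _ _ (Finset.mem_univ j),
        ← Finset.mul_prod_erase Finset.univ (fun k => ((s k : ℂ)) ^ (β k)) (Finset.mem_univ j),
        Finsupp.add_apply, Finsupp.single_eq_same, pow_succ, mul_comm (_ ^ _) (s j : ℂ), mul_assoc]
      congr 2
      refine Finset.prod_congr rfl fun k hk => ?_
      rw [Finsupp.add_apply, Finsupp.single_eq_of_ne (Finset.ne_of_mem_erase hk), add_zero]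
    rw [h3, mul_smul]
    have h4 : ((s j : ℕ) : MvPolynomial σ ℂ) = C ((s j : ℕ) : ℂ) := by simp
    rw [h4, C_mul']

/-- **The engine.** -/
theorem engine [CharZero L] (F : Filt L) (a ν h : ℤ) (hJ : (Jac φ θ).det ≠ 0)
    (hJν : (Jac φ θ).det ∈ F.ge ν)
    (hcomm : ∀ s t u, θ s (θ t u) = θ t (θ s u)) (T0 : L →ₗ[ℂ] ℂ) (hT0 : ∀ t u, T0 (θ t u) = 0)
    (hT1 : ∀ u ∈ F.ge 1, T0 u = 0)
    (hf : ∀ j, φ (f j) ∈ F.ge a)
    (hGf : ∀ m, G m = ∑ j, algebraMap ℂ L (lam m j) * φ (f j))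
    (hG : ∀ m, G m ≠ 0) (hGa : ∀ m, (G m)⁻¹ ∈ F.ge (-a))
    (hH : ∀ t, θ t H0 = H0 * ∑ m, algebraMap ℂ L (e m) * (θ t (G m) * (G m)⁻¹))
    (hH0 : H0 ∈ F.ge h) (hpos : 0 < ν + h + a)
    (S : Subalgebra ℂ L) (hS1 : ∀ p, φ p ∈ S) (hS2 : ∀ i, ∀ u ∈ S, DD φ θ i u ∈ S)
    (hS3 : ∀ u ∈ S, u ∈ F.ge 0) (b : Polynomial ℂ) (hb : IsFunctionalEq f b) (ρ : L) (hρ : ρ ∈ S) :
    b.eval (∑ m, e m) * T0 ((Jac φ θ).det * (ρ * H0)) = 0 := by
  classical
  obtain ⟨Sc, P, hc, heq⟩ := hb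
  obtain ⟨bh, hbh1, hbh2⟩ := exists_bhat φ f lam e G H0 hGf hG b
  choose Th hTh1 hTh2 using fun β => exists_thetaPow φ f F a hf β
  have hlift := fun (Q : weyl σ) => lift_weyl φ θ f lam e G H0 hJ hcomm T0 hT0 hGf hG hH S hS1 hS2
    Q.1 Q.2
  choose Qh hQ1 hQ2 using hlift
  have key : bh = ∑ c ∈ Sc, ∑ β ∈ (P c).support, Qh (P c β) (Th β (qc f c)) := by
    rw [← sub_eq_zero]
    apply eq_zero_of_ip_E f
    intro s
    rw [map_sub, hbh1, heq s, sub_eq_zero, map_sum]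
    refine Finset.sum_congr rfl fun c _ => ?_
    rw [map_sum, applyAt, Finsupp.sum]
    refine Finset.sum_congr rfl fun β _ => ?_
    rw [← hQ1, hTh1, ip_qc, map_smul]
  have h1 : algebraMap ℂ L (b.eval (∑ m, e m)) * H0
      = ∑ c ∈ Sc, ∑ β ∈ (P c).support,
        pairL φ lam e G H0 (Qh (P c β) (Th β (qc f c))) := by
    rw [← hbh2, key, pairL_sum]
    refine Finset.sum_congr rfl fun c _ => ?_
    rw [pairL_sum]
  have h2 : T0 ((Jac φ θ).det * (ρ * (algebraMap ℂ L (b.eval (∑ m, e m)) * H0))) = 0 := by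
    rw [h1, Finset.mul_sum, Finset.mul_sum, map_sum]
    refine Finset.sum_eq_zero fun c hcS => ?_
    rw [Finset.mul_sum, Finset.mul_sum, map_sum]
    refine Finset.sum_eq_zero fun β _ => ?_
    obtain ⟨ρ', hρ', h3⟩ := hQ2 (P c β) ρ hρ
    rw [h3]
    apply hT1
    have h4 : WM F a φ a (Th β (qc f c)) := hTh2 β a _ (qc_WM φ f F a hf c (hc c hcS))
    have h5 : pairL φ lam e G H0 (Th β (qc f c)) ∈ F.ge (h + a) :=
      F.mul hH0 (Lam_mem F a e G hGa (SS_WK F a φ lam h4))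
    have h6 := F.mul hJν (F.mul (hS3 ρ' hρ') h5)
    exact F.mono (by omega) h6
  have h3 : (Jac φ θ).det * (ρ * (algebraMap ℂ L (b.eval (∑ m, e m)) * H0))
      = (b.eval (∑ m, e m)) • ((Jac φ θ).det * (ρ * H0)) := by
    rw [Algebra.smul_def]; ring
  rw [h3, map_smul, smul_eq_mul] at h2
  exact h2

end Lift

end Pool.Agent.W574.SM
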