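import Pool.Agent.W574.SM.ZetaDefs

set_option autoImplicit false
set_option linter.unusedSectionVars false
set_option linter.unusedVariables false

/-! # Rational functions which are regular at a point -/

namespace Pool.Agent.W574.SM

open Polynomial

/-- the rational functions which are regular at `s0` -/
noncomputable def Reg (s0 : ℂ) : Subring (RatFunc ℂ) where
  carrier := {x | ∃ p q : ℂ[X], q.eval s0 ≠ 0 ∧
    x = algebraMap ℂ[X] (RatFunc ℂ) p / algebraMap ℂ[X] (RatFunc ℂ) q}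
  mul_mem' := by
    rintro x y ⟨p, q, hq, rfl⟩ ⟨p', q', hq', rfl⟩
    refine ⟨p * p', q * q', by rw [eval_mul]; exact mul_ne_zero hq hq', ?_⟩
    rw [map_mul, map_mul, div_mul_div_comm]
  one_mem' := ⟨1, 1, by simp, by simp⟩
  add_mem' := by
    rintro x y ⟨p, q, hq, rfl⟩ ⟨p', q', hq', rfl⟩
    have h1 : algebraMap ℂ[X] (RatFunc ℂ) q ≠ 0 := by
      apply RatFunc.algebraMap_ne_zero
      rintro rfl
      simp at hq
    have h2 : algebraMap ℂ[X] (RatFunc ℂ) q' ≠ 0 := by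
      apply RatFunc.algebraMap_ne_zero
      rintro rfl
      simp at hq'
    refine ⟨p * q' + q * p', q * q', by rw [eval_mul]; exact mul_ne_zero hq hq', ?_⟩
    rw [map_add, map_mul, map_mul, map_mul, div_add_div _ _ h1 h2]
  zero_mem' := ⟨0, 1, by simp, by simp⟩
  neg_mem' := by
    rintro x ⟨p, q, hq, rfl⟩
    exact ⟨-p, q, hq, by rw [map_neg, neg_div' ]⟩

theorem mem_Reg (s0 : ℂ) (x : RatFunc ℂ) : x ∈ Reg s0 ↔ ∃ p q : ℂ[X], q.eval s0 ≠ 0 ∧
    x = algebraMap ℂ[X] (RatFunc ℂ) p / algebraMap ℂ[X] (RatFunc ℂ) q := Iff.rfl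

theorem Reg_C (s0 c : ℂ) : RatFunc.C c ∈ Reg s0 :=
  ⟨C c, 1, by simp, by simp⟩

theorem Reg_denom (s0 : ℂ) (x : RatFunc ℂ) (hx : x ∈ Reg s0) : x.denom.eval s0 ≠ 0 := by
  obtain ⟨p, q, hq, rfl⟩ := hx
  intro h
  obtain ⟨r, hr⟩ := RatFunc.denom_div_dvd p q
  apply hq
  rw [hr, eval_mul, h, zero_mul]

theorem fac_eq (a n : ℕ) : fac a n = 1 / algebraMap ℂ[X] (RatFunc ℂ) (C (n : ℂ) + C (a : ℂ) * X) := by
  rw [fac, map_add, map_mul, RatFunc.algebraMap_X, RatFunc.algebraMap_C, RatFunc.algebraMap_C,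
    map_natCast, map_natCast]

theorem fac_zero_one : fac 0 1 = 1 := by
  rw [fac]
  simp

theorem fac_mem (a n : ℕ) (s0 : ℂ) (h : (n : ℂ) + a * s0 ≠ 0) : fac a n ∈ Reg s0 := by
  refine ⟨1, C (n : ℂ) + C (a : ℂ) * X, ?_, by rw [fac_eq, map_one]⟩
  rw [eval_add, eval_mul, eval_C, eval_C, eval_X]
  exact h

/-- the residue of a product -/
theorem fac_mul_fac (a n a' n' : ℕ) (s0 : ℂ) (ha : a ≠ 0) (h : (n : ℂ) + a * s0 = 0)
    (h' : (n' : ℂ) + a' * s0 ≠ 0) :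
    fac a n * fac a' n' - RatFunc.C (1 / ((n' : ℂ) + a' * s0)) * fac a n ∈ Reg s0 := by
  set v : ℂ := (n' : ℂ) + a' * s0 with hv
  have hac : (a : ℂ) ≠ 0 := Nat.cast_ne_zero.2 ha
  have hp : C (n : ℂ) + C (a : ℂ) * X = C (a : ℂ) * (X - C s0) := by
    have : (n : ℂ) = -(a * s0) := by linear_combination h
    rw [this]
    simp only [map_neg, map_mul]
    ring
  have hp' : C (n' : ℂ) + C (a' : ℂ) * X = C v + C (a' : ℂ) * (X - C s0) := by
    rw [hv]
    simp only [map_add, map_mul]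
    ring
  refine ⟨- C ((a' : ℂ) / v), C (a : ℂ) * (C (n' : ℂ) + C (a' : ℂ) * X), ?_, ?_⟩
  · rw [eval_mul, eval_add, eval_mul, eval_C, eval_C, eval_C, eval_X]
    exact mul_ne_zero hac h'
  · rw [fac_eq, fac_eq, hp, hp']
    have hX : algebraMap ℂ[X] (RatFunc ℂ) (X - C s0) ≠ 0 :=
      RatFunc.algebraMap_ne_zero (X_sub_C_ne_zero s0)
    have hq : algebraMap ℂ[X] (RatFunc ℂ) (C v + C (a' : ℂ) * (X - C s0)) ≠ 0 := by
      apply RatFunc.algebraMap_ne_zero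
      intro h0
      have := congrArg (eval s0) h0
      simp at this
      exact h' this
    have ha' : algebraMap ℂ[X] (RatFunc ℂ) (C (a : ℂ)) ≠ 0 :=
      RatFunc.algebraMap_ne_zero (C_ne_zero.2 hac)
    have hvC : RatFunc.C (1 / v) = 1 / algebraMap ℂ[X] (RatFunc ℂ) (C v) := by
      rw [RatFunc.algebraMap_C, map_div₀, map_one]
    have hvC' : algebraMap ℂ[X] (RatFunc ℂ) (C ((a' : ℂ) / v))
        = algebraMap ℂ[X] (RatFunc ℂ) (C (a' : ℂ)) / algebraMap ℂ[X] (RatFunc ℂ) (C v) := by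
      rw [RatFunc.algebraMap_C, RatFunc.algebraMap_C, RatFunc.algebraMap_C, map_div₀]
    have hv0 : algebraMap ℂ[X] (RatFunc ℂ) (C v) ≠ 0 :=
      RatFunc.algebraMap_ne_zero (C_ne_zero.2 h')
    rw [hvC, map_neg, hvC', map_mul, map_mul]
    generalize hD : algebraMap ℂ[X] (RatFunc ℂ) (C v + C (a' : ℂ) * (X - C s0)) = D at hq ⊢
    rw [map_add, map_mul] at hD
    generalize algebraMap ℂ[X] (RatFunc ℂ) (X - C s0) = Y at hX hD ⊢
    generalize algebraMap ℂ[X] (RatFunc ℂ) (C v) = V at hv0 hD ⊢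
    generalize algebraMap ℂ[X] (RatFunc ℂ) (C (a : ℂ)) = α at ha' ⊢
    generalize algebraMap ℂ[X] (RatFunc ℂ) (C (a' : ℂ)) = α' at hD ⊢
    field_simp
    rw [← hD]
    ring

end Pool.Agent.W574.SM
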