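import Pool.Agent.W574.SM.Blow
import Pool.Agent.W574.SM.Reg

set_option autoImplicit false
set_option linter.unusedSectionVars false
set_option linter.unusedVariables false

/-! # The poles of the contribution of a point -/

namespace Pool.Agent.W574.SM

open Polynomial

section Shift

variable {ι : Type}

theorem coeff_shift (p q : ℂ[X]) (m : ℕ) (h : p = X ^ m * q) (k : ℕ) :
    (k < m → p.coeff k = 0) ∧ p.coeff (m + k) = q.coeff k := by
  rw [h]
  constructor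
  · intro hk
    rw [coeff_X_pow_mul', if_neg (by omega)]
  · rw [coeff_X_pow_mul', if_pos (by omega), Nat.add_sub_cancel_left]

theorem Ord0.shift {g g' : ι → MP} {m : ℕ} (h : ∀ j, res0 (g j) = X ^ m * res0 (g' j)) {μ : ℕ}
    (hμ : Ord0 g' μ) : Ord0 g (m + μ) := by
  constructor
  · intro j k hk
    by_cases hkm : k < m
    · exact (coeff_shift _ _ m (h j) k).1 hkm
    · obtain ⟨d, rfl⟩ := Nat.exists_eq_add_of_le (not_lt.1 hkm)
      rw [(coeff_shift _ _ m (h j) d).2]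
      exact hμ.1 j d (by omega)
  · obtain ⟨j, hj⟩ := hμ.2
    exact ⟨j, by rwa [(coeff_shift _ _ m (h j) μ).2]⟩

theorem Ord0.unshift {g g' : ι → MP} {m : ℕ} (h : ∀ j, res0 (g j) = X ^ m * res0 (g' j)) {μ : ℕ}
    (hμ : Ord0 g μ) : ∃ ν, μ = m + ν ∧ Ord0 g' ν := by
  obtain ⟨j, hj⟩ := hμ.2
  have hm : m ≤ μ := by
    by_contra hlt
    exact hj ((coeff_shift _ _ m (h j) μ).1 (not_le.1 hlt))
  obtain ⟨ν, rfl⟩ := Nat.exists_eq_add_of_le hm
  refine ⟨ν, rfl, ?_, ⟨j, by rwa [← (coeff_shift _ _ m (h j) ν).2]⟩⟩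
  intro i k hk
  rw [← (coeff_shift _ _ m (h i) k).2]
  exact hμ.1 i (m + k) (by omega)

theorem Ord1.shift {g g' : ι → MP} {m : ℕ} (h : ∀ j, res1 (g j) = X ^ m * res1 (g' j)) {μ : ℕ}
    (hμ : Ord1 g' μ) : Ord1 g (m + μ) := by
  constructor
  · intro j k hk
    by_cases hkm : k < m
    · exact (coeff_shift _ _ m (h j) k).1 hkm
    · obtain ⟨d, rfl⟩ := Nat.exists_eq_add_of_le (not_lt.1 hkm)
      rw [(coeff_shift _ _ m (h j) d).2]
      exact hμ.1 j d (by omega)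
  · obtain ⟨j, hj⟩ := hμ.2
    exact ⟨j, by rwa [(coeff_shift _ _ m (h j) μ).2]⟩

theorem Ord1.unshift {g g' : ι → MP} {m : ℕ} (h : ∀ j, res1 (g j) = X ^ m * res1 (g' j)) {μ : ℕ}
    (hμ : Ord1 g μ) : ∃ ν, μ = m + ν ∧ Ord1 g' ν := by
  obtain ⟨j, hj⟩ := hμ.2
  have hm : m ≤ μ := by
    by_contra hlt
    exact hj ((coeff_shift _ _ m (h j) μ).1 (not_le.1 hlt))
  obtain ⟨ν, rfl⟩ := Nat.exists_eq_add_of_le hm
  refine ⟨ν, rfl, ?_, ⟨j, by rwa [← (coeff_shift _ _ m (h j) ν).2]⟩⟩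
  intro i k hk
  rw [← (coeff_shift _ _ m (h i) k).2]
  exact hμ.1 i (m + k) (by omega)

theorem res0_chartI (q : MP) : res0 (MvPolynomial.aeval chartI q) = res0 q := by
  have h : res0.comp (MvPolynomial.aeval chartI) = res0 := by
    apply ext2
    · rw [AlgHom.comp_apply, chartI_X0, map_mul, res0_X0, zero_mul]
    · rw [AlgHom.comp_apply, chartI_X1]
  exact congrArg (fun φ : MP →ₐ[ℂ] ℂ[X] => φ q) h

theorem res1_chart0 (q : MP) : res1 (MvPolynomial.aeval (chart 0) q) = res1 q := by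
  have h : res1.comp (MvPolynomial.aeval (chart 0)) = res1 := by
    apply ext2
    · rw [AlgHom.comp_apply, chart_X0]
    · rw [AlgHom.comp_apply, chart_X1, map_mul, map_add, res1_X1]
      simp
  exact congrArg (fun φ : MP →ₐ[ℂ] ℂ[X] => φ q) h

theorem res0_of_chartI {g g' : MP} {m : ℕ}
    (h : MvPolynomial.aeval chartI g = MvPolynomial.X 1 ^ m * g') :
    res0 g = X ^ m * res0 g' := by
  rw [← res0_chartI, h, map_mul, map_pow, res0_X1]

theorem res1_of_chart0 {g g' : MP} {m : ℕ}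
    (h : MvPolynomial.aeval (chart 0) g = MvPolynomial.X 0 ^ m * g') :
    res1 g = X ^ m * res1 g' := by
  rw [← res1_chart0, h, map_mul, map_pow, res1_X0]

/-- the ideal has (at least) the multiplicity `m` at the origin -/
def IsMult (g : ι → MP) (m : ℕ) : Prop :=
  (∃ g' : ι → MP, ∀ j, MvPolynomial.aeval (chart 0) (g j) = MvPolynomial.X 0 ^ m * g' j) ∧
  (∃ g' : ι → MP, ∀ j, MvPolynomial.aeval chartI (g j) = MvPolynomial.X 1 ^ m * g' j)

theorem le_of_dvd {p q : ℂ[X]} {k m : ℕ} (hp : p ≠ 0) (hd : p.natDegree ≤ m)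
    (h : p = X ^ k * q) : k ≤ m := by
  have hq : q ≠ 0 := by
    rintro rfl
    rw [mul_zero] at h
    exact hp h
  have := natDegree_mul (pow_ne_zero k (X_ne_zero (R := ℂ))) hq
  rw [← h, natDegree_X_pow] at this
  omega

end Shift

section Arith

theorem arith1 (a0 n0 a1 n1 m : ℕ) (hn0 : 1 ≤ n0) (hn1 : 1 ≤ n1) (hm : 1 ≤ m)
    (hz0 : a0 = 0 → n0 = 1) (hJ2 : 0 < a0 → (n0 - 1) * a1 < a0 * n1) :
    (n0 + n1 - 1) * a1 < (a0 + a1 + m) * n1 := by
  obtain ⟨p, rfl⟩ := Nat.exists_eq_add_of_le' hn0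
  obtain ⟨q, rfl⟩ := Nat.exists_eq_add_of_le' hn1
  have h1 : p + 1 + (q + 1) - 1 = p + q + 1 := by omega
  rw [h1]
  rw [Nat.add_sub_cancel] at hJ2
  by_cases ha : 0 < a0
  · nlinarith [hJ2 ha, Nat.zero_le (m * (q + 1))]
  · have h2 : a0 = 0 := by omega
    have h3 := hz0 h2
    have h4 : p = 0 := by omega
    subst h2 h4
    nlinarith

theorem arith2 (a0 n0 a1 n1 m : ℕ) (hn0 : 1 ≤ n0) (hn1 : 1 ≤ n1) (ha1 : 0 < a1)
    (hJ1 : (n1 - 1) * m ≤ a1) (hJ2' : 0 < a1 → (n1 - 1) * a0 < a1 * n0) :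
    (n1 - 1) * (a0 + a1 + m) < a1 * (n0 + n1) := by
  obtain ⟨p, rfl⟩ := Nat.exists_eq_add_of_le' hn0
  obtain ⟨q, rfl⟩ := Nat.exists_eq_add_of_le' hn1
  rw [Nat.add_sub_cancel] at *
  nlinarith [hJ2' ha1]

theorem arith3 (a0 n0 a1 n1 m m' : ℕ) (hn0 : 1 ≤ n0) (hn1 : 1 ≤ n1) (hm : m' ≤ m)
    (h0 : (n0 - 1) * m ≤ a0) (h1 : (n1 - 1) * m ≤ a1) :
    (n0 + n1 - 1) * m' ≤ a0 + a1 + m := by
  obtain ⟨p, rfl⟩ := Nat.exists_eq_add_of_le' hn0
  obtain ⟨q, rfl⟩ := Nat.exists_eq_add_of_le' hn1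
  rw [Nat.add_sub_cancel] at *
  have h2 : p + 1 + (q + 1) - 1 = p + q + 1 := by omega
  rw [h2]
  have h3 : (p + q + 1) * m' ≤ (p + q + 1) * m := Nat.mul_le_mul_left _ hm
  nlinarith

end Arith

variable {ι : Type} [Fintype ι] [DecidableEq ι]

/-- the induction hypothesis at a node -/
structure Inv (f : ι → MP) (s0 : ℂ) (g : ι → MP) (a0 n0 a1 n1 : ℕ) : Prop where
  geom : Geom f g a0 n0 a1 n1
  hn0 : 1 ≤ n0
  hn1 : 1 ≤ n1
  hz0 : a0 = 0 → n0 = 1
  hz1 : a1 = 0 → n1 = 1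
  hJ1 : ∀ m, IsMult g m → (n0 - 1) * m ≤ a0 ∧ (n1 - 1) * m ≤ a1
  hJ2 : 0 < a0 → (n0 - 1) * a1 < a0 * n1
  hJ2' : 0 < a1 → (n1 - 1) * a0 < a1 * n0
  hH0 : (n0 : ℂ) + a0 * s0 = 0 → ∀ μ, Ord0 g μ → (n1 : ℂ) + s0 * ((a1 + μ : ℕ) : ℂ) ≠ 0
  hH1 : (n1 : ℂ) + a1 * s0 = 0 → ∀ μ, Ord1 g μ → (n0 : ℂ) + s0 * ((a0 + μ : ℕ) : ℂ) ≠ 0

/-- the conclusion at a node -/
def Good (s0 : ℂ) (g : ι → MP) (a0 n0 a1 n1 : ℕ) (Z : RatFunc ℂ) : Prop :=
  ∃ c0 c1 : ℂ,
    ((n0 : ℂ) + a0 * s0 = 0 → ∀ μ, Ord0 g μ → c0 * ((n1 : ℂ) + s0 * ((a1 + μ : ℕ) : ℂ)) = 1) ∧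
    ((n1 : ℂ) + a1 * s0 = 0 → ∀ μ, Ord1 g μ → c1 * ((n0 : ℂ) + s0 * ((a0 + μ : ℕ) : ℂ)) = 1) ∧
    Z - RatFunc.C c0 * fac a0 n0 - RatFunc.C c1 * fac a1 n1 ∈ Reg s0

theorem a_ne_zero {a n : ℕ} {s0 : ℂ} (hz : a = 0 → n = 1) (h : (n : ℂ) + a * s0 = 0) : a ≠ 0 := by
  intro h0
  rw [h0, hz h0] at h
  simp at h

theorem good_leaf (s0 : ℂ) (g : ι → MP) (a0 n0 a1 n1 a n : ℕ)
    (hA0 : (n0 : ℂ) + a0 * s0 = 0) (hz0 : a0 = 0 → n0 = 1) (hA1 : (n1 : ℂ) + a1 * s0 ≠ 0)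
    (hA : (n : ℂ) + a * s0 ≠ 0) (μ : ℕ) (hμ : Ord0 g μ)
    (hrel : (n1 : ℂ) + s0 * ((a1 + μ : ℕ) : ℂ) = n + a * s0) :
    Good s0 g a0 n0 a1 n1 (fac a0 n0 * fac a n) := by
  refine ⟨1 / ((n : ℂ) + a * s0), 0, ?_, fun h => absurd h hA1, ?_⟩
  · intro _ ν hν
    rw [← hμ.unique hν, hrel, one_div, inv_mul_cancel₀ hA]
  · rw [map_zero, zero_mul, sub_zero]
    exact fac_mul_fac a0 n0 a n s0 (a_ne_zero hz0 hA0) hA0 hA

theorem good_leaf' (s0 : ℂ) (g : ι → MP) (a0 n0 a1 n1 a n : ℕ)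
    (hA1 : (n1 : ℂ) + a1 * s0 = 0) (hz1 : a1 = 0 → n1 = 1) (hA0 : (n0 : ℂ) + a0 * s0 ≠ 0)
    (hA : (n : ℂ) + a * s0 ≠ 0) (μ : ℕ) (hμ : Ord1 g μ)
    (hrel : (n0 : ℂ) + s0 * ((a0 + μ : ℕ) : ℂ) = n + a * s0) :
    Good s0 g a0 n0 a1 n1 (fac a1 n1 * fac a n) := by
  refine ⟨0, 1 / ((n : ℂ) + a * s0), fun h => absurd h hA0, ?_, ?_⟩
  · intro _ ν hν
    rw [← hμ.unique hν, hrel, one_div, inv_mul_cancel₀ hA]
  · rw [map_zero, zero_mul, sub_zero]
    exact fac_mul_fac a1 n1 a n s0 (a_ne_zero hz1 hA1) hA1 hA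

theorem good_reg (s0 : ℂ) (g : ι → MP) (a0 n0 a1 n1 : ℕ) (Z : RatFunc ℂ)
    (hA0 : (n0 : ℂ) + a0 * s0 ≠ 0) (hA1 : (n1 : ℂ) + a1 * s0 ≠ 0) (hZ : Z ∈ Reg s0) :
    Good s0 g a0 n0 a1 n1 Z := by
  refine ⟨0, 0, fun h => absurd h hA0, fun h => absurd h hA1, ?_⟩
  rw [map_zero, zero_mul, zero_mul, sub_zero, sub_zero]
  exact hZ

theorem res1_eq (q : MP) : res1 q = res0 (sw q) := by
  have h2 : res1 = res0.comp sw := by
    apply ext2
    · rw [AlgHom.comp_apply, sw_X0, res0_X1, res1_X0]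
    · rw [AlgHom.comp_apply, sw_X1, res0_X0, res1_X1]
  rw [h2]
  rfl

theorem ord0_curve (g : ι → MP) (m : ℕ) (h : MP) (k : ι → MP) (hg : ∀ j, g j = h ^ m * k j)
    (h0 : MvPolynomial.constantCoeff h = 0)
    (h1 : MvPolynomial.constantCoeff (MvPolynomial.pderiv 1 h) ≠ 0) (j : ι)
    (hj : MvPolynomial.constantCoeff (k j) ≠ 0) : Ord0 g m := by
  obtain ⟨q, hq⟩ : X ∣ res0 h := by
    rw [X_dvd_iff, coeff_res0, h0]
  have hq0 : q.coeff 0 ≠ 0 := by
    rw [← coeff_res0, res0_pderiv, coeff_derivative, hq] at h1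
    have h2 := coeff_X_mul q 0
    simp only [zero_add] at h1 h2
    rw [h2] at h1
    simpa using h1
  have hres : ∀ i, res0 (g i) = X ^ m * (q ^ m * res0 (k i)) := by
    intro i
    rw [hg, map_mul, map_pow, hq, mul_pow]
    ring
  constructor
  · intro i d hd
    exact (coeff_shift _ _ m (hres i) d).1 hd
  · refine ⟨j, ?_⟩
    have := (coeff_shift _ _ m (hres j) 0).2
    rw [add_zero] at this
    rw [this, mul_coeff_zero, coeff_res0]
    refine mul_ne_zero ?_ hj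
    rw [coeff_zero_eq_eval_zero, eval_pow, ← coeff_zero_eq_eval_zero]
    exact pow_ne_zero _ hq0

theorem ord1_curve (g : ι → MP) (m : ℕ) (h : MP) (k : ι → MP) (hg : ∀ j, g j = h ^ m * k j)
    (h0 : MvPolynomial.constantCoeff h = 0)
    (h1 : MvPolynomial.constantCoeff (MvPolynomial.pderiv 0 h) ≠ 0) (j : ι)
    (hj : MvPolynomial.constantCoeff (k j) ≠ 0) : Ord1 g m := by
  have := ord0_curve (fun j => sw (g j)) m (sw h) (fun j => sw (k j))
    (fun i => by simp only [hg, map_mul, map_pow]) (by rw [cc_sw, h0])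
    (by rw [(pderiv_sw h).2, cc_sw]; exact h1) j (by rw [cc_sw]; exact hj)
  constructor
  · intro i d hd
    rw [res1_eq]
    exact this.1 i d hd
  · obtain ⟨i, hi⟩ := this.2
    exact ⟨i, by rw [res1_eq]; exact hi⟩

/-- **The poles of the contribution of a point.** -/
theorem local_main (f : ι → MP) (b : ℂ[X]) (hb : IsFunctionalEq f b) (s0 : ℂ)
    (hs0 : b.eval s0 ≠ 0) {g : ι → MP} {a0 n0 a1 n1 : ℕ} {Z : RatFunc ℂ}
    (hZ : LocalZeta g a0 n0 a1 n1 Z) : Inv f s0 g a0 n0 a1 n1 → Good s0 g a0 n0 a1 n1 Z := by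
  classical
  induction hZ with
  | unit g a0 n0 a1 n1 j hj =>
    intro inv
    have ho0 : Ord0 g 0 := ⟨fun i k hk => absurd hk (Nat.not_lt_zero k),
      ⟨j, by rw [coeff_res0]; exact hj⟩⟩
    have ho1 : Ord1 g 0 := ⟨fun i k hk => absurd hk (Nat.not_lt_zero k),
      ⟨j, by rw [coeff_res1]; exact hj⟩⟩
    by_cases hA0 : (n0 : ℂ) + a0 * s0 = 0
    · have hA1 : (n1 : ℂ) + a1 * s0 ≠ 0 := by
        have := inv.hH0 hA0 0 ho0
        rw [add_zero] at this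
        intro h
        apply this
        rw [← h]
        ring
      exact good_leaf s0 g a0 n0 a1 n1 a1 n1 hA0 inv.hz0 hA1 hA1 0 ho0 (by rw [add_zero]; ring)
    · by_cases hA1 : (n1 : ℂ) + a1 * s0 = 0
      · rw [mul_comm]
        exact good_leaf' s0 g a0 n0 a1 n1 a0 n0 hA1 inv.hz1 hA0 hA0 0 ho1
          (by rw [add_zero]; ring)
      · exact good_reg s0 g a0 n0 a1 n1 _ hA0 hA1
          ((Reg s0).mul_mem (fac_mem _ _ _ hA0) (fac_mem _ _ _ hA1))
  | curveV g a0 n0 m hm h k hg h0 h1 j hj =>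
    intro inv
    have hA1 : ((1 : ℕ) : ℂ) + ((0 : ℕ) : ℂ) * s0 ≠ 0 := by simp
    have hm1 : ((1 : ℕ) : ℂ) + (m : ℂ) * s0 ≠ 0 := by
      intro h2
      apply hs0
      have hmc : (m : ℂ) ≠ 0 := Nat.cast_ne_zero.2 (by omega)
      have h3 : s0 = -1 / (m : ℂ) := by
        rw [eq_div_iff hmc]
        push_cast at h2
        linear_combination h2
      rw [h3]
      obtain ⟨ξ, W, W', hW, hW', hf, hJ⟩ := inv.geom
      refine node_curveV f b hb ξ W W' hW hW' a0 n0 m (by omega) h k ?_ ?_ h0 h1 j hj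
      · intro i
        rw [hf, hg, pow_zero, mul_one]
      · rw [hJ, Nat.sub_self, pow_zero, mul_one]
    have ho := ord0_curve g m h k hg h0 h1 j hj
    by_cases hA0 : (n0 : ℂ) + a0 * s0 = 0
    · exact good_leaf s0 g a0 n0 0 1 m 1 hA0 inv.hz0 hA1 hm1 m ho (by push_cast; ring)
    · exact good_reg s0 g a0 n0 0 1 _ hA0 hA1
        ((Reg s0).mul_mem (fac_mem _ _ _ hA0) (fac_mem _ _ _ hm1))
  | curveU g a1 n1 m hm h k hg h0 h1 j hj =>
    intro inv
    have hA0 : ((1 : ℕ) : ℂ) + ((0 : ℕ) : ℂ) * s0 ≠ 0 := by simp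
    have hm1 : ((1 : ℕ) : ℂ) + (m : ℂ) * s0 ≠ 0 := by
      intro h2
      apply hs0
      have hmc : (m : ℂ) ≠ 0 := Nat.cast_ne_zero.2 (by omega)
      have h3 : s0 = -1 / (m : ℂ) := by
        rw [eq_div_iff hmc]
        push_cast at h2
        linear_combination h2
      rw [h3]
      obtain ⟨ξ, W, W', hW, hW', hf, hJ⟩ := inv.geom
      refine node_curveU f b hb ξ W W' hW hW' a1 n1 m (by omega) h k ?_ ?_ h0 h1 j hj
      · intro i
        rw [hf, hg, pow_zero, one_mul]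
      · rw [hJ, Nat.sub_self, pow_zero, one_mul]
    have ho := ord1_curve g m h k hg h0 h1 j hj
    by_cases hA1 : (n1 : ℂ) + a1 * s0 = 0
    · exact good_leaf' s0 g 0 1 a1 n1 m 1 hA1 inv.hz1 hA0 hm1 m ho (by push_cast; ring)
    · exact good_reg s0 g 0 1 a1 n1 _ hA0 hA1
        ((Reg s0).mul_mem (fac_mem _ _ _ hA1) (fac_mem _ _ _ hm1))
  | blowup g a0 n0 a1 n1 m hm gc gI hgc hgI S h0S hS Zc ZI h0 hc hI ih0 ihc ihI =>
    intro inv
    have hn0 := inv.hn0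
    have hn1 := inv.hn1
    have hmult : IsMult g m := ⟨⟨gc 0, hgc 0⟩, ⟨gI, hgI⟩⟩
    have hJ1 := inv.hJ1 m hmult
    -- a generator with nonzero leading form
    obtain ⟨c1, hc1⟩ := Infinite.exists_notMem_finset S
    obtain ⟨j0, hj0⟩ := hS c1 hc1
    have hresc : ∀ c j, res0 (gc c j) = (res0 (gc 0 j)).comp (X + C c) := fun c j =>
      res0_chart (g j) (gc 0 j) (gc c j) m c (hgc 0 j) (hgc c j)
    have hP0 : res0 (gc 0 j0) ≠ 0 := by
      intro h
      apply hj0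
      rw [← coeff_res0, hresc, h, zero_comp, coeff_zero]
    have hdeg := coeff_resI (g j0) (gc 0 j0) (gI j0) m (hgc 0 j0) (hgI j0)
    have hPc : ∀ c, res0 (gc c j0) ≠ 0 ∧ (res0 (gc c j0)).natDegree ≤ m := by
      intro c
      have h1 : (X + C c : ℂ[X]).natDegree = 1 := natDegree_X_add_C c
      constructor
      · intro h
        have h2 := ord_comp (res0 (gc 0 j0)) hP0 c
        rw [hresc] at h
        rw [h, coeff_zero] at h2
        exact h2.2 rfl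
      · rw [hresc, natDegree_comp, h1, mul_one]
        exact hdeg.1
    have hPI : res1 (gI j0) ≠ 0 := by
      intro h
      have h2 := hdeg.2.2 (m - (res0 (gc 0 j0)).natDegree) (by omega)
      rw [h, coeff_zero] at h2
      have h3 : m - (m - (res0 (gc 0 j0)).natDegree) = (res0 (gc 0 j0)).natDegree := by
        have := hdeg.1
        omega
      rw [h3] at h2
      exact hP0 (leadingCoeff_eq_zero.1 h2.symm)
    have hmc : ∀ c m', IsMult (gc c) m' → m' ≤ m := by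
      intro c m' hm'
      obtain ⟨g', hg'⟩ := hm'.2
      exact le_of_dvd (hPc c).1 (hPc c).2 (res0_of_chartI (hg' j0))
    have hmI : ∀ m', IsMult gI m' → m' ≤ m := by
      intro m' hm'
      obtain ⟨g', hg'⟩ := hm'.1
      exact le_of_dvd hPI hdeg.2.1 (res1_of_chart0 (hg' j0))
    have hresI : ∀ j, res0 (g j) = X ^ m * res0 (gI j) := fun j => res0_of_chartI (hgI j)
    have hres0 : ∀ j, res1 (g j) = X ^ m * res1 (gc 0 j) := fun j => res1_of_chart0 (hgc 0 j)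
    -- the analysis of the new exceptional curve
    have han := fun hA => blow_analysis f b hb g a0 n0 a1 n1 hn0 hn1 inv.geom m hm gc gI hgc hgI S
      h0S hS hJ1 inv.hJ2 inv.hJ2' inv.hz0 inv.hz1 s0 hs0 hA
    have haz : a0 + a1 + m = 0 → n0 + n1 = 1 := by omega
    -- the invariants of the children
    have inv0 : Inv f s0 (gc 0) (a0 + a1 + m) (n0 + n1) a1 n1 :=
      { geom := geom_chart0 f g (gc 0) a0 n0 a1 n1 hn0 hn1 inv.geom m (hgc 0)
        hn0 := by omega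
        hn1 := hn1
        hz0 := haz
        hz1 := inv.hz1
        hJ1 := fun m' hm' => ⟨arith3 a0 n0 a1 n1 m m' hn0 hn1 (hmc 0 m' hm') hJ1.1 hJ1.2,
          (Nat.mul_le_mul_left _ (hmc 0 m' hm')).trans hJ1.2⟩
        hJ2 := fun _ => arith1 a0 n0 a1 n1 m hn0 hn1 hm inv.hz0 inv.hJ2
        hJ2' := fun ha1 => arith2 a0 n0 a1 n1 m hn0 hn1 ha1 hJ1.2 inv.hJ2'
        hH0 := by
          intro hA μ' hμ'
          obtain ⟨μ, μI, hμ, hμI, h2, h3, h4, h5⟩ := han hA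
          rwa [← (hμ 0).unique hμ']
        hH1 := by
          intro hA1 μ' hμ'
          have h2 := inv.hH1 hA1 (m + μ') (hμ'.shift hres0)
          intro h3
          apply h2
          push_cast at h3 ⊢
          linear_combination h3 - hA1 }
    have invc : ∀ c, c ≠ 0 → Inv f s0 (gc c) (a0 + a1 + m) (n0 + n1) 0 1 := fun c hc0 =>
      { geom := geom_chart f g (gc c) a0 n0 a1 n1 hn0 hn1 inv.geom m c hc0 (hgc c)
        hn0 := by omega
        hn1 := le_rfl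
        hz0 := haz
        hz1 := fun _ => rfl
        hJ1 := fun m' hm' => ⟨arith3 a0 n0 a1 n1 m m' hn0 hn1 (hmc c m' hm') hJ1.1 hJ1.2,
          by simp⟩
        hJ2 := fun h => by rw [mul_zero, mul_one]; exact h
        hJ2' := fun h => absurd h (lt_irrefl 0)
        hH0 := by
          intro hA μ' hμ'
          obtain ⟨μ, μI, hμ, hμI, h2, h3, h4, h5⟩ := han hA
          have h6 := h4 c hc0
          rw [(hμ c).unique hμ'] at h6
          rw [zero_add]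
          push_cast
          exact h6
        hH1 := by
          intro hA1
          simp at hA1 }
    have invI : Inv f s0 gI a0 n0 (a0 + a1 + m) (n0 + n1) :=
      { geom := geom_chartI f g gI a0 n0 a1 n1 hn0 hn1 inv.geom m hgI
        hn0 := hn0
        hn1 := by omega
        hz0 := inv.hz0
        hz1 := haz
        hJ1 := fun m' hm' => ⟨(Nat.mul_le_mul_left _ (hmI m' hm')).trans hJ1.1,
          arith3 a0 n0 a1 n1 m m' hn0 hn1 (hmI m' hm') hJ1.1 hJ1.2⟩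
        hJ2 := fun ha0 => by
          have := arith2 a1 n1 a0 n0 m hn1 hn0 ha0 hJ1.1 inv.hJ2
          rwa [add_comm a1 a0, add_comm n1 n0] at this
        hJ2' := fun _ => by
          have := arith1 a1 n1 a0 n0 m hn1 hn0 hm inv.hz1 inv.hJ2'
          rwa [add_comm a1 a0, add_comm n1 n0] at this
        hH0 := by
          intro hA0 μ' hμ'
          have h2 := inv.hH0 hA0 (m + μ') (hμ'.shift hresI)
          intro h3
          apply h2
          push_cast at h3 ⊢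
          linear_combination h3 - hA0
        hH1 := by
          intro hA μ' hμ'
          obtain ⟨μ, μI, hμ, hμI, h2, h3, h4, h5⟩ := han hA
          rwa [← hμI.unique hμ'] }
    obtain ⟨c00, c01, h00, h01, h02⟩ := ih0 inv0
    obtain ⟨cI0, cI1, hI0, hI1, hI2⟩ := ihI invI
    have hcc : ∀ c ∈ S.erase 0, ∃ κ : ℂ,
        (((n0 + n1 : ℕ) : ℂ) + ((a0 + a1 + m : ℕ) : ℂ) * s0 = 0 → ∀ μ, Ord0 (gc c) μ →
          κ * (1 + s0 * (μ : ℂ)) = 1) ∧
        Zc c - RatFunc.C κ * fac (a0 + a1 + m) (n0 + n1) ∈ Reg s0 := by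
      intro c hcS
      rw [Finset.mem_erase] at hcS
      obtain ⟨κ, κ', h2, h3, h4⟩ := ihc c hcS.2 hcS.1 (invc c hcS.1)
      refine ⟨κ, ?_, ?_⟩
      · intro hA μ hμ
        have h5 := h2 hA μ hμ
        rw [zero_add, Nat.cast_one] at h5
        exact h5
      · have h5 := (Reg s0).add_mem h4 (Reg_C s0 κ')
        rw [fac_zero_one, mul_one, sub_add_cancel] at h5
        exact h5
    choose! κ hκ1 hκ2 using hcc
    set facE := fac (a0 + a1 + m) (n0 + n1) with hfacE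
    set β : ℂ := cI1 + c00 + ∑ c ∈ S.erase 0, κ c + 1 - S.card with hβ
    have hβE : RatFunc.C β * facE ∈ Reg s0 := by
      by_cases hA : ((n0 + n1 : ℕ) : ℂ) + ((a0 + a1 + m : ℕ) : ℂ) * s0 = 0
      · obtain ⟨μ, μI, hμ, hμI, h2, h3, h4, h5⟩ := han hA
        have e2 := hI1 hA μI hμI
        have e3 := h00 hA (μ 0) (hμ 0)
        have e4 : ∀ c ∈ S.erase 0, κ c = 1 / (1 + s0 * (μ c : ℂ)) := by
          intro c hcS
          have h6 := hκ1 c hcS hA (μ c) (hμ c)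
          rw [eq_div_iff (h4 c (Finset.mem_erase.1 hcS).1)]
          exact h6
        have h6 : β = 0 := by
          rw [hβ, Finset.sum_congr rfl e4, eq_div_of_mul_eq h3 e2, eq_div_of_mul_eq h2 e3]
          exact h5
        rw [h6, map_zero, zero_mul]
        exact (Reg s0).zero_mem
      · exact (Reg s0).mul_mem (Reg_C s0 β) (fac_mem _ _ _ hA)
    refine ⟨cI0, c01, ?_, ?_, ?_⟩
    · intro hA0 μ hμ
      obtain ⟨ν, rfl, hν⟩ := hμ.unshift hresI
      have h2 := hI0 hA0 ν hν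
      rw [← h2]
      congr 1
      push_cast
      linear_combination -hA0
    · intro hA1 μ hμ
      obtain ⟨ν, rfl, hν⟩ := hμ.unshift hres0
      have h2 := h01 hA1 ν hν
      rw [← h2]
      congr 1
      push_cast
      linear_combination -hA1
    · have hsum : ∑ c ∈ S.erase 0, (Zc c - RatFunc.C (κ c) * facE) ∈ Reg s0 :=
        Subring.sum_mem _ fun c hcS => hκ2 c hcS
      rw [Finset.sum_sub_distrib, ← Finset.sum_mul, ← map_sum] at hsum
      have hfin := (Reg s0).add_mem ((Reg s0).add_mem ((Reg s0).add_mem h02 hI2) hsum) hβE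
      have heq : ZI + ∑ c ∈ S, Zc c + (1 - (S.card : RatFunc ℂ)) * facE
            - RatFunc.C cI0 * fac a0 n0 - RatFunc.C c01 * fac a1 n1
          = Zc 0 - RatFunc.C c00 * facE - RatFunc.C c01 * fac a1 n1
            + (ZI - RatFunc.C cI0 * fac a0 n0 - RatFunc.C cI1 * facE)
            + (∑ c ∈ S.erase 0, Zc c - RatFunc.C (∑ c ∈ S.erase 0, κ c) * facE)
            + RatFunc.C β * facE := by
        rw [← Finset.add_sum_erase S Zc h0S, hβ]
        simp only [map_sub, map_add, map_one, map_natCast]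
        ring
      rw [heq]
      exact hfin

end Pool.Agent.W574.SM
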