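import Pool.Agent.W574.SM.PlaneRoots

set_option autoImplicit false
set_option linter.unusedSectionVars false
set_option linter.unusedVariables false

/-! # Roots from the curves in the zero locus -/

namespace Pool.Agent.W574.SM

open MvPolynomial

theorem exists_point (h1 D : MP) (hp : Prime h1) (hD : ¬ h1 ∣ D) :
    ∃ P : Fin 2 → ℂ, eval P h1 = 0 ∧ eval P D ≠ 0 := by
  by_contra hne
  push Not at hne
  have hpr : (Ideal.span {h1} : Ideal MP).IsPrime :=
    (Ideal.span_singleton_prime hp.ne_zero).2 hp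
  have h2 : D ∈ vanishingIdeal ℂ (zeroLocus ℂ (Ideal.span {h1})) := by
    rw [mem_vanishingIdeal_iff]
    intro P hP
    rw [mem_zeroLocus_iff] at hP
    have h3 := hP h1 (Ideal.mem_span_singleton_self h1)
    rw [aeval_eq_eval] at h3 ⊢
    exact hne P h3
  rw [vanishingIdeal_zeroLocus_eq_radical, hpr.radical, Ideal.mem_span_singleton] at h2
  exact hD h2

/-- exchange of the coordinates -/
noncomputable def sw : MP →ₐ[ℂ] MP := aeval ![X 1, X 0]

theorem sw_X0 : sw (X 0) = X 1 := by rw [sw, aeval_X]; rfl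
theorem sw_X1 : sw (X 1) = X 0 := by rw [sw, aeval_X]; rfl

theorem eval_sw (p0 p1 : ℂ) (q : MP) : eval ![p1, p0] (sw q) = eval ![p0, p1] q := by
  induction q using MvPolynomial.induction_on with
  | C c => rw [sw, aeval_C, eval_C]; exact eval_C c
  | add p q hp hq => rw [map_add, map_add, hp, hq, map_add]
  | mul_X p i hp =>
    rw [map_mul, map_mul, hp, map_mul]
    congr 1
    fin_cases i
    · simp [sw]
    · simp [sw]

theorem pderiv_sw (q : MP) : pderiv 0 (sw q) = sw (pderiv 1 q) ∧ pderiv 1 (sw q)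
    = sw (pderiv 0 q) := by
  induction q using MvPolynomial.induction_on with
  | C c =>
    have : sw (C c) = C c := by rw [sw, aeval_C]; rfl
    rw [this, pderiv_C, pderiv_C, map_zero]
    exact ⟨rfl, rfl⟩
  | add p q hp hq =>
    simp only [map_add, hp.1, hp.2, hq.1, hq.2, and_self]
  | mul_X p i hp =>
    have hi : i = 0 ∨ i = 1 := by omega
    rcases hi with rfl | rfl
    · simp only [map_mul, Derivation.leibniz, hp.1, hp.2, sw_X0, pderiv_X, smul_eq_mul, map_add]
      constructor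
      · simp
      · simp
    · simp only [map_mul, Derivation.leibniz, hp.1, hp.2, sw_X1, pderiv_X, smul_eq_mul, map_add]
      constructor
      · simp
      · simp

theorem aeval_sw (ξ : Fin 2 → MP) (q : MP) : aeval (fun i => sw (ξ i)) q = sw (aeval ξ q) := by
  have h : aeval (fun i => sw (ξ i)) = sw.comp (aeval ξ) := by
    ext1 i
    rw [AlgHom.comp_apply, aeval_X, aeval_X]
  rw [h, AlgHom.comp_apply]

theorem jac_sw (ξ : Fin 2 → MP) : jac (fun i => sw (ξ i)) = - sw (jac ξ) := by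
  rw [jac, jac, Matrix.det_fin_two, Matrix.det_fin_two]
  simp only [Matrix.of_apply, map_sub, map_mul, (pderiv_sw _).1, (pderiv_sw _).2]
  ring

variable {ι : Type} [Fintype ι] [DecidableEq ι]

/-- The root `-1/m` from a curve of multiplicity `m`. -/
theorem plane_curve' (f : ι → MP) (b : Polynomial ℂ) (hb : IsFunctionalEq f b) (ξ : Fin 2 → MP)
    (m : ℕ) (hm : 0 < m) (h : MP) (k : ι → MP)
    (hf : ∀ j, aeval ξ (f j) = h ^ m * k j) (p0 p1 : ℂ)
    (hh : eval ![p0, p1] h = 0)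
    (hh1 : eval ![p0, p1] (pderiv 0 h) ≠ 0)
    (hJ : eval ![p0, p1] (jac ξ) ≠ 0) (j0 : ι)
    (hj0 : eval ![p0, p1] (k j0) ≠ 0) :
    b.eval (-1 / (m : ℂ)) = 0 := by
  refine plane_curve f b hb (fun i => sw (ξ i)) m hm (sw h) (fun j => sw (k j)) ?_ p1 p0 ?_ ?_ ?_
    j0 ?_
  · intro j
    rw [aeval_sw, hf, map_mul, map_pow]
  · rw [eval_sw, hh]
  · rw [(pderiv_sw h).2, eval_sw]; exact hh1
  · rw [jac_sw, map_neg, eval_sw]; exact neg_ne_zero.2 hJ
  · rw [eval_sw]; exact hj0

theorem exists_prime_through (h : MP) (h0 : constantCoeff h = 0) (hne : h ≠ 0) :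
    ∃ h1 : MP, Prime h1 ∧ h1 ∣ h ∧ constantCoeff h1 = 0 := by
  obtain ⟨F, hF, u, hu⟩ := UniqueFactorizationMonoid.exists_prime_factors h hne
  have h2 : constantCoeff F.prod * constantCoeff (u : MP) = 0 := by
    rw [← map_mul, hu, h0]
  have hu0 : constantCoeff (u : MP) ≠ 0 := by
    have := (u.isUnit.map (constantCoeff : MP →+* ℂ)).ne_zero
    exact this
  have h3 : (F.map (constantCoeff : MP →+* ℂ)).prod = 0 := by
    rw [← map_multiset_prod]
    exact (mul_eq_zero.1 h2).resolve_right hu0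
  rw [Multiset.prod_eq_zero_iff, Multiset.mem_map] at h3
  obtain ⟨p, hp, hp0⟩ := h3
  exact ⟨p, hF p hp, (Multiset.dvd_prod hp).trans ⟨u, hu.symm⟩, hp0⟩

theorem cc_dvd {p q : MP} (h : p ∣ q) (hp : constantCoeff p = 0) : constantCoeff q = 0 := by
  obtain ⟨r, rfl⟩ := h
  rw [map_mul, hp, zero_mul]

theorem vec2 (P : Fin 2 → ℂ) : P = ![P 0, P 1] := by
  funext i
  fin_cases i <;> rfl

theorem node_curveV (f : ι → MP) (b : Polynomial ℂ) (hb : IsFunctionalEq f b) (ξ : Fin 2 → MP)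
    (W W' : MP) (hW : constantCoeff W ≠ 0) (hW' : constantCoeff W' ≠ 0) (a0 n0 : ℕ)
    (m : ℕ) (hm : 0 < m) (h : MP) (k : ι → MP)
    (hf : ∀ j, aeval ξ (f j) = X 0 ^ a0 * W * (h ^ m * k j)) (hJ : jac ξ = X 0 ^ (n0 - 1) * W')
    (h0 : constantCoeff h = 0) (h1 : constantCoeff (pderiv 1 h) ≠ 0)
    (j0 : ι) (hj0 : constantCoeff (k j0) ≠ 0) :
    b.eval (-1 / (m : ℂ)) = 0 := by
  have hne : h ≠ 0 := by
    rintro rfl
    rw [map_zero, map_zero] at h1
    exact h1 rfl
  obtain ⟨p, hp, ⟨q, hq⟩, hp0⟩ := exists_prime_through h h0 hne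
  have hD : ¬ p ∣ X 0 * (pderiv 1 h * (W * (W' * k j0))) := by
    intro hd
    rcases hp.dvd_or_dvd hd with hd | hd
    · obtain ⟨r, hr⟩ := hd
      have e0 : constantCoeff (pderiv 0 (X 0 : MP)) = constantCoeff (pderiv 0 (p * r)) := by
        rw [← hr]
      have e1 : constantCoeff (pderiv 1 (X 0 : MP)) = constantCoeff (pderiv 1 (p * r)) := by
        rw [← hr]
      rw [Derivation.leibniz, smul_eq_mul, smul_eq_mul, map_add, map_mul constantCoeff,
        map_mul constantCoeff, hp0, zero_mul, zero_add, pderiv_X_self, map_one] at e0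
      rw [Derivation.leibniz, smul_eq_mul, smul_eq_mul, map_add, map_mul constantCoeff,
        map_mul constantCoeff, hp0, zero_mul, zero_add, pderiv_X_of_ne (by decide), map_zero] at e1
      have hr0 : constantCoeff r ≠ 0 := by
        intro h
        rw [h, zero_mul] at e0
        exact one_ne_zero e0
      have hp1 : constantCoeff (pderiv 1 p) = 0 :=
        (mul_eq_zero.1 e1.symm).resolve_left hr0
      apply h1
      rw [hq, Derivation.leibniz, smul_eq_mul, smul_eq_mul, map_add, map_mul constantCoeff,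
        map_mul constantCoeff, hp0, hp1, zero_mul, mul_zero, add_zero]
    · rcases hp.dvd_or_dvd hd with hd | hd
      · exact h1 (cc_dvd hd hp0)
      · rcases hp.dvd_or_dvd hd with hd | hd
        · exact hW (cc_dvd hd hp0)
        · rcases hp.dvd_or_dvd hd with hd | hd
          · exact hW' (cc_dvd hd hp0)
          · exact hj0 (cc_dvd hd hp0)
  obtain ⟨P, hP1, hP2⟩ := exists_point p _ hp hD
  simp only [map_mul, eval_X] at hP2
  have g0 := left_ne_zero_of_mul hP2
  have hP3 := right_ne_zero_of_mul hP2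
  have g1 := left_ne_zero_of_mul hP3
  have hP4 := right_ne_zero_of_mul hP3
  have g2 := left_ne_zero_of_mul hP4
  have hP5 := right_ne_zero_of_mul hP4
  have g3 := left_ne_zero_of_mul hP5
  have g4 := right_ne_zero_of_mul hP5
  refine plane_curve f b hb ξ m hm h (fun j => X 0 ^ a0 * W * k j) (fun j => by rw [hf]; ring)
    (P 0) (P 1) ?_ ?_ ?_ j0 ?_
  · rw [← vec2, hq, map_mul, hP1, zero_mul]
  · rw [← vec2]; exact g1
  · rw [← vec2, hJ, map_mul, map_pow, eval_X]
    exact mul_ne_zero (pow_ne_zero _ g0) g3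
  · rw [← vec2, map_mul, map_mul, map_pow, eval_X]
    exact mul_ne_zero (mul_ne_zero (pow_ne_zero _ g0) g2) g4

theorem cc_sw (q : MP) : constantCoeff (sw q) = constantCoeff q := by
  have h := eval_sw 0 0 q
  have h0 : (![0, 0] : Fin 2 → ℂ) = 0 := by
    funext i; fin_cases i <;> rfl
  rw [h0, eval_zero] at h
  exact h

theorem sw_sw (q : MP) : sw (sw q) = q := by
  have h : sw.comp sw = AlgHom.id ℂ MP := by
    ext1 i
    have hi : i = 0 ∨ i = 1 := by omega
    rcases hi with rfl | rfl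
    · rw [AlgHom.comp_apply, sw_X0, sw_X1]; rfl
    · rw [AlgHom.comp_apply, sw_X1, sw_X0]; rfl
  exact congrArg (fun φ : MP →ₐ[ℂ] MP => φ q) h

theorem node_curveU (f : ι → MP) (b : Polynomial ℂ) (hb : IsFunctionalEq f b) (ξ : Fin 2 → MP)
    (W W' : MP) (hW : constantCoeff W ≠ 0) (hW' : constantCoeff W' ≠ 0) (a1 n1 : ℕ)
    (m : ℕ) (hm : 0 < m) (h : MP) (k : ι → MP)
    (hf : ∀ j, aeval ξ (f j) = X 1 ^ a1 * W * (h ^ m * k j)) (hJ : jac ξ = X 1 ^ (n1 - 1) * W')
    (h0 : constantCoeff h = 0) (h1 : constantCoeff (pderiv 0 h) ≠ 0)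
    (j0 : ι) (hj0 : constantCoeff (k j0) ≠ 0) :
    b.eval (-1 / (m : ℂ)) = 0 := by
  refine node_curveV f b hb (fun i => sw (ξ i)) (sw W) (- sw W') (by rwa [cc_sw])
    (by rw [map_neg, cc_sw]; exact neg_ne_zero.2 hW') a1 n1 m hm (sw h) (fun j => sw (k j))
    (fun j => ?_) ?_ (by rwa [cc_sw]) ?_ j0 (by rwa [cc_sw])
  · rw [aeval_sw, hf]
    simp only [map_mul, map_pow, sw_X1]
  · rw [jac_sw, hJ, map_mul, map_pow, sw_X1]
    ring
  · rw [(pderiv_sw h).2, cc_sw]
    exact h1

end Pool.Agent.W574.SM
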