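import Pool.Agent.W574.SM.Dmod

set_option autoImplicit false

/-! # Evaluating `A[∂_t]` on a product of powers of linear forms -/

namespace Pool.Agent.W574.SM

open MvPolynomial

section Lam

variable {κ L : Type} [Fintype κ] [DecidableEq κ] [Field L] [Algebra ℂ L]

/-- `e (e - 1) ⋯ (e - n + 1)` -/
noncomputable def dpoch (e : ℂ) (n : ℕ) : ℂ := ∏ i ∈ Finset.range n, (e - i)

/-- The factor by which `∂ ^ μ` multiplies a product of the powers `G_m ^ e_m`. -/
noncomputable def wt (e : κ → ℂ) (G : κ → L) (μ : κ →₀ ℕ) : L :=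
  ∏ m, algebraMap ℂ L (dpoch (e m) (μ m)) * (G m)⁻¹ ^ (μ m)

theorem wt_zero (e : κ → ℂ) (G : κ → L) : wt e G 0 = 1 := by
  simp [wt, dpoch]

theorem wt_add_single (e : κ → ℂ) (G : κ → L) (μ : κ →₀ ℕ) (m : κ) :
    wt e G (μ + Finsupp.single m 1) = wt e G μ * algebraMap ℂ L (e m - μ m) * (G m)⁻¹ := by
  unfold wt
  rw [← Finset.mul_prod_erase _ _ (Finset.mem_univ m),
    ← Finset.mul_prod_erase Finset.univ (fun m => algebraMap ℂ L (dpoch (e m) (μ m)) *
      (G m)⁻¹ ^ (μ m)) (Finset.mem_univ m)]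
  have h1 : ∏ k ∈ Finset.univ.erase m, algebraMap ℂ L (dpoch (e k)
      ((μ + Finsupp.single m 1 : κ →₀ ℕ) k)) * (G k)⁻¹ ^ ((μ + Finsupp.single m 1 : κ →₀ ℕ) k)
      = ∏ k ∈ Finset.univ.erase m, algebraMap ℂ L (dpoch (e k) (μ k)) * (G k)⁻¹ ^ (μ k) := by
    refine Finset.prod_congr rfl fun k hk => ?_
    rw [Finsupp.add_apply, Finsupp.single_eq_of_ne (Finset.ne_of_mem_erase hk), add_zero]
  rw [h1, Finsupp.add_apply, Finsupp.single_eq_same, pow_succ]
  have h2 : dpoch (e m) (μ m + 1) = dpoch (e m) (μ m) * (e m - μ m) := by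
    rw [dpoch, Finset.prod_range_succ, dpoch]
  rw [h2, map_mul]
  ring

/-- Evaluation. -/
noncomputable def Lam (e : κ → ℂ) (G : κ → L) : MvPolynomial κ L →ₗ[L] L :=
  (basisMonomials κ L).constr L (wt e G)

theorem Lam_monomial (e : κ → ℂ) (G : κ → L) (μ : κ →₀ ℕ) (a : L) :
    Lam e G (monomial μ a) = a * wt e G μ := by
  have h : monomial μ a = a • (basisMonomials κ L μ) := by
    rw [coe_basisMonomials, smul_monomial, smul_eq_mul, mul_one]
  rw [h, map_smul, Lam, Module.Basis.constr_basis, smul_eq_mul]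

theorem X_mul_monomial {R : Type} [CommRing R] (m : κ) (μ : κ →₀ ℕ) (a : R) :
    X m * monomial μ a = monomial (μ + Finsupp.single m 1) a := by
  rw [mul_comm, X, monomial_mul, mul_one]

theorem Lam_euler (e : κ → ℂ) (G : κ → L) (hG : ∀ m, G m ≠ 0) (m : κ) (P : MvPolynomial κ L) :
    Lam e G (C (G m) * X m * P + X m * pderiv m P) = algebraMap ℂ L (e m) * Lam e G P := by
  induction P using MvPolynomial.induction_on' with
  | monomial μ a =>
    rw [map_add, mul_assoc, X_mul_monomial, C_mul_monomial, Lam_monomial, wt_add_single,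
      pderiv_monomial, Lam_monomial]
    have h1 : X m * monomial (μ - Finsupp.single m 1) (a * (μ m : L)) = monomial μ (a * μ m) := by
      rcases Nat.eq_zero_or_pos (μ m) with h | h
      · rw [h]; simp
      · rw [X_mul_monomial, tsub_add_cancel_of_le]
        rw [Finsupp.single_le_iff]
        omega
    rw [h1, Lam_monomial, map_sub]
    have h2 := hG m
    have h3 : algebraMap ℂ L (μ m : ℂ) = (μ m : L) := by simp
    rw [h3]
    field_simp
    ring
  | add p q hp hq =>
    have : C (G m) * X m * (p + q) + X m * pderiv m (p + q)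
        = (C (G m) * X m * p + X m * pderiv m p) + (C (G m) * X m * q + X m * pderiv m q) := by
      rw [map_add]; ring
    rw [this, map_add, hp, hq, map_add, mul_add]

theorem d_wt (e : κ → ℂ) (G : κ → L) (hG : ∀ m, G m ≠ 0) (d : Derivation ℂ L L) (μ : κ →₀ ℕ) :
    d (wt e G μ) = - wt e G μ * ∑ m, (μ m : L) * (d (G m) * (G m)⁻¹) := by
  induction μ using finsupp_ind with
  | h0 =>
    rw [wt_zero]
    simp
  | h1 μ k ih =>
    rw [wt_add_single, Derivation.leibniz, Derivation.leibniz, ih, Derivation.map_algebraMap]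
    have h2 : d (G k)⁻¹ = - (G k)⁻¹ * (d (G k) * (G k)⁻¹) := by
      rw [Derivation.leibniz_inv, smul_eq_mul]
      have := hG k
      field_simp
    rw [h2]
    have h3 : ∑ m, (((μ + Finsupp.single k 1 : κ →₀ ℕ) m : ℕ) : L) * (d (G m) * (G m)⁻¹)
        = ∑ m, (μ m : L) * (d (G m) * (G m)⁻¹) + d (G k) * (G k)⁻¹ := by
      simp only [Finsupp.add_apply, Nat.cast_add, add_mul, Finset.sum_add_distrib]
      congr 1
      rw [Finset.sum_eq_single k]
      · simp
      · intro b _ hb
        rw [Finsupp.single_eq_of_ne hb]; simp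
      · simp
    rw [h3]
    simp only [smul_eq_mul]
    ring

theorem Lam_deriv (e : κ → ℂ) (G : κ → L) (hG : ∀ m, G m ≠ 0) (d : Derivation ℂ L L)
    (P : MvPolynomial κ L) :
    d (Lam e G P) + (∑ m, algebraMap ℂ L (e m) * (d (G m) * (G m)⁻¹)) * Lam e G P
      = Lam e G (dcoef d P + (∑ m, C (d (G m)) * X m) * P) := by
  induction P using MvPolynomial.induction_on' with
  | monomial μ a =>
    rw [Lam_monomial, map_add, dcoef_monomial, Lam_monomial,
      Finset.sum_mul (f := fun m => C (d (G m)) * X m), map_sum,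
      Derivation.leibniz, d_wt e G hG]
    have h1 : ∀ m, Lam e G (C (d (G m)) * X m * monomial μ a)
        = a * wt e G μ * ((algebraMap ℂ L (e m) - (μ m : L)) * (d (G m) * (G m)⁻¹)) := by
      intro m
      rw [mul_assoc, X_mul_monomial, C_mul_monomial, Lam_monomial, wt_add_single, map_sub]
      have h3 : algebraMap ℂ L (μ m : ℂ) = (μ m : L) := by simp
      rw [h3]
      ring
    simp only [h1]
    rw [← Finset.mul_sum]
    simp only [sub_mul, Finset.sum_sub_distrib, smul_eq_mul]
    ring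
  | add p q hp hq =>
    rw [map_add, map_add, dcoef_add]
    have : dcoef d p + dcoef d q + (∑ m, C (d (G m)) * X m) * (p + q)
      = (dcoef d p + (∑ m, C (d (G m)) * X m) * p) + (dcoef d q + (∑ m, C (d (G m)) * X m) * q) := by
      ring
    rw [this, map_add, ← hp, ← hq]
    ring

end Lam

section SS

variable {σ ι κ L : Type} [Fintype ι] [DecidableEq ι] [Fintype κ] [DecidableEq κ] [Field L]
  [Algebra ℂ L] (φ : MvPolynomial σ ℂ →ₐ[ℂ] L) (lam : κ → ι → ℂ)

/-- the linear form `∑_m λ_{m j} Z_m` -/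
noncomputable def ell (L : Type) [Field L] [Algebra ℂ L] (lam : κ → ι → ℂ) (j : ι) :
    MvPolynomial κ L :=
  ∑ m, C (algebraMap ℂ L (lam m j)) * X m

/-- The substitution `∂_{t_j} ↦ ∑_m λ_{m j} Z_m`. -/
noncomputable def SS : MvPolynomial ι (MvPolynomial σ ℂ) →+* MvPolynomial κ L :=
  eval₂Hom ((C : L →+* MvPolynomial κ L).comp (φ : MvPolynomial σ ℂ →+* L)) (ell L lam)

theorem SS_C (a : MvPolynomial σ ℂ) : SS φ lam (C a) = C (φ a) := by
  simp [SS]

theorem SS_X (j : ι) : SS φ lam (X j) = ell L lam j := by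
  simp [SS]

theorem dcoef_ell_mul (d : Derivation ℂ L L) (j : ι) (P : MvPolynomial κ L) :
    dcoef d (ell L lam j * P) = ell L lam j * dcoef d P := by
  rw [ell, Finset.sum_mul, dcoef_sum, Finset.sum_mul]
  refine Finset.sum_congr rfl fun m _ => ?_
  rw [mul_assoc, dcoef_C_mul, Derivation.map_algebraMap, map_zero, zero_mul, zero_add, dcoef_X_mul,
    mul_assoc]

theorem SS_dcoef (d : Derivation ℂ L L)
    (d' : Derivation ℂ (MvPolynomial σ ℂ) (MvPolynomial σ ℂ)) (h : ∀ p, d (φ p) = φ (d' p))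
    (q : MvPolynomial ι (MvPolynomial σ ℂ)) :
    SS φ lam (dcoef d' q) = dcoef d (SS φ lam q) := by
  induction q using MvPolynomial.induction_on with
  | C a =>
    rw [SS_C]
    have h1 : (C a : MvPolynomial ι (MvPolynomial σ ℂ)) = monomial 0 a := rfl
    have h2 : (C (φ a) : MvPolynomial κ L) = monomial 0 (φ a) := rfl
    rw [h1, h2, dcoef_monomial, dcoef_monomial, h]
    exact SS_C φ lam (d' a)
  | add p q hp hq => rw [dcoef_add, map_add, hp, hq, map_add, dcoef_add]
  | mul_X p j hp =>
    rw [mul_comm, dcoef_X_mul, map_mul, map_mul, SS_X, dcoef_ell_mul, hp]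

theorem SS_pderiv (m : κ) (q : MvPolynomial ι (MvPolynomial σ ℂ)) :
    pderiv m (SS φ lam q) = ∑ j, C (algebraMap ℂ L (lam m j)) * SS φ lam (pderiv j q) := by
  induction q using MvPolynomial.induction_on with
  | C a =>
    rw [SS_C, pderiv_C]
    simp
  | add p q hp hq =>
    rw [map_add, map_add, hp, hq, ← Finset.sum_add_distrib]
    refine Finset.sum_congr rfl fun j _ => ?_
    rw [map_add, map_add, mul_add]
  | mul_X p k hp =>
    have h1 : pderiv m (ell L lam k) = C (algebraMap ℂ L (lam m k)) := by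
      rw [ell, map_sum, Finset.sum_eq_single m]
      · rw [Derivation.leibniz, pderiv_X_self, pderiv_C]; simp
      · intro n _ hn
        rw [Derivation.leibniz, pderiv_X_of_ne hn, pderiv_C]; simp
      · simp
    rw [map_mul, SS_X, Derivation.leibniz, hp, h1]
    have h2 : ∀ j, C (algebraMap ℂ L (lam m j)) * SS φ lam (pderiv j (p * X k))
        = ell L lam k * (C (algebraMap ℂ L (lam m j)) * SS φ lam (pderiv j p))
          + (if j = k then C (algebraMap ℂ L (lam m j)) * SS φ lam p else 0) := by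
      intro j
      rw [Derivation.leibniz, pderiv_X]
      simp only [smul_eq_mul, Pi.single_apply, map_add, map_mul, SS_X]
      by_cases hjk : j = k
      · subst hjk; simp; ring
      · rw [if_neg hjk, if_neg (fun h => hjk h.symm)]; simp; ring
    simp only [h2, Finset.sum_add_distrib]
    rw [Finset.sum_ite_eq' Finset.univ k, if_pos (Finset.mem_univ k), ← Finset.mul_sum]
    simp only [smul_eq_mul]
    ring

end SS

end Pool.Agent.W574.SM
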