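import Pool.Agent.W574.SM.Tw

set_option autoImplicit false
set_option linter.unusedSectionVars false
set_option linter.unusedVariables false

/-! # Derivations of rational functions and of Laurent series over them -/

namespace Pool.Agent.W574.SM

section Rat

open Polynomial

/-- the derivative of a rational function -/
noncomputable def dRfun (x : RatFunc ℂ) : RatFunc ℂ :=
  (algebraMap ℂ[X] (RatFunc ℂ) (derivative x.num) * algebraMap ℂ[X] (RatFunc ℂ) x.denom -
    algebraMap ℂ[X] (RatFunc ℂ) x.num * algebraMap ℂ[X] (RatFunc ℂ) (derivative x.denom)) /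
    (algebraMap ℂ[X] (RatFunc ℂ) x.denom) ^ 2

theorem am_ne {q : ℂ[X]} (hq : q ≠ 0) : algebraMap ℂ[X] (RatFunc ℂ) q ≠ 0 :=
  RatFunc.algebraMap_ne_zero hq

theorem dR_div (p q : ℂ[X]) (hq : q ≠ 0) :
    dRfun (algebraMap ℂ[X] (RatFunc ℂ) p / algebraMap ℂ[X] (RatFunc ℂ) q)
      = (algebraMap ℂ[X] (RatFunc ℂ) (derivative p) * algebraMap ℂ[X] (RatFunc ℂ) q -
    algebraMap ℂ[X] (RatFunc ℂ) p * algebraMap ℂ[X] (RatFunc ℂ) (derivative q)) /
    (algebraMap ℂ[X] (RatFunc ℂ) q) ^ 2 := by
  set x := algebraMap ℂ[X] (RatFunc ℂ) p / algebraMap ℂ[X] (RatFunc ℂ) q with hx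
  have hd : x.denom ≠ 0 := RatFunc.denom_ne_zero x
  have h1 : x.num * q = p * x.denom := by
    have h2 : algebraMap ℂ[X] (RatFunc ℂ) x.num / algebraMap ℂ[X] (RatFunc ℂ) x.denom
        = algebraMap ℂ[X] (RatFunc ℂ) p / algebraMap ℂ[X] (RatFunc ℂ) q := by
      rw [RatFunc.num_div_denom]
    rw [div_eq_div_iff (am_ne hd) (am_ne hq), ← map_mul, ← map_mul] at h2
    exact RatFunc.algebraMap_injective ℂ h2
  have h2 : derivative x.num * q + x.num * derivative q
      = derivative p * x.denom + p * derivative x.denom := by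
    have := congrArg derivative h1
    rwa [derivative_mul, derivative_mul] at this
  have h1' := congrArg (algebraMap ℂ[X] (RatFunc ℂ)) h1
  have h2' := congrArg (algebraMap ℂ[X] (RatFunc ℂ)) h2
  simp only [map_mul, map_add] at h1' h2'
  rw [dRfun, div_eq_div_iff (pow_ne_zero 2 (am_ne hd)) (pow_ne_zero 2 (am_ne hq))]
  have hq' := am_ne hq
  have hd' := am_ne hd
  have h3 : algebraMap ℂ[X] (RatFunc ℂ) x.num = algebraMap ℂ[X] (RatFunc ℂ) p *
      algebraMap ℂ[X] (RatFunc ℂ) x.denom / algebraMap ℂ[X] (RatFunc ℂ) q := by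
    rw [eq_div_iff hq', h1']
  have h4 : algebraMap ℂ[X] (RatFunc ℂ) (derivative x.num)
      = (algebraMap ℂ[X] (RatFunc ℂ) (derivative p) * algebraMap ℂ[X] (RatFunc ℂ) x.denom
        + algebraMap ℂ[X] (RatFunc ℂ) p * algebraMap ℂ[X] (RatFunc ℂ) (derivative x.denom)
        - algebraMap ℂ[X] (RatFunc ℂ) x.num * algebraMap ℂ[X] (RatFunc ℂ) (derivative q))
        / algebraMap ℂ[X] (RatFunc ℂ) q := by
    rw [eq_div_iff hq', ← h2']
    ring
  rw [h4, h3]
  field_simp
  ring

theorem exists_div (x : RatFunc ℂ) : ∃ p q : ℂ[X], q ≠ 0 ∧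
    x = algebraMap ℂ[X] (RatFunc ℂ) p / algebraMap ℂ[X] (RatFunc ℂ) q :=
  ⟨x.num, x.denom, RatFunc.denom_ne_zero x, (RatFunc.num_div_denom x).symm⟩

theorem dR_add (x y : RatFunc ℂ) : dRfun (x + y) = dRfun x + dRfun y := by
  obtain ⟨p, q, hq, rfl⟩ := exists_div x
  obtain ⟨r, s, hs, rfl⟩ := exists_div y
  have h1 : algebraMap ℂ[X] (RatFunc ℂ) p / algebraMap ℂ[X] (RatFunc ℂ) q
      + algebraMap ℂ[X] (RatFunc ℂ) r / algebraMap ℂ[X] (RatFunc ℂ) s
      = algebraMap ℂ[X] (RatFunc ℂ) (p * s + q * r) / algebraMap ℂ[X] (RatFunc ℂ) (q * s) := by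
    rw [div_add_div _ _ (am_ne hq) (am_ne hs)]
    simp only [map_add, map_mul]
  rw [h1, dR_div _ _ (mul_ne_zero hq hs), dR_div _ _ hq, dR_div _ _ hs]
  simp only [map_add, map_mul, derivative_mul]
  have hq' := am_ne hq
  have hs' := am_ne hs
  field_simp
  ring

theorem dR_mul (x y : RatFunc ℂ) : dRfun (x * y) = x * dRfun y + y * dRfun x := by
  obtain ⟨p, q, hq, rfl⟩ := exists_div x
  obtain ⟨r, s, hs, rfl⟩ := exists_div y
  have h1 : algebraMap ℂ[X] (RatFunc ℂ) p / algebraMap ℂ[X] (RatFunc ℂ) q
      * (algebraMap ℂ[X] (RatFunc ℂ) r / algebraMap ℂ[X] (RatFunc ℂ) s)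
      = algebraMap ℂ[X] (RatFunc ℂ) (p * r) / algebraMap ℂ[X] (RatFunc ℂ) (q * s) := by
    rw [div_mul_div_comm]
    simp only [map_mul]
  rw [h1, dR_div _ _ (mul_ne_zero hq hs), dR_div _ _ hq, dR_div _ _ hs]
  simp only [map_add, map_mul, derivative_mul]
  have hq' := am_ne hq
  have hs' := am_ne hs
  field_simp
  ring

theorem dR_poly (p : ℂ[X]) : dRfun (algebraMap ℂ[X] (RatFunc ℂ) p)
    = algebraMap ℂ[X] (RatFunc ℂ) (derivative p) := by
  have h := dR_div p 1 one_ne_zero
  simpa using h

/-- the derivative, a derivation of the field of rational functions -/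
noncomputable def dR : Derivation ℂ (RatFunc ℂ) (RatFunc ℂ) :=
  Derivation.mk' { toFun := dRfun
                   map_add' := dR_add
                   map_smul' := fun c x => by
                    have h : c • x = algebraMap ℂ[X] (RatFunc ℂ) (C c) * x := by
                      rw [Algebra.smul_def]
                      rfl
                    rw [h, dR_mul, dR_poly, derivative_C, map_zero, mul_zero, add_zero,
                      RingHom.id_apply, Algebra.smul_def]
                    rfl }
    (fun x y => by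
      simp only [LinearMap.coe_mk, AddHom.coe_mk, smul_eq_mul]
      exact dR_mul x y)

theorem dR_apply (x : RatFunc ℂ) : dR x = dRfun x := rfl

theorem dR_algebraMap (p : ℂ[X]) : dR (algebraMap ℂ[X] (RatFunc ℂ) p)
    = algebraMap ℂ[X] (RatFunc ℂ) (derivative p) := dR_poly p

end Rat

section Laurent

attribute [-instance] HahnSeries.powerSeriesAlgebra

open HahnSeries

variable {M : Type} [Field M] [Algebra ℂ M]

/-- A derivation of the coefficients plus a multiple of the Euler derivation, as a function. -/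
noncomputable def hdFun (δ : Derivation ℂ M M) (k : ℤ) (x : HahnSeries ℤ M) : HahnSeries ℤ M where
  coeff g := δ (x.coeff g) + ((k * g : ℤ) : M) * x.coeff g
  isPWO_support' := x.isPWO_support.mono (by
    intro g hg
    rw [Function.mem_support] at hg
    rw [mem_support]
    intro h
    rw [h, map_zero, mul_zero, add_zero] at hg
    exact hg rfl)

theorem coeff_hdFun (δ : Derivation ℂ M M) (k : ℤ) (x : HahnSeries ℤ M) (g : ℤ) :
    (hdFun δ k x).coeff g = δ (x.coeff g) + ((k * g : ℤ) : M) * x.coeff g := rfl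

theorem support_hdFun (δ : Derivation ℂ M M) (k : ℤ) (x : HahnSeries ℤ M) :
    (hdFun δ k x).support ⊆ x.support := by
  intro g hg
  rw [mem_support, coeff_hdFun] at hg
  rw [mem_support]
  intro h
  rw [h, map_zero, mul_zero, add_zero] at hg
  exact hg rfl

/-- A derivation of the coefficients plus a multiple of the Euler derivation. -/
noncomputable def hd (δ : Derivation ℂ M M) (k : ℤ) :
    Derivation ℂ (HahnSeries ℤ M) (HahnSeries ℤ M) :=
  Derivation.mk' { toFun := hdFun δ k
                   map_add' := fun x y => by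
                    ext g
                    simp only [coeff_add, coeff_hdFun, map_add]
                    ring
                   map_smul' := fun c x => by
                    ext g
                    simp only [coeff_smul, coeff_hdFun, RingHom.id_apply, Derivation.map_smul,
                      smul_add, mul_smul_comm] }
    (fun x y => by
      ext g
      simp only [LinearMap.coe_mk, AddHom.coe_mk, smul_eq_mul, coeff_add, coeff_hdFun]
      rw [mul_comm y, coeff_mul_right' y.isPWO_support (support_hdFun δ k y),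
        coeff_mul_left' x.isPWO_support (support_hdFun δ k x), coeff_mul,
        Finset.mul_sum, map_sum, ← Finset.sum_add_distrib, ← Finset.sum_add_distrib]
      refine Finset.sum_congr rfl fun p hp => ?_
      rw [coeff_hdFun, coeff_hdFun, ← (Finset.mem_antidiagonal.1 hp).2.2, Derivation.leibniz]
      simp only [smul_eq_mul]
      push_cast
      ring)

theorem coeff_hd (δ : Derivation ℂ M M) (k : ℤ) (x : HahnSeries ℤ M) (g : ℤ) :
    (hd δ k x).coeff g = δ (x.coeff g) + ((k * g : ℤ) : M) * x.coeff g := rfl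

theorem hd_comm (δ : Derivation ℂ M M) (x : HahnSeries ℤ M) :
    hd δ 0 (hd 0 1 x) = hd 0 1 (hd δ 0 x) := by
  ext g
  simp only [coeff_hd, Derivation.coe_zero, Pi.zero_apply, zero_add, zero_mul, Int.cast_zero,
    add_zero, one_mul]
  have h : ((g : ℤ) : M) = algebraMap ℂ M (g : ℂ) := by simp
  rw [h, Derivation.leibniz, Derivation.map_algebraMap, smul_zero, add_zero, smul_eq_mul]

/-- the filtration by the order -/
noncomputable def filtZ (M : Type) [Field M] [Algebra ℂ M] : Filt (HahnSeries ℤ M) where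
  ge d :=
    { carrier := {u | ∀ g, u.coeff g ≠ 0 → d ≤ g}
      add_mem' := by
        intro u v hu hv g hg
        rw [coeff_add] at hg
        by_cases h : u.coeff g = 0
        · exact hv g (by rwa [h, zero_add] at hg)
        · exact hu g h
      zero_mem' := by
        intro g hg
        exact absurd rfl hg
      neg_mem' := by
        intro u hu g hg
        rw [coeff_neg, neg_ne_zero] at hg
        exact hu g hg }
  mono := by
    intro d e hde u hu g hg
    exact hde.trans (hu g hg)
  mul := by
    intro d e u v hu hv g hg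
    rw [coeff_mul] at hg
    obtain ⟨p, hp, hp2⟩ := Finset.exists_ne_zero_of_sum_ne_zero hg
    rw [← (Finset.mem_antidiagonal.1 hp).2.2]
    exact add_le_add (hu _ (left_ne_zero_of_mul hp2)) (hv _ (right_ne_zero_of_mul hp2))
  const := by
    intro c g hg
    rw [HahnSeries.algebraMap_apply, C_apply, coeff_single] at hg
    split_ifs at hg with h
    · rw [h]
    · exact absurd rfl hg

theorem mem_filtZ (d : ℤ) (u : HahnSeries ℤ M) :
    u ∈ (filtZ M).ge d ↔ ∀ g, u.coeff g ≠ 0 → d ≤ g := Iff.rfl

theorem coeff_of_lt {d g : ℤ} {u : HahnSeries ℤ M} (hu : u ∈ (filtZ M).ge d) (hg : g < d) :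
    u.coeff g = 0 := by
  by_contra h
  exact absurd (hu g h) (not_le.2 hg)

/-- the leading coefficients are multiplicative -/
theorem coeff_mul_ge {d e : ℤ} {u v : HahnSeries ℤ M} (hu : u ∈ (filtZ M).ge d)
    (hv : v ∈ (filtZ M).ge e) : (u * v).coeff (d + e) = u.coeff d * v.coeff e := by
  have h1 : ∀ w : HahnSeries ℤ M, w.support ⊆ w.support := fun w => subset_rfl
  rw [coeff_mul]
  by_cases hd : u.coeff d = 0
  · rw [hd, zero_mul]
    refine Finset.sum_eq_zero fun p hp => ?_
    obtain ⟨h2, h3, h4⟩ := Finset.mem_antidiagonal.1 hp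
    have h5 := hu _ h2
    have h6 := hv _ h3
    have h7 : p.1 = d := by omega
    rw [h7, hd, zero_mul]
  · by_cases he : v.coeff e = 0
    · rw [he, mul_zero]
      refine Finset.sum_eq_zero fun p hp => ?_
      obtain ⟨h2, h3, h4⟩ := Finset.mem_antidiagonal.1 hp
      have h5 := hu _ h2
      have h6 := hv _ h3
      have h7 : p.2 = e := by omega
      rw [h7, he, mul_zero]
    · rw [Finset.sum_eq_single (d, e)]
      · intro p hp hpne
        obtain ⟨h2, h3, h4⟩ := Finset.mem_antidiagonal.1 hp
        have h5 := hu _ h2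
        have h6 := hv _ h3
        exact absurd (Prod.ext (by simp only; omega) (by simp only; omega)) hpne
      · intro h
        exact absurd (Finset.mem_antidiagonal.2 ⟨hd, he, rfl⟩) h

theorem mem_filtZ_of_order (u : HahnSeries ℤ M) : u ∈ (filtZ M).ge u.order :=
  fun g hg => order_le_of_coeff_ne_zero hg

end Laurent

end Pool.Agent.W574.SM
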