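import Pool.Agent.W574.SM.Hahn

set_option autoImplicit false
set_option linter.unusedSectionVars false
set_option linter.unusedVariables false

/-! # Roots from Rees divisors -/

namespace Pool.Agent.W574.SM

open HahnSeries

section Gam

/-- the group of exponents -/
abbrev Gam (σ : Type) := ℤ ×ₗ (ℤ ×ₗ Lex (σ → ℤ))

variable {σ : Type} [Fintype σ] [LinearOrder σ]

/-- the exponent of a monomial -/
noncomputable def gam (z : σ) : (σ →₀ ℕ) →+ Gam σ where
  toFun μ := toLex ((μ z : ℤ), toLex ((μ.degree : ℤ), toLex fun k => (μ k : ℤ)))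
  map_zero' := by
    simp only [Finsupp.coe_zero, Pi.zero_apply, Nat.cast_zero, map_zero]
    rfl
  map_add' μ ν := by
    simp only [Finsupp.add_apply, Nat.cast_add, map_add]
    rfl

/-- the first component -/
def pr1 : Gam σ →+ ℤ where
  toFun g := (ofLex g).1
  map_zero' := rfl
  map_add' _ _ := rfl

/-- the second component -/
def pr2 : Gam σ →+ ℤ where
  toFun g := (ofLex (ofLex g).2).1
  map_zero' := rfl
  map_add' _ _ := rfl

/-- the third component -/
def pr3 (t : σ) : Gam σ →+ ℤ where
  toFun g := ofLex (ofLex (ofLex g).2).2 t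
  map_zero' := rfl
  map_add' _ _ := rfl

theorem Gam.ext {g h : Gam σ} (h1 : pr1 g = pr1 h) (h2 : pr2 g = pr2 h)
    (h3 : ∀ t, pr3 t g = pr3 t h) : g = h := by
  apply ofLex.injective
  refine Prod.ext h1 ?_
  apply ofLex.injective
  refine Prod.ext h2 ?_
  apply ofLex.injective
  exact funext h3

@[simp] theorem pr1_gam (z : σ) (μ : σ →₀ ℕ) : pr1 (gam z μ) = μ z := rfl
@[simp] theorem pr2_gam (z : σ) (μ : σ →₀ ℕ) : pr2 (gam z μ) = μ.degree := rfl
@[simp] theorem pr3_gam (z t : σ) (μ : σ →₀ ℕ) : pr3 t (gam z μ) = μ t := rfl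

theorem le_of_pr1 {g h : Gam σ} (h1 : pr1 g < pr1 h) : g ≤ h :=
  Prod.Lex.le_iff.2 (Or.inl h1)

theorem le_of_pr2 {g h : Gam σ} (h1 : pr1 g = pr1 h) (h2 : pr2 g < pr2 h) : g ≤ h :=
  Prod.Lex.le_iff.2 (Or.inr ⟨h1, Prod.Lex.le_iff.2 (Or.inl h2)⟩)

theorem pr1_monotone : Monotone (pr1 : Gam σ →+ ℤ) := by
  intro g h hgh
  rcases Prod.Lex.le_iff.1 hgh with h1 | ⟨h1, _⟩
  · exact h1.le
  · exact h1.le

theorem gam_injective (z : σ) : Function.Injective (gam z) := by
  intro μ ν h
  ext t
  have := congrArg (pr3 t) h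
  simpa using this

theorem gam_nonneg (z : σ) (μ : σ →₀ ℕ) : 0 ≤ gam z μ := by
  rcases Nat.eq_zero_or_pos (μ z) with h | h
  · rcases Nat.eq_zero_or_pos μ.degree with h' | h'
    · have : μ = 0 := by simpa [Finsupp.degree_eq_zero_iff] using h'
      rw [this, map_zero]
    · apply le_of_pr2
      · rw [map_zero, pr1_gam, h]; rfl
      · rw [map_zero, pr2_gam]; exact_mod_cast h'
  · apply le_of_pr1
    rw [map_zero, pr1_gam]; exact_mod_cast h

theorem gam_monotone (z : σ) : Monotone (gam z) := by
  intro μ ν h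
  have : ν = μ + (ν - μ) := (add_tsub_cancel_of_le h).symm
  rw [this, map_add]
  exact le_add_of_nonneg_right (gam_nonneg z _)

/-- the characters which define the derivations -/
noncomputable def chi (t : σ) : Gam σ →+ ℂ := (Int.castAddHom ℂ).comp (pr3 t)

theorem chi_gam (z t : σ) (μ : σ →₀ ℕ) : chi t (gam z μ) = μ t := by
  rw [chi, AddMonoidHom.comp_apply, pr3_gam]
  simp

end Gam

section Chart

open MvPowerSeries

variable {σ : Type} [Fintype σ] [LinearOrder σ]

/-- the embedding of the power series -/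
noncomputable abbrev em (z : σ) : MvPowerSeries σ ℂ →ₐ[ℂ] HahnSeries (Gam σ) ℂ :=
  emb (gam z) (gam_injective z) (gam_monotone z)

theorem em_ne_zero (z : σ) (u : MvPowerSeries σ ℂ) (hu : u ≠ 0) : em z u ≠ 0 :=
  emb_ne_zero (gam z) (gam_injective z) (gam_monotone z) u hu

theorem order_em_X (z t : σ) : (em z (X t)).order = gam z (Finsupp.single t 1) := by
  classical
  apply order_emb
  · rw [coeff_X, if_pos rfl]; exact one_ne_zero
  · intro ν hν
    rw [coeff_X] at hν
    split_ifs at hν with h
    · rw [h]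
    · exact absurd rfl hν

theorem order_em_unit (z : σ) (u : MvPowerSeries σ ℂ) (hu : constantCoeff u ≠ 0) :
    (em z u).order = 0 := by
  rw [← map_zero (gam z)]
  apply order_emb
  · rwa [coeff_zero_eq_constantCoeff_apply]
  · intro ν _
    rw [map_zero]
    exact gam_nonneg z ν

theorem unit_ne_zero (u : MvPowerSeries σ ℂ) (hu : constantCoeff u ≠ 0) : u ≠ 0 := by
  rintro rfl
  exact hu (map_zero _)

/-- `w` is a coordinate function of index `k` modulo `z` and the terms of degree two. -/
def IsCoord (z k : σ) (w : MvPowerSeries σ ℂ) : Prop :=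
  constantCoeff w = 0 ∧ coeff (Finsupp.single k 1) w ≠ 0 ∧
    ∀ l, l ≠ z → l ≠ k → coeff (Finsupp.single l 1) w = 0

theorem order_em_coord (z k : σ) (hk : k ≠ z) (w : MvPowerSeries σ ℂ) (hw : IsCoord z k w) :
    (em z w).order = gam z (Finsupp.single k 1) := by
  classical
  obtain ⟨h0, h1, h2⟩ := hw
  apply order_emb _ _ _ _ _ h1
  intro ν hν
  rcases Nat.eq_zero_or_pos (ν z) with h | h
  · rcases Nat.lt_or_ge 1 ν.degree with h' | h'
    · apply le_of_pr2
      · rw [pr1_gam, pr1_gam, h, Finsupp.single_eq_of_ne hk.symm]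
      · rw [pr2_gam, pr2_gam, Finsupp.degree_single]; exact_mod_cast h'
    · rcases Nat.eq_zero_or_pos ν.degree with h3 | h3
      · have : ν = 0 := by simpa [Finsupp.degree_eq_zero_iff] using h3
        rw [this] at hν
        exact absurd h0 hν
      · have h4 : ν.degree = 1 := by omega
        have h5 : ν ∈ Set.range fun a : σ => Finsupp.single a 1 := by
          rw [Finsupp.range_single_one]
          exact h4
        obtain ⟨l, hl'⟩ := h5
        simp only at hl'
        subst hl'
        have hl : l ≠ z := by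
          rintro rfl
          rw [Finsupp.single_eq_same] at h
          omega
        by_cases hlk : l = k
        · rw [hlk]
        · exact absurd (h2 l hl hlk) hν
  · apply le_of_pr1
    rw [pr1_gam, pr1_gam, Finsupp.single_eq_of_ne hk.symm]
    exact_mod_cast h

end Chart

end Pool.Agent.W574.SM
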