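import Pool.Agent.W574.SM.RatD

set_option autoImplicit false
set_option linter.unusedSectionVars false
set_option linter.unusedVariables false

/-! # Rational solutions of `R' + s (Q'/Q) R = β X ^ e` -/

namespace Pool.Agent.W574.SM

open Polynomial

/-- the order of `X ^ e` at `c` -/
noncomputable def ec (e : ℕ) (c : ℂ) : ℕ := if c = 0 then e else 0

theorem exists_ec (e : ℕ) (c : ℂ) : ∃ Y : ℂ[X], X ^ e = (X - C c) ^ (ec e c) * Y ∧
    Y.eval c ≠ 0 := by
  rw [ec]
  split_ifs with h
  · subst h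
    exact ⟨1, by simp, by simp⟩
  · exact ⟨X ^ e, by simp, by simpa using fun h' => absurd h' h⟩

theorem exists_factor (A : ℂ[X]) (hA : A ≠ 0) (c : ℂ) : ∃ A1 : ℂ[X],
    A = (X - C c) ^ (A.rootMultiplicity c) * A1 ∧ A1.eval c ≠ 0 := by
  obtain ⟨A1, h1, h2⟩ := exists_eq_pow_rootMultiplicity_mul_and_not_dvd A hA c
  exact ⟨A1, h1, fun h => h2 (dvd_iff_isRoot.2 h)⟩

theorem pow_deriv (c : ℂ) (i : ℕ) (A1 : ℂ[X]) :
    (X - C c) * derivative ((X - C c) ^ i * A1)
      = (X - C c) ^ i * (C (i : ℂ) * A1 + (X - C c) * derivative A1) := by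
  rw [derivative_mul, derivative_pow]
  simp only [derivative_sub, derivative_X, derivative_C, sub_zero, mul_one]
  rcases i with _ | i
  · simp
  · rw [Nat.add_sub_cancel, pow_succ]
    ring

/-- local analysis at a point -/
theorem sol_local (A B Q : ℂ[X]) (hA : A ≠ 0) (hB : B ≠ 0) (hQ : Q ≠ 0) (s β : ℂ) (hβ : β ≠ 0)
    (e : ℕ) (h : Q * (derivative A * B - A * derivative B) + C s * derivative Q * A * B
      = C β * X ^ e * Q * B ^ 2) (c : ℂ) :
    (A.rootMultiplicity c = B.rootMultiplicity c + 1 + ec e c ∧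
      (A.rootMultiplicity c : ℂ) - B.rootMultiplicity c + s * Q.rootMultiplicity c ≠ 0) ∨
    (A.rootMultiplicity c < B.rootMultiplicity c + 1 + ec e c ∧
      (A.rootMultiplicity c : ℂ) - B.rootMultiplicity c + s * Q.rootMultiplicity c = 0) := by
  obtain ⟨A1, hA1, hA1c⟩ := exists_factor A hA c
  obtain ⟨B1, hB1, hB1c⟩ := exists_factor B hB c
  obtain ⟨Q1, hQ1, hQ1c⟩ := exists_factor Q hQ c
  obtain ⟨Y, hY, hYc⟩ := exists_ec e c
  generalize hi : A.rootMultiplicity c = i at *
  generalize hj : B.rootMultiplicity c = j at *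
  generalize hk : Q.rootMultiplicity c = k at *
  generalize hm : ec e c = m at *
  set t : ℂ[X] := X - C c with ht
  have ht0 : t ≠ 0 := X_sub_C_ne_zero c
  have htc : t.eval c = 0 := by simp [ht]
  set lam : ℂ := (i : ℂ) - j + s * k with hlam
  set E : ℂ[X] := Q1 * (derivative A1 * B1 - A1 * derivative B1)
    + C s * derivative Q1 * A1 * B1 with hE
  have hdA : t * derivative A = t ^ i * (C (i : ℂ) * A1 + t * derivative A1) := by
    rw [← pow_deriv, ← hA1]
  have hdB : t * derivative B = t ^ j * (C (j : ℂ) * B1 + t * derivative B1) := by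
    rw [← pow_deriv, ← hB1]
  have hdQ : t * derivative Q = t ^ k * (C (k : ℂ) * Q1 + t * derivative Q1) := by
    rw [← pow_deriv, ← hQ1]
  have h1 : t * (Q * (derivative A * B - A * derivative B) + C s * derivative Q * A * B)
      = t ^ (i + j + k) * (C lam * (A1 * B1 * Q1) + t * E) := by
    have h2 : t * (Q * (derivative A * B - A * derivative B) + C s * derivative Q * A * B)
        = Q * ((t * derivative A) * B - A * (t * derivative B))
          + C s * (t * derivative Q) * A * B := by ring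
    rw [h2, hdA, hdB, hdQ, hlam, hE]
    conv_lhs => rw [hA1, hB1, hQ1]
    simp only [map_add, map_sub, map_mul]
    ring
  have h2 : t ^ (j + k) * (t ^ i * (C lam * (A1 * B1 * Q1) + t * E))
      = t ^ (j + k) * (t ^ (j + 1 + m) * (C β * Y * Q1 * B1 ^ 2)) := by
    have h3 : t * (Q * (derivative A * B - A * derivative B) + C s * derivative Q * A * B)
        = t * (C β * X ^ e * Q * B ^ 2) := by rw [h]
    rw [h1, hY] at h3
    conv_rhs at h3 => rw [hQ1, hB1]
    rw [show t ^ (j + k) * (t ^ i * (C lam * (A1 * B1 * Q1) + t * E))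
      = t ^ (i + j + k) * (C lam * (A1 * B1 * Q1) + t * E) by ring, h3]
    ring
  have h3 := mul_left_cancel₀ (pow_ne_zero _ ht0) h2
  have hU : (C β * Y * Q1 * B1 ^ 2).eval c ≠ 0 := by
    simp only [eval_mul, eval_C, eval_pow]
    exact mul_ne_zero (mul_ne_zero (mul_ne_zero hβ hYc) hQ1c) (pow_ne_zero _ hB1c)
  rcases lt_trichotomy i (j + 1 + m) with hlt | heq | hgt
  · right
    refine ⟨hlt, ?_⟩
    obtain ⟨d, hd⟩ := Nat.exists_eq_add_of_lt hlt
    have h4 : C lam * (A1 * B1 * Q1) + t * E = t ^ (d + 1) * (C β * Y * Q1 * B1 ^ 2) := by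
      apply mul_left_cancel₀ (pow_ne_zero i ht0)
      rw [h3, hd]
      ring
    have h5 := congrArg (eval c) h4
    simp only [eval_add, eval_mul, eval_C, eval_pow, htc, zero_mul, add_zero, pow_succ,
      mul_zero] at h5
    rcases mul_eq_zero.1 h5 with h6 | h6
    · exact h6
    · exact absurd h6 (mul_ne_zero (mul_ne_zero hA1c hB1c) hQ1c)
  · left
    refine ⟨heq, ?_⟩
    intro h0
    rw [← heq] at h3
    have h4 : C lam * (A1 * B1 * Q1) + t * E = C β * Y * Q1 * B1 ^ 2 :=
      mul_left_cancel₀ (pow_ne_zero i ht0) h3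
    have h5 := congrArg (eval c) h4
    rw [← h5, h0] at hU
    apply hU
    simp only [eval_add, eval_mul, map_zero, eval_zero, zero_mul, htc, add_zero]
  · exfalso
    obtain ⟨d, hd⟩ := Nat.exists_eq_add_of_lt hgt
    have h4 : t ^ (d + 1) * (C lam * (A1 * B1 * Q1) + t * E) = C β * Y * Q1 * B1 ^ 2 := by
      apply mul_left_cancel₀ (pow_ne_zero (j + 1 + m) ht0)
      rw [← h3, hd]
      ring
    rw [← h4] at hU
    apply hU
    simp only [eval_mul, eval_pow, htc, pow_succ, mul_zero, zero_mul]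

/-- rational solutions are polynomials -/
theorem sol_poly (Q : ℂ[X]) (hQ : Q ≠ 0) (n a : ℕ) (ha : 0 < a) (β : ℂ) (hβ : β ≠ 0) (e : ℕ)
    (R : RatFunc ℂ) (h : dR R + algebraMap ℂ (RatFunc ℂ) (-(n : ℂ) / a) *
      (dR (algebraMap ℂ[X] (RatFunc ℂ) Q) * (algebraMap ℂ[X] (RatFunc ℂ) Q)⁻¹) * R
        = algebraMap ℂ[X] (RatFunc ℂ) (C β * X ^ e)) :
    ∃ A : ℂ[X], A ≠ 0 ∧ Q * derivative A + C (-(n : ℂ) / a) * derivative Q * A
      = C β * X ^ e * Q := by
  set s : ℂ := -(n : ℂ) / a with hs
  set A := R.num with hA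
  set B := R.denom with hB
  have hB0 : B ≠ 0 := RatFunc.denom_ne_zero R
  have hR : R = algebraMap ℂ[X] (RatFunc ℂ) A / algebraMap ℂ[X] (RatFunc ℂ) B :=
    (RatFunc.num_div_denom R).symm
  have hX0 : (algebraMap ℂ[X] (RatFunc ℂ) (C β * X ^ e)) ≠ 0 :=
    am_ne (mul_ne_zero (C_ne_zero.2 hβ) (pow_ne_zero _ X_ne_zero))
  have hR0 : R ≠ 0 := by
    rintro h0
    rw [h0, map_zero, mul_zero, add_zero] at h
    exact hX0 h.symm
  have hA0 : A ≠ 0 := RatFunc.num_ne_zero hR0
  have hC : algebraMap ℂ (RatFunc ℂ) s = algebraMap ℂ[X] (RatFunc ℂ) (C s) := rfl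
  have key : Q * (derivative A * B - A * derivative B) + C s * derivative Q * A * B
      = C β * X ^ e * Q * B ^ 2 := by
    apply RatFunc.algebraMap_injective ℂ
    rw [hR, dR_apply, dR_div _ _ hB0, dR_algebraMap, hC] at h
    have hq' := am_ne hQ
    have hb' := am_ne hB0
    simp only [map_add, map_sub, map_mul, map_pow] at h ⊢
    field_simp at h
    linear_combination h
  have hcop : IsCoprime A B := RatFunc.isCoprime_num_denom R
  have hBu : B = 1 := by
    have hm : B.Monic := RatFunc.monic_denom R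
    by_contra hne
    have hd : B.degree ≠ 0 := fun h0 => hne ((Monic.natDegree_eq_zero hm).1
      (natDegree_eq_of_degree_eq_some h0))
    obtain ⟨c, hc⟩ := IsAlgClosed.exists_root B hd
    have hAc : A.rootMultiplicity c = 0 := by
      apply rootMultiplicity_eq_zero
      intro hAc
      obtain ⟨u, v, huv⟩ := hcop
      have := congrArg (eval c) huv
      rw [eval_add, eval_mul, eval_mul, hAc.eq_zero, hc.eq_zero] at this
      simp at this
    have hBc : 0 < B.rootMultiplicity c := (rootMultiplicity_pos hB0).2 hc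
    rcases sol_local A B Q hA0 hB0 hQ s β hβ e key c with h1 | h1
    · omega
    · have h2 := h1.2
      rw [hAc, Nat.cast_zero, zero_sub, hs] at h2
      have hac : (a : ℂ) ≠ 0 := Nat.cast_ne_zero.2 ha.ne'
      have h3 : ((B.rootMultiplicity c * a + n * Q.rootMultiplicity c : ℕ) : ℂ) = 0 := by
        push_cast
        field_simp at h2
        linear_combination -h2
      have h4 := Nat.cast_eq_zero.1 h3
      have h5 : 0 < B.rootMultiplicity c * a := Nat.mul_pos hBc ha
      omega
  refine ⟨A, hA0, ?_⟩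
  rw [hBu] at key
  simpa using key

/-- analysis at infinity -/
theorem sol_infty (A Q : ℂ[X]) (hA : A ≠ 0) (hQ : Q ≠ 0) (s β : ℂ) (hβ : β ≠ 0)
    (e : ℕ) (h : Q * derivative A + C s * derivative Q * A = C β * X ^ e * Q) :
    (A.natDegree = e + 1 ∧ (A.natDegree : ℂ) + s * Q.natDegree ≠ 0) ∨
    (e + 1 < A.natDegree ∧ (A.natDegree : ℂ) + s * Q.natDegree = 0) := by
  set D := A.natDegree with hD
  set q := Q.natDegree with hq
  have hXd : ∀ P : ℂ[X], (X * derivative P).natDegree ≤ P.natDegree ∧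
      (X * derivative P).coeff P.natDegree = P.natDegree * P.leadingCoeff := by
    intro P
    have h1 : ∀ m, (X * derivative P).coeff m = m * P.coeff m := by
      intro m
      rcases m with _ | m
      · simp
      · rw [coeff_X_mul, coeff_derivative]
        push_cast
        ring
    refine ⟨?_, h1 _⟩
    rw [natDegree_le_iff_coeff_eq_zero]
    intro m hm
    rw [h1, coeff_eq_zero_of_natDegree_lt hm, mul_zero]
  have h1 : Q * (X * derivative A) + C s * (X * derivative Q) * A = C β * X ^ (e + 1) * Q := by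
    rw [pow_succ]
    linear_combination X * h
  have hdeg : (Q * (X * derivative A) + C s * (X * derivative Q) * A).natDegree ≤ q + D := by
    refine (natDegree_add_le _ _).trans (max_le ?_ ?_)
    · exact natDegree_mul_le_of_le le_rfl (hXd A).1
    · refine natDegree_mul_le_of_le ?_ le_rfl
      refine (natDegree_C_mul_le _ _).trans (hXd Q).1
  have hcoef : (Q * (X * derivative A) + C s * (X * derivative Q) * A).coeff (q + D)
      = (D + s * q) * (Q.leadingCoeff * A.leadingCoeff) := by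
    rw [coeff_add, coeff_mul_add_eq_of_natDegree_le le_rfl (hXd A).1, (hXd A).2,
      coeff_mul_add_eq_of_natDegree_le ((natDegree_C_mul_le _ _).trans (hXd Q).1) le_rfl, coeff_C_mul,
      (hXd Q).2]
    simp only [leadingCoeff, ← hD, ← hq]
    ring
  have hrhs : (C β * X ^ (e + 1) * Q).natDegree = e + 1 + q := by
    rw [mul_assoc, natDegree_C_mul hβ, natDegree_mul (pow_ne_zero _ X_ne_zero) hQ, natDegree_X_pow]
  have hlc : Q.leadingCoeff * A.leadingCoeff ≠ 0 :=
    mul_ne_zero (leadingCoeff_ne_zero.2 hQ) (leadingCoeff_ne_zero.2 hA)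
  rw [h1] at hdeg hcoef
  rw [hrhs] at hdeg
  have hDe : e + 1 ≤ D := by omega
  rcases hDe.eq_or_lt with h2 | h2
  · left
    refine ⟨h2.symm, ?_⟩
    intro h3
    rw [h3, zero_mul] at hcoef
    have h4 : (C β * X ^ (e + 1) * Q).coeff (q + D) ≠ 0 := by
      rw [← h2, show q + (e + 1) = e + 1 + q by ring, ← hrhs]
      exact leadingCoeff_ne_zero.2 (mul_ne_zero (mul_ne_zero (C_ne_zero.2 hβ)
        (pow_ne_zero _ X_ne_zero)) hQ)
    exact h4 hcoef
  · right
    refine ⟨h2, ?_⟩
    rw [coeff_eq_zero_of_natDegree_lt (by rw [hrhs]; omega)] at hcoef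
    rcases mul_eq_zero.1 hcoef.symm with h3 | h3
    · exact h3
    · exact absurd h3 hlc

end Pool.Agent.W574.SM
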