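import Pool.Agent.W574.SM.Main

set_option autoImplicit false
set_option linter.unusedSectionVars false
set_option linter.unusedVariables false

/-! # The engine with a twisted functional -/

namespace Pool.Agent.W574.SM

open MvPolynomial

section PiolaTw

variable {σ L : Type} [Fintype σ] [DecidableEq σ] [Field L] [Algebra ℂ L]

/-- The determinant of the matrix of derivatives is a sum of derivatives. -/
theorem det_eq_sum [CharZero L] (θ : σ → Derivation ℂ L L)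
    (hcomm : ∀ s t u, θ s (θ t u) = θ t (θ s u)) (i0 : σ) (η : σ → L) :
    Matrix.det (Matrix.of fun t k => θ t (η k)) = ∑ π : Equiv.Perm σ, θ (π i0)
      ((Equiv.Perm.sign π : ℤ) • (η i0 * ∏ k ∈ Finset.univ.erase i0, θ (π k) (η k))) := by
  classical
  set a : Equiv.Perm σ → L := fun π =>
    (Equiv.Perm.sign π : ℤ) • (η i0 * ∏ k ∈ Finset.univ.erase i0, θ (π k) (η k)) with ha
  -- the derivative of the summand
  have h1 : ∀ π : Equiv.Perm σ, θ (π i0) (a π) =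
      (Equiv.Perm.sign π : ℤ) • (∏ k, θ (π k) (η k)) +
      η i0 * ∑ k ∈ Finset.univ.erase i0, (Equiv.Perm.sign π : ℤ) • (θ (π i0) (θ (π k) (η k)) *
        ∏ l ∈ (Finset.univ.erase i0).erase k, θ (π l) (η l)) := by
    intro π
    rw [ha]
    simp only
    rw [map_zsmul, Derivation.leibniz, deriv_prod, smul_eq_mul, smul_eq_mul,
      ← Finset.mul_prod_erase Finset.univ (fun k => θ (π k) (η k)) (Finset.mem_univ i0),
      ← Finset.smul_sum, smul_add, add_comm]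
    congr 1
    · congr 1
      ring
    · rw [mul_smul_comm]
  have hZ : ∀ k ∈ Finset.univ.erase i0, ∑ π : Equiv.Perm σ,
      (Equiv.Perm.sign π : ℤ) • (θ (π i0) (θ (π k) (η k)) *
        ∏ l ∈ (Finset.univ.erase i0).erase k, θ (π l) (η l)) = 0 := by
    intro k hk
    have hki : k ≠ i0 := Finset.ne_of_mem_erase hk
    set F : Equiv.Perm σ → L := fun π => (Equiv.Perm.sign π : ℤ) • (θ (π i0) (θ (π k) (η k)) *
        ∏ l ∈ (Finset.univ.erase i0).erase k, θ (π l) (η l)) with hF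
    have h2 : ∑ π, F π = ∑ π, F (π * Equiv.swap i0 k) :=
      (Equiv.sum_comp (Equiv.mulRight (Equiv.swap i0 k)) F).symm
    have h3 : ∀ π, F (π * Equiv.swap i0 k) = - F π := by
      intro π
      rw [hF]
      simp only
      rw [Equiv.Perm.sign_mul, Equiv.Perm.sign_swap (fun h => hki h.symm)]
      simp only [Equiv.Perm.mul_apply, Equiv.swap_apply_left, Equiv.swap_apply_right]
      rw [hcomm (π k) (π i0)]
      have h4 : ∏ l ∈ (Finset.univ.erase i0).erase k, θ (π (Equiv.swap i0 k l)) (η l)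
          = ∏ l ∈ (Finset.univ.erase i0).erase k, θ (π l) (η l) := by
        refine Finset.prod_congr rfl fun l hl => ?_
        rw [Equiv.swap_apply_of_ne_of_ne
          (Finset.ne_of_mem_erase (Finset.mem_of_mem_erase hl)) (Finset.ne_of_mem_erase hl)]
      rw [h4]
      simp
    have h5 : ∑ π, F π = - ∑ π, F π := by
      conv_lhs => rw [h2]
      rw [← Finset.sum_neg_distrib]
      exact Finset.sum_congr rfl fun π _ => h3 π
    exact self_eq_neg.1 h5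
  rw [Finset.sum_congr rfl fun π _ => h1 π, Finset.sum_add_distrib, ← Finset.mul_sum,
    Finset.sum_comm, Finset.sum_eq_zero hZ, mul_zero, add_zero, Matrix.det_apply]
  refine Finset.sum_congr rfl fun π _ => ?_
  simp only [Matrix.of_apply]
  rfl

theorem T_det_tw [CharZero L] (θ : σ → Derivation ℂ L L)
    (hcomm : ∀ s t u, θ s (θ t u) = θ t (θ s u)) (T : L →ₗ[ℂ] ℂ) (Ω : σ → L)
    (hT : ∀ t u, T (θ t u + Ω t * u) = 0) (i0 : σ) (η : σ → L) :
    T (Matrix.det (Matrix.of fun t k => θ t (η k)) + Matrix.det (Matrix.updateCol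
      (Matrix.of fun t k => θ t (η k)) i0 (fun t => Ω t * η i0))) = 0 := by
  classical
  rw [det_eq_sum θ hcomm i0 η, Matrix.det_apply, ← Finset.sum_add_distrib, map_sum]
  refine Finset.sum_eq_zero fun π _ => ?_
  have h1 : (Equiv.Perm.sign π • ∏ k, Matrix.updateCol (Matrix.of fun t k => θ t (η k)) i0
      (fun t => Ω t * η i0) (π k) k) = Ω (π i0) * ((Equiv.Perm.sign π : ℤ) •
        (η i0 * ∏ k ∈ Finset.univ.erase i0, θ (π k) (η k))) := by
    rw [← Finset.mul_prod_erase Finset.univ _ (Finset.mem_univ i0), Matrix.updateCol_self,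
      mul_smul_comm]
    have h2 : ∏ k ∈ Finset.univ.erase i0, Matrix.updateCol (Matrix.of fun t k => θ t (η k)) i0
        (fun t => Ω t * η i0) (π k) k = ∏ k ∈ Finset.univ.erase i0, θ (π k) (η k) := by
      refine Finset.prod_congr rfl fun k hk => ?_
      rw [Matrix.updateCol_ne (Finset.ne_of_mem_erase hk), Matrix.of_apply]
    rw [h2, mul_assoc]
    rfl
  rw [h1]
  exact hT _ _

end PiolaTw

section Coordinates

variable {σ L : Type} [Fintype σ] [DecidableEq σ] [Field L] [Algebra ℂ L]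
  (φ : MvPolynomial σ ℂ →ₐ[ℂ] L) (θ : σ → Derivation ℂ L L)

/-- the logarithmic form in the coordinates -/
noncomputable def om (Ω : σ → L) (i : σ) : L := ∑ t, (Jac φ θ)⁻¹ i t * Ω t

theorem T_DD_tw [CharZero L] (hJ : (Jac φ θ).det ≠ 0)
    (hcomm : ∀ s t u, θ s (θ t u) = θ t (θ s u)) (T : L →ₗ[ℂ] ℂ) (Ω : σ → L)
    (hT : ∀ t u, T (θ t u + Ω t * u) = 0) (i : σ) (u : L) :
    T ((Jac φ θ).det * (DD φ θ i u + om φ θ Ω i * u)) = 0 := by
  have h0 : ∀ c : σ → L, (Jac φ θ).det * (∑ t, (Jac φ θ)⁻¹ i t * c t)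
      = ((Jac φ θ).updateCol i c).det := by
    intro c
    rw [← Matrix.cramer_apply, Matrix.cramer_eq_adjugate_mulVec, Matrix.mulVec, Finset.mul_sum]
    refine Finset.sum_congr rfl fun t _ => ?_
    rw [← mul_assoc]
    congr 1
    rw [Matrix.inv_def, Matrix.smul_apply, Ring.inverse_eq_inv', smul_eq_mul, ← mul_assoc,
      mul_inv_cancel₀ hJ, one_mul]
  have h2 : (Matrix.of fun t k => θ t (Function.update (fun j => φ (X j)) i u k))
      = (Jac φ θ).updateCol i (fun t => θ t u) := by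
    ext t k
    rw [Matrix.updateCol_apply, Matrix.of_apply, Function.update_apply]
    split_ifs <;> rfl
  have h3 : (Jac φ θ).det * (DD φ θ i u + om φ θ Ω i * u)
      = Matrix.det (Matrix.of fun t k => θ t (Function.update (fun j => φ (X j)) i u k)) +
        Matrix.det (Matrix.updateCol (Matrix.of fun t k =>
          θ t (Function.update (fun j => φ (X j)) i u k)) i
          (fun t => Ω t * (Function.update (fun j => φ (X j)) i u) i)) := by
    rw [h2, Matrix.updateCol_idem, Function.update_self, ← h0, ← h0, DD_apply, om, Finset.sum_mul,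
      mul_add]
    congr 2
    refine Finset.sum_congr rfl fun t _ => ?_
    ring
  rw [h3]
  exact T_det_tw θ hcomm T Ω hT i _

theorem T_parts_tw [CharZero L] (hJ : (Jac φ θ).det ≠ 0)
    (hcomm : ∀ s t u, θ s (θ t u) = θ t (θ s u)) (T : L →ₗ[ℂ] ℂ) (Ω : σ → L)
    (hT : ∀ t u, T (θ t u + Ω t * u) = 0)
    (i : σ) (u v : L) : T ((Jac φ θ).det * (v * (DD φ θ i u + om φ θ Ω i * u)))
      = T ((Jac φ θ).det * ((- DD φ θ i v) * u)) := by
  have h := T_DD_tw φ θ hJ hcomm T Ω hT i (v * u)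
  rw [Derivation.leibniz, smul_eq_mul, smul_eq_mul] at h
  have h2 : (Jac φ θ).det * (v * DD φ θ i u + u * DD φ θ i v + om φ θ Ω i * (v * u))
      = (Jac φ θ).det * (v * (DD φ θ i u + om φ θ Ω i * u))
        - (Jac φ θ).det * ((- DD φ θ i v) * u) := by ring
  rw [h2, map_sub, sub_eq_zero] at h
  exact h

end Coordinates

section Lift

variable {σ ι κ L : Type} [Fintype σ] [DecidableEq σ] [Fintype ι] [DecidableEq ι] [Fintype κ]
  [DecidableEq κ] [Field L] [Algebra ℂ L]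
  (φ : MvPolynomial σ ℂ →ₐ[ℂ] L) (θ : σ → Derivation ℂ L L) (f : ι → MvPolynomial σ ℂ)
  (lam : κ → ι → ℂ) (e : κ → ℂ) (G : κ → L)

/-- the logarithmic derivatives of `∏ G_m ^ e_m` -/
noncomputable def Om (t : σ) : L := ∑ m, algebraMap ℂ L (e m) * (θ t (G m) * (G m)⁻¹)

theorem pairL_dh_tw (hJ : (Jac φ θ).det ≠ 0)
    (hGf : ∀ m, G m = ∑ j, algebraMap ℂ L (lam m j) * φ (f j)) (hG : ∀ m, G m ≠ 0)
    (i : σ) (q : MvPolynomial ι (MvPolynomial σ ℂ)) :
    pairL φ lam e G 1 (dh f i q) = DD φ θ i (pairL φ lam e G 1 q)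
      + om φ θ (Om θ e G) i * pairL φ lam e G 1 q := by
  have h1 : SS φ lam (∑ j, C (pderiv i (f j)) * X j) = ∑ m, C (DD φ θ i (G m)) * X m := by
    rw [map_sum]
    simp only [map_mul, SS_C, SS_X, ell, ← DD_phi φ θ hJ, Finset.mul_sum, hGf]
    rw [Finset.sum_comm]
    refine Finset.sum_congr rfl fun m _ => ?_
    rw [map_sum, map_sum, Finset.sum_mul]
    refine Finset.sum_congr rfl fun j _ => ?_
    rw [Derivation.leibniz, Derivation.map_algebraMap, smul_zero, add_zero, smul_eq_mul, C_mul]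
    ring
  have h2 : om φ θ (Om θ e G) i = ∑ m, algebraMap ℂ L (e m) * (DD φ θ i (G m) * (G m)⁻¹) := by
    simp only [om, Om, DD_apply]
    simp only [Finset.mul_sum, Finset.sum_mul]
    rw [Finset.sum_comm]
    refine Finset.sum_congr rfl fun m _ => Finset.sum_congr rfl fun t _ => ?_
    ring
  rw [dh, pairL, map_add, map_mul, h1, SS_dcoef φ lam (DD φ θ i) (pderiv i)
    (fun p => DD_phi φ θ hJ i p), ← Lam_deriv e G hG (DD φ θ i), pairL, h2, one_mul, one_mul]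

theorem lift_weyl_tw [CharZero L] (hJ : (Jac φ θ).det ≠ 0)
    (hcomm : ∀ s t u, θ s (θ t u) = θ t (θ s u)) (T : L →ₗ[ℂ] ℂ)
    (hT : ∀ t u, T (θ t u + Om θ e G t * u) = 0)
    (hGf : ∀ m, G m = ∑ j, algebraMap ℂ L (lam m j) * φ (f j))
    (hG : ∀ m, G m ≠ 0)
    (S : Subalgebra ℂ L) (hS1 : ∀ p, φ p ∈ S) (hS2 : ∀ i, ∀ u ∈ S, DD φ θ i u ∈ S)
    (Q : Module.End ℂ (MvPolynomial σ ℂ)) (hQ : Q ∈ weyl σ) :
    ∃ Qh : MvPolynomial ι (MvPolynomial σ ℂ) → MvPolynomial ι (MvPolynomial σ ℂ),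
      (∀ s q, Q (ip (E f s) q) = ip (E f s) (Qh q)) ∧
      ∀ ρ ∈ S, ∃ ρ' ∈ S, ∀ q, T ((Jac φ θ).det * (ρ * pairL φ lam e G 1 (Qh q)))
        = T ((Jac φ θ).det * (ρ' * pairL φ lam e G 1 q)) := by
  induction hQ using Algebra.adjoin_induction with
  | mem Q hQ =>
    rcases hQ with ⟨i, rfl⟩ | ⟨i, rfl⟩
    · refine ⟨fun q => C (X i) * q, fun s q => ?_, fun ρ hρ => ⟨ρ * φ (X i), S.mul_mem hρ (hS1 _),
        fun q => ?_⟩⟩
      · rw [ip_C_mul]; rfl
      · rw [pairL_C_mul, mul_assoc ρ]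
    · refine ⟨fun q => dh f i q, fun s q => ip_dh f i s q, fun ρ hρ => ⟨- DD φ θ i ρ,
        S.neg_mem (hS2 i ρ hρ), fun q => ?_⟩⟩
      rw [pairL_dh_tw φ θ f lam e G hJ hGf hG]
      exact T_parts_tw φ θ hJ hcomm T (Om θ e G) hT i _ ρ
  | algebraMap r =>
    refine ⟨fun q => C (C r) * q, fun s q => ?_, fun ρ hρ => ⟨ρ * φ (C r), S.mul_mem hρ (hS1 _),
        fun q => ?_⟩⟩
    · rw [ip_C_mul, C_mul']; rfl
    · rw [pairL_C_mul, mul_assoc ρ]
  | add Q1 Q2 _ _ h1 h2 =>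
    obtain ⟨A1, hA1, hB1⟩ := h1
    obtain ⟨A2, hA2, hB2⟩ := h2
    refine ⟨fun q => A1 q + A2 q, fun s q => ?_, fun ρ hρ => ?_⟩
    · rw [LinearMap.add_apply, hA1, hA2, map_add]
    · obtain ⟨ρ1, hρ1, hC1⟩ := hB1 ρ hρ
      obtain ⟨ρ2, hρ2, hC2⟩ := hB2 ρ hρ
      refine ⟨ρ1 + ρ2, S.add_mem hρ1 hρ2, fun q => ?_⟩
      rw [pairL_add, mul_add, mul_add, map_add, hC1, hC2, add_mul, mul_add, map_add]
  | mul Q1 Q2 _ _ h1 h2 =>
    obtain ⟨A1, hA1, hB1⟩ := h1
    obtain ⟨A2, hA2, hB2⟩ := h2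
    refine ⟨fun q => A1 (A2 q), fun s q => ?_, fun ρ hρ => ?_⟩
    · rw [Module.End.mul_apply, hA2, hA1]
    · obtain ⟨ρ1, hρ1, hC1⟩ := hB1 ρ hρ
      obtain ⟨ρ2, hρ2, hC2⟩ := hB2 ρ1 hρ1
      exact ⟨ρ2, hρ2, fun q => by rw [hC1, hC2]⟩

/-- **The twisted engine.** -/
theorem engine_tw [CharZero L] (F : Filt L) (a ν : ℤ) (ha : 0 < a) (hJ : (Jac φ θ).det ≠ 0)
    (hJν : (Jac φ θ).det ∈ F.ge ν)
    (hcomm : ∀ s t u, θ s (θ t u) = θ t (θ s u)) (T : L →ₗ[ℂ] ℂ)
    (hT : ∀ t u, T (θ t u + Om θ e G t * u) = 0)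
    (hT1 : ∀ u ∈ F.ge (ν + 1), T u = 0)
    (hf : ∀ j, φ (f j) ∈ F.ge a)
    (hGf : ∀ m, G m = ∑ j, algebraMap ℂ L (lam m j) * φ (f j))
    (hG : ∀ m, G m ≠ 0) (hGa : ∀ m, (G m)⁻¹ ∈ F.ge (-a))
    (S : Subalgebra ℂ L) (hS1 : ∀ p, φ p ∈ S) (hS2 : ∀ i, ∀ u ∈ S, DD φ θ i u ∈ S)
    (hS3 : ∀ u ∈ S, u ∈ F.ge 0) (b : Polynomial ℂ) (hb : IsFunctionalEq f b) (ρ : L) (hρ : ρ ∈ S) :
    b.eval (∑ m, e m) * T ((Jac φ θ).det * ρ) = 0 := by
  classical
  obtain ⟨Sc, P, hc, heq⟩ := hb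
  obtain ⟨bh, hbh1, hbh2⟩ := exists_bhat φ f lam e G 1 hGf hG b
  choose Th hTh1 hTh2 using fun β => exists_thetaPow φ f F a hf β
  have hlift := fun (Q : weyl σ) => lift_weyl_tw φ θ f lam e G hJ hcomm T hT hGf hG S hS1 hS2
    Q.1 Q.2
  choose Qh hQ1 hQ2 using hlift
  have key : bh = ∑ c ∈ Sc, ∑ β ∈ (P c).support, Qh (P c β) (Th β (qc f c)) := by
    rw [← sub_eq_zero]
    apply eq_zero_of_ip_E f
    intro s
    rw [map_sub, hbh1, heq s, sub_eq_zero, map_sum]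
    refine Finset.sum_congr rfl fun c _ => ?_
    rw [map_sum, applyAt, Finsupp.sum]
    refine Finset.sum_congr rfl fun β _ => ?_
    rw [← hQ1, hTh1, ip_qc, map_smul]
  have h1 : algebraMap ℂ L (b.eval (∑ m, e m)) * 1
      = ∑ c ∈ Sc, ∑ β ∈ (P c).support,
        pairL φ lam e G 1 (Qh (P c β) (Th β (qc f c))) := by
    rw [← hbh2, key, pairL_sum]
    refine Finset.sum_congr rfl fun c _ => ?_
    rw [pairL_sum]
  have h2 : T ((Jac φ θ).det * (ρ * (algebraMap ℂ L (b.eval (∑ m, e m)) * 1))) = 0 := by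
    rw [h1, Finset.mul_sum, Finset.mul_sum, map_sum]
    refine Finset.sum_eq_zero fun c hcS => ?_
    rw [Finset.mul_sum, Finset.mul_sum, map_sum]
    refine Finset.sum_eq_zero fun β _ => ?_
    obtain ⟨ρ', hρ', h3⟩ := hQ2 (P c β) ρ hρ
    rw [h3]
    apply hT1
    have h4 : WM F a φ a (Th β (qc f c)) := hTh2 β a _ (qc_WM φ f F a hf c (hc c hcS))
    have h5 : pairL φ lam e G 1 (Th β (qc f c)) ∈ F.ge a := by
      rw [pairL, one_mul]
      exact Lam_mem F a e G hGa (SS_WK F a φ lam h4)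
    have h6 := F.mul hJν (F.mul (hS3 ρ' hρ') h5)
    exact F.mono (by omega) h6
  have h3 : (Jac φ θ).det * (ρ * (algebraMap ℂ L (b.eval (∑ m, e m)) * 1))
      = (b.eval (∑ m, e m)) • ((Jac φ θ).det * ρ) := by
    rw [Algebra.smul_def]; ring
  rw [h3, map_smul, smul_eq_mul] at h2
  exact h2

end Lift

end Pool.Agent.W574.SM
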